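import Pool.Agent.Lib.MP_7315a9_cut.PairMeet

/-!
# One block

Row 7315-C6. Sketch:
M' = the pairs of M none of whose members is a fast element of U (fast: a ∈ U, y a ∉ ball (3τ) (x a)): each fast a
spoils at most one pair (hM1, hM2), so |M'| ≥ |M| - (number of fast). Independent product: with C_a = {γ | γ T = y a} for a ∈ U and
univ otherwise, the event is contained in {∀ a, Γ a ∈ C_a} ∩ {∀ p ∈ M', ¬ Meet}. By induction on M' (or by one application of
independence over the groups): probability ≤ ∏_a P(C_a) (1-c1)^{|M'|}. For one pair (a,b): pair_meet (with y b := x b if b ∉ U)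
gives γ ∈ C_a, γ' ∈ C_b which meet, P(Γ_a = γ, Γ_b = γ') ≥ c1 (wt_ge, c1 = (2Δ)^{-8τ}), so P(C_a × C_b, no meeting) ≤ P(C_a) P(C_b) - c1 ≤
(1 - c1) P(C_a) P(C_b). Everything is discrete: I Fintype, the measure of a singleton of Measure.pi is the product. Useful
general lemma: for a pi measure over a Fintype, events A_p depending on disjoint finite sets of coordinates are
independent (iIndepFun_pi and iIndepFun.finset..., or PiIndep with Measure.infinitePi_eq_pi).
-/

open MeasureTheory ProbabilityTheory Set Relation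
open scoped Classical

namespace Cut7315

open MP7315a9

noncomputable section

variable {V : Type*} {G : SimpleGraph V} [G.LocallyFinite] {K T : ℕ}
variable [MeasurableSpace V] [DiscreteMeasurableSpace V] [Countable V]

section general

variable {X I : Type*} [MeasurableSpace X] [DiscreteMeasurableSpace X] [Countable X] [Fintype I]

/-- events on disjoint sets of coordinates are independent -/
private theorem BlockBound_indep (μ : I → Measure X) [∀ a, IsProbabilityMeasure (μ a)]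
    (S S' : Finset I) (h : Disjoint S S') (E F : Set (I → X))
    (hE : ∀ Γ Γ' : I → X, (∀ a ∈ S, Γ a = Γ' a) → Γ ∈ E → Γ' ∈ E)
    (hF : ∀ Γ Γ' : I → X, (∀ a ∈ S', Γ a = Γ' a) → Γ ∈ F → Γ' ∈ F) :
    Measure.pi μ (E ∩ F) = Measure.pi μ E * Measure.pi μ F := by
  have h0 : iIndepFun (fun (i : I) (ω : I → X) => ω i) (Measure.pi μ) :=
    iIndepFun_pi (X := fun _ ω => ω) (fun i => aemeasurable_id)
  have h1 := h0.indepFun_finset S S' h (fun i => measurable_pi_apply i)
  have key : ∀ (R : Finset I) (E : Set (I → X))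
      (_ : ∀ Γ Γ' : I → X, (∀ a ∈ R, Γ a = Γ' a) → Γ ∈ E → Γ' ∈ E),
      (fun (a : I → X) (i : R) => a i) ⁻¹' ((fun (a : I → X) (i : R) => a i) '' E) = E := by
    intro R E hE
    ext Γ
    constructor
    · rintro ⟨Γ', h1, h2⟩
      exact hE Γ' Γ (fun a ha => congrFun h2 ⟨a, ha⟩) h1
    · exact fun hx => ⟨Γ, hx, rfl⟩
  have h2 := h1.measure_inter_preimage_eq_mul ((fun (a : I → X) (i : S) => a i) '' E)
    ((fun (a : I → X) (i : S') => a i) '' F) MeasurableSet.of_discrete MeasurableSet.of_discrete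
  rwa [key S E hE, key S' F hF] at h2

/-- the law of two coordinates on a box -/
private theorem BlockBound_two (μ : I → Measure X) [∀ a, IsProbabilityMeasure (μ a)] {a b : I}
    (hab : a ≠ b) (A B : Set X) :
    Measure.pi μ {Γ | Γ a ∈ A ∧ Γ b ∈ B} = μ a A * μ b B := by
  have h1 : {Γ : I → X | Γ a ∈ A ∧ Γ b ∈ B} =
      Set.univ.pi (fun i => if i = a then A else if i = b then B else univ) := by
    ext Γ
    simp only [mem_ofPred_eq, Set.mem_pi, mem_univ, forall_true_left]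
    constructor
    · rintro ⟨h1, h2⟩ i
      by_cases hi : i = a
      · subst hi; simpa using h1
      · by_cases hj : i = b
        · subst hj; simpa [hi] using h2
        · simp [hi, hj]
    · intro h
      have ha := h a
      have hb := h b
      simp only [if_true] at ha
      rw [if_neg hab.symm, if_pos rfl] at hb
      exact ⟨ha, hb⟩
  rw [h1, Measure.pi_pi, ← Finset.mul_prod_erase _ _ (Finset.mem_univ a),
    ← Finset.mul_prod_erase _ _ (Finset.mem_erase.2 ⟨hab.symm, Finset.mem_univ b⟩)]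
  rw [Finset.prod_eq_one, mul_one, if_pos rfl, if_neg hab.symm, if_pos rfl]
  intro i hi
  simp only [Finset.mem_erase, Finset.mem_univ, and_true] at hi
  rw [if_neg hi.2, if_neg hi.1, measure_univ]

/-- one pair -/
private theorem BlockBound_pair (μ : I → Measure X) [∀ a, IsProbabilityMeasure (μ a)] {a b : I}
    (hab : a ≠ b) (A B : Set X) (R : X → X → Prop) {c : ENNReal} {γ γ' : X} (hγ : γ ∈ A) (hγ' : γ' ∈ B)
    (hR : R γ γ') (hc : c ≤ μ a {γ} * μ b {γ'}) :
    Measure.pi μ {Γ | (Γ a ∈ A ∧ Γ b ∈ B) ∧ ¬ R (Γ a) (Γ b)} ≤ (1 - c) * (μ a A * μ b B) := by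
  have h1 : Measure.pi μ {Γ | Γ a ∈ ({γ} : Set X) ∧ Γ b ∈ ({γ'} : Set X)} = μ a {γ} * μ b {γ'} :=
    BlockBound_two μ hab _ _
  have h2 := BlockBound_two μ hab A B
  have hd : Disjoint {Γ : I → X | (Γ a ∈ A ∧ Γ b ∈ B) ∧ ¬ R (Γ a) (Γ b)}
      {Γ : I → X | Γ a ∈ ({γ} : Set X) ∧ Γ b ∈ ({γ'} : Set X)} := by
    rw [Set.disjoint_left]
    rintro Γ ⟨-, h3⟩ ⟨h4, h5⟩
    rw [mem_singleton_iff] at h4 h5
    rw [h4, h5] at h3
    exact h3 hR
  have h3 : Measure.pi μ {Γ : I → X | (Γ a ∈ A ∧ Γ b ∈ B) ∧ ¬ R (Γ a) (Γ b)} + μ a {γ} * μ b {γ'} ≤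
      μ a A * μ b B := by
    rw [← h1, ← h2, ← measure_union hd MeasurableSet.of_discrete]
    refine measure_mono ?_
    rintro Γ (h3 | h3)
    · exact h3.1
    · simp only [mem_ofPred_eq, mem_singleton_iff] at h3 ⊢
      rw [h3.1, h3.2]
      exact ⟨hγ, hγ'⟩
  have hQ : μ a A * μ b B ≤ 1 := by
    calc μ a A * μ b B ≤ 1 * 1 := mul_le_mul' prob_le_one prob_le_one
      _ = 1 := one_mul 1
  have hQt : μ a A * μ b B ≠ ⊤ := ne_top_of_le_ne_top ENNReal.one_ne_top hQ
  rw [ENNReal.sub_mul (fun _ _ => hQt), one_mul]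
  refine ENNReal.le_sub_of_add_le_right ?_ ?_
  · refine ne_top_of_le_ne_top hQt ?_
    calc c * (μ a A * μ b B) ≤ 1 * (μ a A * μ b B) := by
          refine mul_le_mul' ?_ le_rfl
          calc c ≤ μ a {γ} * μ b {γ'} := hc
            _ ≤ 1 * 1 := mul_le_mul' prob_le_one prob_le_one
            _ = 1 := one_mul 1
      _ = _ := one_mul _
  · refine le_trans (add_le_add le_rfl ?_) h3
    calc c * (μ a A * μ b B) ≤ c * 1 := mul_le_mul' le_rfl hQ
      _ = c := mul_one c
      _ ≤ _ := hc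

/-- all pairs -/
private theorem BlockBound_all (μ : I → Measure X) [∀ a, IsProbabilityMeasure (μ a)] (R : X → X → Prop)
    (c : ENNReal) (M : Finset (I × I))
    (hM1 : ∀ p ∈ M, ∀ q ∈ M, p.1 = q.1 ∨ p.2 = q.2 → p = q)
    (hM2 : ∀ p ∈ M, ∀ q ∈ M, p.1 ≠ q.2) (C : I → Set X)
    (hC : ∀ p ∈ M, ∃ γ ∈ C p.1, ∃ γ' ∈ C p.2, R γ γ' ∧ c ≤ μ p.1 {γ} * μ p.2 {γ'}) :
    Measure.pi μ {Γ | (∀ a, Γ a ∈ C a) ∧ ∀ p ∈ M, ¬ R (Γ p.1) (Γ p.2)} ≤
      (1 - c) ^ M.card * ∏ a, μ a (C a) := by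
  induction M using Finset.induction_on generalizing C with
  | empty =>
    have : {Γ : I → X | (∀ a, Γ a ∈ C a) ∧ ∀ p ∈ (∅ : Finset (I × I)), ¬ R (Γ p.1) (Γ p.2)} =
        Set.univ.pi C := by
      ext Γ; simp
    rw [this, Measure.pi_pi]
    simp
  | insert p M hp ih =>
    have hpp : p.1 ≠ p.2 := hM2 p (Finset.mem_insert_self _ _) p (Finset.mem_insert_self _ _)
    let C' : I → Set X := fun a => if a = p.1 ∨ a = p.2 then univ else C a
    have hne : ∀ q ∈ M, (¬ (q.1 = p.1 ∨ q.1 = p.2)) ∧ ¬ (q.2 = p.1 ∨ q.2 = p.2) := by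
      intro q hq
      have hqp : q ≠ p := fun h => hp (h ▸ hq)
      have hq' : q ∈ insert p M := Finset.mem_insert_of_mem hq
      have hp' : p ∈ insert p M := Finset.mem_insert_self _ _
      refine ⟨?_, ?_⟩
      · rintro (h | h)
        · exact hqp (hM1 q hq' p hp' (Or.inl h))
        · exact hM2 q hq' p hp' h
      · rintro (h | h)
        · exact hM2 p hp' q hq' h.symm
        · exact hqp (hM1 q hq' p hp' (Or.inr h))
    have h1 := ih (fun q hq q' hq' => hM1 q (Finset.mem_insert_of_mem hq) q' (Finset.mem_insert_of_mem hq'))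
      (fun q hq q' hq' => hM2 q (Finset.mem_insert_of_mem hq) q' (Finset.mem_insert_of_mem hq')) C' (by
        intro q hq
        obtain ⟨γ, h1, γ', h2, h3⟩ := hC q (Finset.mem_insert_of_mem hq)
        refine ⟨γ, ?_, γ', ?_, h3⟩
        · simp only [C', if_neg (hne q hq).1]; exact h1
        · simp only [C', if_neg (hne q hq).2]; exact h2)
    obtain ⟨γ, g1, γ', g2, g3, g4⟩ := hC p (Finset.mem_insert_self _ _)
    have h2 := BlockBound_pair μ hpp (C p.1) (C p.2) R g1 g2 g3 g4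
    have h3 : {Γ : I → X | (∀ a, Γ a ∈ C a) ∧ ∀ q ∈ insert p M, ¬ R (Γ q.1) (Γ q.2)} =
        {Γ : I → X | (∀ a, Γ a ∈ C' a) ∧ ∀ q ∈ M, ¬ R (Γ q.1) (Γ q.2)} ∩
        {Γ : I → X | (Γ p.1 ∈ C p.1 ∧ Γ p.2 ∈ C p.2) ∧ ¬ R (Γ p.1) (Γ p.2)} := by
      ext Γ
      simp only [mem_ofPred_eq, mem_inter_iff, Finset.forall_mem_insert, C']
      constructor
      · rintro ⟨k1, k2, k3⟩
        refine ⟨⟨fun a => ?_, k3⟩, ⟨k1 _, k1 _⟩, k2⟩
        split_ifs
        · trivial
        · exact k1 a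
      · rintro ⟨⟨k1, k2⟩, ⟨k3, k4⟩, k5⟩
        refine ⟨fun a => ?_, k5, k2⟩
        by_cases ha : a = p.1
        · rw [ha]; exact k3
        · by_cases hb : a = p.2
          · rw [hb]; exact k4
          · have := k1 a
            rwa [if_neg (not_or.2 ⟨ha, hb⟩)] at this
    have h4 := BlockBound_indep μ (Finset.univ \ {p.1, p.2}) {p.1, p.2} Finset.sdiff_disjoint
      {Γ : I → X | (∀ a, Γ a ∈ C' a) ∧ ∀ q ∈ M, ¬ R (Γ q.1) (Γ q.2)}
      {Γ : I → X | (Γ p.1 ∈ C p.1 ∧ Γ p.2 ∈ C p.2) ∧ ¬ R (Γ p.1) (Γ p.2)} (by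
        rintro Γ Γ' hΓ ⟨k1, k2⟩
        refine ⟨fun a => ?_, fun q hq => ?_⟩
        · by_cases ha : a = p.1 ∨ a = p.2
          · simp only [C', if_pos ha]; trivial
          · rw [← hΓ a (by simpa using ha)]
            exact k1 a
        · rw [← hΓ q.1 (by simpa using (hne q hq).1), ← hΓ q.2 (by simpa using (hne q hq).2)]
          exact k2 q hq) (by
        rintro Γ Γ' hΓ ⟨⟨k1, k2⟩, k3⟩
        have e1 := hΓ p.1 (by simp)
        have e2 := hΓ p.2 (by simp)
        simp only [mem_ofPred_eq]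
        rw [← e1, ← e2]
        exact ⟨⟨k1, k2⟩, k3⟩)
    rw [h3, h4, Finset.card_insert_of_notMem hp, pow_succ]
    have h5 : ∏ a, μ a (C a) = (∏ a, μ a (C' a)) * (μ p.1 (C p.1) * μ p.2 (C p.2)) := by
      have e1 := Finset.mul_prod_erase Finset.univ (fun a => μ a (C a)) (Finset.mem_univ p.1)
      have e2 := Finset.mul_prod_erase (Finset.univ.erase p.1) (fun a => μ a (C a))
        (Finset.mem_erase.2 ⟨hpp.symm, Finset.mem_univ p.2⟩)
      have e3 := Finset.mul_prod_erase Finset.univ (fun a => μ a (C' a)) (Finset.mem_univ p.1)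
      have e4 := Finset.mul_prod_erase (Finset.univ.erase p.1) (fun a => μ a (C' a))
        (Finset.mem_erase.2 ⟨hpp.symm, Finset.mem_univ p.2⟩)
      have e5 : ∏ a ∈ (Finset.univ.erase p.1).erase p.2, μ a (C' a) =
          ∏ a ∈ (Finset.univ.erase p.1).erase p.2, μ a (C a) := by
        refine Finset.prod_congr rfl fun a ha => ?_
        simp only [Finset.mem_erase, Finset.mem_univ, and_true] at ha
        simp only [C', if_neg (not_or.2 ⟨ha.2, ha.1⟩)]
      rw [← e1, ← e2, ← e3, ← e4, e5]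
      simp only [C', true_or, or_true, if_true, measure_univ, one_mul]
      ring
    rw [h5]
    calc _ ≤ ((1 - c) ^ M.card * ∏ a, μ a (C' a)) * ((1 - c) * (μ p.1 (C p.1) * μ p.2 (C p.2))) :=
          mul_le_mul' h1 h2
      _ = _ := by ring

end general

private theorem BlockBound_c1 (Δ T : ℕ) : 0 ≤ c1 Δ T ∧ c1 Δ T ≤ 1 := by
  unfold c1
  refine ⟨by positivity, ?_⟩
  rcases Nat.eq_zero_or_pos Δ with h | h
  · subst h
    rcases Nat.eq_zero_or_pos (2 * T) with h | h
    · simp [h]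
    · rw [Nat.cast_zero, mul_zero, zero_pow h.ne', inv_zero]; exact zero_le_one
  · have h1 : (1 : ℝ) ≤ Δ := by exact_mod_cast h
    exact inv_le_one_of_one_le₀ (one_le_pow₀ (by linarith))

omit [MeasurableSpace V] [DiscreteMeasurableSpace V] [Countable V] in
private theorem BlockBound_self (z : V) (n : ℕ) : z ∈ ball G n z :=
  mem_ball.2 ⟨SimpleGraph.Walk.nil, by simp⟩

/-- C6 -/
theorem block_bound {Δ D τ : ℕ} (hΔ : ∀ v, G.degree v ≤ Δ) (hdeg : ∀ v, 0 < G.degree v)
    (hD : 2 * D ≤ τ) {I : Type*} [Fintype I] (x y : I → V) (U : Finset I) (M : Finset (I × I))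
    (hM : ∀ p ∈ M, x p.2 ∈ ball G D (x p.1))
    (hM1 : ∀ p ∈ M, ∀ q ∈ M, p.1 = q.1 ∨ p.2 = q.2 → p = q)
    (hM2 : ∀ p ∈ M, ∀ q ∈ M, p.1 ≠ q.2) :
    Measure.pi (fun a => pl G (4 * τ) (x a))
      {Γ | (∀ a ∈ U, Γ a (Fin.last _) = y a) ∧ ∀ p ∈ M, ¬ Meet (Γ p.1) (Γ p.2)} ≤
    ENNReal.ofReal ((∏ a ∈ U, pT G (4 * τ) (x a) (y a)) *
      (1 - c1 Δ (4 * τ)) ^ (M.card - (U.filter fun a => y a ∉ ball G (3 * τ) (x a)).card)) := by
  classical
  have : ∀ a, IsProbabilityMeasure (pl G (4 * τ) (x a)) := fun a => isProb_pl G hdeg _ _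
  set fast : Finset I := U.filter fun a => y a ∉ ball G (3 * τ) (x a) with hfast
  set M' : Finset (I × I) := M.filter fun p => p.1 ∉ fast ∧ p.2 ∉ fast with hM'
  have hcard : M.card - fast.card ≤ M'.card := by
    have h1 : (M.filter fun p => ¬ (p.1 ∉ fast ∧ p.2 ∉ fast)).card ≤ fast.card := by
      refine Finset.card_le_card_of_injOn (fun p => if p.1 ∈ fast then p.1 else p.2) ?_ ?_
      · intro p hp
        simp only [Finset.coe_filter, mem_ofPred_eq] at hp
        simp only [Finset.mem_coe]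
        split_ifs with h
        · exact h
        · by_contra h2
          exact hp.2 ⟨h, h2⟩
      · intro p hp q hq hpq
        simp only [Finset.coe_filter, mem_ofPred_eq] at hp hq
        dsimp only at hpq
        split_ifs at hpq with h1 h2 h2
        · exact hM1 p hp.1 q hq.1 (Or.inl hpq)
        · exact absurd hpq (hM2 p hp.1 q hq.1)
        · exact absurd hpq.symm (hM2 q hq.1 p hp.1)
        · exact hM1 p hp.1 q hq.1 (Or.inr hpq)
    have h2 := Finset.card_filter_add_card_filter_not (s := M) (fun p => p.1 ∉ fast ∧ p.2 ∉ fast)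
    rw [hM']
    omega
  let C : I → Set (Tr V (4 * τ)) := fun a => if a ∈ U then {γ | γ (Fin.last _) = y a} else univ
  have hsub : M' ⊆ M := Finset.filter_subset _ _
  have h1 := BlockBound_all (fun a => pl G (4 * τ) (x a)) (Meet (n := 4 * τ))
    (ENNReal.ofReal (c1 Δ (4 * τ))) M'
    (fun p hp q hq => hM1 p (hsub hp) q (hsub hq)) (fun p hp q hq => hM2 p (hsub hp) q (hsub hq)) C (by
      intro p hp
      obtain ⟨hpM, hp1, hp2⟩ := Finset.mem_filter.1 hp
      have hself : ∀ z : V, z ∈ ball G (3 * τ) z := fun z => BlockBound_self z _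
      let t : I → V := fun a => if a ∈ U then y a else x a
      have ht : ∀ a, a ∉ fast → t a ∈ ball G (3 * τ) (x a) := by
        intro a ha
        by_cases hU : a ∈ U
        · simp only [t, if_pos hU]
          by_contra h
          exact ha (Finset.mem_filter.2 ⟨hU, h⟩)
        · simp only [t, if_neg hU]
          exact hself _
      obtain ⟨γ, γ', k1, k2, k3, k4, k5, k6, k7⟩ := pair_meet hD (hM p hpM) (ht _ hp1) (ht _ hp2)
      have hC : ∀ (a : I) (γ : Tr V (4 * τ)), γ (Fin.last _) = t a → γ ∈ C a := by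
        intro a γ h
        by_cases hU : a ∈ U
        · simp only [C, if_pos hU, mem_ofPred_eq]
          simpa only [t, if_pos hU] using h
        · simp only [C, if_neg hU]
          trivial
      refine ⟨γ, hC _ _ k3, γ', hC _ _ k4, k5, ?_⟩
      rw [pl_singleton G hdeg, pl_singleton G hdeg, if_pos k1, if_pos k2]
      refine le_trans ?_ (mul_le_mul' (wt_ge hΔ hdeg k6) (wt_ge hΔ hdeg k7))
      rw [← ENNReal.ofReal_mul (by positivity), ← mul_inv, ← pow_add, ← two_mul]
      exact le_of_eq rfl)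
  have h2 : {Γ : I → Tr V (4 * τ) | (∀ a ∈ U, Γ a (Fin.last _) = y a) ∧ ∀ p ∈ M, ¬ Meet (Γ p.1) (Γ p.2)} ⊆
      {Γ | (∀ a, Γ a ∈ C a) ∧ ∀ p ∈ M', ¬ Meet (Γ p.1) (Γ p.2)} := by
    rintro Γ ⟨k1, k2⟩
    refine ⟨fun a => ?_, fun p hp => k2 p (hsub hp)⟩
    by_cases hU : a ∈ U
    · simp only [C, if_pos hU, mem_ofPred_eq]
      exact k1 a hU
    · simp only [C, if_neg hU]
      trivial
  refine (measure_mono h2).trans (h1.trans ?_)
  have h3 : ∏ a, pl G (4 * τ) (x a) (C a) = ENNReal.ofReal (∏ a ∈ U, pT G (4 * τ) (x a) (y a)) := by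
    rw [ENNReal.ofReal_prod_of_nonneg (fun a _ => by unfold pT; positivity)]
    rw [← Finset.prod_subset (Finset.subset_univ U)]
    · refine Finset.prod_congr rfl fun a ha => ?_
      simp only [C, if_pos ha]
      unfold pT
      rw [ofReal_measureReal]
    · intro a _ ha
      simp only [C, if_neg ha, measure_univ]
  obtain ⟨hc0, hc1⟩ := BlockBound_c1 Δ (4 * τ)
  have h4 : (1 - ENNReal.ofReal (c1 Δ (4 * τ))) ^ M'.card ≤
      ENNReal.ofReal ((1 - c1 Δ (4 * τ)) ^ (M.card - fast.card)) := by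
    rw [← ENNReal.ofReal_one, ← ENNReal.ofReal_sub _ hc0, ← ENNReal.ofReal_pow (by linarith)]
    exact ENNReal.ofReal_le_ofReal (pow_le_pow_of_le_one (by linarith) (by linarith) hcard)
  rw [h3, ENNReal.ofReal_mul (Finset.prod_nonneg fun a _ => by unfold pT; positivity), mul_comm]
  exact mul_le_mul' le_rfl h4

end

end Cut7315
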