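import Pool.Agent.Lib.MP_7315a9_cut.Def2

/-!
# The mass of a path, rooted at a block time

Row 7315-C9. Sketch:
wt γ = ∏_{i < KT} p(γ i, γ (i+1)) = (∏_{i < sT}) (∏_{i ≥ sT}); the second product is wt (fw s γ); in the first use
deg(x) p(x,y) = deg(y) p(y,x) (stepProb_symm) to move the root from 0 to sT: deg(γ 0) ∏_{i<m} p(γ i, γ(i+1)) =
deg(γ m) ∏_{i<m} p(γ(i+1), γ i) by induction on m; reindex by i ↦ m-1-i to get wt (bw s γ). ofReal (ms γ) = deg(γ 0) * wt γ as
wt γ ≠ ∞ (a finite product of ofReal).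
-/

open MeasureTheory ProbabilityTheory Set Relation
open scoped Classical

namespace Cut7315

open MP7315a9

noncomputable section

variable {V : Type*} {G : SimpleGraph V} [G.LocallyFinite] {K T : ℕ}

private lemma wt_fun {n : ℕ} (f : ℕ → V) (γ : Tr V n) (h : ∀ i : Fin (n + 1), γ i = f i) :
    wt G γ = ∏ i ∈ Finset.range n, ENNReal.ofReal (stepProb G (f i) (f (i + 1))) := by
  unfold wt
  rw [Finset.prod_range]
  refine Finset.prod_congr rfl fun i _ => ?_
  rw [h, h]
  simp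

private lemma rev_aux (hdeg : ∀ v, 0 < G.degree v) (f : ℕ → V) (m : ℕ) :
    (G.degree (f 0) : ENNReal) *
        ∏ i ∈ Finset.range m, ENNReal.ofReal (stepProb G (f i) (f (i + 1))) =
      (G.degree (f m) : ENNReal) *
        ∏ i ∈ Finset.range m, ENNReal.ofReal (stepProb G (f (i + 1)) (f i)) := by
  induction m with
  | zero => simp
  | succ m ih =>
    rw [Finset.prod_range_succ, Finset.prod_range_succ, ← mul_assoc, ih]
    rw [mul_right_comm, stepProb_symm hdeg (f m) (f (m + 1))]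
    ring

private lemma rev_refl (f : ℕ → V) (m : ℕ) :
    ∏ i ∈ Finset.range m, ENNReal.ofReal (stepProb G (f (i + 1)) (f i)) =
      ∏ i ∈ Finset.range m, ENNReal.ofReal (stepProb G (f (m - i)) (f (m - (i + 1)))) := by
  rw [← Finset.prod_range_reflect]
  refine Finset.prod_congr rfl fun i hi => ?_
  have hi' := Finset.mem_range.1 hi
  have h1 : m - 1 - i + 1 = m - i := by omega
  have h2 : m - 1 - i = m - (i + 1) := by omega
  rw [h1, h2]

private lemma wt_ne_top {n : ℕ} (γ : Tr V n) : wt G γ ≠ ⊤ := by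
  unfold wt
  exact ENNReal.prod_ne_top fun i _ => ENNReal.ofReal_ne_top

/-- C9 -/
theorem ms_split (hdeg : ∀ v, 0 < G.degree v) (s : Fin (K + 1)) (γ : Tr V (K * T)) :
    ENNReal.ofReal (ms G γ) =
      (G.degree (skel K T γ s) : ENNReal) * wt G (bw s γ) * wt G (fw s γ) := by
  obtain ⟨f, hf⟩ : ∃ f : ℕ → V, ∀ i : ℕ, ∀ h : i < K * T + 1, γ ⟨i, h⟩ = f i :=
    ⟨fun i => if h : i < K * T + 1 then γ ⟨i, h⟩ else γ 0, fun i h => by simp [h]⟩
  have hs : (s : ℕ) ≤ K := Nat.lt_succ_iff.1 s.2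
  have hKT : K * T = s * T + (K - s) * T := by
    rw [← Nat.add_mul, Nat.add_sub_cancel' hs]
  have h1 : wt G γ = ∏ i ∈ Finset.range (K * T), ENNReal.ofReal (stepProb G (f i) (f (i + 1))) :=
    wt_fun f γ fun i => hf i i.2
  have h2 : wt G (bw s γ) = ∏ i ∈ Finset.range (s * T),
      ENNReal.ofReal (stepProb G (f (s * T - i)) (f (s * T - (i + 1)))) :=
    wt_fun (fun i => f (s * T - i)) (bw s γ) fun i => hf _ _
  have h3 : wt G (fw s γ) = ∏ i ∈ Finset.range ((K - s) * T),
      ENNReal.ofReal (stepProb G (f (s * T + i)) (f (s * T + (i + 1)))) :=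
    wt_fun (fun i => f (s * T + i)) (fw s γ) fun i => hf _ _
  have h4 : skel K T γ s = f (s * T) := hf _ _
  have h5 : γ 0 = f 0 := hf 0 _
  unfold ms
  rw [ENNReal.ofReal_mul (by positivity), ENNReal.ofReal_natCast,
    ENNReal.ofReal_toReal (wt_ne_top γ), h1, h2, h3, h4, h5, hKT, Finset.prod_range_add,
    ← mul_assoc, rev_aux hdeg f (s * T), rev_refl f (s * T)]
  simp only [add_assoc]

end

end Cut7315
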