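import Pool.Agent.Lib.MP_7315a9_cut.VoidMarked
import Pool.Agent.Lib.MP_7315a9_cut.MsSplit

/-!
# The law of the cloud

Row 7315-C4. Sketch:
bool_law: measurability of c ↦ cl c γ (countable union over i), and for a finite set Sg of paths
P(⋂ γ ∈ Sg, cl c γ = false) = ∏ ofReal (1 - bet γ). With F = image of Sg under γ ↦ skel γ s, marks = pair (backward, forward) path
of the agent inl (v,i), S v = {(bw γ, fw γ) | γ ∈ Sg, skel γ s = v}: void_marked with X = Tr × Tr and ν v = (pl v).prod (pl v), after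
mapping clLaw to (Poisson) × infinitePi over V × ℕ of the product (restriction of the coordinates to inl: map_infinitePi_
infinitePi_of_inj; pairing two infinite products: you may first prove (infinitePi μ).prod (infinitePi ν) mapped by (f,g) ↦ (i ↦ (f i, g i)) is
infinitePi (μ i).prod (ν i), by uniqueness on boxes Measure.eq_infinitePi). (ν v).real (S v) deg v = ∑ ms γ by ms_split and
pl_singleton ((bw, fw) is injective on paths, bw γ 0 = fw γ 0 = skel γ s).
-/

open MeasureTheory ProbabilityTheory Set Relation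
open scoped Classical

namespace Cut7315

open MP7315a9

noncomputable section

/-- The pairs of the coordinates of two independent infinite products. -/
private lemma C4_pair {ι X Y : Type*} [MeasurableSpace X] [MeasurableSingletonClass X]
    [Countable X] [MeasurableSpace Y] [MeasurableSingletonClass Y] [Countable Y]
    (μ : ι → Measure X) (ν : ι → Measure Y) [∀ i, IsProbabilityMeasure (μ i)]
    [∀ i, IsProbabilityMeasure (ν i)] :
    ((Measure.infinitePi μ).prod (Measure.infinitePi ν)).map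
      (fun (p : (ι → X) × (ι → Y)) (i : ι) => (p.1 i, p.2 i)) =
      Measure.infinitePi fun i => (μ i).prod (ν i) := by
  have hm : Measurable fun (p : (ι → X) × (ι → Y)) (i : ι) => (p.1 i, p.2 i) := by fun_prop
  refine ((Measure.isProjectiveLimit_infinitePi _).unique ?_).symm
  intro I
  rw [Measure.ext_iff_singleton]
  intro z
  have hs : MeasurableSet (I.restrict (π := fun _ : ι => X × Y) ⁻¹' {z}) :=
    (Finset.measurable_restrict I) (measurableSet_singleton z)
  rw [Measure.map_apply (Finset.measurable_restrict I) (measurableSet_singleton z),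
    Measure.map_apply hm hs]
  have e1 : (fun (p : (ι → X) × (ι → Y)) (i : ι) => (p.1 i, p.2 i)) ⁻¹'
      (I.restrict (π := fun _ : ι => X × Y) ⁻¹' {z}) =
      (Set.pi (I : Set ι) fun i => if h : i ∈ I then {(z ⟨i, h⟩).1} else univ) ×ˢ
        (Set.pi (I : Set ι) fun i => if h : i ∈ I then {(z ⟨i, h⟩).2} else univ) := by
    ext p
    simp only [mem_preimage, mem_singleton_iff, mem_prod, Set.mem_pi, Finset.mem_coe]
    constructor
    · intro h
      constructor
      · intro i hi
        rw [dif_pos hi, mem_singleton_iff]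
        have := congrFun h ⟨i, hi⟩
        exact congrArg Prod.fst this
      · intro i hi
        rw [dif_pos hi, mem_singleton_iff]
        have := congrFun h ⟨i, hi⟩
        exact congrArg Prod.snd this
    · rintro ⟨h1, h2⟩
      funext i
      obtain ⟨i, hi⟩ := i
      have h3 := h1 i hi
      have h4 := h2 i hi
      rw [dif_pos hi, mem_singleton_iff] at h3 h4
      exact Prod.ext h3 h4
  have e2 : ({z} : Set ((i : I) → X × Y)) = Set.pi univ fun i => {z i} :=
    (Set.univ_pi_singleton z).symm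
  rw [e1, Measure.prod_prod, Measure.infinitePi_pi, Measure.infinitePi_pi, e2, Measure.pi_pi,
    ← Finset.prod_mul_distrib, ← Finset.prod_coe_sort]
  · refine Finset.prod_congr rfl fun i _ => ?_
    obtain ⟨i, hi⟩ := i
    have e3 : ({z ⟨i, hi⟩} : Set (X × Y)) = {(z ⟨i, hi⟩).1} ×ˢ {(z ⟨i, hi⟩).2} := by
      rw [Set.singleton_prod_singleton]
    simp only [hi, dif_pos]
    rw [e3, Measure.prod_prod]
  · intro i hi
    rw [dif_pos hi]
    exact measurableSet_singleton _
  · intro i hi
    rw [dif_pos hi]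
    exact measurableSet_singleton _

variable {V : Type*} {G : SimpleGraph V} [G.LocallyFinite] {K T : ℕ}

private lemma C4_bw0 (s : Fin (K + 1)) (γ : Tr V (K * T)) : bw s γ 0 = skel K T γ s := by
  unfold bw skel
  congr 1

private lemma C4_fw0 (s : Fin (K + 1)) (γ : Tr V (K * T)) : fw s γ 0 = skel K T γ s := by
  unfold fw skel
  congr 1

private lemma C4_inj (s : Fin (K + 1)) {γ γ' : Tr V (K * T)} (h1 : bw s γ = bw s γ')
    (h2 : fw s γ = fw s γ') : γ = γ' := by
  funext i
  by_cases hi : (i : ℕ) ≤ s * T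
  · have h3 := congrFun h1 ⟨s * T - i, Nat.lt_succ_of_le (Nat.sub_le _ _)⟩
    unfold bw at h3
    have e : (⟨(s : ℕ) * T - (s * T - i), Nat.lt_succ_of_le ((Nat.sub_le _ _).trans
        (Nat.mul_le_mul_right T (Nat.lt_succ_iff.1 s.2)))⟩ : Fin (K * T + 1)) = i := by
      apply Fin.ext
      exact Nat.sub_sub_self hi
    simp only [e] at h3
    exact h3
  · have hi' : (i : ℕ) - s * T ≤ (K - s) * T := by
      have h4 : (i : ℕ) ≤ K * T := Nat.lt_succ_iff.1 i.2
      have h5 : K * T = s * T + (K - s) * T := by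
        rw [← Nat.add_mul, Nat.add_sub_cancel' (Nat.lt_succ_iff.1 s.2)]
      omega
    have h3 := congrFun h2 ⟨i - s * T, Nat.lt_succ_of_le hi'⟩
    unfold fw at h3
    have e : ∀ h, (⟨(s : ℕ) * T + (i - s * T), h⟩ : Fin (K * T + 1)) = i := by
      intro h
      apply Fin.ext
      exact Nat.add_sub_cancel' (not_le.1 hi).le
    simp only [e] at h3
    exact h3

variable [MeasurableSpace V] [DiscreteMeasurableSpace V] [Countable V]

private lemma C4_map (hdeg : ∀ v, 0 < G.degree v) (lam : NNReal) (s : Fin (K + 1)) :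
    (clLaw G lam T s).map (fun c => (c.1, fun w : V × ℕ =>
      (c.2.1 (Sum.inl w), c.2.2 (Sum.inl w)))) =
      (Measure.infinitePi fun v => poissonMeasure (lam * G.degree v)).prod
        (Measure.infinitePi fun w : V × ℕ =>
          (pl G ((s : ℕ) * T) w.1).prod (pl G ((K - (s : ℕ)) * T) w.1)) := by
  have hp1 := isProb_pl G hdeg ((s : ℕ) * T)
  have hp2 := isProb_pl G hdeg ((K - (s : ℕ)) * T)
  have hi : Function.Injective (Sum.inl : V × ℕ → Ag V K) := Sum.inl_injective
  have r1 := Measure.map_infinitePi_infinitePi_of_inj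
    (P := fun a : Ag V K => pl G ((s : ℕ) * T) (st s a)) hi
  have r2 := Measure.map_infinitePi_infinitePi_of_inj
    (P := fun a : Ag V K => pl G ((K - (s : ℕ)) * T) (st s a)) hi
  have hm1 : Measurable fun (f : Ag V K → Tr V ((s : ℕ) * T)) (w : V × ℕ) => f (Sum.inl w) := by
    fun_prop
  have hm2 : Measurable fun (f : Ag V K → Tr V ((K - (s : ℕ)) * T)) (w : V × ℕ) =>
      f (Sum.inl w) := by
    fun_prop
  have hm3 : Measurable fun (p : (V × ℕ → Tr V ((s : ℕ) * T)) ×
      (V × ℕ → Tr V ((K - (s : ℕ)) * T))) (w : V × ℕ) => (p.1 w, p.2 w) := by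
    fun_prop
  have h1 : ((Measure.infinitePi fun a : Ag V K => pl G ((s : ℕ) * T) (st s a)).prod
      (Measure.infinitePi fun a : Ag V K => pl G ((K - (s : ℕ)) * T) (st s a))).map
      (fun p (w : V × ℕ) => (p.1 (Sum.inl w), p.2 (Sum.inl w))) =
      Measure.infinitePi fun w : V × ℕ =>
        (pl G ((s : ℕ) * T) w.1).prod (pl G ((K - (s : ℕ)) * T) w.1) := by
    rw [← C4_pair (fun w : V × ℕ => pl G ((s : ℕ) * T) w.1)
      (fun w : V × ℕ => pl G ((K - (s : ℕ)) * T) w.1)]
    have r1' : (Measure.infinitePi fun a : Ag V K => pl G ((s : ℕ) * T) (st s a)).map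
        (fun f (w : V × ℕ) => f (Sum.inl w)) =
        Measure.infinitePi fun w : V × ℕ => pl G ((s : ℕ) * T) w.1 := r1
    have r2' : (Measure.infinitePi fun a : Ag V K => pl G ((K - (s : ℕ)) * T) (st s a)).map
        (fun f (w : V × ℕ) => f (Sum.inl w)) =
        Measure.infinitePi fun w : V × ℕ => pl G ((K - (s : ℕ)) * T) w.1 := r2
    rw [← r1', ← r2', Measure.map_prod_map _ _ hm1 hm2, Measure.map_map hm3 (hm1.prodMap hm2)]
    rfl
  have hm4 : Measurable fun (p : (Ag V K → Tr V ((s : ℕ) * T)) ×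
      (Ag V K → Tr V ((K - (s : ℕ)) * T))) (w : V × ℕ) =>
      (p.1 (Sum.inl w), p.2 (Sum.inl w)) := by
    fun_prop
  unfold clLaw
  rw [← h1]
  have h2 := Measure.map_prod_map (Measure.infinitePi fun v => poissonMeasure (lam * G.degree v))
    ((Measure.infinitePi fun a : Ag V K => pl G ((s : ℕ) * T) (st s a)).prod
      (Measure.infinitePi fun a : Ag V K => pl G ((K - (s : ℕ)) * T) (st s a)))
    measurable_id hm4
  rw [Measure.map_id] at h2
  rw [h2]
  rfl

omit [MeasurableSpace V] [DiscreteMeasurableSpace V] [Countable V] in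
private lemma C4_meas {X : Type*} [MeasurableSpace X] [DiscreteMeasurableSpace X]
    (F : Finset V) (S : V → Set X) :
    MeasurableSet {ω : (V → ℕ) × (V × ℕ → X) | ∀ v ∈ F, ∀ i < ω.1 v, ω.2 (v, i) ∉ S v} := by
  have h0 : {ω : (V → ℕ) × (V × ℕ → X) | ∀ v ∈ F, ∀ i < ω.1 v, ω.2 (v, i) ∉ S v} =
      ⋂ v ∈ F, ⋂ i : ℕ, ({ω : (V → ℕ) × (V × ℕ → X) | ¬ i < ω.1 v} ∪
        {ω : (V → ℕ) × (V × ℕ → X) | ω.2 (v, i) ∉ S v}) := by
    ext ω
    simp only [mem_ofPred_eq, mem_iInter, mem_union, ← imp_iff_not_or]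
  rw [h0]
  refine Finset.measurableSet_biInter _ fun v _ => MeasurableSet.iInter fun i => ?_
  refine MeasurableSet.union ?_ ?_
  · have h1 : Measurable fun ω : (V → ℕ) × (V × ℕ → X) => ω.1 v := by fun_prop
    exact h1 (MeasurableSet.of_discrete (s := {n | ¬ i < n}))
  · have h1 : Measurable fun ω : (V → ℕ) × (V × ℕ → X) => ω.2 (v, i) := by fun_prop
    exact h1 (MeasurableSet.of_discrete (s := {y | y ∉ S v}))

private lemma C4_cl (s : Fin (K + 1)) (γ : Tr V (K * T)) :
    Measurable fun c : Cfg V K T s => cl c γ := by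
  refine measurable_to_bool ?_
  have h0 : (fun c : Cfg V K T s => cl c γ) ⁻¹' {true} =
      ⋃ i : ℕ, ({c : Cfg V K T s | i < c.1 (skel K T γ s)} ∩
        ({c : Cfg V K T s | c.2.1 (Sum.inl (skel K T γ s, i)) = bw s γ} ∩
          {c : Cfg V K T s | c.2.2 (Sum.inl (skel K T γ s, i)) = fw s γ})) := by
    ext c
    simp [cl]
  rw [h0]
  refine MeasurableSet.iUnion fun i => MeasurableSet.inter ?_ (MeasurableSet.inter ?_ ?_)
  · have h1 : Measurable fun c : Cfg V K T s => c.1 (skel K T γ s) := by fun_prop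
    exact h1 (MeasurableSet.of_discrete (s := {n | i < n}))
  · have h1 : Measurable fun c : Cfg V K T s => c.2.1 (Sum.inl (skel K T γ s, i)) := by fun_prop
    exact h1 (MeasurableSet.of_discrete (s := {y | y = bw s γ}))
  · have h1 : Measurable fun c : Cfg V K T s => c.2.2 (Sum.inl (skel K T γ s, i)) := by fun_prop
    exact h1 (MeasurableSet.of_discrete (s := {y | y = fw s γ}))

/-- The marks of the paths of `Sg` which are at `v` at the block time `s`. -/
private def C4_S (s : Fin (K + 1)) (Sg : Finset (Tr V (K * T))) (v : V) :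
    Finset (Tr V ((s : ℕ) * T) × Tr V ((K - (s : ℕ)) * T)) :=
  (Sg.filter fun γ => skel K T γ s = v).image fun γ => (bw s γ, fw s γ)

private lemma C4_mass (hdeg : ∀ v, 0 < G.degree v) (s : Fin (K + 1))
    (Sg : Finset (Tr V (K * T))) (v : V) :
    (G.degree v : ℝ) * ((pl G ((s : ℕ) * T) v).prod (pl G ((K - (s : ℕ)) * T) v)).real
      (C4_S s Sg v : Set _) = ∑ γ ∈ Sg.filter fun γ => skel K T γ s = v, ms G γ := by
  have hp1 := isProb_pl G hdeg ((s : ℕ) * T) v
  have hp2 := isProb_pl G hdeg ((K - (s : ℕ)) * T) v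
  have hms : ∀ γ : Tr V (K * T), 0 ≤ ms G γ := by
    intro γ
    unfold ms
    positivity
  have h1 : (G.degree v : ENNReal) * ((pl G ((s : ℕ) * T) v).prod
      (pl G ((K - (s : ℕ)) * T) v)) (C4_S s Sg v : Set _) =
      ENNReal.ofReal (∑ γ ∈ Sg.filter fun γ => skel K T γ s = v, ms G γ) := by
    rw [ENNReal.ofReal_sum_of_nonneg fun γ _ => hms γ, ← sum_measure_singleton, C4_S,
      Finset.sum_image, Finset.mul_sum]
    · refine Finset.sum_congr rfl fun γ hγ => ?_
      have hv : skel K T γ s = v := (Finset.mem_filter.1 hγ).2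
      have e3 : ({(bw s γ, fw s γ)} : Set (Tr V ((s : ℕ) * T) × Tr V ((K - (s : ℕ)) * T))) =
          {bw s γ} ×ˢ {fw s γ} := by
        rw [Set.singleton_prod_singleton]
      rw [e3, Measure.prod_prod, pl_singleton G hdeg, pl_singleton G hdeg, C4_bw0, C4_fw0,
        if_pos hv, if_pos hv, ms_split hdeg s γ, hv, mul_assoc]
    · intro γ _ γ' _ h
      rw [Prod.mk.injEq] at h
      exact C4_inj s h.1 h.2
  have h2 := congrArg ENNReal.toReal h1
  rw [ENNReal.toReal_ofReal (Finset.sum_nonneg fun γ _ => hms γ), ENNReal.toReal_mul,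
    ENNReal.toReal_natCast] at h2
  exact h2

/-- C4: the law of the cloud. -/
theorem cl_law (hdeg : ∀ v, 0 < G.degree v) (lam : NNReal) (s : Fin (K + 1)) :
    (clLaw G lam T s).map (fun c γ => cl c γ) = bits (bet G lam) := by
  have hp1 := isProb_pl G hdeg ((s : ℕ) * T)
  have hp2 := isProb_pl G hdeg ((K - (s : ℕ)) * T)
  have hP : IsProbabilityMeasure (clLaw G lam T s) := by
    unfold clLaw
    infer_instance
  refine bool_law (X := fun γ (c : Cfg V K T s) => cl c γ) (C4_cl s) ?_
  intro Sg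
  have hm : Measurable fun c : Cfg V K T s => (c.1, fun w : V × ℕ =>
      (c.2.1 (Sum.inl w), c.2.2 (Sum.inl w))) := by
    fun_prop
  have hE : (⋂ γ ∈ Sg, {c : Cfg V K T s | cl c γ = false}) =
      (fun c : Cfg V K T s => (c.1, fun w : V × ℕ =>
        (c.2.1 (Sum.inl w), c.2.2 (Sum.inl w)))) ⁻¹'
        {ω | ∀ v ∈ Sg.image fun γ => skel K T γ s, ∀ i < ω.1 v,
          ω.2 (v, i) ∉ (C4_S s Sg v : Set (Tr V ((s : ℕ) * T) × Tr V ((K - (s : ℕ)) * T)))} := by
    ext c
    simp only [mem_iInter, mem_ofPred_eq, mem_preimage, Finset.mem_coe, C4_S, Finset.mem_image,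
      Finset.mem_filter, cl, decide_eq_false_iff_not]
    constructor
    · rintro h v - i hi ⟨γ, ⟨hγ, rfl⟩, h1⟩
      rw [Prod.mk.injEq] at h1
      exact h γ hγ ⟨i, hi, h1.1.symm, h1.2.symm⟩
    · rintro h γ hγ ⟨i, hi, h1, h2⟩
      exact h _ ⟨γ, hγ, rfl⟩ i hi ⟨γ, ⟨hγ, rfl⟩, Prod.ext h1.symm h2.symm⟩
  rw [hE, ← Measure.map_apply hm (C4_meas _ _), C4_map hdeg lam s]
  rw [void_marked (fun v => lam * G.degree v)
    (fun v => (pl G ((s : ℕ) * T) v).prod (pl G ((K - (s : ℕ)) * T) v))
    (Sg.image fun γ => skel K T γ s) (fun v => (C4_S s Sg v : Set _)),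
    ← Finset.prod_fiberwise_of_maps_to (t := Sg.image fun γ => skel K T γ s)
      (g := fun γ => skel K T γ s) (fun γ hγ => Finset.mem_image_of_mem _ hγ)]
  refine Finset.prod_congr rfl fun v _ => ?_
  have h1 : ∀ γ : Tr V (K * T), 1 - (bet G lam γ : ℝ) = Real.exp (-(lam * ms G γ)) := by
    intro γ
    exact sub_sub_cancel _ _
  rw [Finset.prod_congr rfl fun γ _ => by rw [h1 γ],
    ← ENNReal.ofReal_prod_of_nonneg fun _ _ => (Real.exp_pos _).le, ← Real.exp_sum]
  congr 2
  rw [Finset.sum_neg_distrib, ← Finset.mul_sum, ← C4_mass hdeg s Sg v]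
  push_cast
  ring

end

end Cut7315
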