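import Pool.Agent.Lib.MP_7315a9_cut.Def2

/-!
# From the cloud to the sequential events

Row 7315-P7. Sketch:
For an active cloud agent w = (v,i), i < x.1 v, glue x.2.1 (inl w) and x.2.2 (inl w) (both start at v = st) to a
path g w with bw (g w) = x.2.1 (inl w), fw (g w) = x.2.2 (inl w), skel (g w) s = v, legal, cl x (g w) = true.
(1) if x.1 v > 0, v ∈ vac: the skeleton of g (v,0) is in occ, at time s it is v, so `vacant` puts it in W, against hW.
(2) Ev for the backward part: pinned skeletons: skel (bw s γ) j = skel γ (s - j). Matching: `mtch` at block time s - j gives M with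
|W| ≤ 2|M| so (|W|+1)/2 ≤ |M|; replace every skeleton σ' of M by an agent: inr σ' if σ' ∈ wk, otherwise σ' is the skeleton of
a path γ' ∉ image f, cl x γ' = true: the agent inl (skel γ' s, i). Different skeletons give different agents (the skeleton of
the agent's full path is σ'). Colours: for inl w: par c.F w.1 = red (skeleton), because the skeleton is not in W' ⊆ W (hW).
Non-meeting: if active a (red) and b (blue) meet in the backward part, their full paths (f σ or g w) meet, both are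
legal and occupied, so acs, so `closed` gives equal colours. (3) the forward part in the same way (time s + j). Prove one
general lemma for both directions if you can (the two parts only differ by the map of block times).
-/

open MeasureTheory ProbabilityTheory Set Relation
open scoped Classical

namespace Cut7315

open MP7315a9

noncomputable section

variable {V : Type*} {G : SimpleGraph V} [G.LocallyFinite] {K T : ℕ}

/-- The path glued from the two parts. -/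
private def P7_glue {s : Fin (K + 1)} (x : Cfg V K T s) (a : Ag V K) : Tr V (K * T) := fun i =>
  if (i : ℕ) ≤ (s : ℕ) * T then x.2.1 a ⟨(s : ℕ) * T - i, by omega⟩
  else x.2.2 a ⟨(i : ℕ) - (s : ℕ) * T, by
    have h1 := i.2
    have h2 := Nat.sub_mul K s T
    omega⟩

private lemma P7_glue_le {s : Fin (K + 1)} (x : Cfg V K T s) (a : Ag V K) (i : Fin (K * T + 1))
    (j : Fin ((s : ℕ) * T + 1)) (h : (i : ℕ) ≤ (s : ℕ) * T) (hj : (j : ℕ) = (s : ℕ) * T - i) :
    P7_glue x a i = x.2.1 a j := by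
  unfold P7_glue
  rw [if_pos h]
  have e3 : (⟨(s : ℕ) * T - i, by omega⟩ : Fin ((s : ℕ) * T + 1)) = j := Fin.ext hj.symm
  rw [e3]

private lemma P7_glue_ge {s : Fin (K + 1)} (x : Cfg V K T s) (a : Ag V K)
    (h0 : x.2.1 a 0 = x.2.2 a 0) (i : Fin (K * T + 1))
    (j : Fin ((K - (s : ℕ)) * T + 1)) (h : (s : ℕ) * T ≤ (i : ℕ)) (hj : (j : ℕ) = i - (s : ℕ) * T) :
    P7_glue x a i = x.2.2 a j := by
  unfold P7_glue
  by_cases h1 : (i : ℕ) ≤ (s : ℕ) * T
  · rw [if_pos h1]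
    have e1 : (⟨(s : ℕ) * T - i, by omega⟩ : Fin ((s : ℕ) * T + 1)) = 0 := by
      apply Fin.ext
      show (s : ℕ) * T - i = 0
      omega
    have e2 : j = 0 := by
      apply Fin.ext
      show (j : ℕ) = 0
      omega
    rw [e1, e2]
    exact h0
  · rw [if_neg h1]
    have e3 : (⟨(i : ℕ) - (s : ℕ) * T, by
        have h1 := i.2
        have h2 := Nat.sub_mul K s T
        omega⟩ : Fin ((K - (s : ℕ)) * T + 1)) = j := Fin.ext hj.symm
    rw [e3]

private lemma P7_bw {s : Fin (K + 1)} (x : Cfg V K T s) (a : Ag V K) :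
    bw s (P7_glue x a) = x.2.1 a := by
  funext i
  unfold bw
  apply P7_glue_le
  · show (s : ℕ) * T - i ≤ (s : ℕ) * T
    omega
  · show (i : ℕ) = (s : ℕ) * T - ((s : ℕ) * T - i)
    have := i.2
    omega

private lemma P7_fw {s : Fin (K + 1)} (x : Cfg V K T s) (a : Ag V K)
    (h0 : x.2.1 a 0 = x.2.2 a 0) : fw s (P7_glue x a) = x.2.2 a := by
  funext i
  unfold fw
  apply P7_glue_ge x a h0
  · show (s : ℕ) * T ≤ (s : ℕ) * T + i
    omega
  · show (i : ℕ) = (s : ℕ) * T + i - (s : ℕ) * T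
    omega

private lemma P7_ext {s : Fin (K + 1)} {γ γ' : Tr V (K * T)} (h1 : bw s γ = bw s γ')
    (h2 : fw s γ = fw s γ') : γ = γ' := by
  funext i
  have hi := i.2
  by_cases h : (i : ℕ) ≤ (s : ℕ) * T
  · have h3 := congrFun h1 ⟨(s : ℕ) * T - i, by omega⟩
    unfold bw at h3
    have e : (⟨(s : ℕ) * T - ((s : ℕ) * T - i), Nat.lt_succ_of_le ((Nat.sub_le _ _).trans
        (Nat.mul_le_mul_right T (Nat.lt_succ_iff.1 s.2)))⟩ : Fin (K * T + 1)) = i := by
      apply Fin.ext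
      show (s : ℕ) * T - ((s : ℕ) * T - i) = i
      omega
    simp only [e] at h3
    exact h3
  · have h4 := Nat.sub_mul K s T
    have hlt : (i : ℕ) - (s : ℕ) * T < (K - (s : ℕ)) * T + 1 := by omega
    have h3 := congrFun h2 ⟨(i : ℕ) - (s : ℕ) * T, hlt⟩
    unfold fw at h3
    have e : (⟨(s : ℕ) * T + ((i : ℕ) - (s : ℕ) * T), Nat.lt_succ_of_le
        (le_aux (Nat.lt_succ_iff.1 s.2) (Nat.lt_succ_iff.1 hlt))⟩ : Fin (K * T + 1)) = i := by
      apply Fin.ext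
      show (s : ℕ) * T + ((i : ℕ) - (s : ℕ) * T) = i
      omega
    simp only [e] at h3
    exact h3

private lemma P7_legal {s : Fin (K + 1)} (x : Cfg V K T s) (a : Ag V K)
    (h0 : x.2.1 a 0 = x.2.2 a 0) (hb : Lg G (x.2.1 a)) (hf : Lg G (x.2.2 a)) :
    Lg G (P7_glue x a) := by
  intro t
  have ht := t.2
  by_cases h : (t : ℕ) + 1 ≤ (s : ℕ) * T
  · have e := hb ⟨(s : ℕ) * T - (t + 1), by omega⟩
    rw [P7_glue_le x a t.succ (Fin.castSucc ⟨(s : ℕ) * T - (t + 1), by omega⟩)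
        (by show (t : ℕ) + 1 ≤ (s : ℕ) * T; exact h) (by rfl),
      P7_glue_le x a t.castSucc (Fin.succ ⟨(s : ℕ) * T - (t + 1), by omega⟩)
        (by show (t : ℕ) ≤ (s : ℕ) * T; omega)
        (by show (s : ℕ) * T - (t + 1) + 1 = (s : ℕ) * T - t; omega)]
    rcases e with e | e
    · exact Or.inl e.symm
    · exact Or.inr e.symm
  · have h4 := Nat.sub_mul K s T
    have e := hf ⟨(t : ℕ) - (s : ℕ) * T, by omega⟩
    rw [P7_glue_ge x a h0 t.succ (Fin.succ ⟨(t : ℕ) - (s : ℕ) * T, by omega⟩)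
        (by show (s : ℕ) * T ≤ (t : ℕ) + 1; omega)
        (by show (t : ℕ) - (s : ℕ) * T + 1 = (t : ℕ) + 1 - (s : ℕ) * T; omega),
      P7_glue_ge x a h0 t.castSucc (Fin.castSucc ⟨(t : ℕ) - (s : ℕ) * T, by omega⟩)
        (by show (s : ℕ) * T ≤ (t : ℕ); omega) (by rfl)]
    exact e

private lemma P7_skel_bw {s : Fin (K + 1)} (γ : Tr V (K * T)) :
    skel (s : ℕ) T (bw s γ) = sbw s (skel K T γ) := by
  funext j
  unfold skel bw sbw
  congr 1
  apply Fin.ext
  show (s : ℕ) * T - (j : ℕ) * T = ((s : ℕ) - (j : ℕ)) * T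
  exact (Nat.sub_mul _ _ _).symm

private lemma P7_skel_fw {s : Fin (K + 1)} (γ : Tr V (K * T)) :
    skel (K - (s : ℕ)) T (fw s γ) = sfw s (skel K T γ) := by
  funext j
  unfold skel fw sfw
  congr 1
  apply Fin.ext
  show (s : ℕ) * T + (j : ℕ) * T = ((s : ℕ) + (j : ℕ)) * T
  exact (Nat.add_mul _ _ _).symm

private lemma P7_meet_bw {s : Fin (K + 1)} {γ γ' : Tr V (K * T)} (h : Meet (bw s γ) (bw s γ')) :
    Meet γ γ' := by
  obtain ⟨t, ht⟩ := h
  exact ⟨_, ht⟩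

private lemma P7_meet_fw {s : Fin (K + 1)} {γ γ' : Tr V (K * T)} (h : Meet (fw s γ) (fw s γ')) :
    Meet γ γ' := by
  obtain ⟨t, ht⟩ := h
  exact ⟨_, ht⟩

/-- Both parts at once. -/
private lemma P7_core {c : Str V K} {σ0 : Sk V K} {D : ℕ} {k : ℕ} (Γ : Ag V K → Tr V (k * T))
    (sb : Sk V K → Sk V k) (jm : Fin (k + 1) → Fin (K + 1)) (hsb : ∀ σ j, sb σ j = σ (jm j))
    (sk : Ag V K → Sk V K) (A : Set (Ag V K)) (rd : Ag V K → Prop) (Occ : Set (Sk V K))
    (hsk : ∀ σ ∈ c.wk σ0, sk (Sum.inr σ) = σ)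
    (hΓ : ∀ a, skel k T (Γ a) = sb (sk a))
    (hrd : ∀ a ∈ A, (rd a ↔ c.red (sk a)))
    (hag : ∀ σ ∈ Occ, ∃ a ∈ A, sk a = σ)
    (hmt : ∀ j : Fin (K + 1), ∃ M : Finset (Sk V K × Sk V K), c.W.card ≤ 2 * M.card ∧
      (∀ p ∈ M, p.1 ∈ Occ ∧ p.2 ∈ Occ ∧ c.red p.1 ∧ ¬ c.red p.2 ∧ p.2 j ∈ ball G D (p.1 j)) ∧
      ∀ p ∈ M, ∀ q ∈ M, p.1 = q.1 ∨ p.2 = q.2 → p = q)
    (hme : ∀ a ∈ A, ∀ b ∈ A, Meet (Γ a) (Γ b) → (c.red (sk a) ↔ c.red (sk b)))
    (dflt : Sk V k) :
    Γ ∈ Ev G D T k ((c.W.card + 1) / 2) ((c.wk σ0).image Sum.inr)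
      (Sum.elim (fun _ => dflt) fun σ => sb σ) rd A := by
  refine ⟨?_, ?_, ?_⟩
  · intro a ha
    obtain ⟨σ, hσ, rfl⟩ := Finset.mem_image.1 ha
    rw [hΓ, hsk σ hσ]
    rfl
  · intro j
    obtain ⟨M, hM1, hM2, hM3⟩ := hmt (jm j.castSucc)
    have hag' : ∀ σ, ∃ a, σ ∈ Occ → a ∈ A ∧ sk a = σ := by
      intro σ
      by_cases h : σ ∈ Occ
      · obtain ⟨a, ha, hs⟩ := hag σ h
        exact ⟨a, fun _ => ⟨ha, hs⟩⟩
      · exact ⟨Sum.inr σ, fun h' => absurd h' h⟩
    choose ag hag' using hag'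
    have hinj : ∀ p ∈ M, ∀ q ∈ M, ag p.1 = ag q.1 ∨ ag p.2 = ag q.2 → p = q := by
      intro p hp q hq h
      apply hM3 p hp q hq
      rcases h with h | h
      · left
        rw [← (hag' p.1 (hM2 p hp).1).2, ← (hag' q.1 (hM2 q hq).1).2, h]
      · right
        rw [← (hag' p.2 (hM2 p hp).2.1).2, ← (hag' q.2 (hM2 q hq).2.1).2, h]
    refine ⟨M.image fun p => (ag p.1, ag p.2), ?_, ?_, ?_⟩
    · rw [Finset.card_image_of_injOn]
      · omega
      · intro p hp q hq h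
        exact hinj p hp q hq (Or.inl (congrArg Prod.fst h))
    · intro p hp
      obtain ⟨q, hq, rfl⟩ := Finset.mem_image.1 hp
      obtain ⟨h1, h2, h3, h4, h5⟩ := hM2 q hq
      obtain ⟨a1, a2⟩ := hag' q.1 h1
      obtain ⟨b1, b2⟩ := hag' q.2 h2
      refine ⟨a1, b1, ?_, ?_, ?_⟩
      · show rd (ag q.1)
        rw [hrd _ a1, a2]
        exact h3
      · show ¬ rd (ag q.2)
        rw [hrd _ b1, b2]
        exact h4
      · show skel k T (Γ (ag q.2)) j.castSucc ∈ ball G D (skel k T (Γ (ag q.1)) j.castSucc)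
        rw [hΓ, hΓ, a2, b2, hsb, hsb]
        exact h5
    · intro p hp q hq h
      obtain ⟨p', hp', rfl⟩ := Finset.mem_image.1 hp
      obtain ⟨q', hq', rfl⟩ := Finset.mem_image.1 hq
      rw [hinj p' hp' q' hq' h]
  · intro a ha b hb hra hrb hm
    exact hrb ((hrd b hb).2 ((hme a ha b hb hm).1 ((hrd a ha).1 hra)))

/-- P7: from the configurations to the sequential events. -/
theorem cloud_det {c : Str V K} {σ0 : Sk V K} {D ℓ : ℕ} (hsub : c.W' ⊆ c.W)
    (x : Cfg V K T c.s)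
    (hlb : ∀ a, Lg G (x.2.1 a)) (hlf : ∀ a, Lg G (x.2.2 a))
    (h0b : ∀ a, x.2.1 a 0 = st c.s a) (h0f : ∀ a, x.2.2 a 0 = st c.s a)
    {f : Sk V K → Tr V (K * T)} (hf : ∀ σ ∈ c.wk σ0, Lg G (f σ) ∧ skel K T (f σ) = σ ∧
      x.2.1 (Sum.inr σ) = bw c.s (f σ) ∧ x.2.2 (Sum.inr σ) = fw c.s (f σ))
    (hW : ∀ γ, Lg G γ → skel K T γ ∈ c.W → cl x γ = false)
    (h : c.Real G D ℓ (occ G (setT ((c.wk σ0).image f) (cl x)))
      (acs G (setT ((c.wk σ0).image f) (cl x))) σ0) :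
    (∀ v ∈ vac G ℓ c.F, x.1 v = 0) ∧
    x.2.1 ∈ Ev G D T (c.s : ℕ) ((c.W.card + 1) / 2) ((c.wk σ0).image Sum.inr)
      (Sum.elim (fun _ _ => σ0 c.s) fun σ => sbw c.s σ)
      (Sum.elim (fun w => par c.F w.1) c.red)
      {a | Sum.elim (fun w => w.2 < x.1 w.1) (fun σ => σ ∈ c.wk σ0) a} ∧
    x.2.2 ∈ Ev G D T (K - (c.s : ℕ)) ((c.W.card + 1) / 2) ((c.wk σ0).image Sum.inr)
      (Sum.elim (fun _ _ => σ0 c.s) fun σ => sfw c.s σ)
      (Sum.elim (fun w => par c.F w.1) c.red)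
      {a | Sum.elim (fun w => w.2 < x.1 w.1) (fun σ => σ ∈ c.wk σ0) a} := by
  obtain ⟨hocc, hvac, hclosed, hmt⟩ := h
  have h0 : ∀ a, x.2.1 a 0 = x.2.2 a 0 := fun a => (h0b a).trans (h0f a).symm
  -- the glued paths
  have hleg : ∀ a, Lg G (P7_glue x a) := fun a => P7_legal x a (h0 a) (hlb a) (hlf a)
  have hst : ∀ a, skel K T (P7_glue x a) c.s = st c.s a := by
    intro a
    rw [← h0b a]
    unfold skel
    apply P7_glue_le
    · exact le_refl _
    · show 0 = (c.s : ℕ) * T - (c.s : ℕ) * T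
      omega
  have hcl : ∀ w : V × ℕ, w.2 < x.1 w.1 → cl x (P7_glue x (Sum.inl w)) = true := by
    intro w hw
    have h1 : skel K T (P7_glue x (Sum.inl w)) c.s = w.1 := hst (Sum.inl w)
    unfold cl
    rw [decide_eq_true_eq, h1]
    exact ⟨w.2, hw, (P7_bw x (Sum.inl w)).symm, (P7_fw x (Sum.inl w) (h0 _)).symm⟩
  have hfs : ∀ σ ∈ c.wk σ0, P7_glue x (Sum.inr σ) = f σ := by
    intro σ hσ
    obtain ⟨_, _, h3, h4⟩ := hf σ hσ
    apply P7_ext (s := c.s)
    · rw [P7_bw, h3]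
    · rw [P7_fw x _ (h0 _), h4]
  have hact : ∀ a, Sum.elim (fun w : V × ℕ => w.2 < x.1 w.1) (fun σ => σ ∈ c.wk σ0) a →
      setT ((c.wk σ0).image f) (cl x) (P7_glue x a) = true := by
    intro a ha
    unfold setT
    split_ifs with hi
    · rfl
    · rcases a with w | σ
      · exact hcl w ha
      · exfalso
        apply hi
        rw [hfs σ ha]
        exact Finset.mem_image_of_mem f ha
  have hsk : ∀ σ ∈ c.wk σ0, skel K T (P7_glue x (Sum.inr σ)) = σ := by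
    intro σ hσ
    rw [hfs σ hσ]
    exact (hf σ hσ).2.1
  have hnW : ∀ w : V × ℕ, w.2 < x.1 w.1 → skel K T (P7_glue x (Sum.inl w)) ∉ c.W := by
    intro w hw hin
    have h1 := hW _ (hleg (Sum.inl w)) hin
    rw [hcl w hw] at h1
    exact absurd h1 (by decide)
  have hrd : ∀ a, Sum.elim (fun w : V × ℕ => w.2 < x.1 w.1) (fun σ => σ ∈ c.wk σ0) a →
      (Sum.elim (fun w : V × ℕ => par c.F w.1) c.red a ↔ c.red (skel K T (P7_glue x a))) := by
    intro a ha
    rcases a with w | σ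
    · have h1 : skel K T (P7_glue x (Sum.inl w)) c.s = w.1 := hst (Sum.inl w)
      have h2 : skel K T (P7_glue x (Sum.inl w)) ∉ c.W' := fun h => hnW w ha (hsub h)
      show par c.F w.1 ↔ c.red _
      unfold Str.red
      rw [h1]
      constructor
      · intro h3 h4
        exact h2 (h4.1 h3)
      · intro h3
        by_contra h4
        exact h3 ⟨fun h => absurd h h4, fun h => absurd h h2⟩
    · rw [hsk σ ha]
      exact Iff.rfl
  have hag : ∀ σ ∈ occ G (setT ((c.wk σ0).image f) (cl x)),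
      ∃ a ∈ {a | Sum.elim (fun w : V × ℕ => w.2 < x.1 w.1) (fun σ => σ ∈ c.wk σ0) a},
        skel K T (P7_glue x a) = σ := by
    rintro σ ⟨γ, hγ, hγl, rfl⟩
    unfold setT at hγ
    split_ifs at hγ with hi
    · obtain ⟨σ', hσ', rfl⟩ := Finset.mem_image.1 hi
      refine ⟨Sum.inr σ', hσ', ?_⟩
      rw [hfs σ' hσ']
    · unfold cl at hγ
      rw [decide_eq_true_eq] at hγ
      obtain ⟨i, hi1, hi2, hi3⟩ := hγ
      refine ⟨Sum.inl (skel K T γ c.s, i), hi1, ?_⟩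
      have h5 : P7_glue x (Sum.inl (skel K T γ c.s, i)) = γ := by
        apply P7_ext (s := c.s)
        · rw [P7_bw, hi2]
        · rw [P7_fw x _ (h0 _), hi3]
      rw [h5]
  have hmem : ∀ a, Sum.elim (fun w : V × ℕ => w.2 < x.1 w.1) (fun σ => σ ∈ c.wk σ0) a →
      skel K T (P7_glue x a) ∈ occ G (setT ((c.wk σ0).image f) (cl x)) := fun a ha =>
    ⟨_, hact a ha, hleg a, rfl⟩
  have hmeet : ∀ a, Sum.elim (fun w : V × ℕ => w.2 < x.1 w.1) (fun σ => σ ∈ c.wk σ0) a →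
      ∀ b, Sum.elim (fun w : V × ℕ => w.2 < x.1 w.1) (fun σ => σ ∈ c.wk σ0) b →
      Meet (P7_glue x a) (P7_glue x b) →
      (c.red (skel K T (P7_glue x a)) ↔ c.red (skel K T (P7_glue x b))) := by
    intro a ha b hb hm
    exact hclosed _ (hmem a ha) _ (hmem b hb)
      ⟨_, _, ⟨hact a ha, hleg a, rfl⟩, ⟨hact b hb, hleg b, rfl⟩, hm⟩
  refine ⟨?_, ?_, ?_⟩
  · intro v hv
    by_contra hne
    have hw : ((v, 0) : V × ℕ).2 < x.1 ((v, 0) : V × ℕ).1 := Nat.pos_of_ne_zero hne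
    refine hnW (v, 0) hw (hvac _ (hmem (Sum.inl (v, 0)) hw) ?_)
    have h1 : skel K T (P7_glue x (Sum.inl (v, 0))) c.s = v := hst (Sum.inl (v, 0))
    rw [h1]
    exact hv
  · refine P7_core (c := c) (σ0 := σ0) x.2.1 (fun σ => sbw c.s σ) (fun j => ⟨c.s - j, by omega⟩)
      (fun σ j => rfl) (fun a => skel K T (P7_glue x a)) _ _
      (occ G (setT ((c.wk σ0).image f) (cl x))) hsk ?_ hrd hag hmt ?_
      (fun _ => σ0 c.s)
    · intro a
      rw [← P7_skel_bw, P7_bw]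
    · intro a ha b hb hm
      refine hmeet a ha b hb (P7_meet_bw (s := c.s) ?_)
      rw [P7_bw, P7_bw]
      exact hm
  · refine P7_core (c := c) (σ0 := σ0) x.2.2 (fun σ => sfw c.s σ)
      (fun j => ⟨c.s + j, by have := j.2; have := c.s.2; omega⟩)
      (fun σ j => rfl) (fun a => skel K T (P7_glue x a)) _ _
      (occ G (setT ((c.wk σ0).image f) (cl x))) hsk ?_ hrd hag hmt ?_
      (fun _ => σ0 c.s)
    · intro a
      rw [← P7_skel_fw, P7_fw x a (h0 a)]
    · intro a ha b hb hm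
      refine hmeet a ha b hb (P7_meet_fw (s := c.s) ?_)
      rw [P7_fw x a (h0 a), P7_fw x b (h0 b)]
      exact hm

end

end Cut7315
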