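import Pool.Agent.Lib.MP_7315a9_cut.Sprinkle

/-!
# Connections outside a cut

Row 7315-S8. Sketch:
conn_prob: E = {ω | ∀ b ∈ ob F, ∃ w ∉ X ∪ F, cn F ω ∅ b w}. E is increasing and depends only on the finite set tch G X of
edges (follow the path until it leaves X for the first time: all its edges start in X; b ∈ ob F ⊆ X). cn F ω Q = cn F (ω with Q opened) ∅, so
GoodN N = {ω | ∃ Q, card ≤ N, opened ω ∈ E}. Apply sprinkle. limit_prob: V countable: exhaust V \ F by finite sets X_n increasing,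
X_0 ⊇ ob F; the events E_{X_n} are decreasing and their intersection is contained in {∀ b, {w | cn b w} infinite} (a finite set
would be contained in X_n ∪ F for some n); continuity from above (tendsto_measure_iInter / measure_iInter_eq_iInf for
antitone sequences); measurability as in BitsInd.measurable_rtg.
-/

open MeasureTheory ProbabilityTheory Set Relation
open scoped Classical

namespace Cut7315

open MP7315a9

noncomputable section

variable {V : Type*} {G : SimpleGraph V} [G.LocallyFinite] [Countable V]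

omit [Countable V] in
private theorem S8_exit {F X : Finset V} {ω ω' : G.edgeSet → Bool}
    (h : ∀ k ∈ tch G X, ω k = ω' k) {b z : V} (hb : b ∈ X) (hz : cn G F ω ∅ b z) :
    (∃ w, w ∉ X ∧ w ∉ F ∧ cn G F ω' ∅ b w) ∨ (z ∈ X ∧ cn G F ω' ∅ b z) := by
  induction hz with
  | refl => exact Or.inr ⟨hb, ReflTransGen.refl⟩
  | @tail y z _ h2 ih =>
    rcases ih with h3 | ⟨hy, h3⟩
    · exact Or.inl h3
    · obtain ⟨h4, h5, h6, h7⟩ := h2
      have h8 : stp G F ω' ∅ y z := by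
        refine ⟨h4, h5, h6, ?_⟩
        rcases h7 with h7 | h7
        · left
          rw [← h _ (mem_tch.2 ⟨y, hy, by simp⟩)]
          exact h7
        · exact absurd h7 (Finset.notMem_empty _)
      by_cases hzX : z ∈ X
      · exact Or.inr ⟨hzX, h3.tail h8⟩
      · exact Or.inl ⟨z, hzX, h5, h3.tail h8⟩

/-- S8a -/
theorem conn_prob {p e : unitInterval} {F X : Finset V} (hXF : Disjoint X F) (hob : ob G F ⊆ X)
    {N : ℕ} {q : ENNReal} (h : q ≤ bits (fun _ : G.edgeSet => p) {ω | GoodN G F X N ω}) :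
    ENNReal.ofReal ((e : ℝ) ^ N) * q ≤
      bits (fun _ : G.edgeSet => unitInterval.symm (unitInterval.symm p * unitInterval.symm e))
        {ω | ∀ b ∈ ob G F, ∃ w, w ∉ X ∧ w ∉ F ∧ cn G F ω ∅ b w} := by
  have h1 := sprinkle (X := G.edgeSet) p e N (tch G X)
    (E := {ω | ∀ b ∈ ob G F, ∃ w, w ∉ X ∧ w ∉ F ∧ cn G F ω ∅ b w}) (by
      intro ω ω' hω hE b hb
      obtain ⟨w, hw, _, hc⟩ := hE b hb
      rcases S8_exit hω (hob hb) hc with h2 | ⟨h2, _⟩
      · exact h2
      · exact absurd h2 hw) (by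
      intro ω ω' hω hE b hb
      obtain ⟨w, hw, hwF, hc⟩ := hE b hb
      refine ⟨w, hw, hwF, rtg_mono (fun x y hxy => ?_) hc⟩
      obtain ⟨h4, h5, h6, h7⟩ := hxy
      refine ⟨h4, h5, h6, h7.imp_left fun h8 => ?_⟩
      have h9 := hω ⟨s(x, y), h6⟩
      rw [h8] at h9
      exact top_le_iff.1 h9)
  refine le_trans (mul_le_mul_right (le_trans h (measure_mono ?_)) _) h1
  rintro ω ⟨Q, hQ, hc⟩
  refine ⟨Q, hQ, fun b hb => ?_⟩
  obtain ⟨w, hw, hwF, hcn⟩ := hc b hb
  refine ⟨w, hw, hwF, rtg_mono (fun x y hxy => ?_) hcn⟩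
  obtain ⟨h4, h5, h6, h7⟩ := hxy
  refine ⟨h4, h5, h6, Or.inl ?_⟩
  by_cases hq : (⟨s(x, y), h6⟩ : G.edgeSet) ∈ Q
  · exact if_pos hq
  · exact (if_neg hq).trans (h7.resolve_right hq)

private theorem S8_meas (F : Finset V) (X : Finset V) :
    MeasurableSet {ω : G.edgeSet → Bool | ∀ b ∈ ob G F, ∃ w, w ∉ X ∧ w ∉ F ∧ cn G F ω ∅ b w} := by
  have h0 : ∀ u v : V, MeasurableSet {ω : G.edgeSet → Bool | stp G F ω ∅ u v} := by
    intro u v
    by_cases h1 : u ∉ F ∧ v ∉ F ∧ G.Adj u v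
    · obtain ⟨h2, h3, h4⟩ := h1
      have : {ω : G.edgeSet → Bool | stp G F ω ∅ u v} =
          (fun ω : G.edgeSet → Bool => ω ⟨s(u, v), h4⟩) ⁻¹' {true} := by
        ext ω
        constructor
        · rintro ⟨_, _, _, h5 | h5⟩
          · exact h5
          · exact absurd h5 (Finset.notMem_empty _)
        · intro h5
          exact ⟨h2, h3, h4, Or.inl h5⟩
      rw [this]
      exact (measurable_pi_apply _) (measurableSet_singleton _)
    · have : {ω : G.edgeSet → Bool | stp G F ω ∅ u v} = ∅ := by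
        rw [Set.eq_empty_iff_forall_notMem]
        rintro ω ⟨h2, h3, h4, _⟩
        exact h1 ⟨h2, h3, h4⟩
      rw [this]
      exact MeasurableSet.empty
  have h1 : ∀ b w : V, MeasurableSet {ω : G.edgeSet → Bool | cn G F ω ∅ b w} := fun b w =>
    measurable_rtg (r := fun ω => stp G F ω ∅) h0 b w
  have h2 : {ω : G.edgeSet → Bool | ∀ b ∈ ob G F, ∃ w, w ∉ X ∧ w ∉ F ∧ cn G F ω ∅ b w} =
      ⋂ b ∈ ob G F, ⋃ w : {w : V // w ∉ X ∧ w ∉ F}, {ω | cn G F ω ∅ b w.1} := by
    ext ω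
    simp only [mem_setOf_eq, mem_iInter, mem_iUnion, Subtype.exists, exists_prop, and_assoc]
  rw [h2]
  exact Finset.measurableSet_biInter _ fun b _ => MeasurableSet.iUnion fun w => h1 b w.1

/-- S8b -/
theorem limit_prob {p : unitInterval} {F : Finset V} {θ : ENNReal}
    (h : ∀ X : Finset V, Disjoint X F → ob G F ⊆ X → θ ≤ bits (fun _ : G.edgeSet => p)
      {ω | ∀ b ∈ ob G F, ∃ w, w ∉ X ∧ w ∉ F ∧ cn G F ω ∅ b w}) :
    θ ≤ bits (fun _ : G.edgeSet => p) {ω | ∀ b ∈ ob G F, {w | cn G F ω ∅ b w}.Infinite} := by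
  obtain ⟨f, hf⟩ := exists_injective_nat V
  have hfin : ∀ n : ℕ, (f ⁻¹' (Set.Iic n)).Finite := fun n =>
    (Set.finite_Iic n).preimage hf.injOn
  set X : ℕ → Finset V := fun n => ((hfin n).toFinset \ F) ∪ ob G F with hX
  have hobF : Disjoint (ob G F) F := by
    rw [Finset.disjoint_left]
    intro x hx
    rw [ob, Finset.mem_image] at hx
    obtain ⟨e, he, rfl⟩ := hx
    exact (mem_bd.1 he).2.1
  have hd : ∀ n, Disjoint (X n) F := fun n => by
    rw [hX]
    exact Finset.disjoint_union_left.2 ⟨Finset.sdiff_disjoint, hobF⟩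
  have ho : ∀ n, ob G F ⊆ X n := fun n => Finset.subset_union_right
  set A : ℕ → Set (G.edgeSet → Bool) := fun n =>
    {ω | ∀ b ∈ ob G F, ∃ w, w ∉ X n ∧ w ∉ F ∧ cn G F ω ∅ b w} with hA
  have hanti : Antitone A := by
    intro m n hmn ω hω b hb
    obtain ⟨w, hw, hwF, hc⟩ := hω b hb
    refine ⟨w, fun hwm => hw ?_, hwF, hc⟩
    rw [hX] at hwm ⊢
    simp only [Finset.mem_union, Finset.mem_sdiff, Set.Finite.mem_toFinset, Set.mem_preimage,
      Set.mem_Iic] at hwm ⊢
    rcases hwm with ⟨h1, h2⟩ | h1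
    · exact Or.inl ⟨h1.trans hmn, h2⟩
    · exact Or.inr h1
  have h1 : θ ≤ bits (fun _ : G.edgeSet => p) (⋂ n, A n) := by
    rw [hanti.measure_iInter (fun n => (S8_meas F (X n)).nullMeasurableSet)
      ⟨0, measure_ne_top _ _⟩]
    exact le_iInf fun n => h (X n) (hd n) (ho n)
  refine h1.trans (measure_mono fun ω hω b hb => ?_)
  intro hfinite
  obtain ⟨n, hn⟩ : ∃ n, ∀ w, cn G F ω ∅ b w → f w ≤ n := by
    obtain ⟨n, hn⟩ := (hfinite.image f).bddAbove
    exact ⟨n, fun w hw => hn ⟨w, hw, rfl⟩⟩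
  obtain ⟨w, hw, hwF, hc⟩ := Set.mem_iInter.1 hω n b hb
  apply hw
  rw [hX]
  simp only [Finset.mem_union, Finset.mem_sdiff, Set.Finite.mem_toFinset, Set.mem_preimage,
    Set.mem_Iic]
  exact Or.inl ⟨hn w hc, hwF⟩

end

end Cut7315
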