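import Pool.Agent.Lib.MP_7315a9_cut.Def2

/-!
# Crossing a boundary

Row 7315-A5. Sketch:
cross: the walk from a to b (mem_ball) contains an edge (x,y) with different memberships in S; both ends
are within n of a; e = (x,y) or (y,x). (Induct on the walk with n generalised: ball_trans for the first step.)
finite_sk: a skeleton in Occ with σ j ∈ Z has all positions in the ball (K*T) of Z (ball_trans, ball_symm), so it lies
in the finite set of functions Fin (K+1) → that finset (Set.Finite.subset of Set.Finite.pi or Fintype.piFinset).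
-/

open MeasureTheory ProbabilityTheory Set Relation
open scoped Classical

namespace Cut7315

open MP7315a9

noncomputable section

variable {V : Type*} {G : SimpleGraph V} [G.LocallyFinite] {K : ℕ} {T : ℕ} {Occ : Set (Sk V K)}
  {Acq : Sk V K → Sk V K → Prop}

private lemma cross_self (a : V) (n : ℕ) : a ∈ ball G n a := mem_ball.2 ⟨SimpleGraph.Walk.nil, Nat.zero_le _⟩

private lemma cross_adj {a y : V} (h : G.Adj a y) (n : ℕ) : y ∈ ball G (n + 1) a :=
  mem_ball.2 ⟨SimpleGraph.Walk.cons h SimpleGraph.Walk.nil, by simp⟩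

/-- A5a -/
theorem cross {S : Finset V} {n : ℕ} {a b : V} (hb : b ∈ ball G n a) (h : ¬ (a ∈ S ↔ b ∈ S)) :
    ∃ e ∈ bd G S, e.1 ∈ ball G n a ∧ e.2 ∈ ball G n a := by
  obtain ⟨p, hp⟩ := mem_ball.1 hb
  clear hb
  induction p generalizing n with
  | nil => exact absurd Iff.rfl h
  | @cons a y b hay q ih =>
    rw [SimpleGraph.Walk.length_cons] at hp
    obtain ⟨m, rfl⟩ : ∃ m, n = m + 1 := ⟨n - 1, by omega⟩
    by_cases hs : a ∈ S ↔ y ∈ S
    · obtain ⟨e, he, h1, h2⟩ := ih (n := m) (fun h' => h (hs.trans h')) (by omega)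
      have h3 : y ∈ ball G 1 a := cross_adj hay 0
      refine ⟨e, he, ?_, ?_⟩
      · rw [add_comm m 1]
        exact ball_trans h3 h1
      · rw [add_comm m 1]
        exact ball_trans h3 h2
    · by_cases ha : a ∈ S
      · have hy : y ∉ S := fun hy => hs ⟨fun _ => hy, fun _ => ha⟩
        exact ⟨(a, y), mem_bd.2 ⟨ha, hy, hay⟩, cross_self a _, cross_adj hay m⟩
      · have hy : y ∈ S := by
          by_contra hy
          exact hs ⟨fun h1 => absurd h1 ha, fun h1 => absurd h1 hy⟩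
        exact ⟨(y, a), mem_bd.2 ⟨hy, ha, hay.symm⟩, cross_adj hay m, cross_self a _⟩

private lemma cross_up (h : ∀ σ ∈ Occ, ∀ j : Fin K, σ j.succ ∈ ball G T (σ j.castSucc)) {σ : Sk V K}
    (hσ : σ ∈ Occ) (i : ℕ) (hi : i < K + 1) :
    ∀ d (hd : i + d < K + 1), σ ⟨i + d, hd⟩ ∈ ball G (d * T) (σ ⟨i, hi⟩) := by
  intro d
  induction d with
  | zero => intro hd; exact cross_self _ _
  | succ d ih =>
    intro hd
    have h1 := ih (by omega)
    have h2 := h σ hσ ⟨i + d, by omega⟩
    have h3 : σ ⟨i + (d + 1), hd⟩ ∈ ball G T (σ ⟨i + d, by omega⟩) := h2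
    have h4 := ball_trans h1 h3
    rw [Nat.succ_mul]
    exact h4

private lemma cross_all (h : ∀ σ ∈ Occ, ∀ j : Fin K, σ j.succ ∈ ball G T (σ j.castSucc)) {σ : Sk V K}
    (hσ : σ ∈ Occ) (j i : Fin (K + 1)) : σ i ∈ ball G (K * T) (σ j) := by
  obtain ⟨i, hi⟩ := i
  obtain ⟨j, hj⟩ := j
  rcases le_total j i with hij | hij
  · obtain ⟨d, rfl⟩ := Nat.exists_eq_add_of_le hij
    exact ball_mono (Nat.mul_le_mul_right T (by omega)) (cross_up h hσ j hj d hi)
  · obtain ⟨d, rfl⟩ := Nat.exists_eq_add_of_le hij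
    exact ball_symm (ball_mono (Nat.mul_le_mul_right T (by omega)) (cross_up h hσ i hi d hj))

/-- A5b -/
theorem finite_sk (h : ∀ σ ∈ Occ, ∀ j : Fin K, σ j.succ ∈ ball G T (σ j.castSucc))
    (j : Fin (K + 1)) (Z : Finset V) : {σ | σ ∈ Occ ∧ σ j ∈ Z}.Finite := by
  refine Set.Finite.subset (Finset.finite_toSet
    (Fintype.piFinset fun _ : Fin (K + 1) => Z.biUnion fun z => ball G (K * T) z)) ?_
  rintro σ ⟨hσ, hj⟩
  rw [Finset.mem_coe, Fintype.mem_piFinset]
  intro i
  exact Finset.mem_biUnion.2 ⟨σ j, hj, cross_all h hσ j i⟩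

end

end Cut7315
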