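import Pool.Agent.Lib.MP_7315a9_cut.Par

/-!
# The sum over the cuts around a point

Row 7315-B8. Sketch:
Group B by n = |bd F| ≥ 1 (bd_nonempty): at most C^n members by CutBound. The sum is ≤ ∑_{n ≥ 1} (C e^{1-β})^n ≤
2 C e^{1-β} as C e^{1-β} ≤ 1/2.
-/

open MeasureTheory ProbabilityTheory Set Relation
open scoped Classical

namespace Cut7315

open MP7315a9

noncomputable section

variable {V : Type*} {G : SimpleGraph V} [G.LocallyFinite]

/-- B8 -/
theorem cut_sum [Infinite V] (hG : G.Connected) {C : ℕ} (hC : CutBound G C) {β : ℝ}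
    (hβ : C * Real.exp (1 - β) ≤ 1 / 2) (x : V) (B : Finset (Finset V))
    (hB : ∀ F ∈ B, IsCut G F ∧ x ∈ F) :
    ∑ F ∈ B, Real.exp (-(β * (bd G F).card)) * Real.exp ((bd G F).card) ≤
      2 * C * Real.exp (1 - β) := by
  have hterm : ∀ F ∈ B, Real.exp (-(β * (bd G F).card)) * Real.exp ((bd G F).card) =
      Real.exp (1 - β) ^ (bd G F).card := by
    intro F _
    rw [← Real.exp_add, ← Real.exp_nat_mul]
    congr 1
    ring
  rw [Finset.sum_congr rfl hterm]
  have hmaps : ∀ F ∈ B, (bd G F).card ∈ B.image (fun F => (bd G F).card) := fun F hF =>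
    Finset.mem_image_of_mem _ hF
  rw [← Finset.sum_fiberwise_of_maps_to hmaps]
  have hfib : ∀ n ∈ B.image (fun F => (bd G F).card),
      ∑ F ∈ B with (bd G F).card = n, Real.exp (1 - β) ^ (bd G F).card ≤
        (C * Real.exp (1 - β)) ^ n := by
    intro n _
    have h1 : ∑ F ∈ B with (bd G F).card = n, Real.exp (1 - β) ^ (bd G F).card =
        (B.filter fun F => (bd G F).card = n).card * Real.exp (1 - β) ^ n := by
      rw [Finset.sum_congr rfl (g := fun _ => Real.exp (1 - β) ^ n)]
      · rw [Finset.sum_const, nsmul_eq_mul]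
      · intro F hF
        rw [(Finset.mem_filter.1 hF).2]
    rw [h1, mul_pow]
    refine mul_le_mul_of_nonneg_right ?_ (by positivity)
    have h2 := hC x n (B.filter fun F => (bd G F).card = n) (by
      intro F hF
      obtain ⟨h3, h4⟩ := Finset.mem_filter.1 hF
      exact ⟨(hB F h3).2, (hB F h3).1, h4⟩)
    exact_mod_cast h2
  refine (Finset.sum_le_sum hfib).trans ?_
  set q : ℝ := C * Real.exp (1 - β) with hq
  have hq0 : 0 ≤ q := by positivity
  obtain ⟨N, hN⟩ : ∃ N : ℕ, B.image (fun F => (bd G F).card) ⊆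
      (Finset.range N).image (fun i => i + 1) := by
    refine ⟨(B.image (fun F => (bd G F).card)).sup id, fun n hn => ?_⟩
    have h1 : n ≤ (B.image (fun F => (bd G F).card)).sup id := Finset.le_sup (f := id) hn
    obtain ⟨F, hF, rfl⟩ := Finset.mem_image.1 hn
    have h2 : 0 < (bd G F).card := Finset.card_pos.2 (bd_nonempty hG (hB F hF).1.nonempty)
    exact Finset.mem_image.2 ⟨(bd G F).card - 1, Finset.mem_range.2 (by omega), by omega⟩
  have h3 : ∑ n ∈ B.image (fun F => (bd G F).card), q ^ n ≤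
      ∑ n ∈ (Finset.range N).image (fun i => i + 1), q ^ n :=
    Finset.sum_le_sum_of_subset_of_nonneg hN fun _ _ _ => pow_nonneg hq0 _
  refine h3.trans ?_
  rw [Finset.sum_image (fun a _ b _ h => by simpa using h)]
  have h4 : ∑ i ∈ Finset.range N, q ^ i ≤ 2 := by
    have h5 : q < 1 := by linarith
    have h6 := (summable_geometric_of_lt_one hq0 h5).sum_le_tsum (Finset.range N)
      (fun i _ => pow_nonneg hq0 i)
    rw [tsum_geometric_of_lt_one hq0 h5] at h6
    refine h6.trans ?_
    rw [inv_le_comm₀ (by linarith) (by norm_num)]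
    norm_num
    linarith
  calc ∑ i ∈ Finset.range N, q ^ (i + 1) = q * ∑ i ∈ Finset.range N, q ^ i := by
        rw [Finset.mul_sum]
        exact Finset.sum_congr rfl fun i _ => by ring
    _ ≤ q * 2 := mul_le_mul_of_nonneg_left h4 hq0
    _ = 2 * C * Real.exp (1 - β) := by rw [hq]; ring

end

end Cut7315
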