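import Pool.Agent.Lib.MP_7315a9_cut.Def3

/-!
# Reading a cut from a configuration

Row 7315-S9. Sketch:
For a cut F around x with |bd F| = n let A_F = {ω | all edges of bd F are closed, and for all b ∈ ob F the set {w | cn F ω ∅ b w} is infinite}.
P(A_F) = P(closed) P(infinite) ≥ (1-p)^n θ^n: the second event depends only on edges with both ends outside F (stp), the
first on the edges of bd F (bits_indep; infinitePi_pi). Disjointness: for ω ∈ A_F, let I = the set of vertices whose open cluster (openGraph G ω)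
is infinite. F ∩ I = ∅ (an open path from F cannot leave F) and ob F ⊆ I. So F is the set of y reachable from x in G by a path
avoiding I (F connected by IsCut.conn; a path from x leaving F meets ob F ⊆ I). Hence A_F ∩ A_F' = ∅ for F ≠ F' around the same x, and for a finite
family ∑ P(A_F) ≤ 1: card * ((1-p) θ)^n ≤ 1. C = ceil of 1/((1-p)θ) (θ < ∞: θ ≤ 1 may be assumed by taking min θ 1, or θ^n ≤ 1 with
n ≥ 1; if no cut exists CutBound is trivial). Measurability: cn by measurable_rtg.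
-/

open MeasureTheory ProbabilityTheory Set Relation
open scoped Classical

namespace Cut7315

open MP7315a9

noncomputable section

variable {V : Type*} {G : SimpleGraph V} [G.LocallyFinite] [Countable V]

/-- the edges of the boundary -/
private def S9_T (G : SimpleGraph V) [G.LocallyFinite] (F : Finset V) : Finset G.edgeSet :=
  (bd G F).attach.image fun e => ⟨s(e.1.1, e.1.2), (mem_bd.1 e.2).2.2⟩

omit [Countable V] in
private lemma S9_mem {F : Finset V} {a b : V} (h : G.Adj a b) (ha : a ∈ F) (hb : b ∉ F) :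
    (⟨s(a, b), h⟩ : G.edgeSet) ∈ S9_T G F := by
  unfold S9_T
  rw [Finset.mem_image]
  exact ⟨⟨(a, b), mem_bd.2 ⟨ha, hb, h⟩⟩, Finset.mem_attach _ _, rfl⟩

omit [Countable V] in
private lemma S9_not_mem {F : Finset V} {a b : V} (h : G.Adj a b) (ha : a ∉ F) (hb : b ∉ F) :
    (⟨s(a, b), h⟩ : G.edgeSet) ∉ S9_T G F := by
  unfold S9_T
  rw [Finset.mem_image]
  rintro ⟨⟨⟨c, d⟩, he⟩, -, h1⟩
  have h2 : s(c, d) = s(a, b) := congrArg Subtype.val h1
  have hc := (mem_bd.1 he).1
  rw [Sym2.eq_iff] at h2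
  rcases h2 with ⟨h3, -⟩ | ⟨h3, -⟩
  · exact ha (h3 ▸ hc)
  · exact hb (h3 ▸ hc)

/-- open edges -/
private def S9_opn (G : SimpleGraph V) (ω : G.edgeSet → Bool) (a b : V) : Prop :=
  ∃ h : G.Adj a b, ω ⟨s(a, b), h⟩ = true

/-- all boundary edges are closed -/
private def S9_Cl (G : SimpleGraph V) [G.LocallyFinite] (F : Finset V) :
    Set (G.edgeSet → Bool) := {ω | ∀ e ∈ S9_T G F, ω e = false}

private def S9_Inf (G : SimpleGraph V) [G.LocallyFinite] (F : Finset V) :
    Set (G.edgeSet → Bool) := {ω | ∀ b ∈ ob G F, {w | cn G F ω ∅ b w}.Infinite}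

omit [Countable V] in
private lemma S9_Cl_pi (F : Finset V) : S9_Cl G F =
    Set.pi ((S9_T G F : Finset G.edgeSet) : Set G.edgeSet) fun _ => {false} := by
  ext ω
  simp only [S9_Cl, mem_ofPred_eq, Set.mem_pi, Finset.mem_coe, Set.mem_singleton_iff]

omit [Countable V] in
private lemma S9_Cl_meas (F : Finset V) : MeasurableSet (S9_Cl G F) := by
  rw [S9_Cl_pi]
  exact MeasurableSet.pi (Finset.countable_toSet _) fun _ _ => MeasurableSet.of_discrete

private lemma S9_cn_meas (F : Finset V) (b w : V) :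
    MeasurableSet {ω : G.edgeSet → Bool | cn G F ω ∅ b w} := by
  refine measurable_rtg (r := fun ω : G.edgeSet → Bool => stp G F ω ∅) (fun u v => ?_) b w
  by_cases h : u ∉ F ∧ v ∉ F ∧ G.Adj u v
  · have e : {ω : G.edgeSet → Bool | stp G F ω ∅ u v} =
        (fun ω : G.edgeSet → Bool => ω ⟨s(u, v), h.2.2⟩) ⁻¹' {true} := by
      ext ω
      simp only [stp, mem_ofPred_eq, Set.mem_preimage, Set.mem_singleton_iff]
      constructor
      · rintro ⟨-, -, h1, h2 | h2⟩
        · exact h2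
        · exact absurd h2 (Finset.notMem_empty _)
      · intro h2
        exact ⟨h.1, h.2.1, h.2.2, Or.inl h2⟩
    rw [e]
    exact (measurable_pi_apply _) MeasurableSet.of_discrete
  · have e : {ω : G.edgeSet → Bool | stp G F ω ∅ u v} = ∅ := by
      ext ω
      simp only [stp, mem_ofPred_eq, Set.mem_empty_iff_false, iff_false]
      rintro ⟨h1, h2, h3, -⟩
      exact h ⟨h1, h2, h3⟩
    rw [e]
    exact MeasurableSet.empty

private lemma S9_Inf_meas (F : Finset V) : MeasurableSet (S9_Inf G F) := by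
  have e : S9_Inf G F = ⋂ b ∈ (ob G F : Set V), ⋂ Z : Finset V, ⋃ w : V,
      ({_ω : G.edgeSet → Bool | w ∉ Z} ∩ {ω | cn G F ω ∅ b w}) := by
    ext ω
    simp only [S9_Inf, mem_ofPred_eq, Set.mem_iInter, Finset.mem_coe, Set.mem_iUnion,
      Set.mem_inter_iff]
    constructor
    · intro h b hb Z
      obtain ⟨w, hw, hwZ⟩ := (h b hb).exists_notMem_finset Z
      exact ⟨w, hwZ, hw⟩
    · intro h b hb hfin
      obtain ⟨w, hw, hw'⟩ := h b hb hfin.toFinset
      exact hw (hfin.mem_toFinset.2 hw')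
  rw [e]
  refine MeasurableSet.biInter (Finset.countable_toSet _) fun b _ =>
    MeasurableSet.iInter fun Z => MeasurableSet.iUnion fun w => ?_
  exact (MeasurableSet.const _).inter (S9_cn_meas F b w)

omit [Countable V] in
private lemma S9_Inf_loc (F : Finset V) (η η' : G.edgeSet → Bool)
    (h : ∀ k ∈ ((S9_T G F : Finset G.edgeSet) : Set G.edgeSet)ᶜ, η k = η' k)
    (hη : η ∈ S9_Inf G F) : η' ∈ S9_Inf G F := by
  intro b hb
  refine (hη b hb).mono fun w hw => ?_
  refine ReflTransGen.mono (fun u v huv => ?_) _ _ hw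
  obtain ⟨h1, h2, h3, h4⟩ := huv
  refine ⟨h1, h2, h3, ?_⟩
  rw [← h ⟨s(u, v), h3⟩ (fun h5 => S9_not_mem h3 h1 h2 (Finset.mem_coe.1 h5))]
  exact h4

omit [Countable V] in
private lemma S9_prob {p : unitInterval} (F : Finset V) :
    ENNReal.ofReal (1 - p) ^ (bd G F).card ≤
      bits (fun _ : G.edgeSet => p) (S9_Cl G F) := by
  rw [S9_Cl_pi, bits, Measure.infinitePi_pi _ (fun _ _ => MeasurableSet.of_discrete)]
  simp only [bern_false, Finset.prod_const]
  refine pow_le_pow_right_of_le_one' ?_ ?_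
  · rw [ENNReal.ofReal_le_one]
    linarith [p.2.1]
  · unfold S9_T
    exact Finset.card_image_le.trans (Finset.card_attach).le

omit [Countable V] in
/-- the set is determined by the configuration -/
private lemma S9_det {F : Finset V} (hF : IsCut G F) {x : V} (hx : x ∈ F)
    {ω : G.edgeSet → Bool} (h1 : ω ∈ S9_Cl G F) (h2 : ω ∈ S9_Inf G F) (y : V) :
    y ∈ F ↔ ReflTransGen (fun a b => G.Adj a b ∧
      ¬ {w | ReflTransGen (S9_opn G ω) b w}.Infinite) x y := by
  have hin : ∀ v ∈ F, ¬ {w | ReflTransGen (S9_opn G ω) v w}.Infinite := by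
    intro v hv hinf
    apply hinf
    refine F.finite_toSet.subset fun w hw => ?_
    have hw' : ReflTransGen (S9_opn G ω) v w := hw
    rw [Finset.mem_coe]
    induction hw' with
    | refl => exact hv
    | tail _ hab ih =>
      obtain ⟨h3, h4⟩ := hab
      by_contra h5
      have h6 := h1 _ (S9_mem h3 (ih ‹_›) h5)
      rw [h6] at h4
      exact absurd h4 (by simp)
  constructor
  · intro hy
    refine ReflTransGen.mono (fun a b hab => ?_) _ _ (hF.conn x hx y hy)
    exact ⟨hab.1, hin b hab.2⟩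
  · intro hy
    induction hy with
    | refl => exact hx
    | @tail a b _ hab ih =>
      by_contra h5
      apply hab.2
      have h6 : b ∈ ob G F := by
        unfold ob
        rw [Finset.mem_image]
        exact ⟨(a, b), mem_bd.2 ⟨ih, h5, hab.1⟩, rfl⟩
      refine (h2 b h6).mono fun w hw => ?_
      refine ReflTransGen.mono (fun u v huv => ?_) _ _ hw
      obtain ⟨-, -, h7, h8 | h8⟩ := huv
      · exact ⟨h7, h8⟩
      · exact absurd h8 (Finset.notMem_empty _)

/-- S9 -/
theorem cutBound_of {p : unitInterval} {θ : ENNReal} (hp : (p : ℝ) < 1) (hθ : 0 < θ) (hθ1 : θ ≤ 1)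
    (h : ∀ F, IsCut G F → θ ^ (bd G F).card ≤
      bits (fun _ : G.edgeSet => p) {ω | ∀ b ∈ ob G F, {w | cn G F ω ∅ b w}.Infinite}) :
    ∃ C : ℕ, CutBound G C := by
  set γ : ENNReal := ENNReal.ofReal (1 - p) * θ with hγ
  have hγ0 : γ ≠ 0 := by
    refine mul_ne_zero ?_ hθ.ne'
    rw [Ne, ENNReal.ofReal_eq_zero, not_le]
    linarith
  obtain ⟨C, hC⟩ := ENNReal.exists_nat_gt (r := γ⁻¹) (ENNReal.inv_ne_top.2 hγ0)
  refine ⟨C, fun x n 𝓕 h𝓕 => ?_⟩
  have hmeas : ∀ F, MeasurableSet (S9_Cl G F ∩ S9_Inf G F) := fun F =>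
    (S9_Cl_meas F).inter (S9_Inf_meas F)
  have hpr : ∀ F ∈ 𝓕, γ ^ n ≤ bits (fun _ : G.edgeSet => p) (S9_Cl G F ∩ S9_Inf G F) := by
    intro F hF
    obtain ⟨-, hcut, hn⟩ := h𝓕 F hF
    rw [bits_indep (S := ((S9_T G F : Finset G.edgeSet) : Set G.edgeSet))
      (T := ((S9_T G F : Finset G.edgeSet) : Set G.edgeSet)ᶜ) _ disjoint_compl_right
      (S9_Cl_meas F) (S9_Inf_meas F) ?_ (S9_Inf_loc F), hγ, mul_pow, ← hn]
    · exact mul_le_mul' (S9_prob F) (h F hcut)
    · intro η η' h1 h2 e he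
      rw [← h1 e (Finset.mem_coe.2 he)]
      exact h2 e he
  have hdisj : Set.PairwiseDisjoint (𝓕 : Set (Finset V))
      fun F => S9_Cl G F ∩ S9_Inf G F := by
    intro F hF F' hF' hne
    rw [Function.onFun, Set.disjoint_left]
    rintro ω ⟨h1, h2⟩ ⟨h3, h4⟩
    apply hne
    ext y
    rw [S9_det (h𝓕 F hF).2.1 (h𝓕 F hF).1 h1 h2 y, S9_det (h𝓕 F' hF').2.1 (h𝓕 F' hF').1 h3 h4 y]
  have hsum : (𝓕.card : ENNReal) * γ ^ n ≤ 1 := by
    calc (𝓕.card : ENNReal) * γ ^ n = ∑ F ∈ 𝓕, γ ^ n := by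
          rw [Finset.sum_const, nsmul_eq_mul]
      _ ≤ ∑ F ∈ 𝓕, bits (fun _ : G.edgeSet => p) (S9_Cl G F ∩ S9_Inf G F) :=
          Finset.sum_le_sum hpr
      _ = bits (fun _ : G.edgeSet => p) (⋃ F ∈ 𝓕, (S9_Cl G F ∩ S9_Inf G F)) :=
          (measure_biUnion_finset hdisj fun F _ => hmeas F).symm
      _ ≤ 1 := prob_le_one
  have h1 : (𝓕.card : ENNReal) ≤ (C : ENNReal) ^ n := by
    calc (𝓕.card : ENNReal) ≤ (γ ^ n)⁻¹ := ENNReal.le_inv_iff_mul_le.2 hsum
      _ = γ⁻¹ ^ n := by rw [ENNReal.inv_pow]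
      _ ≤ (C : ENNReal) ^ n := pow_le_pow_left' hC.le n
  exact_mod_cast h1

end

end Cut7315
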