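import Pool.Agent.Lib.MP_7315a9_cut.DecompStep

/-!
# Decomposition into cuts

Row 7315-A1b. Sketch:
Strong induction on (bd G S).card. S empty: 𝓕 = ∅. Otherwise decomp_step gives 𝓖, H; apply
induction to H: 𝓕H; take 𝓕 = 𝓖 ∪ 𝓕H. Every edge: it is separated by an odd number of members of 𝓕H iff it is
separated by H (par), and by at most one (Lam), so if (a ∈ H ↔ b ∈ H) then no member of 𝓕H separates a, b. By the
fourth property an edge separated by a member of 𝓖 is not separated by H, so by no member of 𝓕H: this gives Lam for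
the union, and disjointness of 𝓖 and 𝓕H (a common member F is finite nonempty, so it has a boundary edge, separated by
both). Then par (𝓖 ∪ 𝓕H) x ↔ xor, which is x ∈ S. (A boundary edge of a finite nonempty set exists by
connectedness and infiniteness: you may prove it here or copy Par.bd_nonempty.)
-/

open MeasureTheory ProbabilityTheory Set Relation
open scoped Classical

namespace Cut7315

open MP7315a9

noncomputable section

variable {V : Type*} {G : SimpleGraph V} [G.LocallyFinite]

private lemma bd_ne [Infinite V] (hG : G.Connected) {F : Finset V} (hF : F.Nonempty) :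
    (bd G F).Nonempty := by
  obtain ⟨a, ha⟩ := hF
  obtain ⟨b, hb⟩ := Infinite.exists_notMem_finset F
  obtain ⟨p⟩ := hG.preconnected a b
  obtain ⟨d, -, h1, h2⟩ := p.exists_boundary_dart (F : Set V) (by simpa using ha)
    (by simpa using hb)
  exact ⟨(d.fst, d.snd), mem_bd.2 ⟨by simpa using h1, by simpa using h2, d.adj⟩⟩

private lemma par_ins {𝓕 : Finset (Finset V)} {F : Finset V} (h : F ∉ 𝓕) (x : V) :
    par (insert F 𝓕) x ↔ ¬ (x ∈ F ↔ par 𝓕 x) := by
  unfold par
  rw [Finset.filter_insert]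
  split_ifs with hx
  · rw [Finset.card_insert_of_notMem (by simp [h]), Nat.odd_add_one]
    tauto
  · tauto

private lemma odd_sep (𝓕 : Finset (Finset V)) (a b : V) :
    Odd (𝓕.filter fun F => ¬ (a ∈ F ↔ b ∈ F)).card ↔ ¬ (par 𝓕 a ↔ par 𝓕 b) := by
  induction 𝓕 using Finset.induction_on with
  | empty => simp [par]
  | insert F 𝓕 h ih =>
    rw [par_ins h, par_ins h, Finset.filter_insert]
    split_ifs with hx
    · rw [ih]
      tauto
    · rw [Finset.card_insert_of_notMem (by simp [h]), Nat.odd_add_one, ih]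
      tauto

/-- A1b -/
theorem decomp [Infinite V] (hG : G.Connected) (S : Finset V) :
    ∃ 𝓕 : Finset (Finset V), (∀ F ∈ 𝓕, IsCut G F) ∧ Lam G 𝓕 ∧ ∀ x, x ∈ S ↔ par 𝓕 x := by
  suffices H : ∀ n, ∀ S : Finset V, (bd G S).card = n →
      ∃ 𝓕 : Finset (Finset V), (∀ F ∈ 𝓕, IsCut G F) ∧ Lam G 𝓕 ∧ ∀ x, x ∈ S ↔ par 𝓕 x from
    H _ S rfl
  intro n
  induction n using Nat.strong_induction_on with
  | _ n ih =>
    intro S hn
    rcases S.eq_empty_or_nonempty with rfl | hS
    · exact ⟨∅, by simp, by intro a b _; simp, by intro x; simp [par]⟩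
    obtain ⟨𝓖, H, h1, h2, h3, h4, h5⟩ := decomp_step hG S hS
    obtain ⟨𝓕, k1, k2, k3⟩ := ih _ (hn ▸ h5) H rfl
    have key : ∀ a b, G.Adj a b → (a ∈ H ↔ b ∈ H) →
        (𝓕.filter fun F => ¬ (a ∈ F ↔ b ∈ F)) = ∅ := by
      intro a b hab hH
      have e1 := k2 a b hab
      have e2 : ¬ Odd (𝓕.filter fun F => ¬ (a ∈ F ↔ b ∈ F)).card := by
        rw [odd_sep, ← k3, ← k3]
        tauto
      rw [← Finset.card_eq_zero]
      by_contra hne
      apply e2
      have : (𝓕.filter fun F => ¬ (a ∈ F ↔ b ∈ F)).card = 1 := by omega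
      rw [this]
      exact odd_one
    have hdis : Disjoint 𝓖 𝓕 := by
      rw [Finset.disjoint_left]
      intro F hF hF'
      obtain ⟨e, he⟩ := bd_ne hG (h1 F hF).nonempty
      obtain ⟨e1, e2, e3⟩ := mem_bd.1 he
      have hs : ¬ (e.1 ∈ F ↔ e.2 ∈ F) := by tauto
      have := key e.1 e.2 e3 (h4 e.1 e.2 e3 F hF hs)
      have hmem : F ∈ (𝓕.filter fun F => ¬ (e.1 ∈ F ↔ e.2 ∈ F)) :=
        Finset.mem_filter.2 ⟨hF', hs⟩
      rw [this] at hmem
      exact absurd hmem (Finset.notMem_empty _)
    refine ⟨𝓖 ∪ 𝓕, ?_, ?_, ?_⟩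
    · intro F hF
      rcases Finset.mem_union.1 hF with hF | hF
      · exact h1 F hF
      · exact k1 F hF
    · intro a b hab
      rw [Finset.filter_union]
      by_cases hex : ∃ F ∈ 𝓖, ¬ (a ∈ F ↔ b ∈ F)
      · obtain ⟨F, hF, hs⟩ := hex
        rw [key a b hab (h4 a b hab F hF hs), Finset.union_empty]
        exact h2 a b hab
      · have : (𝓖.filter fun F => ¬ (a ∈ F ↔ b ∈ F)) = ∅ := by
          rw [Finset.filter_eq_empty_iff]
          intro F hF hs
          exact hex ⟨F, hF, hs⟩
        rw [this, Finset.empty_union]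
        exact k2 a b hab
    · intro x
      have hpu : par (𝓖 ∪ 𝓕) x ↔ ¬ (par 𝓖 x ↔ par 𝓕 x) := by
        unfold par
        rw [Finset.filter_union, Finset.card_union_of_disjoint
          (Finset.disjoint_filter_filter hdis), Nat.odd_add]
        rw [← Nat.not_odd_iff_even]
        tauto
      rw [hpu, h3, k3]

end

end Cut7315
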