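import Pool.Agent.Lib.MP_7315a9_cut.Hull

/-!
# One step of the decomposition into cuts

Row 7315-A1a. Sketch:
Apply hull to S: A. Let 𝓖 = the set of the connected components of A (as finsets), H = A \ S.
Each component F of A is a finite connected set. Co-components are infinite: let x ∉ F. If x ∉ A, the component of x
in V \ A is infinite and avoids A ⊇ F. If x ∈ A is in another component F', then F' has a boundary edge (a,b)
(G connected infinite, F' finite nonempty), b ∉ A (b ∈ A would be in F'), walk x -> a in F', then b, then the infinite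
component of b in V \ A; all these points are outside F. Lam: an edge with different memberships in F must have
its other end outside A (adjacent points of A are in the same component), so its A-end determines F. par: x is
in exactly one member iff x ∈ A, hence x ∈ S iff (x ∈ A and x ∉ H). An edge separated by some F ∈ 𝓖 joins A and V \ A,
its A-end is in S (hull (3)), so both ends are outside H. bd H: an edge (a,b), a ∈ H, b ∉ H: b ∈ A (else a ∈ S), so
b ∈ S, and (b,a) ∈ bd S as a ∉ S; so bd H maps injectively by swap into bd S, and misses the (nonempty) set of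
edges of bd S which leave A (A finite nonempty, so A has a boundary edge; it starts in S). Hence strict.
-/

open MeasureTheory ProbabilityTheory Set Relation
open scoped Classical

namespace Cut7315

open MP7315a9

noncomputable section

variable {V : Type*} {G : SimpleGraph V} [G.LocallyFinite]

private theorem A1a_mono {α : Type*} {r p : α → α → Prop} {x y : α}
    (h : ∀ a b, r a b → p a b) (hxy : ReflTransGen r x y) : ReflTransGen p x y := by
  induction hxy with
  | refl => exact ReflTransGen.refl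
  | tail _ hbc ih => exact ih.tail (h _ _ hbc)

/-- a walk from inside to outside crosses the boundary -/
private theorem A1a_cross {F : Finset V} {x y : V} (h : ReflTransGen G.Adj x y) (hx : x ∈ F) :
    y ∉ F → ∃ a b, a ∈ F ∧ b ∉ F ∧ G.Adj a b := by
  induction h with
  | refl => exact fun hy => absurd hx hy
  | @tail b c _ hbc ih =>
    intro hc
    by_cases hb : b ∈ F
    · exact ⟨b, c, hb, hc, hbc⟩
    · exact ih hb

/-- a finite nonempty set has a boundary edge -/
private theorem A1a_bd [Infinite V] (hG : G.Connected) {F : Finset V} {x : V} (hx : x ∈ F) :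
    ∃ a b, a ∈ F ∧ b ∉ F ∧ G.Adj a b := by
  obtain ⟨y, hy⟩ := Infinite.exists_notMem_finset F
  exact A1a_cross ((SimpleGraph.reachable_iff_reflTransGen x y).1 (hG.preconnected x y)) hx hy

/-- the component of `x` in `A` -/
private def A1a_comp (G : SimpleGraph V) (A : Finset V) (x : V) : Finset V :=
  A.filter fun y => ReflTransGen (fun a b => G.Adj a b ∧ b ∈ A) x y

private theorem A1a_mem {A : Finset V} {x y : V} : y ∈ A1a_comp G A x ↔
    y ∈ A ∧ ReflTransGen (fun a b => G.Adj a b ∧ b ∈ A) x y := by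
  unfold A1a_comp
  exact Finset.mem_filter

private theorem A1a_symm {A : Finset V} {x y : V} (hx : x ∈ A)
    (h : ReflTransGen (fun a b => G.Adj a b ∧ b ∈ A) x y) :
    y ∈ A ∧ ReflTransGen (fun a b => G.Adj a b ∧ b ∈ A) y x := by
  induction h with
  | refl => exact ⟨hx, ReflTransGen.refl⟩
  | @tail b c _ hbc ih => exact ⟨hbc.2, ReflTransGen.head ⟨hbc.1.symm, ih.1⟩ ih.2⟩

private theorem A1a_eq {A : Finset V} {x y : V} (hx : x ∈ A) (h : y ∈ A1a_comp G A x) :
    A1a_comp G A x = A1a_comp G A y := by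
  have h1 := (A1a_mem.1 h).2
  have h2 := (A1a_symm hx h1).2
  ext z
  rw [A1a_mem, A1a_mem]
  exact ⟨fun hz => ⟨hz.1, h2.trans hz.2⟩, fun hz => ⟨hz.1, h1.trans hz.2⟩⟩

private theorem A1a_in {A : Finset V} {x y z : V} (hy : y ∈ A1a_comp G A x)
    (h : ReflTransGen (fun a b => G.Adj a b ∧ b ∈ A) y z) :
    z ∈ A1a_comp G A x ∧
      ReflTransGen (fun a b => G.Adj a b ∧ b ∈ A1a_comp G A x) y z := by
  induction h with
  | refl => exact ⟨hy, ReflTransGen.refl⟩
  | @tail b c _ hbc ih =>
    have hc : c ∈ A1a_comp G A x := A1a_mem.2 ⟨hbc.2, (A1a_mem.1 ih.1).2.tail hbc⟩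
    exact ⟨hc, ih.2.tail ⟨hbc.1, hc⟩⟩

/-- an edge leaving a component leaves `A` -/
private theorem A1a_out {A : Finset V} {x a b : V} (hab : G.Adj a b) (ha : a ∈ A1a_comp G A x)
    (hb : b ∉ A1a_comp G A x) : b ∉ A := fun h =>
  hb (A1a_mem.2 ⟨h, (A1a_mem.1 ha).2.tail ⟨hab, h⟩⟩)

/-- A1a -/
theorem decomp_step [Infinite V] (hG : G.Connected) (S : Finset V) (hS : S.Nonempty) :
    ∃ (𝓖 : Finset (Finset V)) (H : Finset V), (∀ F ∈ 𝓖, IsCut G F) ∧ Lam G 𝓖 ∧
      (∀ x, x ∈ S ↔ ¬ (par 𝓖 x ↔ x ∈ H)) ∧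
      (∀ a b, G.Adj a b → ∀ F ∈ 𝓖, ¬ (a ∈ F ↔ b ∈ F) → (a ∈ H ↔ b ∈ H)) ∧
      (bd G H).card < (bd G S).card := by
  obtain ⟨A, hSA, hinf, hedge, _⟩ := hull hG S hS
  have hself : ∀ x ∈ A, x ∈ A1a_comp G A x := fun x hx => A1a_mem.2 ⟨hx, ReflTransGen.refl⟩
  have hsub : ∀ x, A1a_comp G A x ⊆ A := fun x y hy => (A1a_mem.1 hy).1
  have hmem : ∀ F ∈ A.image (A1a_comp G A), ∃ x ∈ A, A1a_comp G A x = F := fun F hF =>
    Finset.mem_image.1 hF
  have hleave : ∀ a b, G.Adj a b → ∀ F ∈ A.image (A1a_comp G A), a ∈ F → b ∉ F →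
      b ∉ A ∧ a ∈ A ∧ F = A1a_comp G A a := by
    intro a b hab F hF ha hb
    obtain ⟨x, hx, rfl⟩ := hmem F hF
    exact ⟨A1a_out hab ha hb, hsub x ha, A1a_eq hx ha⟩
  refine ⟨A.image (A1a_comp G A), A \ S, ?_, ?_, ?_, ?_, ?_⟩
  · intro F hF
    obtain ⟨x, hx, rfl⟩ := hmem F hF
    refine ⟨⟨x, hself x hx⟩, ?_, ?_⟩
    · intro y hy z hz
      have h1 := (A1a_symm hx (A1a_mem.1 hy).2).2
      exact (A1a_in hy (h1.trans (A1a_mem.1 hz).2)).2
    · intro y hy
      by_cases hyA : y ∈ A
      · have hdis : ∀ z, z ∈ A1a_comp G A y → z ∉ A1a_comp G A x := by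
          intro z hz hz'
          apply hy
          rw [A1a_eq hx hz', ← A1a_eq hyA hz]
          exact hself y hyA
        obtain ⟨a, b, ha, hb, hab⟩ := A1a_bd hG (hself y hyA)
        have hbA : b ∉ A := A1a_out hab ha hb
        have h1 : ReflTransGen (fun a b => G.Adj a b ∧ b ∉ A1a_comp G A x) y a := by
          have h2 := (A1a_in (hself y hyA) (A1a_mem.1 ha).2).2
          exact A1a_mono (fun c d hcd => ⟨hcd.1, hdis d hcd.2⟩) h2
        have h3 : ReflTransGen (fun a b => G.Adj a b ∧ b ∉ A1a_comp G A x) y b :=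
          h1.tail ⟨hab, fun h => hbA (hsub x h)⟩
        refine (hinf b hbA).mono fun z hz => ?_
        have hz' : ReflTransGen (fun a b => G.Adj a b ∧ b ∉ A) b z := hz
        exact h3.trans (A1a_mono (fun c d hcd => ⟨hcd.1, fun h => hcd.2 (hsub x h)⟩) hz')
      · refine (hinf y hyA).mono fun z hz => ?_
        have hz' : ReflTransGen (fun a b => G.Adj a b ∧ b ∉ A) y z := hz
        exact A1a_mono (fun c d hcd => ⟨hcd.1, fun h => hcd.2 (hsub x h)⟩) hz'
  · intro a b hab
    rw [Finset.card_le_one]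
    intro F hF F' hF'
    rw [Finset.mem_filter] at hF hF'
    have key : ∀ F ∈ A.image (A1a_comp G A), ¬ (a ∈ F ↔ b ∈ F) →
        (b ∉ A ∧ a ∈ A ∧ F = A1a_comp G A a) ∨ (a ∉ A ∧ b ∈ A ∧ F = A1a_comp G A b) := by
      intro F hF h
      by_cases ha : a ∈ F
      · exact Or.inl (hleave a b hab F hF ha fun hb => h ⟨fun _ => hb, fun _ => ha⟩)
      · refine Or.inr (hleave b a hab.symm F hF ?_ ha)
        by_contra hb
        exact h ⟨fun h => absurd h ha, fun h => absurd h hb⟩
    rcases key F hF.1 hF.2 with h | h <;> rcases key F' hF'.1 hF'.2 with h' | h'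
    · rw [h.2.2, h'.2.2]
    · exact absurd h'.2.1 h.1
    · exact absurd h.2.1 h'.1
    · rw [h.2.2, h'.2.2]
  · intro x
    have hpar : par (A.image (A1a_comp G A)) x ↔ x ∈ A := by
      unfold par
      constructor
      · intro h
        have h1 : ((A.image (A1a_comp G A)).filter fun F => x ∈ F).Nonempty := by
          rw [← Finset.card_pos]
          exact h.pos
        obtain ⟨F, hF⟩ := h1
        rw [Finset.mem_filter] at hF
        obtain ⟨y, hy, rfl⟩ := hmem F hF.1
        exact hsub y hF.2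
      · intro hx
        have h1 : (A.image (A1a_comp G A)).filter (fun F => x ∈ F) = {A1a_comp G A x} := by
          ext F
          rw [Finset.mem_filter, Finset.mem_singleton]
          constructor
          · rintro ⟨hF, hxF⟩
            obtain ⟨y, hy, rfl⟩ := hmem F hF
            exact A1a_eq hy hxF
          · rintro rfl
            exact ⟨Finset.mem_image_of_mem _ hx, hself x hx⟩
        rw [h1, Finset.card_singleton]
        exact odd_one
    rw [hpar, Finset.mem_sdiff]
    have h2 : x ∈ S → x ∈ A := fun h => hSA h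
    tauto
  · intro a b hab F hF h
    have key : ∀ a b, G.Adj a b → a ∈ F → b ∉ F → (a ∉ A \ S ∧ b ∉ A \ S) := by
      intro a b hab ha hb
      obtain ⟨h1, h2, _⟩ := hleave a b hab F hF ha hb
      have h3 := hedge a h2 b h1 hab
      exact ⟨fun h => (Finset.mem_sdiff.1 h).2 h3, fun h => h1 (Finset.mem_sdiff.1 h).1⟩
    by_cases ha : a ∈ F
    · have hb : b ∉ F := fun hb => h ⟨fun _ => hb, fun _ => ha⟩
      obtain ⟨h1, h2⟩ := key a b hab ha hb
      exact ⟨fun h => absurd h h1, fun h => absurd h h2⟩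
    · have hb : b ∈ F := by
        by_contra hb
        exact h ⟨fun h => absurd h ha, fun h => absurd h hb⟩
      obtain ⟨h1, h2⟩ := key b a hab.symm hb ha
      exact ⟨fun h => absurd h h2, fun h => absurd h h1⟩
  · have hcard : (bd G (A \ S)).card = ((bd G (A \ S)).image Prod.swap).card :=
      (Finset.card_image_of_injective _ Prod.swap_injective).symm
    rw [hcard]
    have hin : ∀ e ∈ bd G (A \ S), e.1 ∈ A ∧ e.2 ∈ S ∧ e.1 ∉ S := by
      intro e he
      obtain ⟨h1, h2, h3⟩ := mem_bd.1 he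
      rw [Finset.mem_sdiff] at h1
      have h4 : e.2 ∈ A := by
        by_contra h4
        exact h1.2 (hedge e.1 h1.1 e.2 h4 h3)
      refine ⟨h1.1, ?_, h1.2⟩
      by_contra h5
      exact h2 (Finset.mem_sdiff.2 ⟨h4, h5⟩)
    obtain ⟨s, hs⟩ := hS
    obtain ⟨c, d, hc, hd, hcd⟩ := A1a_bd hG (hSA hs)
    refine Finset.card_lt_card (Finset.ssubset_iff_subset_ne.2 ⟨?_, ?_⟩)
    · intro e he
      obtain ⟨e', he', rfl⟩ := Finset.mem_image.1 he
      obtain ⟨h1, h2, h3⟩ := hin e' he'
      exact mem_bd.2 ⟨h2, h3, (mem_bd.1 he').2.2.symm⟩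
    · intro heq
      have h1 : (c, d) ∈ bd G S :=
        mem_bd.2 ⟨hedge c hc d hd hcd, fun h => hd (hSA h), hcd⟩
      rw [← heq] at h1
      obtain ⟨e', he', h2⟩ := Finset.mem_image.1 h1
      have h3 := (hin e' he').1
      have h4 : e'.1 = d := congrArg Prod.snd h2
      rw [h4] at h3
      exact hd h3

end

end Cut7315
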