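import Pool.Agent.Lib.MP_7315a9_pr.Criterion
import Pool.Agent.Lib.MP_7315a9_pr.Op

/-!
# Contours for the social network model: definitions

Walkers are observed at the block times `0, T, 2 T, ..., K T`; the sequence of the `K + 1`
positions of a walker at these times is its skeleton. Finite sets `F` of vertices with
`IsCut G F` correspond to the minimal edge cutsets.
-/

open MeasureTheory ProbabilityTheory Set Relation
open scoped Classical

namespace Cut7315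

open MP7315a9

noncomputable section

variable {V : Type*} (G : SimpleGraph V) [G.LocallyFinite]

/-- The boundary edges of `F`, as pairs (inside, outside). -/
def bd (F : Finset V) : Finset (V × V) :=
  F.biUnion fun x => ((G.neighborFinset x).filter fun y => y ∉ F).image fun y => (x, y)

variable {G} in
lemma mem_bd {F : Finset V} {e : V × V} : e ∈ bd G F ↔ e.1 ∈ F ∧ e.2 ∉ F ∧ G.Adj e.1 e.2 := by
  obtain ⟨a, b⟩ := e
  simp only [bd, Finset.mem_biUnion, Finset.mem_image, Finset.mem_filter,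
    SimpleGraph.mem_neighborFinset, Prod.mk.injEq]
  constructor
  · rintro ⟨x, hx, y, ⟨h1, h2⟩, rfl, rfl⟩; exact ⟨hx, h2, h1⟩
  · rintro ⟨h1, h2, h3⟩; exact ⟨a, h1, b, ⟨h3, h2⟩, rfl, rfl⟩

/-- A finite non-empty connected set, all of whose complementary components are infinite. -/
structure IsCut (F : Finset V) : Prop where
  nonempty : F.Nonempty
  conn : ∀ x ∈ F, ∀ y ∈ F, ReflTransGen (fun a b => G.Adj a b ∧ b ∈ F) x y
  inf : ∀ x, x ∉ F → {y | ReflTransGen (fun a b => G.Adj a b ∧ b ∉ F) x y}.Infinite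

/-- At most `C ^ n` minimal cutsets with `n` edges around every vertex. -/
def CutBound (C : ℕ) : Prop :=
  ∀ (x : V) (n : ℕ) (𝓕 : Finset (Finset V)),
    (∀ F ∈ 𝓕, x ∈ F ∧ IsCut G F ∧ (bd G F).card = n) → 𝓕.card ≤ C ^ n

/-- The point `x` lies in an odd number of members of the family. -/
def par (𝓕 : Finset (Finset V)) (x : V) : Prop := Odd (𝓕.filter fun F => x ∈ F).card

/-- The set of the points in an odd number of members of the family. -/
def Sof (𝓕 : Finset (Finset V)) : Finset V := (𝓕.biUnion id).filter (par 𝓕)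

/-- Every edge is a boundary edge of at most one member. -/
def Lam (𝓕 : Finset (Finset V)) : Prop :=
  ∀ a b, G.Adj a b → (𝓕.filter fun F => ¬ (a ∈ F ↔ b ∈ F)).card ≤ 1

/-- The points at distance less than `ℓ` from an endpoint of a boundary edge of a member. -/
def vac (ℓ : ℕ) (𝓕 : Finset (Finset V)) : Finset V :=
  𝓕.biUnion fun F => (bd G F).biUnion fun e => ball G (ℓ - 1) e.1 ∪ ball G (ℓ - 1) e.2

/-- Skeletons. -/
abbrev Sk (V : Type*) (K : ℕ) := Fin (K + 1) → V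

/-- The data of a contour: the block time `s`, the covering walkers `W`, the wrongly placed ones
`W'`, the linking walkers `L`, the cutsets `F` and the centres `Y` of disjoint vacant balls. -/
structure Str (V : Type*) (K : ℕ) where
  s : Fin (K + 1)
  W : Finset (Sk V K)
  W' : Finset (Sk V K)
  L : Finset (Sk V K)
  F : Finset (Finset V)
  Y : Finset V

/-- Nodes. -/
inductive Nd (V : Type*) (K : ℕ)
  | w (σ : Sk V K)
  | y (v : V)
  | c (F : Finset V)

variable {K : ℕ}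

/-- Adjacency of nodes. -/
def nadj (T r : ℕ) (s : Fin (K + 1)) (σ0 : Sk V K) : Nd V K → Nd V K → Prop
  | .w σ, .w σ' => ∃ j, σ' j ∈ ball G (2 * T) (σ j)
  | .w σ, .y v => ∃ j, v ∈ ball G (2 * T + 2 * r) (σ j)
  | .y v, .w σ => ∃ j, v ∈ ball G (2 * T + 2 * r) (σ j)
  | .y v, .c F => ∃ e ∈ bd G F, e.1 ∈ ball G (2 * r) v ∨ e.2 ∈ ball G (2 * r) v
  | .c F, .y v => ∃ e ∈ bd G F, e.1 ∈ ball G (2 * r) v ∨ e.2 ∈ ball G (2 * r) v
  | .w σ, .c F => σ = σ0 ∧ σ s ∈ F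
  | .c F, .w σ => σ = σ0 ∧ σ s ∈ F
  | .y _, .y _ => False
  | .c _, .c _ => False

/-- All elements of `N` can be reached from `u` inside `N`. -/
def ConnF {α : Type*} (adj : α → α → Prop) (N : Finset α) (u : α) : Prop :=
  ∀ n ∈ N, ReflTransGen (fun a b => adj a b ∧ b ∈ N) u n

namespace Str

/-- The colour of a walker: in the set of the family, unless wrongly placed. -/
def red (c : Str V K) (σ : Sk V K) : Prop := ¬ (par c.F (σ c.s) ↔ σ ∈ c.W')

/-- All walkers of the structure. -/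
def wk (c : Str V K) (σ0 : Sk V K) : Finset (Sk V K) := insert σ0 (c.W ∪ c.L)

/-- All nodes of the structure. -/
def nodes (c : Str V K) (σ0 : Sk V K) : Finset (Nd V K) :=
  (c.wk σ0).image Nd.w ∪ c.Y.image Nd.y ∪ c.F.image Nd.c

/-- The deterministic properties. -/
structure Ok (c : Str V K) (G : SimpleGraph V) [G.LocallyFinite] (Δ ℓ r v T : ℕ)
    (σ0 : Sk V K) : Prop where
  cut : ∀ F ∈ c.F, IsCut G F
  sub : c.W' ⊆ c.W
  volY : c.Y.card * v ≤ (vac G ℓ c.F).card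
  volF : ℓ * ∑ F ∈ c.F, (bd G F).card ≤ 2 * Δ * (vac G ℓ c.F).card
  cardL : c.L.card ≤ 2 * (c.W.card + c.Y.card)
  pos : 1 ≤ c.W.card + c.Y.card
  conn : ConnF (nadj G T r c.s σ0) (c.nodes σ0) (Nd.w σ0)

/-- The structure is realised by the walkers `Occ` with the acquaintances `Acq`. -/
structure Real (c : Str V K) (G : SimpleGraph V) [G.LocallyFinite] (D ℓ : ℕ)
    (Occ : Set (Sk V K)) (Acq : Sk V K → Sk V K → Prop) (σ0 : Sk V K) : Prop where
  occ : ∀ σ ∈ c.wk σ0, σ ∈ Occ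
  vacant : ∀ σ ∈ Occ, σ c.s ∈ vac G ℓ c.F → σ ∈ c.W
  closed : ∀ σ ∈ Occ, ∀ σ' ∈ Occ, Acq σ σ' → (c.red σ ↔ c.red σ')
  mtch : ∀ j : Fin (K + 1), ∃ M : Finset (Sk V K × Sk V K), c.W.card ≤ 2 * M.card ∧
    (∀ p ∈ M, p.1 ∈ Occ ∧ p.2 ∈ Occ ∧ c.red p.1 ∧ ¬ c.red p.2 ∧ p.2 j ∈ ball G D (p.1 j)) ∧
    ∀ p ∈ M, ∀ q ∈ M, p.1 = q.1 ∨ p.2 = q.2 → p = q

end Str

/-- A walker system. -/
structure WSys (G : SimpleGraph V) [G.LocallyFinite] (T : ℕ) (Occ : Set (Sk V K))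
    (Acq : Sk V K → Sk V K → Prop) : Prop where
  step : ∀ σ ∈ Occ, ∀ j : Fin K, σ j.succ ∈ ball G T (σ j.castSucc)
  symm : ∀ σ σ', Acq σ σ' → Acq σ' σ
  near : ∀ σ ∈ Occ, ∀ σ' ∈ Occ, Acq σ σ' → ∃ j, σ' j ∈ ball G (2 * T) (σ j)

/-- `R` is a finite union of classes containing `σ0`. -/
def Cl (Occ : Set (Sk V K)) (Acq : Sk V K → Sk V K → Prop) (σ0 : Sk V K)
    (R : Finset (Sk V K)) : Prop :=
  (R : Set (Sk V K)) ⊆ Occ ∧ σ0 ∈ R ∧ ∀ σ ∈ R, ∀ σ' ∈ Occ, Acq σ σ' → σ' ∈ R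

/-- `W` covers the pairs of walkers of different colours at distance at most `D` at block time
`j`. -/
def Cov (D : ℕ) (Occ : Set (Sk V K)) (R W : Finset (Sk V K)) (j : Fin (K + 1)) : Prop :=
  (W : Set (Sk V K)) ⊆ Occ ∧
  ∀ σ ∈ R, ∀ σ' ∈ Occ, σ' ∉ R → σ' j ∈ ball G D (σ j) → σ ∈ W ∨ σ' ∈ W

/-- `S` separates the two colours, apart from `W`, at block time `s`. -/
def Adm (ℓ : ℕ) (Occ : Set (Sk V K)) (R W : Finset (Sk V K)) (s : Fin (K + 1))
    (S : Finset V) : Prop :=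
  (∀ σ ∈ R, σ ∉ W → ∀ z ∈ ball G ℓ (σ s), z ∈ S) ∧
  ∀ σ ∈ Occ, σ ∉ R → σ ∉ W → ∀ z ∈ ball G ℓ (σ s), z ∉ S

/-- The minimal choice. -/
structure MinCh (D ℓ : ℕ) (Occ : Set (Sk V K)) (Acq : Sk V K → Sk V K → Prop) (σ0 : Sk V K)
    (R W : Finset (Sk V K)) (s : Fin (K + 1)) (S : Finset V) : Prop where
  cl : Cl Occ Acq σ0 R
  cov : Cov G D Occ R W s
  adm : Adm G ℓ Occ R W s S
  min1 : ∀ R' W' j, Cl Occ Acq σ0 R' → Cov G D Occ R' W' j → W.card ≤ W'.card
  min2 : ∀ R' W' j S', Cl Occ Acq σ0 R' → Cov G D Occ R' W' j → Adm G ℓ Occ R' W' j S' →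
    W'.card = W.card → (bd G S).card ≤ (bd G S').card

/-- The walker `σ` touches the group of objects `𝓕1`, `W1`. -/
def touch (T : ℕ) (𝓕1 : Finset (Finset V)) (W1 : Finset (Sk V K)) (σ : Sk V K) : Prop :=
  σ ∈ W1 ∨ ∃ F ∈ 𝓕1, ∃ e ∈ bd G F, ∃ j, e.1 ∈ ball G (2 * T) (σ j)

/-! ## Probability -/

/-- The skeleton of a path. -/
def skel (K T : ℕ) (γ : Tr V (K * T)) : Sk V K := fun j =>
  γ ⟨(j : ℕ) * T, Nat.lt_succ_of_le (Nat.mul_le_mul_right T (Nat.lt_succ_iff.1 j.2))⟩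

/-- Legal paths. -/
def Lg {n : ℕ} (γ : Tr V n) : Prop :=
  ∀ s : Fin n, γ s.succ = γ s.castSucc ∨ G.Adj (γ s.castSucc) (γ s.succ)

/-- The occupied skeletons. -/
def occ {K T : ℕ} (η : Tr V (K * T) → Bool) : Set (Sk V K) :=
  {σ | ∃ γ, η γ = true ∧ Lg G γ ∧ skel K T γ = σ}

/-- Acquaintance of skeletons. -/
def acs {K T : ℕ} (η : Tr V (K * T) → Bool) (σ σ' : Sk V K) : Prop :=
  ∃ γ γ', (η γ = true ∧ Lg G γ ∧ skel K T γ = σ) ∧ (η γ' = true ∧ Lg G γ' ∧ skel K T γ' = σ') ∧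
    Meet γ γ'

/-- The mass of a path. -/
def ms {n : ℕ} (γ : Tr V n) : ℝ := G.degree (γ 0) * (wt G γ).toReal

/-- The probability that the path `γ` is occupied. -/
def bet (lam : NNReal) {n : ℕ} (γ : Tr V n) : unitInterval :=
  ⟨1 - Real.exp (-(lam * ms G γ)), by
    constructor
    · rw [sub_nonneg, Real.exp_le_one_iff, neg_nonpos]
      unfold ms
      positivity
    · rw [sub_le_self_iff]
      exact (Real.exp_pos _).le⟩

variable [MeasurableSpace V]

/-- Transition probabilities of the lazy walk over one block. -/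
def pT (T : ℕ) (x y : V) : ℝ := (pl G T x).real {γ | γ (Fin.last T) = y}

/-- The mass of a skeleton. -/
def wsk (T : ℕ) (σ : Sk V K) : ℝ := G.degree (σ 0) * ∏ j : Fin K, pT G T (σ j.castSucc) (σ j.succ)

/-- The number of the fast blocks. -/
def nf (τ : ℕ) (σ : Sk V K) : ℕ :=
  (Finset.univ.filter fun j : Fin K => σ j.succ ∉ ball G (3 * τ) (σ j.castSucc)).card

/-- The meeting constant. -/
def c1 (Δ T : ℕ) : ℝ := ((2 * Δ : ℝ) ^ (2 * T))⁻¹

end

end Cut7315
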