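import Pool.Agent.Lib.MP_7315a9_cut.Def

/-!
# Contours for the social network model: further definitions
-/

open MeasureTheory ProbabilityTheory Set Relation
open scoped Classical

namespace Cut7315

open MP7315a9

noncomputable section

variable {V : Type*} (G : SimpleGraph V) [G.LocallyFinite]

/-- Make the paths of `P` occupied. -/
def setT {X : Type*} (P : Finset X) (η : X → Bool) : X → Bool := fun γ => if γ ∈ P then true else η γ

/-- Erase the legal paths with skeleton in `W`. -/
def erase {K T : ℕ} (W : Finset (Sk V K)) (η : Tr V (K * T) → Bool) : Tr V (K * T) → Bool :=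
  fun γ => if Lg G γ ∧ skel K T γ ∈ W then false else η γ

/-- The agents: the walkers of the cloud and the pinned walkers. -/
abbrev Ag (V : Type*) (K : ℕ) := (V × ℕ) ⊕ Sk V K

variable {K : ℕ}

/-- The position of an agent at the block time `s`. -/
def st (s : Fin (K + 1)) : Ag V K → V := Sum.elim Prod.fst fun σ => σ s

lemma le_aux {K T s i : ℕ} (hs : s ≤ K) (hi : i ≤ (K - s) * T) : s * T + i ≤ K * T := by
  calc s * T + i ≤ s * T + (K - s) * T := by omega
    _ = K * T := by rw [← Nat.add_mul, Nat.add_sub_cancel' hs]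

/-- The part of a path before the block time `s`, read backwards. -/
def bw {T : ℕ} (s : Fin (K + 1)) (γ : Tr V (K * T)) : Tr V ((s : ℕ) * T) := fun i =>
  γ ⟨s * T - i, Nat.lt_succ_of_le ((Nat.sub_le _ _).trans
    (Nat.mul_le_mul_right T (Nat.lt_succ_iff.1 s.2)))⟩

/-- The part of a path after the block time `s`. -/
def fw {T : ℕ} (s : Fin (K + 1)) (γ : Tr V (K * T)) : Tr V ((K - (s : ℕ)) * T) := fun i =>
  γ ⟨s * T + i, Nat.lt_succ_of_le (le_aux (Nat.lt_succ_iff.1 s.2) (Nat.lt_succ_iff.1 i.2))⟩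

/-- The skeleton before the block time `s`, read backwards. -/
def sbw (s : Fin (K + 1)) (σ : Sk V K) : Sk V (s : ℕ) := fun j =>
  σ ⟨s - j, by omega⟩

/-- The skeleton after the block time `s`. -/
def sfw (s : Fin (K + 1)) (σ : Sk V K) : Sk V (K - (s : ℕ)) := fun j =>
  σ ⟨s + j, by omega⟩

/-- Numbers of walkers, backward paths and forward paths. -/
abbrev Cfg (V : Type*) (K T : ℕ) (s : Fin (K + 1)) :=
  (V → ℕ) × (Ag V K → Tr V ((s : ℕ) * T)) × (Ag V K → Tr V ((K - (s : ℕ)) * T))

/-- The law of the configurations rooted at the block time `s`. -/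
def clLaw [MeasurableSpace V] (lam : NNReal) (T : ℕ) (s : Fin (K + 1)) : Measure (Cfg V K T s) :=
  (Measure.infinitePi fun v => poissonMeasure (lam * G.degree v)).prod
    ((Measure.infinitePi fun a : Ag V K => pl G ((s : ℕ) * T) (st s a)).prod
      (Measure.infinitePi fun a : Ag V K => pl G ((K - (s : ℕ)) * T) (st s a)))

/-- The occupied paths of the cloud. -/
def cl {T : ℕ} {s : Fin (K + 1)} (c : Cfg V K T s) (γ : Tr V (K * T)) : Bool :=
  decide (∃ i < c.1 (skel K T γ s), c.2.1 (Sum.inl (skel K T γ s, i)) = bw s γ ∧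
    c.2.2 (Sum.inl (skel K T γ s, i)) = fw s γ)

/-- The occupied paths of the social network. -/
def oc {n : ℕ} (ω : Om V) (γ : Tr V n) : Bool := decide (∃ i < ω.1 (γ 0), traj n ω (γ 0, i) = γ)

/-- The event for the sequential bound: the walkers of `U` have the skeletons `σ`, at the start of
every block there are `m` disjoint pairs of active walkers of different colours at distance at most
`D`, and active walkers of different colours do not meet. -/
def Ev {I : Type*} (D T k m : ℕ) (U : Finset I) (σ : I → Sk V k) (red : I → Prop) (A : Set I) :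
    Set (I → Tr V (k * T)) :=
  {Γ | (∀ a ∈ U, skel k T (Γ a) = σ a) ∧
    (∀ j : Fin k, ∃ M : Finset (I × I), m ≤ M.card ∧
      (∀ p ∈ M, p.1 ∈ A ∧ p.2 ∈ A ∧ red p.1 ∧ ¬ red p.2 ∧
        skel k T (Γ p.2) j.castSucc ∈ ball G D (skel k T (Γ p.1) j.castSucc)) ∧
      ∀ p ∈ M, ∀ q ∈ M, p.1 = q.1 ∨ p.2 = q.2 → p = q) ∧
    ∀ a ∈ A, ∀ b ∈ A, red a → ¬ red b → ¬ Meet (Γ a) (Γ b)}

/-- The number of the walkers of `U` which are fast in the block `j`. -/
def fst' {I : Type*} {k : ℕ} (τ : ℕ) (U : Finset I) (σ : I → Sk V k) (j : Fin k) : ℕ :=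
  (U.filter fun a => σ a j.succ ∉ ball G (3 * τ) (σ a j.castSucc)).card

variable [MeasurableSpace V]

/-- The bound for the sequential event. -/
def evB {I : Type*} {k : ℕ} (Δ T τ m : ℕ) (U : Finset I) (σ : I → Sk V k) : ℝ :=
  (∏ a ∈ U, ∏ j : Fin k, pT G T (σ a j.castSucc) (σ a j.succ)) *
    ∏ j : Fin k, (1 - c1 Δ T) ^ (m - fst' G τ U σ j)

/-- The weights of the nodes. -/
def wN (T τ : ℕ) (κ z a Q β : ℝ) : Nd V K → ℝ
  | .w σ => 8 * κ * z / Q ^ K * (wsk G T σ * a ^ nf G τ σ)
  | .y _ => z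
  | .c F => if IsCut G F then Real.exp (-(β * (bd G F).card)) else 0

/-- The Kotecky-Preiss function. -/
def phN : Nd V K → ℝ
  | .w _ => 1
  | .y _ => 1
  | .c F => (bd G F).card

end

end Cut7315
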