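import Pool.Agent.Lib.MP_7315a9_cut.Def2

/-!
# Uniform percolation and minimal cutsets: definitions
-/

open MeasureTheory ProbabilityTheory Set Relation
open scoped Classical

namespace Cut7315

open MP7315a9

noncomputable section

variable {V : Type*} (G : SimpleGraph V) [G.LocallyFinite]

/-- The cluster of every vertex is infinite with probability at least `c`, for the parameter `p`. -/
def Uni (p : unitInterval) (c : ℝ) : Prop :=
  ∀ v, ENNReal.ofReal c ≤
    bits (fun _ : G.edgeSet => p) {ω | {u | (openGraph G ω).Reachable v u}.Infinite}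

/-- Connections by open edges inside `Y`. -/
def yc (Y : Finset V) (ω : G.edgeSet → Bool) : V → V → Prop :=
  ReflTransGen fun a b => a ∈ Y ∧ b ∈ Y ∧ ∃ h : G.Adj a b, ω ⟨s(a, b), h⟩ = true

/-- The open clusters inside `Y` of the neighbours of `A`. -/
def expK (Y A : Finset V) (ω : G.edgeSet → Bool) : Finset V :=
  Y.filter fun v => ∃ u ∈ Y, (∃ a ∈ A, G.Adj a u) ∧ yc G Y ω u v

/-- `A` and `A'` are adjacent, or linked by a cluster inside `Y`. -/
def Suc (Y A : Finset V) (A' : Set V) (ω : G.edgeSet → Bool) : Prop :=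
  (∃ a ∈ A, ∃ a' ∈ A', G.Adj a a') ∨ ∃ v ∈ expK G Y A ω, ∃ a' ∈ A', G.Adj v a'

/-- The edges touching `D`. -/
def tch (D : Finset V) : Finset G.edgeSet :=
  (D.biUnion fun x => (G.neighborFinset x).image fun y => s(x, y)).subtype (· ∈ G.edgeSet)

variable {G} in
lemma mem_tch {D : Finset V} {e : G.edgeSet} : e ∈ tch G D ↔ ∃ x ∈ D, x ∈ (e : Sym2 V) := by
  obtain ⟨e, he⟩ := e
  simp only [tch, Finset.mem_subtype, Finset.mem_biUnion, Finset.mem_image,
    SimpleGraph.mem_neighborFinset]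
  constructor
  · rintro ⟨x, hx, y, _, rfl⟩
    exact ⟨x, hx, by simp⟩
  · rintro ⟨x, hx, hxe⟩
    induction e using Sym2.ind with
    | _ a b =>
      rw [SimpleGraph.mem_edgeSet] at he
      rw [Sym2.mem_iff] at hxe
      rcases hxe with rfl | rfl
      · exact ⟨x, hx, b, he, rfl⟩
      · exact ⟨x, hx, a, he.symm, Sym2.eq_swap⟩

/-- A step outside `F`, along an open edge or an edge of `Q`. -/
def stp (F : Finset V) (ω : G.edgeSet → Bool) (Q : Finset G.edgeSet) (a b : V) : Prop :=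
  a ∉ F ∧ b ∉ F ∧ ∃ h : G.Adj a b, ω ⟨s(a, b), h⟩ = true ∨ (⟨s(a, b), h⟩ : G.edgeSet) ∈ Q

/-- Connections outside `F` by open edges and edges of `Q`. -/
def cn (F : Finset V) (ω : G.edgeSet → Bool) (Q : Finset G.edgeSet) : V → V → Prop :=
  ReflTransGen (stp G F ω Q)

/-- The outer vertex boundary. -/
def ob (F : Finset V) : Finset V := (bd G F).image Prod.snd

/-- After opening at most `N` edges all outer boundary points of `F` are connected, outside `F`, to
points outside `X ∪ F`. -/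
def GoodN (F X : Finset V) (N : ℕ) (ω : G.edgeSet → Bool) : Prop :=
  ∃ Q : Finset G.edgeSet, Q.card ≤ N ∧ ∀ b ∈ ob G F, ∃ w, w ∉ X ∧ w ∉ F ∧ cn G F ω Q b w

/-- Islands: explored sets with a centre and a rank. -/
structure Isl (V : Type*) where
  I : Finset V
  c : V
  r : ℕ

/-- The invariant of the exploration. -/
def Inv (F X : Finset V) (L : Finset (Isl V)) (DJ : Finset V) (rJ q : ℕ)
    (ω : G.edgeSet → Bool) : Prop :=
  ∃ Q0 : Finset G.edgeSet, Q0.card ≤ q ∧
    (∀ a ∈ L, ∀ u ∈ a.I, ∃ Q : Finset G.edgeSet, Q.card ≤ a.r ∧ cn G F ω (Q0 ∪ Q) u a.c) ∧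
    (∀ b ∈ ob G F, (∃ a ∈ L, cn G F ω Q0 b a.c) ∨ ∃ w, w ∉ X ∧ w ∉ F ∧ cn G F ω Q0 b w) ∧
    ∀ u ∈ DJ, ∃ Q : Finset G.edgeSet, Q.card ≤ rJ ∧
      ∃ w, w ∉ X ∧ w ∉ F ∧ cn G F ω (Q0 ∪ Q) u w

/-- Replace the values on `S` by those of `η`. -/
def mrg {X : Type*} (S : Finset X) (η ω : X → Bool) : X → Bool := fun k => if k ∈ S then η k else ω k

/-- Quasi-transitive graphs. -/
def QTrans (G : SimpleGraph V) : Prop :=
  ∃ S : Finset V, ∀ x, ∃ s ∈ S, ∃ φ : G ≃g G, φ s = x

end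

end Cut7315
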