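import Pool.Agent.Lib.MP_7315a9_cut.Def2

/-!
# The deterministic bound

Row 7315-D3. Sketch:
Write n = |wk|, u = |W|, y = |Y|. n ≤ 1 + u + 2(u + y). Product over nodes = product over wk, Y, F (disjoint
injective images). |vac| ≥ y v/2 + ell ∑|bd F|/(4Δ) (half of volY plus half of volF). So
LHS ≤ ∏ κ wsk * ∏_F exp(-β|bd F|) * e^{-lam v y/2} * ∏_j(...). With m = (u+1)/2, f_j = fst', ∑_j f_j = ∑_σ nf σ =: Nf.
Case u ≤ y: (so y ≥ 1) ∏_j ≤ 1, e^{-lam v y/2} ≤ z^{7y} ≤ z^{n+y}: first term (a = 1). Case u > y, 4 Nf ≤ K u: ∏_j (1-c1)^{m-f_j} ≤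
exp(-c1 (K m - Nf)) ≤ exp(-c1 K u/4) ≤ z^{7u} ≤ z^{n+y}: first term. Case u > y, 4 Nf ≥ K u: ∏_j ≤ 1; 16^{Nf} (1/2)^{K u} ≥ 1 (16 = 2^4), and
(1/2)^{Ku} ≤ (z^7 / Q^{7K})^u ≤ z^{n+y} Q^{-K n}: second term (a = 16).
-/

open MeasureTheory ProbabilityTheory Set Relation
open scoped Classical

namespace Cut7315

open MP7315a9

noncomputable section

variable {V : Type*} {G : SimpleGraph V} [G.LocallyFinite] {K T : ℕ}
variable [MeasurableSpace V] [DiscreteMeasurableSpace V] [Countable V]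

omit [G.LocallyFinite] [MeasurableSpace V] [DiscreteMeasurableSpace V] [Countable V] in
lemma c1_pos {Δ : ℕ} (hΔ : 1 ≤ Δ) (T : ℕ) : 0 < c1 Δ T := by
  unfold c1
  have : (0 : ℝ) < Δ := by exact_mod_cast hΔ
  positivity

lemma c1_le_one {Δ : ℕ} (hΔ : 1 ≤ Δ) (T : ℕ) : c1 Δ T ≤ 1 := by
  unfold c1
  apply inv_le_one_of_one_le₀
  apply one_le_pow₀
  have : (1 : ℝ) ≤ Δ := by exact_mod_cast hΔ
  linarith

omit [DiscreteMeasurableSpace V] [Countable V] in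
lemma wsk_nonneg (T : ℕ) (σ : Sk V K) : 0 ≤ wsk G T σ := by
  unfold wsk
  apply mul_nonneg (Nat.cast_nonneg _)
  apply Finset.prod_nonneg
  intro j _
  unfold pT
  exact measureReal_nonneg

omit [MeasurableSpace V] [DiscreteMeasurableSpace V] [Countable V] in
lemma sum_fst' (τ : ℕ) (U : Finset (Sk V K)) :
    ∑ j : Fin K, fst' G τ U id j = ∑ σ ∈ U, nf G τ σ := by
  unfold fst' nf
  simp only [Finset.card_filter, id]
  rw [Finset.sum_comm]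

omit [MeasurableSpace V] [DiscreteMeasurableSpace V] [Countable V] in
lemma prod_nodes (c : Str V K) (σ0 : Sk V K) (f : Nd V K → ℝ) :
    ∏ n ∈ c.nodes σ0, f n =
      (∏ σ ∈ c.wk σ0, f (Nd.w σ)) * (∏ v ∈ c.Y, f (Nd.y v)) * ∏ F ∈ c.F, f (Nd.c F) := by
  unfold Str.nodes
  rw [Finset.prod_union, Finset.prod_union, Finset.prod_image, Finset.prod_image,
    Finset.prod_image]
  · intro a _ b _ h; injection h
  · intro a _ b _ h; injection h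
  · intro a _ b _ h; injection h
  · rw [Finset.disjoint_left]
    intro a ha hb
    simp only [Finset.mem_image] at ha hb
    obtain ⟨x, _, rfl⟩ := ha
    obtain ⟨x', _, hx⟩ := hb
    cases hx
  · rw [Finset.disjoint_left]
    intro a ha hb
    simp only [Finset.mem_union, Finset.mem_image] at ha hb
    obtain ⟨x', _, hx⟩ := hb
    rcases ha with ⟨x, _, rfl⟩ | ⟨x, _, rfl⟩ <;> cases hx

omit [DiscreteMeasurableSpace V] [Countable V] in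
lemma prod_wN {τ ℓ Δ : ℕ} (lam : NNReal) {κ z a Q : ℝ} {σ0 : Sk V K} (c : Str V K)
    (hcut : ∀ F ∈ c.F, IsCut G F) :
    (1 / 8 : ℝ) ^ (c.wk σ0).card *
      ∏ n ∈ c.nodes σ0, wN G (4 * τ) τ κ z a Q (lam * ℓ / (4 * Δ)) n =
    (∏ σ ∈ c.wk σ0, κ * wsk G (4 * τ) σ) *
      ((z / Q ^ K) ^ (c.wk σ0).card * a ^ (∑ σ ∈ c.wk σ0, nf G τ σ) * z ^ c.Y.card) *
      Real.exp (-(lam * ℓ / (4 * Δ) * ∑ F ∈ c.F, ((bd G F).card : ℝ))) := by
  rw [prod_nodes]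
  have h1 : ∏ v ∈ c.Y, wN G (4 * τ) τ κ z a Q (lam * ℓ / (4 * Δ)) (Nd.y v : Nd V K) =
      z ^ c.Y.card := by
    simp [wN]
  have h2 : ∏ F ∈ c.F, wN G (4 * τ) τ κ z a Q (lam * ℓ / (4 * Δ)) (Nd.c F : Nd V K) =
      Real.exp (-(lam * ℓ / (4 * Δ) * ∑ F ∈ c.F, ((bd G F).card : ℝ))) := by
    rw [Finset.mul_sum, ← Finset.sum_neg_distrib, Real.exp_sum]
    refine Finset.prod_congr rfl fun F hF => ?_
    simp only [wN, if_pos (hcut F hF)]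
  have h3 : ∏ σ ∈ c.wk σ0, wN G (4 * τ) τ κ z a Q (lam * ℓ / (4 * Δ)) (Nd.w σ) =
      8 ^ (c.wk σ0).card * ((∏ σ ∈ c.wk σ0, κ * wsk G (4 * τ) σ) *
      ((z / Q ^ K) ^ (c.wk σ0).card * a ^ (∑ σ ∈ c.wk σ0, nf G τ σ))) := by
    rw [← Finset.prod_pow_eq_pow_sum, ← Finset.prod_const, ← Finset.prod_const,
      ← Finset.prod_mul_distrib, ← Finset.prod_mul_distrib, ← Finset.prod_mul_distrib]
    refine Finset.prod_congr rfl fun σ _ => ?_
    simp only [wN]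
    ring
  rw [h1, h2, h3]
  have h8 : (1 / 8 : ℝ) ^ (c.wk σ0).card * 8 ^ (c.wk σ0).card = 1 := by
    rw [← mul_pow]; norm_num
  linear_combination ((∏ σ ∈ c.wk σ0, κ * wsk G (4 * τ) σ) *
      ((z / Q ^ K) ^ (c.wk σ0).card * a ^ (∑ σ ∈ c.wk σ0, nf G τ σ)) * z ^ c.Y.card *
      Real.exp (-(lam * ℓ / (4 * Δ) * ∑ F ∈ c.F, ((bd G F).card : ℝ)))) * h8

omit [MeasurableSpace V] [DiscreteMeasurableSpace V] [Countable V] in
lemma exp_vac {ℓ r v T Δ : ℕ} (hΔ : 1 ≤ Δ) (lam : NNReal) {σ0 : Sk V K} (c : Str V K)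
    (hc : c.Ok G Δ ℓ r v T σ0) :
    Real.exp (-(lam * (vac G ℓ c.F).card)) ≤ Real.exp (-(lam * v / 2)) ^ c.Y.card *
      Real.exp (-(lam * ℓ / (4 * Δ) * ∑ F ∈ c.F, ((bd G F).card : ℝ))) := by
  rw [← Real.exp_nat_mul, ← Real.exp_add, Real.exp_le_exp]
  have hl : (0 : ℝ) ≤ lam := lam.2
  have hD : (0 : ℝ) < Δ := by exact_mod_cast hΔ
  have hY : (c.Y.card : ℝ) * v ≤ (vac G ℓ c.F).card := by exact_mod_cast hc.volY
  have hF : (ℓ : ℝ) * ∑ F ∈ c.F, ((bd G F).card : ℝ) ≤ 2 * Δ * (vac G ℓ c.F).card := by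
    exact_mod_cast hc.volF
  have hF' : (ℓ : ℝ) * (∑ F ∈ c.F, ((bd G F).card : ℝ)) / (4 * Δ) ≤ (vac G ℓ c.F).card / 2 := by
    rw [div_le_iff₀ (by positivity)]
    linarith
  have h1 : (lam : ℝ) * ℓ / (4 * Δ) * ∑ F ∈ c.F, ((bd G F).card : ℝ) =
      lam * ((ℓ : ℝ) * (∑ F ∈ c.F, ((bd G F).card : ℝ)) / (4 * Δ)) := by ring
  rw [h1]
  have h2 := mul_le_mul_of_nonneg_left hF' hl
  have h3 := mul_le_mul_of_nonneg_left hY hl
  nlinarith [h2, h3]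

/-- The three cases. -/
lemma three_cases {K n u y Nf : ℕ} {e z Q C P : ℝ} (hz : 0 < z) (hz1 : z ≤ 1) (hQ : 1 ≤ Q)
    (hn : n ≤ 1 + u + 2 * (u + y)) (hpos : 1 ≤ u + y) (he0 : 0 ≤ e) (he : e ≤ z ^ 7) (hP0 : 0 ≤ P)
    (hP1 : P ≤ 1)
    (hP : P ≤ Real.exp (-(C * (K * ((u : ℝ) / 2) - Nf)))) (hC : 0 ≤ C)
    (h2 : Real.exp (-(C * K / 4)) ≤ z ^ 7)
    (h3 : (1 / 2 : ℝ) ^ K * Q ^ (7 * K) ≤ z ^ 7) :
    e ^ y * P ≤ (z / 1 ^ K) ^ n * 1 ^ Nf * z ^ y + (z / Q ^ K) ^ n * 16 ^ Nf * z ^ y := by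
  have hQ0 : 0 < Q := by linarith
  have he1 : e ≤ 1 := he.trans (pow_le_one₀ hz.le hz1)
  have hA : 0 ≤ (z / 1 ^ K) ^ n * 1 ^ Nf * z ^ y := by positivity
  have hB : 0 ≤ (z / Q ^ K) ^ n * 16 ^ Nf * z ^ y := by positivity
  have hA' : (z / 1 ^ K) ^ n * 1 ^ Nf * z ^ y = z ^ (n + y) := by
    rw [one_pow, one_pow, div_one, mul_one, ← pow_add]
  rcases le_or_gt u y with h | h
  · have h7 : n + y ≤ 7 * y := by omega
    calc e ^ y * P ≤ e ^ y * 1 := by gcongr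
      _ ≤ (z ^ 7) ^ y := by rw [mul_one]; gcongr
      _ = z ^ (7 * y) := by rw [← pow_mul]
      _ ≤ z ^ (n + y) := pow_le_pow_of_le_one hz.le hz1 h7
      _ ≤ _ := by rw [← hA']; linarith
  · have h7 : n + y ≤ 7 * u := by omega
    have hey : e ^ y * P ≤ P := by
      have := pow_le_one₀ (n := y) he0 he1
      nlinarith
    rcases le_or_gt (4 * Nf) (K * u) with h4 | h4
    · have h4' : (4 : ℝ) * Nf ≤ K * u := by exact_mod_cast h4
      calc e ^ y * P ≤ P := hey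
        _ ≤ Real.exp (-(C * (K * ((u : ℝ) / 2) - Nf))) := hP
        _ ≤ Real.exp (u * (-(C * K / 4))) := by
            rw [Real.exp_le_exp]
            have : C * ((K : ℝ) * u / 4) ≤ C * (K * ((u : ℝ) / 2) - Nf) :=
              mul_le_mul_of_nonneg_left (by linarith) hC
            linarith
        _ = Real.exp (-(C * K / 4)) ^ u := Real.exp_nat_mul _ _
        _ ≤ (z ^ 7) ^ u := by gcongr
        _ = z ^ (7 * u) := by rw [← pow_mul]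
        _ ≤ z ^ (n + y) := pow_le_pow_of_le_one hz.le hz1 h7
        _ ≤ _ := by rw [← hA']; linarith
    · have hkey : 1 ≤ (z / Q ^ K) ^ n * 16 ^ Nf * z ^ y := by
        have h5 : (1 : ℝ) ≤ 2 ^ K * z ^ 7 / Q ^ (7 * K) := by
          rw [le_div_iff₀ (by positivity), one_mul]
          calc Q ^ (7 * K) = 2 ^ K * ((1 / 2 : ℝ) ^ K * Q ^ (7 * K)) := by
                rw [← mul_assoc, ← mul_pow]; norm_num
            _ ≤ 2 ^ K * z ^ 7 := by gcongr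
        have h6 : (1 : ℝ) ≤ (2 ^ K * z ^ 7 / Q ^ (7 * K)) ^ u := one_le_pow₀ h5
        have h8 : (2 ^ K * z ^ 7 / Q ^ (7 * K)) ^ u =
            2 ^ (K * u) * z ^ (7 * u) / (Q ^ K) ^ (7 * u) := by
          rw [div_pow, mul_pow, ← pow_mul, ← pow_mul, ← pow_mul, ← pow_mul]
          congr 2
          ring
        have h9 : (2 : ℝ) ^ (K * u) ≤ 16 ^ Nf := by
          calc (2 : ℝ) ^ (K * u) ≤ 2 ^ (4 * Nf) := pow_le_pow_right₀ (by norm_num) h4.le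
            _ = 16 ^ Nf := by rw [pow_mul]; norm_num
        have h10 : z ^ (7 * u) ≤ z ^ (n + y) := pow_le_pow_of_le_one hz.le hz1 h7
        have h11 : (Q ^ K) ^ n ≤ (Q ^ K) ^ (7 * u) :=
          pow_le_pow_right₀ (one_le_pow₀ hQ) (by omega)
        calc (1 : ℝ) ≤ 2 ^ (K * u) * z ^ (7 * u) / (Q ^ K) ^ (7 * u) := by rw [← h8]; exact h6
          _ ≤ 16 ^ Nf * z ^ (n + y) / (Q ^ K) ^ n := by gcongr
          _ = _ := by rw [div_pow, pow_add]; ring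
      calc e ^ y * P ≤ P := hey
        _ ≤ 1 := hP1
        _ ≤ _ := by linarith

omit [MeasurableSpace V] [DiscreteMeasurableSpace V] [Countable V] in
lemma prod_le_exp {u : ℕ} (τ : ℕ) (U : Finset (Sk V K)) {C : ℝ} (hC : 0 ≤ C) (hC1 : C ≤ 1) :
    ∏ j : Fin K, (1 - C) ^ ((u + 1) / 2 - fst' G τ U id j) ≤
      Real.exp (-(C * (K * ((u : ℝ) / 2) - (∑ σ ∈ U, nf G τ σ : ℕ)))) := by
  have h1 : ∀ j : Fin K, (1 - C) ^ ((u + 1) / 2 - fst' G τ U id j) ≤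
      Real.exp (-(C * ((u : ℝ) / 2 - fst' G τ U id j))) := by
    intro j
    have h2 : 1 - C ≤ Real.exp (-C) := Real.one_sub_le_exp_neg C
    calc (1 - C) ^ ((u + 1) / 2 - fst' G τ U id j)
        ≤ Real.exp (-C) ^ ((u + 1) / 2 - fst' G τ U id j) :=
          pow_le_pow_left₀ (by linarith) h2 _
      _ = Real.exp (((u + 1) / 2 - fst' G τ U id j : ℕ) * (-C)) := (Real.exp_nat_mul _ _).symm
      _ ≤ _ := by
          rw [Real.exp_le_exp]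
          have h3 : (u : ℝ) / 2 - fst' G τ U id j ≤ (((u + 1) / 2 - fst' G τ U id j : ℕ) : ℝ) := by
            have h4 : u ≤ 2 * ((u + 1) / 2 - fst' G τ U id j) + 2 * fst' G τ U id j := by omega
            have h5 : (u : ℝ) ≤ 2 * (((u + 1) / 2 - fst' G τ U id j : ℕ) : ℝ) +
              2 * fst' G τ U id j := by exact_mod_cast h4
            linarith
          nlinarith [mul_le_mul_of_nonneg_left h3 hC]
  calc ∏ j : Fin K, (1 - C) ^ ((u + 1) / 2 - fst' G τ U id j)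
      ≤ ∏ j : Fin K, Real.exp (-(C * ((u : ℝ) / 2 - fst' G τ U id j))) :=
        Finset.prod_le_prod (fun j _ => pow_nonneg (by linarith) _) fun j _ => h1 j
    _ = _ := by
        rw [← Real.exp_sum, ← sum_fst']
        congr 1
        push_cast
        rw [Finset.sum_neg_distrib, ← Finset.mul_sum, Finset.sum_sub_distrib]
        simp

/-- D3 -/
theorem det_bound {τ r ℓ v Δ : ℕ} (hΔ : 1 ≤ Δ) (lam : NNReal) {κ z Q : ℝ} (hκ : 0 ≤ κ)
    (hz : 0 < z) (hz1 : z ≤ 1) (hQ : 1 ≤ Q) {σ0 : Sk V K} (c : Str V K)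
    (hc : c.Ok G Δ ℓ r v (4 * τ) σ0)
    (h1 : Real.exp (-(lam * v / 2)) ≤ z ^ 7)
    (h2 : Real.exp (-(c1 Δ (4 * τ) * K / 4)) ≤ z ^ 7)
    (h3 : (1 / 2 : ℝ) ^ K * Q ^ (7 * K) ≤ z ^ 7) :
    (∏ σ ∈ c.wk σ0, κ * wsk G (4 * τ) σ) * Real.exp (-(lam * (vac G ℓ c.F).card)) *
      ∏ j : Fin K, (1 - c1 Δ (4 * τ)) ^ ((c.W.card + 1) / 2 - fst' G τ (c.wk σ0) id j) ≤
    (1 / 8 : ℝ) ^ (c.wk σ0).card *
      (∏ n ∈ c.nodes σ0, wN G (4 * τ) τ κ z 1 1 (lam * ℓ / (4 * Δ)) n +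
        ∏ n ∈ c.nodes σ0, wN G (4 * τ) τ κ z 16 Q (lam * ℓ / (4 * Δ)) n) := by
  have hC := c1_pos hΔ (4 * τ)
  have hC1 := c1_le_one hΔ (4 * τ)
  rw [mul_add, prod_wN lam c hc.cut, prod_wN lam c hc.cut]
  have hn : (c.wk σ0).card ≤ 1 + c.W.card + 2 * (c.W.card + c.Y.card) := by
    have h1 : (c.wk σ0).card ≤ (c.W ∪ c.L).card + 1 := Finset.card_insert_le _ _
    have h2 := Finset.card_union_le c.W c.L
    have h3 := hc.cardL
    omega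
  have hA : 0 ≤ ∏ σ ∈ c.wk σ0, κ * wsk G (4 * τ) σ :=
    Finset.prod_nonneg fun σ _ => mul_nonneg hκ (wsk_nonneg _ _)
  have hP0 : 0 ≤ ∏ j : Fin K,
      (1 - c1 Δ (4 * τ)) ^ ((c.W.card + 1) / 2 - fst' G τ (c.wk σ0) id j) :=
    Finset.prod_nonneg fun j _ => pow_nonneg (by linarith) _
  have hP1 : ∏ j : Fin K,
      (1 - c1 Δ (4 * τ)) ^ ((c.W.card + 1) / 2 - fst' G τ (c.wk σ0) id j) ≤ 1 :=
    Finset.prod_le_one (fun j _ => pow_nonneg (by linarith) _)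
      fun j _ => pow_le_one₀ (by linarith) (by linarith)
  have hcases := three_cases (K := K) (Nf := ∑ σ ∈ c.wk σ0, nf G τ σ) hz hz1 hQ hn hc.pos
    (Real.exp_pos _).le h1 hP0 hP1 (prod_le_exp τ (c.wk σ0) hC.le hC1) hC.le h2 h3
  have hv := exp_vac hΔ lam c hc
  set A := ∏ σ ∈ c.wk σ0, κ * wsk G (4 * τ) σ
  set E := Real.exp (-(lam * ℓ / (4 * Δ) * ∑ F ∈ c.F, ((bd G F).card : ℝ)))
  set P := ∏ j : Fin K,
      (1 - c1 Δ (4 * τ)) ^ ((c.W.card + 1) / 2 - fst' G τ (c.wk σ0) id j)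
  have hE : 0 ≤ E := (Real.exp_pos _).le
  calc A * Real.exp (-(lam * (vac G ℓ c.F).card)) * P
      ≤ A * (Real.exp (-(lam * v / 2)) ^ c.Y.card * E) * P := by gcongr
    _ = A * (Real.exp (-(lam * v / 2)) ^ c.Y.card * P) * E := by ring
    _ ≤ _ := mul_le_mul_of_nonneg_right (mul_le_mul_of_nonneg_left hcases hA) hE
    _ = _ := by ring

end

end Cut7315
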