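import Pool.Agent.Lib.MP_7315a9_cut.FinPaths

/-!
# Erasing

Row 7315-C2. Sketch:
N = {η | ∀ γ legal with skeleton in W, η γ = false}, a finite set of paths (finite_Pth). B = {η | erase η ∈ E} ⊇ E and
B ∩ N = E ∩ N; B depends on the other coordinates, N on these: bits(B ∩ N) = bits B * bits N (bits_indep). bits N =
∏ (1 - bet) = exp(-lam ∑ ms γ) ≥ exp(-lam Δ |W|): for fixed σ, ∑_{γ legal, skel γ = σ} ms γ ≤ deg(σ 0) ∑_{γ 0 = σ 0} wt γ ≤ Δ
(pl_singleton, isProb_pl). So bits E ≤ bits B = bits(E ∩ N)/bits N.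
-/

open MeasureTheory ProbabilityTheory Set Relation
open scoped Classical

namespace Cut7315

open MP7315a9

noncomputable section

variable {V : Type*} {G : SimpleGraph V} [G.LocallyFinite] {K T : ℕ}
variable [MeasurableSpace V] [DiscreteMeasurableSpace V] [Countable V]

omit [MeasurableSpace V] [DiscreteMeasurableSpace V] [Countable V] in
private lemma EraseBound_meas (W : Finset (Sk V K)) :
    Measurable (erase (T := T) G W) := by
  refine measurable_pi_lambda _ fun γ => ?_
  by_cases h : Lg G γ ∧ skel K T γ ∈ W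
  · have : (fun η : Tr V (K * T) → Bool => erase G W η γ) = fun _ => false := by
      funext η
      simp only [erase, if_pos h]
    rw [this]
    exact measurable_const
  · have : (fun η : Tr V (K * T) → Bool => erase G W η γ) = fun η => η γ := by
      funext η
      simp only [erase, if_neg h]
    rw [this]
    exact measurable_pi_apply γ

private lemma EraseBound_mass {Δ : ℕ} (hΔ : ∀ v, G.degree v ≤ Δ) (hdeg : ∀ v, 0 < G.degree v)
    (σ : Sk V K) :
    ∑ γ ∈ (finite_Pth (G := G) (T := T) σ).toFinset, ms G γ ≤ Δ := by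
  have := isProb_pl G hdeg (K * T) (σ 0)
  have h0 : ∀ γ ∈ (finite_Pth (G := G) (T := T) σ).toFinset,
      ms G γ ≤ Δ * (pl G (K * T) (σ 0)).real {γ} := by
    intro γ hγ
    have h1 := (Set.Finite.mem_toFinset _).1 hγ
    have h2 : γ 0 = σ 0 := by
      rw [← h1.2]
      unfold skel
      congr 1
      ext
      simp
    unfold ms
    rw [measureReal_def, pl_singleton G hdeg, if_pos h2]
    exact mul_le_mul_of_nonneg_right (by exact_mod_cast hΔ (γ 0)) ENNReal.toReal_nonneg
  refine (Finset.sum_le_sum h0).trans ?_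
  rw [← Finset.mul_sum]
  have h3 : ∑ γ ∈ (finite_Pth (G := G) (T := T) σ).toFinset,
      (pl G (K * T) (σ 0)).real {γ} ≤ 1 := by
    rw [sum_measureReal_singleton]
    exact measureReal_le_one
  calc (Δ : ℝ) * ∑ γ ∈ (finite_Pth (G := G) (T := T) σ).toFinset,
      (pl G (K * T) (σ 0)).real {γ} ≤ Δ * 1 := mul_le_mul_of_nonneg_left h3 (Nat.cast_nonneg _)
    _ = Δ := mul_one _

/-- C2: erasing. -/
theorem erase_bound {Δ : ℕ} (hΔ : ∀ v, G.degree v ≤ Δ) (hdeg : ∀ v, 0 < G.degree v)
    (lam : NNReal) (W : Finset (Sk V K)) {E : Set (Tr V (K * T) → Bool)} (hE : MeasurableSet E)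
    (h : ∀ η ∈ E, erase G W η ∈ E) :
    bits (bet G lam) E ≤ ENNReal.ofReal (Real.exp (lam * Δ * W.card)) *
      bits (bet G lam) (E ∩ {η | ∀ γ, Lg G γ → skel K T γ ∈ W → η γ = false}) := by
  let P : Finset (Tr V (K * T)) := W.biUnion fun σ => (finite_Pth (G := G) (T := T) σ).toFinset
  have hP : ∀ γ, γ ∈ P ↔ Lg G γ ∧ skel K T γ ∈ W := by
    intro γ
    simp only [P, Finset.mem_biUnion, Set.Finite.mem_toFinset, mem_setOf_eq]
    constructor
    · rintro ⟨σ, h1, h2, h3⟩
      exact ⟨h2, h3 ▸ h1⟩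
    · rintro ⟨h1, h2⟩
      exact ⟨_, h2, h1, rfl⟩
  set N : Set (Tr V (K * T) → Bool) := {η | ∀ γ, Lg G γ → skel K T γ ∈ W → η γ = false} with hN
  set B : Set (Tr V (K * T) → Bool) := {η | erase G W η ∈ E} with hB
  have hNpi : N = Set.pi (P : Set (Tr V (K * T))) fun _ => {false} := by
    ext η
    simp only [hN, mem_setOf_eq, Set.mem_pi, Finset.mem_coe, hP, mem_singleton_iff, and_imp]
  have hNm : MeasurableSet N := by
    rw [hNpi]
    exact MeasurableSet.pi (Finset.countable_toSet _) fun _ _ => by trivial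
  have hBm : MeasurableSet B := EraseBound_meas W hE
  have hEB : E ⊆ B := h
  have hBN : N ∩ B = E ∩ N := by
    ext η
    have h1 : η ∈ N → erase G W η = η := by
      intro hη
      funext γ
      unfold erase
      split_ifs with h2
      · exact (hη γ h2.1 h2.2).symm
      · rfl
    constructor
    · rintro ⟨h2, h3⟩
      rw [hB, mem_setOf_eq, h1 h2] at h3
      exact ⟨h3, h2⟩
    · rintro ⟨h2, h3⟩
      exact ⟨h3, hEB h2⟩
  have hind : bits (bet G lam) (N ∩ B) = bits (bet G lam) N * bits (bet G lam) B := by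
    refine bits_indep _ (S := (P : Set (Tr V (K * T)))) (T := (P : Set (Tr V (K * T)))ᶜ)
      disjoint_compl_right hNm hBm ?_ ?_
    · intro η η' h1 h2 γ h3 h4
      rw [← h1 γ (Finset.mem_coe.2 ((hP γ).2 ⟨h3, h4⟩))]
      exact h2 γ h3 h4
    · intro η η' h1 h2
      have h3 : erase G W η' = erase G W η := by
        funext γ
        unfold erase
        split_ifs with h4
        · rfl
        · exact (h1 γ fun h5 => h4 ((hP γ).1 (Finset.mem_coe.1 h5))).symm
      rw [hB, mem_setOf_eq, h3]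
      exact h2
  have hbN : bits (bet G lam) N = ENNReal.ofReal (Real.exp (-(lam * ∑ γ ∈ P, ms G γ))) := by
    rw [hNpi, bits, Measure.infinitePi_pi _ (fun _ _ => by trivial)]
    simp only [bern_false]
    rw [Finset.mul_sum, ← Finset.sum_neg_distrib, Real.exp_sum,
      ENNReal.ofReal_prod_of_nonneg fun _ _ => (Real.exp_pos _).le]
    refine Finset.prod_congr rfl fun γ _ => ?_
    congr 1
    simp only [bet]
    ring
  have hsum : ∑ γ ∈ P, ms G γ ≤ Δ * W.card := by
    have h1 : ∑ γ ∈ P, ms G γ ≤ ∑ σ ∈ W, ∑ γ ∈ (finite_Pth (G := G) (T := T) σ).toFinset, ms G γ := by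
      refine (Finset.sum_biUnion ?_).le
      intro σ _ σ' _ hne
      rw [Function.onFun, Finset.disjoint_left]
      intro γ h2 h3
      have h4 := ((Set.Finite.mem_toFinset _).1 h2).2
      have h5 := ((Set.Finite.mem_toFinset _).1 h3).2
      exact hne (h4.symm.trans h5)
    refine h1.trans ((Finset.sum_le_sum fun σ _ => EraseBound_mass hΔ hdeg σ).trans ?_)
    rw [Finset.sum_const, nsmul_eq_mul, mul_comm]
  have hone : 1 ≤ ENNReal.ofReal (Real.exp (lam * Δ * W.card)) * bits (bet G lam) N := by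
    rw [hbN, ← ENNReal.ofReal_mul (Real.exp_pos _).le, ← Real.exp_add, ENNReal.one_le_ofReal,
      Real.one_le_exp_iff]
    have h1 : (lam : ℝ) * ∑ γ ∈ P, ms G γ ≤ lam * (Δ * W.card) :=
      mul_le_mul_of_nonneg_left hsum lam.2
    linarith
  rw [← hBN, hind, ← mul_assoc]
  calc bits (bet G lam) E ≤ bits (bet G lam) B := measure_mono hEB
    _ = 1 * bits (bet G lam) B := (one_mul _).symm
    _ ≤ _ := mul_le_mul_left hone _

end

end Cut7315
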