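import Pool.Agent.Lib.MP_7315a9_cut.Def2

/-!
# Finite classes

Row 7315-E1. Sketch:
R = image under the skeleton of the component (in acq ω (K T)) of a walker w0 with skeleton σ0 (finite because InfClass fails).
All walkers of the component are genuine (adjacency requires i < N; w0 is). Closed: σ = skeleton of w in the component, acs σ σ'
through γ, γ' (walkers w1, w'): w and w1 have the same skeleton, so they are at the same vertex at time 0: adjacent or equal;
w1 and w' meet at a time ≤ K T. pos_mem_ball / legality of the trajectories from hω.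
-/

open MeasureTheory ProbabilityTheory Set Relation
open scoped Classical

namespace Cut7315

open MP7315a9

noncomputable section

variable {V : Type*} {G : SimpleGraph V} [G.LocallyFinite] {K T : ℕ}

private lemma fc_genuine {ω : Om V} {n : ℕ} {w0 w : V × ℕ} (h0 : w0.2 < ω.1 w0.1)
    (h : (acq ω n).Reachable w0 w) : w.2 < ω.1 w.1 := by
  obtain ⟨p⟩ := h.symm
  cases p with
  | nil => exact h0
  | cons hadj _ => exact hadj.2.1

private lemma fc_zero {n : ℕ} (ω : Om V) (w : V × ℕ) : traj n ω w 0 = w.1 := rfl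

omit [G.LocallyFinite] in
private lemma fc_lg {ω : Om V} {n : ℕ}
    (hω : ∀ k : V × ℕ × ℕ × V, ω.2 k = k.2.2.2 ∨ G.Adj k.2.2.2 (ω.2 k)) (w : V × ℕ) :
    Lg G (traj n ω w) := by
  intro s
  exact hω (w.1, w.2, (s : ℕ), pos ω w s)

private lemma fc_step {ω : Om V} {n : ℕ} {w0 w w' : V × ℕ} (h0 : w0.2 < ω.1 w0.1)
    (h : (acq ω n).Reachable w0 w) (hw' : w'.2 < ω.1 w'.1) (s : ℕ) (hs : s ≤ n)
    (he : pos ω w s = pos ω w' s) : (acq ω n).Reachable w0 w' := by
  by_cases hne : w = w'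
  · rw [← hne]; exact h
  · exact h.trans (SimpleGraph.Adj.reachable ⟨hne, fc_genuine h0 h, hw', s, hs, he⟩)

/-- E1: finite classes of walkers give finite classes of skeletons. -/
theorem finite_class {ω : Om V}
    (hω : ∀ k : V × ℕ × ℕ × V, ω.2 k = k.2.2.2 ∨ G.Adj k.2.2.2 (ω.2 k))
    (h : ¬ InfClass ω (K * T)) {σ0 : Sk V K} (h0 : σ0 ∈ occ G (oc (n := K * T) ω)) :
    ∃ R, Cl (occ G (oc (n := K * T) ω)) (acs G (oc (n := K * T) ω)) σ0 R := by
  obtain ⟨γ0, hγ0, -, hσ0⟩ := h0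
  obtain ⟨i0, hi0, hw0⟩ := of_decide_eq_true hγ0
  set w0 : V × ℕ := (γ0 0, i0) with hw0def
  have hg0 : w0.2 < ω.1 w0.1 := hi0
  have hfin : {w | (acq ω (K * T)).Reachable w0 w}.Finite := by
    by_contra hinf
    exact h ⟨w0, hg0, hinf⟩
  have hocc : ∀ w : V × ℕ, w.2 < ω.1 w.1 → oc (n := K * T) ω (traj (K * T) ω w) = true := by
    intro w hw
    refine decide_eq_true ⟨w.2, hw, rfl⟩
  refine ⟨hfin.toFinset.image fun w => skel K T (traj (K * T) ω w), ?_, ?_, ?_⟩
  · intro σ hσ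
    rw [Finset.mem_coe, Finset.mem_image] at hσ
    obtain ⟨w, hw, rfl⟩ := hσ
    rw [Set.Finite.mem_toFinset] at hw
    exact ⟨traj (K * T) ω w, hocc w (fc_genuine hg0 hw), fc_lg hω w, rfl⟩
  · rw [Finset.mem_image]
    refine ⟨w0, ?_, ?_⟩
    · rw [Set.Finite.mem_toFinset]; exact SimpleGraph.Reachable.refl _
    · rw [hw0]; exact hσ0
  · intro σ hσ σ' hσ' hacs
    rw [Finset.mem_image] at hσ
    obtain ⟨w, hw, hwσ⟩ := hσ
    rw [Set.Finite.mem_toFinset] at hw
    obtain ⟨γ1, γ', ⟨ho1, -, hs1⟩, ⟨ho', -, hs'⟩, s, hs⟩ := hacs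
    obtain ⟨i1, hi1, ht1⟩ := of_decide_eq_true ho1
    obtain ⟨i', hi', ht'⟩ := of_decide_eq_true ho'
    have hz : ∀ γ : Tr V (K * T), skel K T γ 0 = γ 0 := by
      intro γ
      unfold skel
      congr 1
      ext
      simp
    have hv : w.1 = γ1 0 := by
      have h1 := congrFun (hwσ.trans hs1.symm) 0
      rw [hz, hz] at h1
      exact h1
    have hw1 : (acq ω (K * T)).Reachable w0 (γ1 0, i1) :=
      fc_step hg0 hw hi1 0 (Nat.zero_le _) hv
    have hw2 : (acq ω (K * T)).Reachable w0 (γ' 0, i') := by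
      refine fc_step hg0 hw1 hi' s (Nat.lt_succ_iff.1 s.2) ?_
      have h1 : traj (K * T) ω (γ1 0, i1) s = traj (K * T) ω (γ' 0, i') s := by
        rw [ht1, ht', hs]
      exact h1
    rw [Finset.mem_image]
    refine ⟨(γ' 0, i'), ?_, ?_⟩
    · rw [Set.Finite.mem_toFinset]; exact hw2
    · rw [ht', hs']

end

end Cut7315
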