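import Pool.Agent.Lib.MP_7315a9_cut.Hull

/-!
# Growth

Row 7315-A4. Sketch:
For k ≤ r let F_k = hull (ball k x) (theorem hull). IsCut: connected because the ball is connected and every
point of F_k is joined inside F_k to the ball; co-components infinite by hull. x ∈ F_k. bd F_k consists of edges from
the sphere k to the sphere k+1 (start in ball k by hull (3), end outside F_k ⊇ ball k), so the bd F_k are disjoint,
their starts are in the disjoint spheres: ∑_{k<r} |bd F_k| ≤ Δ |ball r x|. F_k are distinct (monotone? it is enough: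
bd F_k is nonempty and the bd F_k are pairwise disjoint). Suppose |ball r x| < A r. Then at least r/2 of the k < r have
|bd F_k| ≤ 2 Δ A =: m; by CutBound r/2 ≤ ∑_{n ≤ m} C^n. Hence false for r ≥ r0 := 2 (∑_{n≤m} C^n) + 1.
-/

open MeasureTheory ProbabilityTheory Set Relation
open scoped Classical

namespace Cut7315

open MP7315a9

noncomputable section

variable {V : Type*} {G : SimpleGraph V} [G.LocallyFinite]

/-- the last step to a point of a ball -/
theorem Growth_pred {n : ℕ} {x y : V} (h : y ∈ ball G (n + 1) x) :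
    y = x ∨ ∃ y', G.Adj y' y ∧ y' ∈ ball G n x := by
  have h1 := ball_symm h
  simp only [ball, Finset.mem_insert, Finset.mem_biUnion, SimpleGraph.mem_neighborFinset] at h1
  rcases h1 with h1 | ⟨y', h2, h3⟩
  · exact Or.inl h1.symm
  · exact Or.inr ⟨y', h2.symm, ball_symm h3⟩

/-- paths inside a set containing the ball -/
theorem Growth_path {k : ℕ} {x : V} {F : Finset V} (hF : ball G k x ⊆ F) :
    ∀ n ≤ k, ∀ y ∈ ball G n x, ReflTransGen (fun a b => G.Adj a b ∧ b ∈ F) x y := by
  intro n
  induction n with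
  | zero =>
    intro _ y hy
    simp only [ball, Finset.mem_singleton] at hy
    rw [hy]
  | succ n ih =>
    intro hn y hy
    rcases Growth_pred hy with rfl | ⟨y', h1, h2⟩
    · exact ReflTransGen.refl
    · exact (ih (by omega) y' h2).tail ⟨h1, hF (ball_mono hn hy)⟩

/-- reversing paths -/
theorem Growth_rev {F : Finset V} {u v : V} (hu : u ∈ F)
    (h : ReflTransGen (fun a b => G.Adj a b ∧ b ∈ F) u v) :
    v ∈ F ∧ ReflTransGen (fun a b => G.Adj a b ∧ b ∈ F) v u := by
  induction h with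
  | refl => exact ⟨hu, ReflTransGen.refl⟩
  | tail _ hbc ih => exact ⟨hbc.2, (ReflTransGen.single ⟨hbc.1.symm, ih.1⟩).trans ih.2⟩

/-- a family of cutsets with boundaries between consecutive spheres -/
theorem Growth_fam [Infinite V] (hG : G.Connected) (x : V) : ∃ F : ℕ → Finset V,
    ∀ k, x ∈ F k ∧ IsCut G (F k) ∧ (bd G (F k)).Nonempty ∧
      ∀ e ∈ bd G (F k), e.1 ∈ ball G k x ∧ e.2 ∉ ball G k x ∧ e.2 ∈ ball G (k + 1) x ∧
        G.Adj e.1 e.2 := by
  have hx : ∀ k, x ∈ ball G k x := fun k => mem_ball.2 ⟨SimpleGraph.Walk.nil, by simp⟩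
  choose F hF using fun k => hull hG (ball G k x) ⟨x, hx k⟩
  refine ⟨F, fun k => ?_⟩
  obtain ⟨h1, h2, h3, h4⟩ := hF k
  have hxF : x ∈ F k := h1 (hx k)
  refine ⟨hxF, ⟨⟨x, hxF⟩, ?_, h2⟩, ?_, ?_⟩
  · have key : ∀ u ∈ F k, ReflTransGen (fun a b => G.Adj a b ∧ b ∈ F k) x u := by
      intro u hu
      obtain ⟨s, hs, hsu⟩ := h4 u hu
      exact (Growth_path h1 k le_rfl s hs).trans hsu
    intro u hu v hv
    exact (Growth_rev hxF (key u hu)).2.trans (key v hv)
  · obtain ⟨z, hz⟩ := Infinite.exists_notMem_finset (F k)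
    obtain ⟨p⟩ := hG.preconnected x z
    obtain ⟨d, -, hd1, hd2⟩ := p.exists_boundary_dart (F k : Set V) (Finset.mem_coe.mpr hxF)
      (fun h => hz (Finset.mem_coe.mp h))
    exact ⟨(d.fst, d.snd), mem_bd.2 ⟨Finset.mem_coe.mp hd1, fun h => hd2 (Finset.mem_coe.mpr h),
      d.adj⟩⟩
  · intro e he
    obtain ⟨e1, e2, e3⟩ := mem_bd.1 he
    have h5 := h3 e.1 e1 e.2 e2 e3
    exact ⟨h5, fun h => e2 (h1 h), ball_step h5 (Or.inr e3), e3⟩

/-- A4 -/
theorem growth [Infinite V] (hG : G.Connected) {Δ C : ℕ} (hΔ : ∀ v, G.degree v ≤ Δ)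
    (hC : CutBound G C) (A : ℕ) : ∃ r0 : ℕ, ∀ r ≥ r0, ∀ x : V, A * r ≤ (ball G r x).card := by
  set m : ℕ := 2 * (Δ * A) with hm
  set Q : ℕ := ∑ n ∈ Finset.range (m + 1), C ^ n with hQ
  refine ⟨2 * Q + 1, fun r hr x => ?_⟩
  by_contra hcon
  push Not at hcon
  obtain ⟨F, hF⟩ := Growth_fam hG x
  have hdisj : ∀ k k', k < k' → Disjoint (bd G (F k)) (bd G (F k')) := by
    intro k k' hkk
    rw [Finset.disjoint_left]
    intro e he he'
    exact ((hF k').2.2.2 e he').2.1 (ball_mono hkk ((hF k).2.2.2 e he).2.2.1)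
  have hpw : ∀ k k', k ≠ k' → Disjoint (bd G (F k)) (bd G (F k')) := by
    intro k k' hne
    rcases lt_or_gt_of_ne hne with h | h
    · exact hdisj k k' h
    · exact (hdisj k' k h).symm
  have hsum : ∑ k ∈ Finset.range r, (bd G (F k)).card ≤ Δ * (ball G r x).card := by
    rw [← Finset.card_biUnion (fun k _ k' _ hne => hpw k k' hne)]
    have hsub : (Finset.range r).biUnion (fun k => bd G (F k)) ⊆
        (ball G r x).biUnion (fun a => (G.neighborFinset a).image fun b => (a, b)) := by
      intro e he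
      obtain ⟨k, hk, hek⟩ := Finset.mem_biUnion.1 he
      obtain ⟨h1, -, -, h4⟩ := (hF k).2.2.2 e hek
      rw [Finset.mem_biUnion]
      refine ⟨e.1, ball_mono (Finset.mem_range.1 hk).le h1, ?_⟩
      rw [Finset.mem_image]
      exact ⟨e.2, (G.mem_neighborFinset _ _).2 h4, rfl⟩
    refine (Finset.card_le_card hsub).trans (Finset.card_biUnion_le.trans ?_)
    rw [mul_comm]
    refine (Finset.sum_le_card_nsmul _ _ Δ fun a _ => ?_)
    refine Finset.card_image_le.trans ?_
    rw [SimpleGraph.card_neighborFinset_eq_degree]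
    exact hΔ a
  have hinj : Set.InjOn F (Finset.range r : Set ℕ) := by
    intro k _ k' _ hkk
    by_contra hne
    have h1 := hpw k k' hne
    rw [← hkk, disjoint_self] at h1
    have h2 := (hF k).2.2.1
    rw [h1] at h2
    exact Finset.not_nonempty_empty h2
  set Bd := (Finset.range r).filter (fun k => m < (bd G (F k)).card) with hBd
  set Gd := (Finset.range r).filter (fun k => ¬ m < (bd G (F k)).card) with hGd
  have hcard : Bd.card + Gd.card = r := by
    rw [hBd, hGd, Finset.card_filter_add_card_filter_not, Finset.card_range]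
  have hB1 : Bd.card * (m + 1) ≤ Δ * (ball G r x).card := by
    refine le_trans ?_ hsum
    refine le_trans ?_ (Finset.sum_le_sum_of_subset (Finset.filter_subset _ _) :
      ∑ k ∈ Bd, (bd G (F k)).card ≤ _)
    rw [← smul_eq_mul]
    exact Finset.card_nsmul_le_sum _ _ _ fun k hk => (Finset.mem_filter.1 hk).2
  have hB2 : 2 * Bd.card ≤ r := by
    by_contra hc
    push Not at hc
    have h1 : Δ * (ball G r x).card ≤ Δ * (A * r) := Nat.mul_le_mul_left _ hcon.le
    have h2 : Bd.card * (m + 1) ≤ Δ * (A * r) := hB1.trans h1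
    have h3 : Bd.card * (m + 1) = (2 * Bd.card) * (Δ * A) + Bd.card := by
      rw [hm]
      ring
    have h4 : r * (Δ * A) ≤ (2 * Bd.card) * (Δ * A) := Nat.mul_le_mul_right _ hc.le
    have h5 : Δ * (A * r) = r * (Δ * A) := by ring
    have h6 : Bd.card = 0 := by omega
    omega
  have hG1 : Gd.card ≤ Q := by
    have h1 : Gd.card = (Gd.image F).card := by
      rw [Finset.card_image_of_injOn]
      intro k hk k' hk' h
      exact hinj (Finset.mem_coe.2 (Finset.mem_filter.1 (Finset.mem_coe.1 hk)).1)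
        (Finset.mem_coe.2 (Finset.mem_filter.1 (Finset.mem_coe.1 hk')).1) h
    have h2 : Gd.image F ⊆ (Finset.range (m + 1)).biUnion
        (fun n => (Gd.image F).filter fun S => (bd G S).card = n) := by
      intro S hS
      rw [Finset.mem_biUnion]
      refine ⟨(bd G S).card, ?_, Finset.mem_filter.2 ⟨hS, rfl⟩⟩
      obtain ⟨k, hk, rfl⟩ := Finset.mem_image.1 hS
      have := (Finset.mem_filter.1 hk).2
      rw [Finset.mem_range]
      omega
    rw [h1]
    refine (Finset.card_le_card h2).trans (Finset.card_biUnion_le.trans ?_)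
    rw [hQ]
    refine Finset.sum_le_sum fun n _ => ?_
    refine hC x n _ fun S hS => ?_
    obtain ⟨hS1, hS2⟩ := Finset.mem_filter.1 hS
    obtain ⟨k, -, rfl⟩ := Finset.mem_image.1 hS1
    exact ⟨(hF k).1, (hF k).2.1, hS2⟩
  omega

end

end Cut7315
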