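import Pool.Agent.Lib.MP_7315a9_cut.MassWsk
import Pool.Agent.Lib.MP_7315a9_cut.CutSum

/-!
# The Kotecky-Preiss condition

Row 7315-D1. Sketch:
e = exp 1. Masses: for z : V, j, ∑_{σ ∈ B', σ j = z} wN (w σ) ≤ 8κz Δ (mass_wsk, Q > 0). Cases of n.
n = w σ: walkers near: (K+1)(Δ+1)^{8τ} * 8κzΔ e (2T = 8τ, card_ball); centres: (K+1)(Δ+1)^{8τ+2r} z e; cuts (σ = σ0, σ s ∈ F): cut_sum
≤ 2C e^{1-β} ≤ 1/2. Total ≤ 1/2 + 1/2 (h1, h2). n = y v: walkers with v ∈ ball (8τ+2r) (σ j): (K+1)(Δ+1)^{8τ+2r} 8κzΔ e ≤ 1/2; cuts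
with a boundary edge e, e.1 or e.2 in ball (2r) v: then e.1 ∈ F ∩ ball (2r+1) v: ≤ (Δ+1)^{2r+1} 2C e^{1-β} ≤ 1/2. n = c F: the walker σ0 if
σ0 s ∈ F: 8κzΔe ≤ 1/2 and |bd F| ≥ 1 (bd_nonempty); centres: ≤ 2|bd F| (Δ+1)^{2r} z e ≤ |bd F|/2 ((Δ+1)^{8τ} ≥ 2).
-/

open MeasureTheory ProbabilityTheory Set Relation
open scoped Classical

namespace Cut7315

open MP7315a9

noncomputable section

variable {V : Type*} {G : SimpleGraph V} [G.LocallyFinite] {K T : ℕ}
variable [MeasurableSpace V] [DiscreteMeasurableSpace V] [Countable V]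

omit [G.LocallyFinite] [MeasurableSpace V] [DiscreteMeasurableSpace V] [Countable V] in
private theorem d1_split (f : Nd V K → ℝ) (B : Finset (Nd V K)) :
    ∑ b ∈ B, f b = ∑ σ ∈ B.preimage Nd.w (fun _ _ _ _ h => Nd.w.inj h), f (Nd.w σ) +
      ∑ v ∈ B.preimage Nd.y (fun _ _ _ _ h => Nd.y.inj h), f (Nd.y v) +
      ∑ F ∈ B.preimage Nd.c (fun _ _ _ _ h => Nd.c.inj h), f (Nd.c F) := by
  have h1 : ∑ σ ∈ B.preimage Nd.w (fun _ _ _ _ h => Nd.w.inj h), f (Nd.w σ) =
      ∑ b ∈ B, if b ∈ Set.range (Nd.w : Sk V K → Nd V K) then f b else 0 := by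
    rw [← Finset.sum_preimage (Nd.w : Sk V K → Nd V K) B (fun _ _ _ _ h => Nd.w.inj h)
      (fun b => if b ∈ Set.range (Nd.w : Sk V K → Nd V K) then f b else 0)
      (fun x _ hx => if_neg hx)]
    refine Finset.sum_congr rfl fun σ _ => ?_
    rw [if_pos (Set.mem_range_self σ)]
  have h2 : ∑ v ∈ B.preimage Nd.y (fun _ _ _ _ h => Nd.y.inj h), f (Nd.y v) =
      ∑ b ∈ B, if b ∈ Set.range (Nd.y : V → Nd V K) then f b else 0 := by
    rw [← Finset.sum_preimage (Nd.y : V → Nd V K) B (fun _ _ _ _ h => Nd.y.inj h)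
      (fun b => if b ∈ Set.range (Nd.y : V → Nd V K) then f b else 0)
      (fun x _ hx => if_neg hx)]
    refine Finset.sum_congr rfl fun σ _ => ?_
    rw [if_pos (Set.mem_range_self σ)]
  have h3 : ∑ F ∈ B.preimage Nd.c (fun _ _ _ _ h => Nd.c.inj h), f (Nd.c F) =
      ∑ b ∈ B, if b ∈ Set.range (Nd.c : Finset V → Nd V K) then f b else 0 := by
    rw [← Finset.sum_preimage (Nd.c : Finset V → Nd V K) B (fun _ _ _ _ h => Nd.c.inj h)
      (fun b => if b ∈ Set.range (Nd.c : Finset V → Nd V K) then f b else 0)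
      (fun x _ hx => if_neg hx)]
    refine Finset.sum_congr rfl fun σ _ => ?_
    rw [if_pos (Set.mem_range_self σ)]
  rw [h1, h2, h3, ← Finset.sum_add_distrib, ← Finset.sum_add_distrib]
  refine Finset.sum_congr rfl fun b _ => ?_
  cases b <;> simp

omit [DiscreteMeasurableSpace V] [Countable V] in
private theorem d1_wsk_nonneg (T : ℕ) (σ : Sk V K) : 0 ≤ wsk G T σ := by
  unfold wsk pT
  exact mul_nonneg (Nat.cast_nonneg _) (Finset.prod_nonneg fun _ _ => measureReal_nonneg)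

private theorem d1_walk (hdeg : ∀ v, 0 < G.degree v) {Δ τ : ℕ}
    (hΔ : ∀ v, G.degree v ≤ Δ) {κ z a Q β : ℝ} (hκ : 0 ≤ κ)
    (hz : 0 ≤ z) (ha : 1 ≤ a) (hQ : 1 + (a - 1) * (16 / 27) ^ τ ≤ Q)
    (Z : Fin (K + 1) → Finset V) (N : ℝ) (hZ : ∀ j, ((Z j).card : ℝ) ≤ N)
    (S : Finset (Sk V K)) (hS : ∀ σ ∈ S, ∃ j, σ j ∈ Z j) :
    ∑ σ ∈ S, wN G (4 * τ) τ κ z a Q β (Nd.w σ) ≤ (K + 1) * N * (8 * κ * z * Δ) := by
  have hQ0 : 0 < Q := by
    have : 0 ≤ (a - 1) * (16 / 27 : ℝ) ^ τ := mul_nonneg (by linarith) (by positivity)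
    linarith
  have hW : ∀ σ : Sk V K, 0 ≤ wN G (4 * τ) τ κ z a Q β (Nd.w σ) := by
    intro σ
    simp only [wN]
    have := d1_wsk_nonneg (G := G) (4 * τ) σ
    have ha0 : 0 ≤ a := by linarith
    positivity
  have h1 : ∀ σ ∈ S, wN G (4 * τ) τ κ z a Q β (Nd.w σ) ≤
      ∑ j : Fin (K + 1), ∑ v ∈ Z j, if σ j = v then wN G (4 * τ) τ κ z a Q β (Nd.w σ) else 0 := by
    intro σ hσ
    obtain ⟨j, hj⟩ := hS σ hσ
    have h2 : wN G (4 * τ) τ κ z a Q β (Nd.w σ) ≤
        ∑ v ∈ Z j, if σ j = v then wN G (4 * τ) τ κ z a Q β (Nd.w σ) else 0 := by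
      rw [Finset.sum_ite_eq, if_pos hj]
    refine h2.trans (Finset.single_le_sum (f := fun j => ∑ v ∈ Z j,
      if σ j = v then wN G (4 * τ) τ κ z a Q β (Nd.w σ) else 0) (fun i _ => ?_) (Finset.mem_univ j))
    refine Finset.sum_nonneg fun v _ => ?_
    split_ifs
    · exact hW σ
    · exact le_rfl
  refine (Finset.sum_le_sum h1).trans ?_
  rw [Finset.sum_comm]
  have h3 : ∀ j : Fin (K + 1), ∑ σ ∈ S, ∑ v ∈ Z j,
      (if σ j = v then wN G (4 * τ) τ κ z a Q β (Nd.w σ) else 0) ≤ N * (8 * κ * z * Δ) := by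
    intro j
    rw [Finset.sum_comm]
    have h4 : ∀ v ∈ Z j, ∑ σ ∈ S, (if σ j = v then wN G (4 * τ) τ κ z a Q β (Nd.w σ) else 0) ≤
        8 * κ * z * Δ := by
      intro v _
      rw [← Finset.sum_filter]
      have h5 := mass_wsk (G := G) hdeg ha hQ v j (S.filter fun σ => σ j = v)
        (fun σ hσ => (Finset.mem_filter.1 hσ).2)
      simp only [wN]
      rw [← Finset.mul_sum]
      have h6 : (G.degree v : ℝ) ≤ Δ := by exact_mod_cast hΔ v
      calc 8 * κ * z / Q ^ K * ∑ σ ∈ S with σ j = v, wsk G (4 * τ) σ * a ^ nf G τ σ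
          ≤ 8 * κ * z / Q ^ K * (G.degree v * Q ^ K) :=
            mul_le_mul_of_nonneg_left h5 (by positivity)
        _ = 8 * κ * z * G.degree v := by
            field_simp
        _ ≤ 8 * κ * z * Δ := mul_le_mul_of_nonneg_left h6 (by positivity)
    refine (Finset.sum_le_card_nsmul _ _ _ h4).trans ?_
    rw [nsmul_eq_mul]
    exact mul_le_mul_of_nonneg_right (hZ j) (by positivity)
  refine (Finset.sum_le_card_nsmul _ _ _ fun j _ => h3 j).trans ?_
  rw [nsmul_eq_mul, Finset.card_univ, Fintype.card_fin]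
  push_cast
  exact le_of_eq (by ring)

/-- D1 -/
theorem kp_cond [Infinite V] (hG : G.Connected) {Δ C τ r : ℕ} (hΔ1 : 1 ≤ Δ)
    (hΔ : ∀ v, G.degree v ≤ Δ) (hC : CutBound G C) {κ z a Q β : ℝ} (hκ : 0 ≤ κ)
    (hz : 0 ≤ z) (ha : 1 ≤ a) (hQ : 1 + (a - 1) * (16 / 27) ^ τ ≤ Q) (hτ : 1 ≤ τ)
    (h1 : (K + 1) * (Δ + 1 : ℝ) ^ (8 * τ + 2 * r) * (8 * κ * Δ + 1) * z * Real.exp 1 ≤ 1 / 2)
    (h2 : (Δ + 1 : ℝ) ^ (2 * r + 1) * (2 * C * Real.exp (1 - β)) ≤ 1 / 2)
    (s : Fin (K + 1)) (σ0 : Sk V K) (n : Nd V K) (B : Finset (Nd V K))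
    (hB : ∀ b ∈ B, nadj G (4 * τ) r s σ0 n b) :
    ∑ b ∈ B, wN G (4 * τ) τ κ z a Q β b * Real.exp (phN G b) ≤ phN G n := by
  have hdeg : ∀ v, 0 < G.degree v := by
    intro v
    rw [G.degree_pos_iff_exists_adj]
    obtain ⟨e, he⟩ := bd_nonempty hG (F := {v}) (Finset.singleton_nonempty v)
    obtain ⟨h1, _, h3⟩ := mem_bd.1 he
    rw [Finset.mem_singleton] at h1
    exact ⟨e.2, h1 ▸ h3⟩
  set D : ℝ := (Δ + 1 : ℝ) with hD
  have hΔ1' : (1 : ℝ) ≤ Δ := by exact_mod_cast hΔ1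
  have hD1 : (2 : ℝ) ≤ D := by rw [hD]; linarith
  set E : ℝ := Real.exp 1 with hE
  have hE0 : 0 < E := Real.exp_pos 1
  set X : ℝ := 2 * C * Real.exp (1 - β) with hX
  have hX0 : 0 ≤ X := by positivity
  have hX1 : X ≤ 1 / 2 := by
    refine le_trans ?_ h2
    have : (1 : ℝ) ≤ D ^ (2 * r + 1) := one_le_pow₀ (by linarith)
    nlinarith
  have hβ : C * Real.exp (1 - β) ≤ 1 / 2 := by
    have : 2 * (C * Real.exp (1 - β)) = X := by rw [hX]; ring
    have h0 : 0 ≤ C * Real.exp (1 - β) := by positivity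
    linarith
  have hcb : ∀ (n : ℕ) (x : V), ((ball G n x).card : ℝ) ≤ D ^ n := by
    intro n x
    have := card_ball hΔ n x
    rw [hD]
    exact_mod_cast this
  -- the parts
  have hcut : ∀ (x : V) (S : Finset (Finset V)), (∀ F ∈ S, x ∈ F) →
      ∑ F ∈ S, wN (K := K) G (4 * τ) τ κ z a Q β (Nd.c F) * Real.exp (phN (K := K) G (Nd.c F)) ≤ X := by
    intro x S hS
    have h3 := cut_sum hG hC hβ x (S.filter fun F => IsCut G F) (fun F hF =>
      ⟨(Finset.mem_filter.1 hF).2, hS F (Finset.mem_filter.1 hF).1⟩)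
    refine le_trans (le_of_eq ?_) h3
    rw [Finset.sum_filter]
    refine Finset.sum_congr rfl fun F _ => ?_
    simp only [wN, phN]
    split_ifs
    · rfl
    · rw [zero_mul]
  have hwalk : ∀ (Z : Fin (K + 1) → Finset V) (N : ℝ), (∀ j, ((Z j).card : ℝ) ≤ N) →
      ∀ S : Finset (Sk V K), (∀ σ ∈ S, ∃ j, σ j ∈ Z j) →
      ∑ σ ∈ S, wN G (4 * τ) τ κ z a Q β (Nd.w σ) * Real.exp (phN G (Nd.w σ)) ≤
        (K + 1) * N * (8 * κ * z * Δ) * E := by
    intro Z N hZ S hS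
    simp only [phN]
    rw [← Finset.sum_mul]
    exact mul_le_mul_of_nonneg_right (d1_walk hdeg hΔ hκ hz ha hQ Z N hZ S hS) hE0.le
  have hcen : ∀ S : Finset V, ∑ v ∈ S, wN (K := K) G (4 * τ) τ κ z a Q β (Nd.y v) *
      Real.exp (phN (K := K) G (Nd.y v)) = S.card * (z * E) := by
    intro S
    simp only [phN, wN]
    rw [Finset.sum_const, nsmul_eq_mul]
  have hK : (0 : ℝ) ≤ K := Nat.cast_nonneg K
  have hP : 0 ≤ 8 * κ * Δ := by positivity
  rw [d1_split]
  cases n with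
  | w σ =>
    have hw : ∑ σ' ∈ B.preimage Nd.w (fun _ _ _ _ h => Nd.w.inj h),
        wN G (4 * τ) τ κ z a Q β (Nd.w σ') * Real.exp (phN G (Nd.w σ')) ≤
        (K + 1) * D ^ (8 * τ) * (8 * κ * z * Δ) * E := by
      refine hwalk (fun j => ball G (2 * (4 * τ)) (σ j)) _ (fun j => ?_) _ fun σ' hσ' => ?_
      · have := hcb (2 * (4 * τ)) (σ j)
        rwa [show 2 * (4 * τ) = 8 * τ by ring] at this ⊢
      · exact hB _ (Finset.mem_preimage.1 hσ')
    have hy : ∑ v ∈ B.preimage Nd.y (fun _ _ _ _ h => Nd.y.inj h),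
        wN (K := K) G (4 * τ) τ κ z a Q β (Nd.y v) * Real.exp (phN (K := K) G (Nd.y v)) ≤
        ((K + 1) * D ^ (8 * τ + 2 * r)) * (z * E) := by
      rw [hcen]
      refine mul_le_mul_of_nonneg_right ?_ (by positivity)
      have h3 : B.preimage Nd.y (fun _ _ _ _ h => Nd.y.inj h) ⊆
          Finset.univ.biUnion fun j : Fin (K + 1) => ball G (8 * τ + 2 * r) (σ j) := by
        intro v hv
        obtain ⟨j, hj⟩ := hB _ (Finset.mem_preimage.1 hv)
        rw [show 2 * (4 * τ) = 8 * τ by ring] at hj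
        exact Finset.mem_biUnion.2 ⟨j, Finset.mem_univ j, hj⟩
      have h4 : ((B.preimage Nd.y (fun _ _ _ _ h => Nd.y.inj h)).card : ℝ) ≤
          ∑ j : Fin (K + 1), ((ball G (8 * τ + 2 * r) (σ j)).card : ℝ) := by
        exact_mod_cast (Finset.card_le_card h3).trans Finset.card_biUnion_le
      refine h4.trans ((Finset.sum_le_card_nsmul _ _ _ fun j _ => hcb _ _).trans ?_)
      rw [nsmul_eq_mul, Finset.card_univ, Fintype.card_fin]
      push_cast
      rfl
    have hc : ∑ F ∈ B.preimage Nd.c (fun _ _ _ _ h => Nd.c.inj h),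
        wN (K := K) G (4 * τ) τ κ z a Q β (Nd.c F) * Real.exp (phN (K := K) G (Nd.c F)) ≤ X :=
      hcut (σ s) _ fun F hF => (hB _ (Finset.mem_preimage.1 hF)).2
    have h5 : D ^ (8 * τ) ≤ D ^ (8 * τ + 2 * r) :=
      pow_le_pow_right₀ (by linarith) (by omega)
    have h6 : (K + 1) * D ^ (8 * τ) * (8 * κ * z * Δ) * E ≤
        (K + 1) * D ^ (8 * τ + 2 * r) * (8 * κ * z * Δ) * E := by
      gcongr
    have h7 : (K + 1) * D ^ (8 * τ + 2 * r) * (8 * κ * z * Δ) * E +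
        ((K + 1) * D ^ (8 * τ + 2 * r)) * (z * E) =
        (K + 1) * D ^ (8 * τ + 2 * r) * (8 * κ * Δ + 1) * z * E := by ring
    simp only [phN] at hw hy hc ⊢
    linarith
  | y v =>
    have hw : ∑ σ' ∈ B.preimage Nd.w (fun _ _ _ _ h => Nd.w.inj h),
        wN G (4 * τ) τ κ z a Q β (Nd.w σ') * Real.exp (phN G (Nd.w σ')) ≤
        (K + 1) * D ^ (8 * τ + 2 * r) * (8 * κ * z * Δ) * E := by
      refine hwalk (fun j => ball G (8 * τ + 2 * r) v) _ (fun j => hcb _ _) _ fun σ' hσ' => ?_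
      obtain ⟨j, hj⟩ := hB _ (Finset.mem_preimage.1 hσ')
      rw [show 2 * (4 * τ) = 8 * τ by ring] at hj
      exact ⟨j, ball_symm hj⟩
    have hy : ∑ v' ∈ B.preimage Nd.y (fun _ _ _ _ h => Nd.y.inj h),
        wN (K := K) G (4 * τ) τ κ z a Q β (Nd.y v') * Real.exp (phN (K := K) G (Nd.y v')) = 0 := by
      have h3 : B.preimage Nd.y (fun _ _ _ _ h => Nd.y.inj h) = ∅ := by
        rw [Finset.eq_empty_iff_forall_notMem]
        exact fun v' hv' => hB _ (Finset.mem_preimage.1 hv')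
      rw [h3, Finset.sum_empty]
    have hc : ∑ F ∈ B.preimage Nd.c (fun _ _ _ _ h => Nd.c.inj h),
        wN (K := K) G (4 * τ) τ κ z a Q β (Nd.c F) * Real.exp (phN (K := K) G (Nd.c F)) ≤
        D ^ (2 * r + 1) * X := by
      set S := B.preimage Nd.c (fun _ _ _ _ h => Nd.c.inj h) with hS
      have hnn : ∀ F : Finset V, 0 ≤ wN (K := K) G (4 * τ) τ κ z a Q β (Nd.c F) *
          Real.exp (phN (K := K) G (Nd.c F)) := by
        intro F
        refine mul_nonneg ?_ (Real.exp_pos _).le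
        simp only [wN]
        split_ifs
        · exact (Real.exp_pos _).le
        · exact le_rfl
      have h3 : ∀ F ∈ S, wN (K := K) G (4 * τ) τ κ z a Q β (Nd.c F) *
          Real.exp (phN (K := K) G (Nd.c F)) ≤
          ∑ x ∈ ball G (2 * r + 1) v, if x ∈ F then wN (K := K) G (4 * τ) τ κ z a Q β (Nd.c F) *
            Real.exp (phN (K := K) G (Nd.c F)) else 0 := by
        intro F hF
        obtain ⟨e, he, h4⟩ := hB _ (Finset.mem_preimage.1 hF)
        obtain ⟨h5, _, h6⟩ := mem_bd.1 he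
        have h7 : e.1 ∈ ball G (2 * r + 1) v := by
          rcases h4 with h4 | h4
          · exact ball_mono (Nat.le_succ _) h4
          · exact ball_step h4 (Or.inr h6.symm)
        have h8 := Finset.single_le_sum (f := fun x => if x ∈ F then
          wN (K := K) G (4 * τ) τ κ z a Q β (Nd.c F) * Real.exp (phN (K := K) G (Nd.c F)) else 0)
          (s := ball G (2 * r + 1) v) (fun x _ => by
            split_ifs
            · exact hnn F
            · exact le_rfl) h7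
        rwa [if_pos h5] at h8
      refine (Finset.sum_le_sum h3).trans ?_
      rw [Finset.sum_comm]
      have h9 : ∀ x ∈ ball G (2 * r + 1) v, ∑ F ∈ S, (if x ∈ F then
          wN (K := K) G (4 * τ) τ κ z a Q β (Nd.c F) * Real.exp (phN (K := K) G (Nd.c F)) else 0) ≤
          X := by
        intro x _
        rw [← Finset.sum_filter]
        exact hcut x _ fun F hF => (Finset.mem_filter.1 hF).2
      refine (Finset.sum_le_card_nsmul _ _ _ h9).trans ?_
      rw [nsmul_eq_mul]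
      exact mul_le_mul_of_nonneg_right (hcb _ _) hX0
    have h7 : (K + 1) * D ^ (8 * τ + 2 * r) * (8 * κ * z * Δ) * E ≤
        (K + 1) * D ^ (8 * τ + 2 * r) * (8 * κ * Δ + 1) * z * E := by
      have h8 : (K + 1) * D ^ (8 * τ + 2 * r) * (8 * κ * Δ + 1) * z * E =
        (K + 1) * D ^ (8 * τ + 2 * r) * (8 * κ * z * Δ) * E +
        ((K + 1) * D ^ (8 * τ + 2 * r)) * (z * E) := by ring
      rw [h8]
      have : 0 ≤ ((K + 1) * D ^ (8 * τ + 2 * r)) * (z * E) := by positivity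
      linarith
    simp only [phN] at hw hy hc ⊢
    linarith
  | c F =>
    have hcc : ∑ F' ∈ B.preimage Nd.c (fun _ _ _ _ h => Nd.c.inj h),
        wN (K := K) G (4 * τ) τ κ z a Q β (Nd.c F') * Real.exp (phN (K := K) G (Nd.c F')) = 0 := by
      have h3 : B.preimage Nd.c (fun _ _ _ _ h => Nd.c.inj h) = ∅ := by
        rw [Finset.eq_empty_iff_forall_notMem]
        exact fun v' hv' => hB _ (Finset.mem_preimage.1 hv')
      rw [h3, Finset.sum_empty]
    have hD2 : (4 : ℝ) * D ^ (2 * r) ≤ D ^ (8 * τ + 2 * r) := by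
      rw [pow_add]
      refine mul_le_mul_of_nonneg_right ?_ (by positivity)
      calc (4 : ℝ) = 2 ^ 2 := by norm_num
        _ ≤ D ^ 2 := pow_le_pow_left₀ (by norm_num) hD1 2
        _ ≤ D ^ (8 * τ) := pow_le_pow_right₀ (by linarith) (by omega)
    have hyy : ∑ v ∈ B.preimage Nd.y (fun _ _ _ _ h => Nd.y.inj h),
        wN (K := K) G (4 * τ) τ κ z a Q β (Nd.y v) * Real.exp (phN (K := K) G (Nd.y v)) ≤
        (bd G F).card * (1 / 2) := by
      rw [hcen]
      have h3 : B.preimage Nd.y (fun _ _ _ _ h => Nd.y.inj h) ⊆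
          (bd G F).biUnion fun e => ball G (2 * r) e.1 ∪ ball G (2 * r) e.2 := by
        intro v hv
        obtain ⟨e, he, h4⟩ := hB _ (Finset.mem_preimage.1 hv)
        refine Finset.mem_biUnion.2 ⟨e, he, Finset.mem_union.2 ?_⟩
        rcases h4 with h4 | h4
        · exact Or.inl (ball_symm h4)
        · exact Or.inr (ball_symm h4)
      have h4 : ((B.preimage Nd.y (fun _ _ _ _ h => Nd.y.inj h)).card : ℝ) ≤
          ∑ e ∈ bd G F, (((ball G (2 * r) e.1 ∪ ball G (2 * r) e.2).card : ℕ) : ℝ) := by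
        exact_mod_cast (Finset.card_le_card h3).trans Finset.card_biUnion_le
      have h5 : ∀ e ∈ bd G F, (((ball G (2 * r) e.1 ∪ ball G (2 * r) e.2).card : ℕ) : ℝ) ≤
          2 * D ^ (2 * r) := by
        intro e _
        have h6 : (((ball G (2 * r) e.1 ∪ ball G (2 * r) e.2).card : ℕ) : ℝ) ≤
            (ball G (2 * r) e.1).card + (ball G (2 * r) e.2).card := by
          exact_mod_cast Finset.card_union_le _ _
        have := hcb (2 * r) e.1
        have := hcb (2 * r) e.2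
        linarith
      have h6 := h4.trans ((Finset.sum_le_card_nsmul _ _ _ h5))
      rw [nsmul_eq_mul] at h6
      calc ((B.preimage Nd.y (fun _ _ _ _ h => Nd.y.inj h)).card : ℝ) * (z * E)
          ≤ ((bd G F).card * (2 * D ^ (2 * r))) * (z * E) :=
            mul_le_mul_of_nonneg_right h6 (by positivity)
        _ = (bd G F).card * (2 * D ^ (2 * r) * (z * E)) := by ring
        _ ≤ (bd G F).card * (1 / 2) := by
            refine mul_le_mul_of_nonneg_left ?_ (Nat.cast_nonneg _)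
            have h7 : 2 * D ^ (2 * r) * (z * E) ≤ D ^ (8 * τ + 2 * r) * (z * E) :=
              mul_le_mul_of_nonneg_right (by linarith [pow_pos (show (0:ℝ) < D by linarith) (2 * r)])
                (by positivity)
            have h8 : D ^ (8 * τ + 2 * r) * (z * E) ≤
                (K + 1) * D ^ (8 * τ + 2 * r) * (8 * κ * Δ + 1) * z * E := by
              have h9 : (1 : ℝ) ≤ (K + 1) * (8 * κ * Δ + 1) := by nlinarith
              have h10 : 0 ≤ D ^ (8 * τ + 2 * r) * (z * E) := by positivity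
              calc D ^ (8 * τ + 2 * r) * (z * E) = 1 * (D ^ (8 * τ + 2 * r) * (z * E)) := by ring
                _ ≤ ((K + 1) * (8 * κ * Δ + 1)) * (D ^ (8 * τ + 2 * r) * (z * E)) :=
                  mul_le_mul_of_nonneg_right h9 h10
                _ = _ := by ring
            linarith
    by_cases hF : σ0 s ∈ F
    · have hb1 : (1 : ℝ) ≤ (bd G F).card := by
        have := Finset.card_pos.2 (bd_nonempty hG ⟨_, hF⟩)
        exact_mod_cast this
      have hw : ∑ σ' ∈ B.preimage Nd.w (fun _ _ _ _ h => Nd.w.inj h),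
          wN G (4 * τ) τ κ z a Q β (Nd.w σ') * Real.exp (phN G (Nd.w σ')) ≤
          (K + 1) * D ^ (8 * τ + 2 * r) * (8 * κ * z * Δ) * E := by
        refine hwalk (fun j => ball G (8 * τ + 2 * r) (σ0 j)) _ (fun j => hcb _ _) _
          fun σ' hσ' => ?_
        have h3 := (hB _ (Finset.mem_preimage.1 hσ')).1
        exact ⟨s, by rw [h3]; exact mem_ball.2 ⟨SimpleGraph.Walk.nil, by simp⟩⟩
      have h7 : (K + 1) * D ^ (8 * τ + 2 * r) * (8 * κ * z * Δ) * E ≤
          (K + 1) * D ^ (8 * τ + 2 * r) * (8 * κ * Δ + 1) * z * E := by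
        have h8 : (K + 1) * D ^ (8 * τ + 2 * r) * (8 * κ * Δ + 1) * z * E =
          (K + 1) * D ^ (8 * τ + 2 * r) * (8 * κ * z * Δ) * E +
          ((K + 1) * D ^ (8 * τ + 2 * r)) * (z * E) := by ring
        rw [h8]
        have : 0 ≤ ((K + 1) * D ^ (8 * τ + 2 * r)) * (z * E) := by positivity
        linarith
      simp only [phN] at hw hyy hcc ⊢
      linarith
    · have hw : ∑ σ' ∈ B.preimage Nd.w (fun _ _ _ _ h => Nd.w.inj h),
          wN G (4 * τ) τ κ z a Q β (Nd.w σ') * Real.exp (phN G (Nd.w σ')) = 0 := by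
        have h3 : B.preimage Nd.w (fun _ _ _ _ h => Nd.w.inj h) = ∅ := by
          rw [Finset.eq_empty_iff_forall_notMem]
          intro σ' hσ'
          have h4 := hB _ (Finset.mem_preimage.1 hσ')
          exact hF (h4.1 ▸ h4.2)
        rw [h3, Finset.sum_empty]
      have hb0 : (0 : ℝ) ≤ (bd G F).card := Nat.cast_nonneg _
      simp only [phN] at hw hyy hcc ⊢
      linarith

end

end Cut7315
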