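import Pool.Agent.Lib.MP_7315a9_cut.Def2

/-!
# The law of the occupied paths

Row 7315-C5. Sketch:
bool_law, as B_law in Upper.lean: for a finite set Sg of trajectories ⋂ {oc ω γ = false} = {ω | ∀ v ∈ F, ∀ i < ω.1 v,
traj ω (v,i) ∉ S} with F = image of γ ↦ γ 0, S = Sg; void_traj; (pl v).real S = ∑_{γ ∈ Sg, γ 0 = v} (wt γ).toReal.
-/

open MeasureTheory ProbabilityTheory Set Relation
open scoped Classical

namespace Cut7315

open MP7315a9

noncomputable section

variable {V : Type*} {G : SimpleGraph V} [G.LocallyFinite] {K T : ℕ}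
variable [MeasurableSpace V] [DiscreteMeasurableSpace V] [Countable V]

omit [G.LocallyFinite] in
lemma OcLaw_measurable {n : ℕ} (γ : Tr V n) : Measurable fun ω : Om V => oc ω γ := by
  have h1 : MeasurableSet {ω : Om V | oc ω γ = true} := by
    have : {ω : Om V | oc ω γ = true} =
        ⋃ i : ℕ, ({ω : Om V | i < ω.1 (γ 0)} ∩ {ω : Om V | traj n ω (γ 0, i) = γ}) := by
      ext ω; simp [oc]
    rw [this]
    refine MeasurableSet.iUnion fun i => MeasurableSet.inter ?_ ?_
    · have h1 : Measurable fun ω : Om V => ω.1 (γ 0) := by fun_prop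
      exact h1 (MeasurableSet.of_discrete (s := {n | i < n}))
    · exact measurable_traj n (γ 0, i) (measurableSet_singleton γ)
  exact measurable_to_bool h1

/-- C5: the law of the occupied paths of the social network. -/
theorem oc_law (hdeg : ∀ v, 0 < G.degree v) (lam : NNReal) (n : ℕ) :
    (snLaw G lam).map (fun ω (γ : Tr V n) => oc ω γ) = bits (bet G lam) := by
  have := snLaw_prob G lam hdeg
  have hpl := isProb_pl G hdeg n
  apply bool_law OcLaw_measurable
  intro s
  have h1 : (⋂ γ ∈ s, {ω : Om V | oc ω γ = false}) =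
      {ω : Om V | ∀ v ∈ s.image (fun γ : Tr V n => γ 0), ∀ i < ω.1 v,
        traj n ω (v, i) ∉ (s : Set (Tr V n))} := by
    ext ω
    simp only [mem_iInter, mem_ofPred_eq, oc, decide_eq_false_iff_not, not_exists, not_and,
      Finset.mem_image, Finset.mem_coe]
    constructor
    · rintro h v ⟨γ, hγ, rfl⟩ i hi hmem
      have h0 : traj n ω (γ 0, i) 0 = γ 0 := rfl
      exact h _ hmem i (by rw [h0]; exact hi) (by rw [h0])
    · intro h γ hγ i hi h2
      exact h (γ 0) ⟨γ, hγ, rfl⟩ i hi (by rw [h2]; exact hγ)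
  rw [h1, void_traj G lam hdeg]
  have h2 : ∀ v, (pl G n v).real (s : Set (Tr V n)) =
      ∑ γ ∈ s with γ 0 = v, (wt G γ).toReal := by
    intro v
    rw [← sum_measureReal_singleton, Finset.sum_filter]
    refine Finset.sum_congr rfl fun γ _ => ?_
    rw [measureReal_def, pl_singleton G hdeg]
    split_ifs <;> simp
  simp only [h2]
  rw [← Finset.prod_fiberwise_of_maps_to (g := fun γ : Tr V n => γ 0)
    (t := s.image fun γ : Tr V n => γ 0) (fun x hx => Finset.mem_image_of_mem _ hx)]
  refine Finset.prod_congr rfl fun v _ => ?_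
  rw [Finset.mul_sum, ← Finset.sum_neg_distrib, Real.exp_sum,
    ENNReal.ofReal_prod_of_nonneg fun _ _ => (Real.exp_pos _).le]
  refine Finset.prod_congr rfl fun γ hγ => ?_
  rw [Finset.mem_filter] at hγ
  obtain ⟨_, rfl⟩ := hγ
  simp [bet, ms, mul_assoc]

end

end Cut7315
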