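import Pool.Agent.Lib.MP_7315a9_cut.Def2

/-!
# Walkers at a point

Row 7315-E2. Sketch:
exists_traj (n = K T) with F = {o}, S = univ, c = deg o ≥ 1: a walker starts at o with probability ≥ 1 - e^{-lam}; its trajectory is legal
almost surely (ae_step), so its skeleton is in occ. (outer measure: measure_mono_ae / intersect with the a.s. event.)
-/

open MeasureTheory ProbabilityTheory Set Relation
open scoped Classical

namespace Cut7315

open MP7315a9

noncomputable section

variable {V : Type*} {G : SimpleGraph V} [G.LocallyFinite] {K T : ℕ}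
variable [MeasurableSpace V] [DiscreteMeasurableSpace V] [Countable V]

/-- E2 -/
theorem oc_start (hdeg : ∀ v, 0 < G.degree v) (lam : NNReal) (o : V) :
    ENNReal.ofReal (1 - Real.exp (-lam)) ≤
      snLaw G lam {ω | ∃ σ0 : Sk V K, σ0 0 = o ∧ σ0 ∈ occ G (oc (n := K * T) ω)} := by
  have hp := isProb_pl G hdeg (K * T) o
  have h1 := exists_traj G lam hdeg (K * T) {o} Set.univ (c := 1) (by
    rw [Finset.sum_singleton, probReal_univ, mul_one]
    exact_mod_cast hdeg o)
  rw [mul_one] at h1
  refine h1.trans (measure_mono_ae ?_)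
  filter_upwards [ae_step G lam hdeg] with ω h
  rintro ⟨v, hv, i, hi, -⟩
  rw [Finset.mem_singleton] at hv
  subst hv
  refine ⟨skel K T (traj (K * T) ω (v, i)), ?_, traj (K * T) ω (v, i), ?_, ?_, rfl⟩
  · show pos ω (v, i) ((0 : ℕ) * T) = v
    rw [Nat.zero_mul]
    rfl
  · have h2 : traj (K * T) ω (v, i) 0 = v := rfl
    unfold oc
    rw [decide_eq_true_eq, h2]
    exact ⟨i, hi, rfl⟩
  · intro s
    exact h (v, i, (s : ℕ), pos ω (v, i) s)

end

end Cut7315
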