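import Pool.Agent.Lib.MP_7315a9_cut.Def2

/-!
# Measurability

Row 7315-C11. Sketch:
{η | c.Real ...} is a finite/countable combination of {η | σ ∈ occ η} and {η | acs η σ σ'} (all index types are countable:
Tr V n, Sk V K, Finset (Sk V K × Sk V K)); the colours and distances do not depend on η. Write Real as a conjunction and use
MeasurableSet.iInter/iUnion. {σ ∈ occ η} = ⋃_γ {η γ = true} ∩ const.
-/

open MeasureTheory ProbabilityTheory Set Relation
open scoped Classical

namespace Cut7315

open MP7315a9

noncomputable section

variable {V : Type*} {G : SimpleGraph V} [G.LocallyFinite] {K T : ℕ} [Countable V]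

private lemma measReal_bit {X : Type*} (γ : X) : Measurable fun η : X → Bool => η γ = true :=
  measurableSet_setOfPred.1 (show MeasurableSet {η : X → Bool | η γ = true} from
    (measurable_pi_apply γ : Measurable fun η : X → Bool => η γ) (MeasurableSet.singleton true))

private lemma measReal_occ (σ : Sk V K) :
    Measurable fun η : Tr V (K * T) → Bool => σ ∈ occ G η := by
  refine Measurable.exists fun γ => ?_
  exact (measReal_bit γ).and measurable_const

private lemma measReal_acs (σ σ' : Sk V K) :
    Measurable fun η : Tr V (K * T) → Bool => acs G η σ σ' := by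
  refine Measurable.exists fun γ => Measurable.exists fun γ' => ?_
  exact ((measReal_bit γ).and measurable_const).and
    (((measReal_bit γ').and measurable_const).and measurable_const)

/-- C11 -/
theorem measurable_real (c : Str V K) (D ℓ : ℕ) (σ0 : Sk V K) :
    MeasurableSet {η : Tr V (K * T) → Bool | c.Real G D ℓ (occ G η) (acs G η) σ0} := by
  have hset : {η : Tr V (K * T) → Bool | c.Real G D ℓ (occ G η) (acs G η) σ0} =
      {η | (∀ σ, σ ∈ c.wk σ0 → σ ∈ occ G η) ∧
        (∀ σ, σ ∈ occ G η → σ c.s ∈ vac G ℓ c.F → σ ∈ c.W) ∧
        (∀ σ, σ ∈ occ G η → ∀ σ', σ' ∈ occ G η → acs G η σ σ' → (c.red σ ↔ c.red σ')) ∧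
        (∀ j : Fin (K + 1), ∃ M : Finset (Sk V K × Sk V K), c.W.card ≤ 2 * M.card ∧
          (∀ p, p ∈ M → p.1 ∈ occ G η ∧ p.2 ∈ occ G η ∧ c.red p.1 ∧ ¬ c.red p.2 ∧
            p.2 j ∈ ball G D (p.1 j)) ∧
          ∀ p ∈ M, ∀ q ∈ M, p.1 = q.1 ∨ p.2 = q.2 → p = q)} := by
    ext η
    constructor
    · intro h
      exact ⟨h.occ, h.vacant, fun σ hσ σ' hσ' => h.closed σ hσ σ' hσ', h.mtch⟩
    · rintro ⟨h1, h2, h3, h4⟩
      exact ⟨h1, h2, fun σ hσ σ' hσ' => h3 σ hσ σ' hσ', h4⟩
  rw [hset, measurableSet_setOfPred]
  refine Measurable.and (Measurable.forall fun σ => measurable_const.imp (measReal_occ σ))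
    (Measurable.and (Measurable.forall fun σ => (measReal_occ σ).imp measurable_const)
      (Measurable.and (Measurable.forall fun σ => (measReal_occ σ).imp
        (Measurable.forall fun σ' => (measReal_occ σ').imp
          ((measReal_acs σ σ').imp measurable_const)))
        (Measurable.forall fun j => Measurable.exists fun M => measurable_const.and
          (Measurable.and (Measurable.forall fun p => measurable_const.imp
            ((measReal_occ p.1).and ((measReal_occ p.2).and measurable_const)))
            measurable_const))))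

end

end Cut7315
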