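import Pool.Agent.Lib.MP_7315a9_cut.Def2

/-!
# Independence in product measures
-/

open MeasureTheory ProbabilityTheory Set Relation
open scoped Classical

namespace Cut7315

open MP7315a9

noncomputable section

/-- C0 -/
theorem pi_indep {I X : Type*} [MeasurableSpace X] (μ : I → Measure X)
    [∀ i, IsProbabilityMeasure (μ i)] {S S' : Set I} (hS : Disjoint S S') {A B : Set (I → X)}
    (hA : MeasurableSet A) (hB : MeasurableSet B)
    (hA' : ∀ f g : I → X, (∀ i ∈ S, f i = g i) → f ∈ A → g ∈ A)
    (hB' : ∀ f g : I → X, (∀ i ∈ S', f i = g i) → f ∈ B → g ∈ B) :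
    Measure.infinitePi μ (A ∩ B) = Measure.infinitePi μ A * Measure.infinitePi μ B := by
  rcases isEmpty_or_nonempty I with hI | ⟨⟨i0⟩⟩
  · have h1 : ∀ C : Set (I → X), C = ∅ ∨ C = univ := by
      intro C
      rcases C.eq_empty_or_nonempty with h | ⟨x, hx⟩
      · exact Or.inl h
      · exact Or.inr (eq_univ_of_forall fun y => by rwa [Subsingleton.elim y x])
    rcases h1 A with rfl | rfl <;> simp
  obtain ⟨x0⟩ : Nonempty X := nonempty_of_isProbabilityMeasure (μ i0)
  let s : I → MeasurableSpace (I → X) := fun e => MeasurableSpace.comap (fun ω => ω e) inferInstance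
  have hind : iIndep s (Measure.infinitePi μ) := by
    have := iIndepFun_infinitePi (P := μ) (X := fun _ (b : X) => b) (fun _ => measurable_id)
    exact this
  have h1 := indep_iSup_of_disjoint (m := s) (fun e => measurable_iff_comap_le.1
    (measurable_pi_apply e)) hind hS
  rw [Indep_iff] at h1
  have key : ∀ (U : Set I) (C : Set (I → X)), MeasurableSet C →
      (∀ η η' : I → X, (∀ k ∈ U, η k = η' k) → η ∈ C → η' ∈ C) →
      MeasurableSet[⨆ k ∈ U, s k] C := by
    intro U C hC hC'
    let f : (I → X) → I → X := fun η k => if k ∈ U then η k else x0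
    have hf : Measurable[⨆ k ∈ U, s k] f := by
      rw [@measurable_pi_iff]
      intro e
      by_cases he : e ∈ U
      · simp only [f, he, if_true]
        have h1 : s e ≤ ⨆ a ∈ U, s a := le_iSup₂_of_le e he le_rfl
        exact (measurable_iff_comap_le.2 (le_refl (s e))).mono h1 le_rfl
      · simp only [f, he, if_false]
        exact @measurable_const _ _ _ (_) _
    have hfC : f ⁻¹' C = C := by
      ext η
      constructor
      · exact fun h => hC' _ _ (fun k hk => by simp [f, hk]) h
      · exact fun h => hC' _ _ (fun k hk => by simp [f, hk]) h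
    rw [← hfC]
    exact hf hC
  exact h1 A B (key S A hA hA') (key S' B hB hB')

end

end Cut7315
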