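import Pool.Agent.Lib.MP_7315a9_cut.FinPaths

/-!
# Pinning

Row 7315-C1. Sketch:
E ⊆ ⋃_f (E ∩ {η | ∀ σ, η (f σ) = true}) and on this event setT (image f) η = η, so it is ⊆ {η (f σ) = true ∀ σ} ∩
{η | setT (image f) η ∈ E}. These are independent (bits_indep with S = image of f, T = complement); f is injective since
skel (f σ) = σ; the first has probability ∏ β (f σ) (see bits_path in Pos.lean / infinitePi_pi). Measurability: setT P is
measurable (coordinatewise).
-/

open MeasureTheory ProbabilityTheory Set Relation
open scoped Classical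

namespace Cut7315

open MP7315a9

noncomputable section

variable {V : Type*} {G : SimpleGraph V} [G.LocallyFinite] {K T : ℕ}

private lemma PinBound_meas {X : Type*} (P : Finset X) : Measurable (setT P : (X → Bool) → X → Bool) := by
  refine measurable_pi_lambda _ fun γ => ?_
  by_cases h : γ ∈ P
  · have : (fun η : X → Bool => setT P η γ) = fun _ => true := by
      funext η
      simp only [setT, if_pos h]
    rw [this]
    exact measurable_const
  · have : (fun η : X → Bool => setT P η γ) = fun η => η γ := by
      funext η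
      simp only [setT, if_neg h]
    rw [this]
    exact measurable_pi_apply γ

/-- C1: pinning. -/
theorem pin_bound (β : Tr V (K * T) → unitInterval) (U : Finset (Sk V K))
    {E : Set (Tr V (K * T) → Bool)} (hE : MeasurableSet E)
    (hU : ∀ η ∈ E, ∀ σ ∈ U, σ ∈ occ G η) :
    bits β E ≤ ∑ f ∈ Fintype.piFinset fun σ : U => (finite_Pth (G := G) (T := T) σ.1).toFinset,
      (∏ σ, ENNReal.ofReal (β (f σ))) * bits β {η | setT (Finset.univ.image f) η ∈ E} := by
  have hsub : E ⊆ ⋃ f ∈ Fintype.piFinset fun σ : U => (finite_Pth (G := G) (T := T) σ.1).toFinset,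
      ({η | ∀ σ, η (f σ) = true} ∩ {η | setT (Finset.univ.image f) η ∈ E}) := by
    intro η hη
    have h1 : ∀ σ : U, ∃ γ, η γ = true ∧ Lg G γ ∧ skel K T γ = σ.1 := fun σ => hU η hη σ.1 σ.2
    choose f hf using h1
    rw [mem_iUnion₂]
    refine ⟨f, ?_, ?_, ?_⟩
    · rw [Fintype.mem_piFinset]
      intro σ
      rw [Set.Finite.mem_toFinset]
      exact ⟨(hf σ).2.1, (hf σ).2.2⟩
    · exact fun σ => (hf σ).1
    · have h2 : setT (Finset.univ.image f) η = η := by
        funext γ
        unfold setT
        split_ifs with h
        · obtain ⟨σ, _, rfl⟩ := Finset.mem_image.1 h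
          exact ((hf σ).1).symm
        · rfl
      rw [mem_setOf_eq, h2]
      exact hη
  refine (measure_mono hsub).trans ((measure_biUnion_finset_le _ _).trans ?_)
  refine Finset.sum_le_sum fun f hf => ?_
  rw [Fintype.mem_piFinset] at hf
  have hinj : Function.Injective f := by
    intro σ σ' h
    have h1 := (Set.Finite.mem_toFinset _).1 (hf σ)
    have h2 := (Set.Finite.mem_toFinset _).1 (hf σ')
    apply Subtype.ext
    rw [← h1.2, ← h2.2, h]
  have hset : {η : Tr V (K * T) → Bool | ∀ σ, η (f σ) = true} =
      Set.pi ((Finset.univ.image f : Finset (Tr V (K * T))) : Set (Tr V (K * T))) fun _ => {true} := by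
    ext η
    simp only [mem_setOf_eq, Set.mem_pi, Finset.coe_image, Finset.coe_univ, Set.image_univ, mem_range,
      mem_singleton_iff]
    constructor
    · rintro h γ ⟨σ, rfl⟩
      exact h σ
    · exact fun h σ => h _ ⟨σ, rfl⟩
  have hA : MeasurableSet {η : Tr V (K * T) → Bool | ∀ σ, η (f σ) = true} := by
    rw [hset]
    exact MeasurableSet.pi (Finset.countable_toSet _) fun _ _ => by trivial
  have hP : bits β {η : Tr V (K * T) → Bool | ∀ σ, η (f σ) = true} = ∏ σ, ENNReal.ofReal (β (f σ)) := by
    rw [hset, bits, Measure.infinitePi_pi _ (fun _ _ => by trivial),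
      Finset.prod_image fun a _ b _ h => hinj h]
    simp only [bern_true]
  have hB : MeasurableSet {η : Tr V (K * T) → Bool | setT (Finset.univ.image f) η ∈ E} :=
    PinBound_meas _ hE
  rw [bits_indep β (S := Set.range f) (T := (Set.range f)ᶜ) disjoint_compl_right hA hB ?_ ?_, hP]
  · intro η η' h h1 σ
    rw [← h (f σ) ⟨σ, rfl⟩]
    exact h1 σ
  · intro η η' h h1
    have h2 : setT (Finset.univ.image f) η' = setT (Finset.univ.image f) η := by
      funext γ
      unfold setT
      split_ifs with h3
      · rfl
      · refine (h γ fun h4 => h3 ?_).symm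
        obtain ⟨σ, rfl⟩ := h4
        exact Finset.mem_image_of_mem f (Finset.mem_univ σ)
    rw [mem_setOf_eq, h2]
    exact h1

end

end Cut7315
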