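import Pool.Agent.Lib.MP_7315a9_cut.SeqFin

/-!
# The sequential bound

Row 7315-C8. Sketch:
Let Λ_n ⊆ I be finite sets with U ⊆ Λ_n increasing to I (I countable). For every Γ ∈ Ev there is n0 with: for n ≥ n0
all the k matchings are inside Λ_n; so Γ ∈ E_n := {the restriction of Γ to the Fintype A ∩ Λ_n is in Ev ... univ}. So
Ev ⊆ ⋃_n ⋂_{m ≥ n} E_m, an increasing union, and P(Ev) ≤ sup_n P(⋂_{m≥n} E_m) ≤ sup P(E_n) ≤ bound. P(E_n) = seq_fin for
I' = {a // a ∈ A ∧ a ∈ Λ_n} (infinitePi restricted to finitely many coordinates is Measure.pi: infinitePi_map_restrict or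
map_infinitePi_infinitePi_of_inj and infinitePi_eq_pi); U as a finset of the subtype: Finset.subtype; the products over U agree.
-/

open MeasureTheory ProbabilityTheory Set Relation
open scoped Classical

namespace Cut7315

open MP7315a9

noncomputable section

variable {V : Type*} {G : SimpleGraph V} [G.LocallyFinite] {K T : ℕ}
variable [MeasurableSpace V] [DiscreteMeasurableSpace V] [Countable V]

/-- The bound does not change when the walkers are restricted to a finset containing `U`. -/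
private lemma seqBound_evB {Δ T τ m k : ℕ} {I : Type*} (U Λ : Finset I) (hΛ : U ⊆ Λ)
    (σ : I → Sk V k) :
    evB G Δ T τ m (U.subtype (· ∈ Λ)) (fun a : Λ => σ a) = evB G Δ T τ m U σ := by
  have hmem : ∀ a ∈ U, a ∈ Λ := fun a ha => hΛ ha
  have h1 : ∏ a ∈ U.subtype (· ∈ Λ), ∏ j : Fin k, pT G T (σ a j.castSucc) (σ a j.succ) =
      ∏ a ∈ U, ∏ j : Fin k, pT G T (σ a j.castSucc) (σ a j.succ) :=
    Finset.prod_subtype_of_mem (fun a => ∏ j : Fin k, pT G T (σ a j.castSucc) (σ a j.succ)) hmem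
  have h2 : ∀ j : Fin k, fst' G τ (U.subtype (· ∈ Λ)) (fun a : Λ => σ a) j = fst' G τ U σ j := by
    intro j
    unfold fst'
    rw [Finset.card_filter, Finset.card_filter]
    exact Finset.sum_subtype_of_mem
      (fun a => if σ a j.succ ∉ ball G (3 * τ) (σ a j.castSucc) then 1 else 0) hmem
  unfold evB
  simp only [h2]
  rw [h1]

/-- C8 -/
theorem seq_bound {Δ D τ k m : ℕ} (hΔ : ∀ v, G.degree v ≤ Δ) (hdeg : ∀ v, 0 < G.degree v)
    (hD : 2 * D ≤ τ) {I : Type*} [Countable I] (x : I → V) (U : Finset I) (σ : I → Sk V k)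
    (red : I → Prop) (A : Set I) (hU : (U : Set I) ⊆ A) :
    Measure.infinitePi (fun a => pl G (k * (4 * τ)) (x a)) (Ev G D (4 * τ) k m U σ red A) ≤
    ENNReal.ofReal (evB G Δ (4 * τ) τ m U σ) := by
  have hpl : ∀ a, IsProbabilityMeasure (pl G (k * (4 * τ)) (x a)) :=
    fun a => isProb_pl G hdeg _ _
  set μ : I → Measure (Tr V (k * (4 * τ))) := fun a => pl G (k * (4 * τ)) (x a) with hμ
  -- the part of the event where the matchings are inside `Λ`
  set E : Finset I → Set (I → Tr V (k * (4 * τ))) := fun Λ =>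
    {Γ | (∀ a ∈ U, skel k (4 * τ) (Γ a) = σ a) ∧
      (∀ j : Fin k, ∃ M : Finset (I × I), m ≤ M.card ∧ (∀ p ∈ M, p.1 ∈ Λ ∧ p.2 ∈ Λ) ∧
        (∀ p ∈ M, p.1 ∈ A ∧ p.2 ∈ A ∧ red p.1 ∧ ¬ red p.2 ∧
          skel k (4 * τ) (Γ p.2) j.castSucc ∈ ball G D (skel k (4 * τ) (Γ p.1) j.castSucc)) ∧
        ∀ p ∈ M, ∀ q ∈ M, p.1 = q.1 ∨ p.2 = q.2 → p = q) ∧
      ∀ a ∈ A, ∀ b ∈ A, red a → ¬ red b → ¬ Meet (Γ a) (Γ b)} with hE
  have hmono : Monotone E := by
    intro Λ Λ' hle Γ hΓ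
    refine ⟨hΓ.1, fun j => ?_, hΓ.2.2⟩
    obtain ⟨M, hm, hM1, hM2, hM3⟩ := hΓ.2.1 j
    exact ⟨M, hm, fun p hp => ⟨hle (hM1 p hp).1, hle (hM1 p hp).2⟩, hM2, hM3⟩
  have hcov : Ev G D (4 * τ) k m U σ red A ⊆ ⋃ Λ, E Λ := by
    intro Γ hΓ
    obtain ⟨h1, h2, h3⟩ := hΓ
    choose M hm hM2 hM3 using h2
    refine mem_iUnion.2 ⟨Finset.univ.biUnion fun j => (M j).image Prod.fst ∪ (M j).image Prod.snd,
      h1, fun j => ⟨M j, hm j, fun p hp => ?_, hM2 j, hM3 j⟩, h3⟩
    constructor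
    · exact Finset.mem_biUnion.2 ⟨j, Finset.mem_univ j,
        Finset.mem_union_left _ (Finset.mem_image_of_mem _ hp)⟩
    · exact Finset.mem_biUnion.2 ⟨j, Finset.mem_univ j,
        Finset.mem_union_right _ (Finset.mem_image_of_mem _ hp)⟩
  have hbd : ∀ Λ, Measure.infinitePi μ (E Λ) ≤ ENNReal.ofReal (evB G Δ (4 * τ) τ m U σ) := by
    intro Λ
    set Λ' : Finset I := (Λ ∪ U).filter (· ∈ A) with hΛ'
    have hUΛ : U ⊆ Λ' := by
      intro a ha
      exact Finset.mem_filter.2 ⟨Finset.mem_union_right _ ha, hU ha⟩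
    have hΛA : ∀ a ∈ Λ', a ∈ A := fun a ha => (Finset.mem_filter.1 ha).2
    have hsub : E Λ ⊆ Λ'.restrict ⁻¹' (Ev G D (4 * τ) k m (U.subtype (· ∈ Λ'))
        (fun a : Λ' => σ a) (fun a : Λ' => red a) univ) := by
      intro Γ hΓ
      obtain ⟨h1, h2, h3⟩ := hΓ
      refine ⟨fun a ha => h1 a (Finset.mem_subtype.1 ha), fun j => ?_,
        fun a _ b _ => h3 a (hΛA a a.2) b (hΛA b b.2)⟩
      obtain ⟨M, hm, hM1, hM2, hM3⟩ := h2 j
      refine ⟨Finset.univ.filter fun p : Λ' × Λ' => ((p.1 : I), (p.2 : I)) ∈ M, ?_, ?_, ?_⟩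
      · refine hm.trans ?_
        have himg : M ⊆ (Finset.univ.filter fun p : Λ' × Λ' => ((p.1 : I), (p.2 : I)) ∈ M).image
            fun p : Λ' × Λ' => ((p.1 : I), (p.2 : I)) := by
          intro p hp
          have hp1 : p.1 ∈ Λ' :=
            Finset.mem_filter.2 ⟨Finset.mem_union_left _ (hM1 p hp).1, (hM2 p hp).1⟩
          have hp2 : p.2 ∈ Λ' :=
            Finset.mem_filter.2 ⟨Finset.mem_union_left _ (hM1 p hp).2, (hM2 p hp).2.1⟩
          exact Finset.mem_image.2 ⟨(⟨p.1, hp1⟩, ⟨p.2, hp2⟩),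
            Finset.mem_filter.2 ⟨Finset.mem_univ _, hp⟩, rfl⟩
        exact (Finset.card_le_card himg).trans Finset.card_image_le
      · intro p hp
        have hp' := (Finset.mem_filter.1 hp).2
        obtain ⟨-, -, h4, h5, h6⟩ := hM2 _ hp'
        exact ⟨mem_univ _, mem_univ _, h4, h5, h6⟩
      · intro p hp q hq hpq
        have hp' := (Finset.mem_filter.1 hp).2
        have hq' := (Finset.mem_filter.1 hq).2
        have h7 : ((p.1 : I) = q.1) ∨ ((p.2 : I) = q.2) := by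
          rcases hpq with h | h
          · exact Or.inl (congrArg _ h)
          · exact Or.inr (congrArg _ h)
        have h8 := hM3 _ hp' _ hq' h7
        exact Prod.ext (Subtype.ext (congrArg Prod.fst h8)) (Subtype.ext (congrArg Prod.snd h8))
    have hms : Measurable (Λ'.restrict (π := fun _ : I => Tr V (k * (4 * τ)))) :=
      Finset.measurable_restrict Λ'
    calc Measure.infinitePi μ (E Λ)
        ≤ Measure.infinitePi μ (Λ'.restrict ⁻¹' (Ev G D (4 * τ) k m (U.subtype (· ∈ Λ'))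
          (fun a : Λ' => σ a) (fun a : Λ' => red a) univ)) := measure_mono hsub
      _ ≤ (Measure.infinitePi μ).map Λ'.restrict (Ev G D (4 * τ) k m (U.subtype (· ∈ Λ'))
          (fun a : Λ' => σ a) (fun a : Λ' => red a) univ) :=
          Measure.le_map_apply hms.aemeasurable _
      _ = Measure.pi (fun a : Λ' => μ a) (Ev G D (4 * τ) k m (U.subtype (· ∈ Λ'))
          (fun a : Λ' => σ a) (fun a : Λ' => red a) univ) := by
          rw [Measure.infinitePi_map_restrict]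
      _ ≤ ENNReal.ofReal (evB G Δ (4 * τ) τ m (U.subtype (· ∈ Λ')) (fun a : Λ' => σ a)) :=
          seq_fin hΔ hdeg hD (fun a : Λ' => x a) _ _ _
      _ = ENNReal.ofReal (evB G Δ (4 * τ) τ m U σ) := by
          rw [seqBound_evB U Λ' hUΛ σ]
  calc Measure.infinitePi μ (Ev G D (4 * τ) k m U σ red A)
      ≤ Measure.infinitePi μ (⋃ Λ, E Λ) := measure_mono hcov
    _ = ⨆ Λ, Measure.infinitePi μ (E Λ) := (hmono.directed_le).measure_iUnion
    _ ≤ ENNReal.ofReal (evB G Δ (4 * τ) τ m U σ) := iSup_le hbd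

end

end Cut7315
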