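import Pool.Agent.Lib.MP_7315a9_cut.PT

/-!
# Splitting at a block time

Row 7315-C10. Sketch:
wsk_split: d(σ 0) ∏_{i<K} pT(σ i, σ(i+1)): move the root from 0 to s with pT_symm (induction on s), then reindex.
evB_split: take the product over U of wsk_split; the product over the blocks j < s and j ≥ s of (1-c1)^(m - fst'): the
backward block j corresponds to i = s-1-j, with fast symmetric by ball_symm. (image of an injective map: Finset.prod_image,
card of filter of image.)
-/

open MeasureTheory ProbabilityTheory Set Relation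
open scoped Classical

namespace Cut7315

open MP7315a9

noncomputable section

variable {V : Type*} {G : SimpleGraph V} [G.LocallyFinite] {K T : ℕ}
variable [MeasurableSpace V] [DiscreteMeasurableSpace V] [Countable V]

/-- the skeleton as a function on the natural numbers -/
private def xn (σ : Sk V K) (i : ℕ) : V := σ ⟨min i K, by omega⟩

omit [MeasurableSpace V] [DiscreteMeasurableSpace V] [Countable V] in
private lemma xn_cast (σ : Sk V K) (j : Fin K) : σ j.castSucc = xn σ j := by
  unfold xn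
  congr 1
  apply Fin.ext
  simp only [Fin.val_castSucc]
  omega

omit [MeasurableSpace V] [DiscreteMeasurableSpace V] [Countable V] in
private lemma xn_succ (σ : Sk V K) (j : Fin K) : σ j.succ = xn σ (j + 1) := by
  unfold xn
  congr 1
  apply Fin.ext
  simp only [Fin.val_succ]
  omega

omit [MeasurableSpace V] [DiscreteMeasurableSpace V] [Countable V] in
private lemma xn_s (σ : Sk V K) (s : Fin (K + 1)) : σ s = xn σ s := by
  unfold xn
  congr 1
  apply Fin.ext
  simp only
  omega

omit [MeasurableSpace V] [DiscreteMeasurableSpace V] [Countable V] in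
private lemma xn_bc (σ : Sk V K) (s : Fin (K + 1)) (j : Fin (s : ℕ)) :
    sbw s σ j.castSucc = xn σ (s - j) := by
  unfold xn sbw
  congr 1
  apply Fin.ext
  simp only [Fin.val_castSucc]
  omega

omit [MeasurableSpace V] [DiscreteMeasurableSpace V] [Countable V] in
private lemma xn_bs (σ : Sk V K) (s : Fin (K + 1)) (j : Fin (s : ℕ)) :
    sbw s σ j.succ = xn σ (s - (j + 1)) := by
  unfold xn sbw
  congr 1
  apply Fin.ext
  simp only [Fin.val_succ]
  omega

omit [MeasurableSpace V] [DiscreteMeasurableSpace V] [Countable V] in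
private lemma xn_fc (σ : Sk V K) (s : Fin (K + 1)) (j : Fin (K - (s : ℕ))) :
    sfw s σ j.castSucc = xn σ (s + j) := by
  unfold xn sfw
  congr 1
  apply Fin.ext
  simp only [Fin.val_castSucc]
  omega

omit [MeasurableSpace V] [DiscreteMeasurableSpace V] [Countable V] in
private lemma xn_fs (σ : Sk V K) (s : Fin (K + 1)) (j : Fin (K - (s : ℕ))) :
    sfw s σ j.succ = xn σ (s + j + 1) := by
  unfold xn sfw
  congr 1
  apply Fin.ext
  simp only [Fin.val_succ]
  omega

/-- the product over a range, split at `s`, the first part read backwards -/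
private lemma range_split (f : ℕ → ℝ) {s K : ℕ} (h : s ≤ K) :
    ∏ j : Fin K, f j = (∏ j : Fin s, f (s - (j + 1))) * ∏ j : Fin (K - s), f (s + j) := by
  rw [← Finset.prod_range (fun i => f i), ← Finset.prod_range (fun i => f (s - (i + 1))),
    ← Finset.prod_range (fun i => f (s + i))]
  have h1 : K = s + (K - s) := by omega
  conv_lhs => rw [h1, Finset.prod_range_add]
  congr 1
  rw [← Finset.prod_range_reflect]
  apply Finset.prod_congr rfl
  intro i hi
  congr 1
  omega

private lemma range_split2 (f : ℕ → ℝ) {s K : ℕ} (h : s ≤ K) :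
    ∏ j ∈ Finset.range K, f j =
      (∏ j ∈ Finset.range s, f j) * ∏ j ∈ Finset.range (K - s), f (s + j) := by
  have h1 : K = s + (K - s) := by omega
  conv_lhs => rw [h1, Finset.prod_range_add]

private lemma root_move (hdeg : ∀ v, 0 < G.degree v) (x : ℕ → V) (s : ℕ) :
    (G.degree (x 0) : ℝ) * ∏ i ∈ Finset.range s, pT G T (x i) (x (i + 1)) =
      G.degree (x s) * ∏ i ∈ Finset.range s, pT G T (x (i + 1)) (x i) := by
  induction s with
  | zero => simp
  | succ s ih =>
    rw [Finset.prod_range_succ, Finset.prod_range_succ, ← mul_assoc, ih]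
    have := pT_symm hdeg T (x s) (x (s + 1))
    calc (G.degree (x s) : ℝ) * (∏ i ∈ Finset.range s, pT G T (x (i + 1)) (x i)) *
          pT G T (x s) (x (s + 1)) = (G.degree (x s) * pT G T (x s) (x (s + 1))) *
          ∏ i ∈ Finset.range s, pT G T (x (i + 1)) (x i) := by ring
      _ = _ := by rw [this]; ring

/-- C10 -/
theorem wsk_split (hdeg : ∀ v, 0 < G.degree v) (s : Fin (K + 1)) (σ : Sk V K) :
    wsk G T σ = G.degree (σ s) *
      (∏ j : Fin (s : ℕ), pT G T (sbw s σ j.castSucc) (sbw s σ j.succ)) *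
      ∏ j : Fin (K - (s : ℕ)), pT G T (sfw s σ j.castSucc) (sfw s σ j.succ) := by
  have h0 : σ 0 = xn σ 0 := xn_s σ 0
  have hK : ∏ j : Fin K, pT G T (σ j.castSucc) (σ j.succ) =
      ∏ i ∈ Finset.range K, pT G T (xn σ i) (xn σ (i + 1)) := by
    rw [Finset.prod_range (fun i => pT G T (xn σ i) (xn σ (i + 1)))]
    exact Finset.prod_congr rfl fun j _ => by rw [xn_cast σ j, xn_succ σ j]
  have hB : ∏ j : Fin (s : ℕ), pT G T (sbw s σ j.castSucc) (sbw s σ j.succ) =
      ∏ i ∈ Finset.range (s : ℕ), pT G T (xn σ (i + 1)) (xn σ i) := by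
    rw [← Finset.prod_range_reflect,
      Finset.prod_range (fun i => pT G T (xn σ ((s : ℕ) - 1 - i + 1)) (xn σ ((s : ℕ) - 1 - i)))]
    refine Finset.prod_congr rfl fun j _ => ?_
    rw [xn_bc, xn_bs]
    congr 2 <;> omega
  have hF : ∏ j : Fin (K - (s : ℕ)), pT G T (sfw s σ j.castSucc) (sfw s σ j.succ) =
      ∏ i ∈ Finset.range (K - (s : ℕ)), pT G T (xn σ (s + i)) (xn σ (s + i + 1)) := by
    rw [Finset.prod_range (fun i => pT G T (xn σ (s + i)) (xn σ (s + i + 1)))]
    exact Finset.prod_congr rfl fun j _ => by rw [xn_fc, xn_fs]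
  have hs : (s : ℕ) ≤ K := Nat.lt_succ_iff.1 s.2
  unfold wsk
  rw [hK, hB, hF, h0, xn_s σ s]
  have h2 : ∏ i ∈ Finset.range K, pT G T (xn σ i) (xn σ (i + 1)) =
      (∏ i ∈ Finset.range (s : ℕ), pT G T (xn σ i) (xn σ (i + 1))) *
        ∏ i ∈ Finset.range (K - (s : ℕ)), pT G T (xn σ (s + i)) (xn σ (s + i + 1)) :=
    range_split2 (fun i => pT G T (xn σ i) (xn σ (i + 1))) hs
  rw [h2, ← mul_assoc, root_move hdeg]

/-- C10b -/
theorem evB_split (hdeg : ∀ v, 0 < G.degree v) {Δ τ m : ℕ} (s : Fin (K + 1))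
    (U : Finset (Sk V K)) (σ1 : Sk V (s : ℕ)) (σ2 : Sk V (K - (s : ℕ))) :
    (∏ σ ∈ U, (G.degree (σ s) : ℝ)) *
      evB G Δ T τ m (U.image (Sum.inr : Sk V K → Ag V K)) (Sum.elim (fun _ => σ1) fun σ => sbw s σ) *
      evB G Δ T τ m (U.image (Sum.inr : Sk V K → Ag V K)) (Sum.elim (fun _ => σ2) fun σ => sfw s σ) =
    (∏ σ ∈ U, wsk G T σ) * ∏ j : Fin K, (1 - c1 Δ T) ^ (m - fst' G τ U id j) := by
  have hs : (s : ℕ) ≤ K := Nat.lt_succ_iff.1 s.2
  have hinj : Function.Injective (Sum.inr : Sk V K → Ag V K) := Sum.inr_injective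
  set N : ℕ → ℕ := fun i => (U.filter fun σ => xn σ (i + 1) ∉ ball G (3 * τ) (xn σ i)).card with hN
  have hfst : ∀ j : Fin K, fst' G τ U id j = N j := by
    intro j
    unfold fst'
    rw [hN]
    simp only [id, xn_cast, xn_succ]
  have hfb : ∀ j : Fin (s : ℕ), fst' G τ (U.image (Sum.inr : Sk V K → Ag V K))
      (Sum.elim (fun _ => σ1) fun σ => sbw s σ) j = N (s - (j + 1)) := by
    intro j
    unfold fst'
    rw [Finset.filter_image, Finset.card_image_of_injective _ hinj, hN]
    congr 1
    apply Finset.filter_congr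
    intro σ _
    simp only [Sum.elim_inr]
    rw [xn_bc, xn_bs]
    have h1 : (s : ℕ) - (j + 1) + 1 = s - j := by have := j.2; omega
    rw [h1]
    exact not_congr ⟨ball_symm, ball_symm⟩
  have hff : ∀ j : Fin (K - (s : ℕ)), fst' G τ (U.image (Sum.inr : Sk V K → Ag V K))
      (Sum.elim (fun _ => σ2) fun σ => sfw s σ) j = N (s + j) := by
    intro j
    unfold fst'
    rw [Finset.filter_image, Finset.card_image_of_injective _ hinj, hN]
    congr 1
    apply Finset.filter_congr
    intro σ _
    simp only [Sum.elim_inr]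
    rw [xn_fc, xn_fs]
  unfold evB
  rw [Finset.prod_image hinj.injOn, Finset.prod_image hinj.injOn]
  simp only [Sum.elim_inr, hfst, hfb, hff]
  rw [range_split (fun i => (1 - c1 Δ T) ^ (m - N i)) hs]
  rw [Finset.prod_congr rfl fun σ _ => wsk_split (T := T) hdeg s σ, Finset.prod_mul_distrib,
    Finset.prod_mul_distrib]
  ring

end

end Cut7315
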