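import Pool.Agent.Lib.MP_7315a9_cut.RealErase
import Pool.Agent.Lib.MP_7315a9_cut.CloudDet
import Pool.Agent.Lib.MP_7315a9_cut.PiIndep
import Pool.Agent.Lib.MP_7315a9_cut.PinBound
import Pool.Agent.Lib.MP_7315a9_cut.EraseBound
import Pool.Agent.Lib.MP_7315a9_cut.ClLaw
import Pool.Agent.Lib.MP_7315a9_cut.SeqBound
import Pool.Agent.Lib.MP_7315a9_cut.WskSplit
import Pool.Agent.Lib.MP_7315a9_cut.MeasReal

/-!
# The probability of a structure
-/

open MeasureTheory ProbabilityTheory Set Relation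
open scoped Classical

namespace Cut7315

open MP7315a9

noncomputable section

variable {V : Type*} {G : SimpleGraph V} [G.LocallyFinite] {K T : ℕ}

lemma measurable_setT {X : Type*} (P : Finset X) : Measurable (setT P : (X → Bool) → X → Bool) := by
  refine measurable_pi_lambda _ fun γ => ?_
  by_cases h : γ ∈ P
  · simp only [setT, h, if_true]; exact measurable_const
  · simp only [setT, h, if_false]; fun_prop

lemma bet_le (lam : NNReal) {n : ℕ} (γ : Tr V n) :
    ENNReal.ofReal (bet G lam γ) ≤ ENNReal.ofReal lam * ENNReal.ofReal (ms G γ) := by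
  rw [← ENNReal.ofReal_mul (NNReal.coe_nonneg lam)]
  refine ENNReal.ofReal_le_ofReal ?_
  show 1 - Real.exp (-(lam * ms G γ)) ≤ lam * ms G γ
  have := Real.add_one_le_exp (-(lam * ms G γ))
  linarith

lemma bwfw_inj {s : Fin (K + 1)} {γ γ' : Tr V (K * T)} (h1 : bw s γ = bw s γ')
    (h2 : fw s γ = fw s γ') : γ = γ' := by
  funext u
  have hs : (s : ℕ) ≤ K := Nat.lt_succ_iff.1 s.2
  have hu : (u : ℕ) ≤ K * T := Nat.lt_succ_iff.1 u.2
  have hsT : (s : ℕ) * T ≤ K * T := Nat.mul_le_mul_right T hs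
  by_cases hu' : (u : ℕ) ≤ s * T
  · have h3 := congrFun h1 ⟨s * T - u, by omega⟩
    simp only [bw] at h3
    have e : (⟨s * T - (s * T - u), by omega⟩ : Fin (K * T + 1)) = u :=
      Fin.ext (by simp only; omega)
    rwa [e] at h3
  · have h3 := congrFun h2 ⟨u - s * T, by rw [Nat.sub_mul]; omega⟩
    simp only [fw] at h3
    have e : (⟨s * T + (u - s * T), by omega⟩ : Fin (K * T + 1)) = u :=
      Fin.ext (by simp only; omega)
    rwa [e] at h3

variable [MeasurableSpace V] [DiscreteMeasurableSpace V] [Countable V]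

lemma pl_legal (hdeg : ∀ v, 0 < G.degree v) (n : ℕ) (x : V) :
    pl G n x {γ | ¬ (Lg G γ ∧ γ 0 = x)} = 0 := by
  rw [pl_apply G hdeg, ENNReal.tsum_eq_zero]
  intro γ
  by_cases h : γ ∈ {γ : Tr V n | ¬ (Lg G γ ∧ γ 0 = x)}
  · rw [indicator_of_mem h]
    by_cases h0 : γ 0 = x
    · rw [if_pos h0]
      have h1 : ¬ Lg G γ := fun h2 => h ⟨h2, h0⟩
      unfold Lg at h1
      push Not at h1
      obtain ⟨i, hi1, hi2⟩ := h1
      unfold wt
      refine Finset.prod_eq_zero (Finset.mem_univ i) ?_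
      simp [stepProb, hi1, hi2]
    · rw [if_neg h0]
  · rw [indicator_of_notMem h]

/-- Independence of the cloud and the pinned walkers. -/
lemma cloud_indep (hdeg : ∀ v, 0 < G.degree v) (lam : NNReal) (s : Fin (K + 1))
    {A : Set (Cfg V K T s)} (hA : MeasurableSet A)
    (hA' : ∀ x x' : Cfg V K T s, x.1 = x'.1 → (∀ w, x.2.1 (Sum.inl w) = x'.2.1 (Sum.inl w)) →
      (∀ w, x.2.2 (Sum.inl w) = x'.2.2 (Sum.inl w)) → x ∈ A → x' ∈ A)
    {Bb : Set (Ag V K → Tr V ((s : ℕ) * T))} {Bf : Set (Ag V K → Tr V ((K - (s : ℕ)) * T))}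
    (hBb : MeasurableSet Bb) (hBf : MeasurableSet Bf)
    (hBb' : ∀ b b', (∀ σ, b (Sum.inr σ) = b' (Sum.inr σ)) → b ∈ Bb → b' ∈ Bb)
    (hBf' : ∀ b b', (∀ σ, b (Sum.inr σ) = b' (Sum.inr σ)) → b ∈ Bf → b' ∈ Bf) :
    clLaw G lam T s (A ∩ {x | x.2.1 ∈ Bb ∧ x.2.2 ∈ Bf}) = clLaw G lam T s A *
      ((Measure.infinitePi fun a : Ag V K => pl G ((s : ℕ) * T) (st s a)) Bb *
      (Measure.infinitePi fun a : Ag V K => pl G ((K - (s : ℕ)) * T) (st s a)) Bf) := by
  have hpl := fun n => isProb_pl G hdeg n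
  set μb := Measure.infinitePi fun a : Ag V K => pl G ((s : ℕ) * T) (st s a) with hμb
  set μf := Measure.infinitePi fun a : Ag V K => pl G ((K - (s : ℕ)) * T) (st s a) with hμf
  have hdis : Disjoint (range (Sum.inl : V × ℕ → Ag V K)) (range (Sum.inr : Sk V K → Ag V K)) := by
    rw [Set.disjoint_left]
    rintro _ ⟨w, rfl⟩ ⟨σ, h⟩
    exact absurd h (by simp)
  have hBm : MeasurableSet {x : Cfg V K T s | x.2.1 ∈ Bb ∧ x.2.2 ∈ Bf} :=
    (measurable_fst.comp measurable_snd hBb).inter (measurable_snd.comp measurable_snd hBf)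
  rw [clLaw, Measure.prod_apply (hA.inter hBm), Measure.prod_apply hA, ← lintegral_mul_const _
    (measurable_measure_prodMk_left hA)]
  refine lintegral_congr fun N => ?_
  have hAN : MeasurableSet (Prod.mk N ⁻¹' A) := measurable_prodMk_left hA
  have e1 : Prod.mk N ⁻¹' (A ∩ {x : Cfg V K T s | x.2.1 ∈ Bb ∧ x.2.2 ∈ Bf}) =
      (Prod.mk N ⁻¹' A ∩ (Prod.fst ⁻¹' Bb)) ∩ (Prod.snd ⁻¹' Bf) := by
    ext x
    simp only [mem_preimage, mem_inter_iff, mem_ofPred_eq]
    tauto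
  have e2 : MeasurableSet (Prod.mk N ⁻¹' A ∩ (Prod.fst ⁻¹' Bb)) :=
    hAN.inter (measurable_fst hBb)
  rw [e1, Measure.prod_apply (e2.inter (measurable_snd hBf))]
  have e3 : ∀ b, μf (Prod.mk b ⁻¹' (Prod.mk N ⁻¹' A ∩ (Prod.fst ⁻¹' Bb) ∩ (Prod.snd ⁻¹' Bf))) =
      μf (Prod.mk b ⁻¹' (Prod.mk N ⁻¹' A ∩ (Prod.fst ⁻¹' Bb))) * μf Bf := by
    intro b
    rw [← pi_indep _ hdis (measurable_prodMk_left e2) hBf]
    · rfl
    · intro f g hfg hf
      refine ⟨hA' (N, b, f) (N, b, g) rfl (fun _ => rfl) (fun w => hfg _ ⟨w, rfl⟩) hf.1, hf.2⟩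
    · intro f g hfg hf
      exact hBf' f g (fun σ => hfg _ ⟨σ, rfl⟩) hf
  rw [lintegral_congr e3, lintegral_mul_const _ (measurable_measure_prodMk_left e2),
    ← Measure.prod_apply e2,
    Measure.prod_apply_symm e2]
  have e4 : ∀ f, μb ((fun b => (b, f)) ⁻¹' (Prod.mk N ⁻¹' A ∩ (Prod.fst ⁻¹' Bb))) =
      μb ((fun b => (b, f)) ⁻¹' (Prod.mk N ⁻¹' A)) * μb Bb := by
    intro f
    rw [← pi_indep _ hdis (measurable_prodMk_right hAN) hBb]
    · rfl
    · intro b b' hbb' hb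
      exact hA' (N, b, f) (N, b', f) rfl (fun w => hbb' _ ⟨w, rfl⟩) (fun _ => rfl) hb
    · intro f g hfg hf
      exact hBb' f g (fun σ => hfg _ ⟨σ, rfl⟩) hf
  rw [lintegral_congr e4, lintegral_mul_const _ (measurable_measure_prodMk_right hAN),
    ← Measure.prod_apply_symm hAN]
  ring

lemma measurable_cl (s : Fin (K + 1)) :
    Measurable fun (x : Cfg V K T s) (γ : Tr V (K * T)) => cl x γ := by
  refine measurable_pi_lambda _ fun γ => ?_
  refine measurable_to_bool ?_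
  have h2 : (fun x : Cfg V K T s => cl x γ) ⁻¹' {true} =
      ⋃ i : ℕ, ({x : Cfg V K T s | i < x.1 (skel K T γ s)} ∩
        ({x : Cfg V K T s | x.2.1 (Sum.inl (skel K T γ s, i)) = bw s γ} ∩
        {x : Cfg V K T s | x.2.2 (Sum.inl (skel K T γ s, i)) = fw s γ})) := by
    ext x; simp [cl]
  rw [h2]
  refine MeasurableSet.iUnion fun i => MeasurableSet.inter ?_ (MeasurableSet.inter ?_ ?_)
  · have h1 : Measurable fun x : Cfg V K T s => x.1 (skel K T γ s) := by fun_prop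
    exact h1 (MeasurableSet.of_discrete (s := {n | i < n}))
  · have h1 : Measurable fun x : Cfg V K T s => x.2.1 (Sum.inl (skel K T γ s, i)) := by fun_prop
    exact h1 (MeasurableSet.of_discrete (s := {y | y = bw s γ}))
  · have h1 : Measurable fun x : Cfg V K T s => x.2.2 (Sum.inl (skel K T γ s, i)) := by fun_prop
    exact h1 (MeasurableSet.of_discrete (s := {y | y = fw s γ}))

omit [MeasurableSpace V] [DiscreteMeasurableSpace V] [Countable V] in
lemma cl_congr {s : Fin (K + 1)} {x x' : Cfg V K T s} (h1 : x.1 = x'.1)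
    (h2 : ∀ w, x.2.1 (Sum.inl w) = x'.2.1 (Sum.inl w))
    (h3 : ∀ w, x.2.2 (Sum.inl w) = x'.2.2 (Sum.inl w)) : cl x = cl x' := by
  funext γ
  simp only [cl, h1, h2, h3]

lemma measurable_pin {n : ℕ} (U : Finset (Sk V K)) (g : U → Tr V n) :
    MeasurableSet {b : Ag V K → Tr V n | ∀ σ : U, b (Sum.inr σ.1) = g σ} := by
  rw [Set.ofPred_forall]
  refine MeasurableSet.iInter fun σ => ?_
  have h1 : Measurable fun b : Ag V K → Tr V n => b (Sum.inr σ.1) := by fun_prop
  exact h1 (MeasurableSet.of_discrete (s := {y | y = g σ}))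

lemma pin_prob (hdeg : ∀ v, 0 < G.degree v) {n : ℕ} (x : Ag V K → V) (U : Finset (Sk V K))
    (g : U → Tr V n) (hg : ∀ σ : U, g σ 0 = x (Sum.inr σ.1)) :
    (Measure.infinitePi fun a : Ag V K => pl G n (x a)) {b | ∀ σ : U, b (Sum.inr σ.1) = g σ} =
      ∏ σ : U, wt G (g σ) := by
  have hpl := fun n => isProb_pl G hdeg n
  let t : Ag V K → Set (Tr V n) := Sum.elim (fun _ => univ)
    (fun σ => if h : σ ∈ U then {g ⟨σ, h⟩} else univ)
  have h1 : {b : Ag V K → Tr V n | ∀ σ : U, b (Sum.inr σ.1) = g σ} =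
      Set.pi (U.image Sum.inr : Finset (Ag V K)) t := by
    ext b
    simp only [mem_ofPred_eq, Set.mem_pi, Finset.coe_image, mem_image, Finset.mem_coe,
      forall_exists_index, and_imp, forall_apply_eq_imp_iff₂]
    constructor
    · intro h σ hσ
      simp only [t, Sum.elim_inr, hσ, dif_pos, mem_singleton_iff]
      exact h ⟨σ, hσ⟩
    · intro h σ
      have := h σ.1 σ.2
      simpa only [t, Sum.elim_inr, σ.2, dif_pos, mem_singleton_iff] using this
  rw [h1, Measure.infinitePi_pi _ fun _ _ => MeasurableSet.of_discrete,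
    Finset.prod_image (fun a _ b _ h => Sum.inr_injective h), ← Finset.prod_coe_sort U]
  refine Finset.prod_congr rfl fun σ _ => ?_
  simp only [t, Sum.elim_inr, σ.2, dif_pos]
  rw [pl_singleton G hdeg, if_pos (hg σ)]

lemma ae_legal (hdeg : ∀ v, 0 < G.degree v) {n : ℕ} {I : Type*} [Countable I] (x : I → V) :
    ∀ᵐ b ∂(Measure.infinitePi fun a : I => pl G n (x a)), ∀ a, Lg G (b a) ∧ b a 0 = x a := by
  have hpl := fun n => isProb_pl G hdeg n
  rw [ae_all_iff]
  intro a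
  have h1 := Measure.infinitePi_map_eval (fun a : I => pl G n (x a)) a
  have h2 := pl_legal hdeg n (x a)
  rw [← h1, Measure.map_apply (by fun_prop) MeasurableSet.of_discrete] at h2
  rw [ae_iff]
  exact h2

/-- C12 -/
theorem pmain {Δ D τ ℓ : ℕ} (hΔ : ∀ v, G.degree v ≤ Δ) (hdeg : ∀ v, 0 < G.degree v)
    (hD : 2 * D ≤ τ) (lam : NNReal) (c : Str V K) (hsub : c.W' ⊆ c.W) (σ0 : Sk V K) :
    bits (bet G lam) {η : Tr V (K * (4 * τ)) → Bool |
      c.Real G D ℓ (occ G η) (acs G η) σ0} ≤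
    ENNReal.ofReal ((∏ σ ∈ c.wk σ0, (lam * Real.exp (lam * Δ)) * wsk G (4 * τ) σ) *
      Real.exp (-(lam * (vac G ℓ c.F).card)) *
      ∏ j : Fin K, (1 - c1 Δ (4 * τ)) ^ ((c.W.card + 1) / 2 - fst' G τ (c.wk σ0) id j)) := by
  have hpl := fun n => isProb_pl G hdeg n
  set U := c.wk σ0 with hU
  have hWU : c.W ⊆ U := by
    rw [hU, Str.wk]
    exact Finset.subset_union_left.trans (Finset.subset_insert _ _)
  set E : Set (Tr V (K * (4 * τ)) → Bool) :=
    {η | c.Real G D ℓ (occ G η) (acs G η) σ0} with hE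
  have hEm : MeasurableSet E := measurable_real c D ℓ σ0
  set Nw : Set (Tr V (K * (4 * τ)) → Bool) :=
    {η | ∀ γ, Lg G γ → skel K (4 * τ) γ ∈ c.W → η γ = false} with hNw
  have hNwm : MeasurableSet Nw := by
    rw [hNw, Set.ofPred_forall]
    refine MeasurableSet.iInter fun γ => ?_
    by_cases h1 : Lg G γ ∧ skel K (4 * τ) γ ∈ c.W
    · have : {η : Tr V (K * (4 * τ)) → Bool | Lg G γ → skel K (4 * τ) γ ∈ c.W → η γ = false} =
          {η | η γ = false} := by
        ext η; simp [h1.1, h1.2]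
      rw [this]
      exact measurableSet_eq_fun (by fun_prop) measurable_const
    · have : {η : Tr V (K * (4 * τ)) → Bool | Lg G γ → skel K (4 * τ) γ ∈ c.W → η γ = false} =
          univ := by
        ext η; simp only [mem_ofPred_eq, mem_univ, iff_true]
        intro h2 h3; exact absurd ⟨h2, h3⟩ h1
      rw [this]
      exact MeasurableSet.univ
  set μN : Measure (V → ℕ) := Measure.infinitePi fun v => poissonMeasure (lam * G.degree v)
    with hμN
  set μb := Measure.infinitePi fun a : Ag V K => pl G ((c.s : ℕ) * (4 * τ)) (st c.s a) with hμb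
  set μf := Measure.infinitePi fun a : Ag V K => pl G ((K - (c.s : ℕ)) * (4 * τ)) (st c.s a)
    with hμf
  have hcl : clLaw G lam (4 * τ) c.s = μN.prod (μb.prod μf) := rfl
  set PF := Fintype.piFinset fun σ : U => (finite_Pth (G := G) (T := 4 * τ) σ.1).toFinset with hPF'
  have hPF : ∀ f ∈ PF, ∀ σ, Lg G (f σ) ∧ skel K (4 * τ) (f σ) = σ.1 := by
    intro f hf σ
    have := (Fintype.mem_piFinset.1 hf) σ
    rw [Set.Finite.mem_toFinset] at this
    exact this
  let A : (U → Tr V (K * (4 * τ))) → Set (Cfg V K (4 * τ) c.s) := fun f =>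
    (fun x (γ : Tr V (K * (4 * τ))) => cl x γ) ⁻¹'
      ({η | setT (Finset.univ.image f) η ∈ E} ∩ Nw)
  let Bb : (U → Tr V (K * (4 * τ))) → Set (Ag V K → Tr V ((c.s : ℕ) * (4 * τ))) := fun f =>
    {b | ∀ σ : U, b (Sum.inr σ.1) = bw c.s (f σ)}
  let Bf : (U → Tr V (K * (4 * τ))) → Set (Ag V K → Tr V ((K - (c.s : ℕ)) * (4 * τ))) := fun f =>
    {b | ∀ σ : U, b (Sum.inr σ.1) = fw c.s (f σ)}
  let B : (U → Tr V (K * (4 * τ))) → Set (Cfg V K (4 * τ) c.s) := fun f =>
    {x | x.2.1 ∈ Bb f ∧ x.2.2 ∈ Bf f}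
  have hEfm : ∀ f : U → Tr V (K * (4 * τ)),
      MeasurableSet {η | setT (Finset.univ.image f) η ∈ E} := fun f => measurable_setT _ hEm
  have hAm : ∀ f, MeasurableSet (A f) := fun f =>
    measurable_cl c.s ((hEfm f).inter hNwm)
  have hBbm : ∀ f, MeasurableSet (Bb f) := fun f => measurable_pin U _
  have hBfm : ∀ f, MeasurableSet (Bf f) := fun f => measurable_pin U _
  have hBm : ∀ f, MeasurableSet (B f) := fun f =>
    (measurable_fst.comp measurable_snd (hBbm f)).inter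
      (measurable_snd.comp measurable_snd (hBfm f))
  set C1 : ENNReal := ENNReal.ofReal (Real.exp (lam * Δ * c.W.card)) *
    ∏ σ : U, (ENNReal.ofReal lam * (G.degree (σ.1 c.s) : ENNReal)) with hC1
  have term : ∀ f ∈ PF, (∏ σ, ENNReal.ofReal (bet G lam (f σ))) *
      bits (bet G lam) {η | setT (Finset.univ.image f) η ∈ E} ≤
      C1 * clLaw G lam (4 * τ) c.s (A f ∩ B f) := by
    intro f hf
    have e1 := erase_bound hΔ hdeg lam c.W (hEfm f) (by
      intro η hη
      refine real_erase (fun σ hσ => ⟨f ⟨σ, hWU hσ⟩, Finset.mem_image_of_mem _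
        (Finset.mem_univ _), hPF f hf ⟨σ, hWU hσ⟩⟩) hη)
    have e2 : bits (bet G lam) ({η | setT (Finset.univ.image f) η ∈ E} ∩
        {η | ∀ γ, Lg G γ → skel K (4 * τ) γ ∈ c.W → η γ = false}) =
        clLaw G lam (4 * τ) c.s (A f) := by
      rw [← cl_law hdeg lam c.s, Measure.map_apply (measurable_cl c.s) ((hEfm f).inter hNwm)]
    have e3 : ∏ σ, ENNReal.ofReal (bet G lam (f σ)) ≤
        (∏ σ : U, (ENNReal.ofReal lam * (G.degree (σ.1 c.s) : ENNReal))) * (μb (Bb f) * μf (Bf f)) := by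
      have p1 : μb (Bb f) = ∏ σ : U, wt G (bw c.s (f σ)) := by
        refine pin_prob hdeg _ U _ fun σ => ?_
        show (f σ) _ = σ.1 c.s
        rw [← (hPF f hf σ).2]
        rfl
      have p2 : μf (Bf f) = ∏ σ : U, wt G (fw c.s (f σ)) := by
        refine pin_prob hdeg _ U _ fun σ => ?_
        show (f σ) _ = σ.1 c.s
        rw [← (hPF f hf σ).2]
        rfl
      rw [p1, p2, ← Finset.prod_mul_distrib, ← Finset.prod_mul_distrib]
      refine Finset.prod_le_prod' fun σ _ => ?_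
      refine (bet_le lam (f σ)).trans_eq ?_
      rw [ms_split hdeg c.s, (hPF f hf σ).2]
      ring
    have e4 := cloud_indep hdeg lam c.s (hAm f) (by
      intro x x' h1 h2 h3 hx
      show cl x' ∈ ({η | setT (Finset.univ.image f) η ∈ E} ∩ Nw)
      rw [← cl_congr h1 h2 h3]
      exact hx) (hBbm f) (hBfm f)
      (fun b b' h hb σ => by rw [← h]; exact hb σ) (fun b b' h hb σ => by rw [← h]; exact hb σ)
    rw [e2] at e1
    calc (∏ σ, ENNReal.ofReal (bet G lam (f σ))) *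
          bits (bet G lam) {η | setT (Finset.univ.image f) η ∈ E}
        ≤ ((∏ σ : U, (ENNReal.ofReal lam * (G.degree (σ.1 c.s) : ENNReal))) *
            (μb (Bb f) * μf (Bf f))) *
          (ENNReal.ofReal (Real.exp (lam * Δ * c.W.card)) * clLaw G lam (4 * τ) c.s (A f)) :=
          mul_le_mul' e3 e1
      _ = C1 * (clLaw G lam (4 * τ) c.s (A f) * (μb (Bb f) * μf (Bf f))) := by
          rw [hC1]; ring
      _ = C1 * clLaw G lam (4 * τ) c.s (A f ∩ B f) := by rw [← e4]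
  set S0 : Set (Cfg V K (4 * τ) c.s) := ⋃ f ∈ PF, (A f ∩ B f) with hS0
  have hS0m : MeasurableSet S0 :=
    Finset.measurableSet_biUnion _ fun f _ => (hAm f).inter (hBm f)
  have hsum : bits (bet G lam) E ≤ C1 * clLaw G lam (4 * τ) c.s S0 := by
    refine (pin_bound (G := G) (bet G lam) U hEm fun η hη σ hσ => hη.occ σ hσ).trans ?_
    refine (Finset.sum_le_sum term).trans_eq ?_
    rw [← Finset.mul_sum, hS0, measure_biUnion_finset _ fun f _ => (hAm f).inter (hBm f)]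
    intro f hf g hg hfg
    refine Set.disjoint_left.2 ?_
    rintro x ⟨_, hx1, hx2⟩ ⟨_, hx3, hx4⟩
    apply hfg
    funext σ
    exact bwfw_inj ((hx1 σ).symm.trans (hx3 σ)) ((hx2 σ).symm.trans (hx4 σ))
  -- the sections
  set Vd : Set (V → ℕ) := {N | ∀ v ∈ vac G ℓ c.F, N v = 0} with hVd
  have hVdm : MeasurableSet Vd := by
    have : Vd = Set.pi (vac G ℓ c.F : Set V) fun _ => {0} := by
      ext N; simp [hVd]
    rw [this]
    exact MeasurableSet.pi (Finset.countable_toSet _) fun _ _ => MeasurableSet.of_discrete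
  let sgb : Ag V K → Sk V (c.s : ℕ) := Sum.elim (fun _ _ => σ0 c.s) fun σ => sbw c.s σ
  let sgf : Ag V K → Sk V (K - (c.s : ℕ)) := Sum.elim (fun _ _ => σ0 c.s) fun σ => sfw c.s σ
  let rd : Ag V K → Prop := Sum.elim (fun w => par c.F w.1) c.red
  let Ac : (V → ℕ) → Set (Ag V K) := fun N =>
    {a | Sum.elim (fun w => w.2 < N w.1) (fun σ => σ ∈ c.wk σ0) a}
  set m := (c.W.card + 1) / 2 with hm
  set eb := evB G Δ (4 * τ) τ m (U.image (Sum.inr : Sk V K → Ag V K)) sgb with heb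
  set ef := evB G Δ (4 * τ) τ m (U.image (Sum.inr : Sk V K → Ag V K)) sgf with hef
  have hUA : ∀ N, ((U.image (Sum.inr : Sk V K → Ag V K) : Finset (Ag V K)) : Set (Ag V K)) ⊆
      Ac N := by
    intro N a ha
    obtain ⟨σ, hσ, rfl⟩ := Finset.mem_image.1 (Finset.mem_coe.1 ha)
    exact hσ
  have hb : ∀ N, μb (Ev G D (4 * τ) (c.s : ℕ) m (U.image Sum.inr) sgb rd (Ac N)) ≤
      ENNReal.ofReal eb := fun N => seq_bound hΔ hdeg hD (st c.s) _ sgb rd (Ac N) (hUA N)
  have hf : ∀ N, μf (Ev G D (4 * τ) (K - (c.s : ℕ)) m (U.image Sum.inr) sgf rd (Ac N)) ≤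
      ENNReal.ofReal ef := fun N => seq_bound hΔ hdeg hD (st c.s) _ sgf rd (Ac N) (hUA N)
  have hlegal : ∀ᵐ p ∂(μb.prod μf), (∀ a, Lg G (p.1 a) ∧ p.1 a 0 = st c.s a) ∧
      (∀ a, Lg G (p.2 a) ∧ p.2 a 0 = st c.s a) := by
    have h1 : ∀ᵐ p ∂(μb.prod μf), ∀ a, Lg G (p.1 a) ∧ p.1 a 0 = st c.s a :=
      Measure.quasiMeasurePreserving_fst.ae (ae_legal hdeg (st c.s))
    have h2 : ∀ᵐ p ∂(μb.prod μf), ∀ a, Lg G (p.2 a) ∧ p.2 a 0 = st c.s a :=
      Measure.quasiMeasurePreserving_snd.ae (ae_legal hdeg (st c.s))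
    filter_upwards [h1, h2] with p h3 h4 using ⟨h3, h4⟩
  have hkey : ∀ (N : V → ℕ) (p : (Ag V K → Tr V ((c.s : ℕ) * (4 * τ))) ×
      (Ag V K → Tr V ((K - (c.s : ℕ)) * (4 * τ)))),
      ((∀ a, Lg G (p.1 a) ∧ p.1 a 0 = st c.s a) ∧ (∀ a, Lg G (p.2 a) ∧ p.2 a 0 = st c.s a)) →
      (N, p) ∈ S0 → N ∈ Vd ∧
        p.1 ∈ Ev G D (4 * τ) (c.s : ℕ) m (U.image Sum.inr) sgb rd (Ac N) ∧
        p.2 ∈ Ev G D (4 * τ) (K - (c.s : ℕ)) m (U.image Sum.inr) sgf rd (Ac N) := by
    intro N p hleg hp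
    rw [hS0] at hp
    simp only [mem_iUnion] at hp
    obtain ⟨f, hfPF, hpA, hpb, hpf⟩ := hp
    let F : Sk V K → Tr V (K * (4 * τ)) := fun σ => if h : σ ∈ U then f ⟨σ, h⟩ else fun _ => σ0 c.s
    have hF : ∀ σ : U, F σ.1 = f σ := by
      intro σ
      simp only [F, σ.2, dif_pos]
    have him : (c.wk σ0).image F = Finset.univ.image f := by
      ext γ
      simp only [Finset.mem_image, Finset.mem_univ, true_and]
      constructor
      · rintro ⟨σ, hσ, rfl⟩
        exact ⟨⟨σ, hσ⟩, (hF ⟨σ, hσ⟩).symm⟩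
      · rintro ⟨σ, rfl⟩
        exact ⟨σ.1, σ.2, hF σ⟩
    have hcd := cloud_det (G := G) (T := 4 * τ) (D := D) (ℓ := ℓ) (σ0 := σ0) hsub (N, p)
      (fun a => (hleg.1 a).1) (fun a => (hleg.2 a).1) (fun a => (hleg.1 a).2)
      (fun a => (hleg.2 a).2) (f := F) (by
        intro σ hσ
        have h1 := hPF f hfPF ⟨σ, hσ⟩
        rw [hF ⟨σ, hσ⟩]
        exact ⟨h1.1, h1.2, hpb ⟨σ, hσ⟩, hpf ⟨σ, hσ⟩⟩) (fun γ h1 h2 => hpA.2 γ h1 h2) (by
        rw [him]
        exact hpA.1)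
    exact hcd
  have hsec : ∀ N, (μb.prod μf) (Prod.mk N ⁻¹' S0) ≤
      Vd.indicator (fun _ => ENNReal.ofReal eb * ENNReal.ofReal ef) N := by
    intro N
    by_cases hN : N ∈ Vd
    · rw [indicator_of_mem hN]
      calc (μb.prod μf) (Prod.mk N ⁻¹' S0)
          ≤ (μb.prod μf) ((Ev G D (4 * τ) (c.s : ℕ) m (U.image Sum.inr) sgb rd (Ac N)) ×ˢ
              (Ev G D (4 * τ) (K - (c.s : ℕ)) m (U.image Sum.inr) sgf rd (Ac N))) := by
            refine measure_mono_ae ?_
            filter_upwards [hlegal] with p hp hp2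
            exact ⟨(hkey N p hp hp2).2.1, (hkey N p hp hp2).2.2⟩
        _ = _ := Measure.prod_prod _ _
        _ ≤ _ := mul_le_mul' (hb N) (hf N)
    · rw [indicator_of_notMem hN]
      refine le_of_eq (measure_mono_null_ae (t := ∅) ?_ measure_empty)
      filter_upwards [hlegal] with p hp hp2
      exact hN (hkey N p hp hp2).1
  have hcS : clLaw G lam (4 * τ) c.s S0 ≤
      ENNReal.ofReal eb * ENNReal.ofReal ef * ENNReal.ofReal (Real.exp (-(lam * (vac G ℓ c.F).card))) := by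
    rw [hcl, Measure.prod_apply hS0m]
    refine (lintegral_mono hsec).trans ?_
    rw [lintegral_indicator hVdm, setLIntegral_const]
    refine mul_le_mul' le_rfl ?_
    have e1 : Vd = Set.pi (vac G ℓ c.F : Set V) fun _ => {0} := by
      ext N; simp [hVd]
    rw [e1, hμN, Measure.infinitePi_pi _ fun _ _ => MeasurableSet.of_discrete]
    have e2 : ∀ v, poissonMeasure (lam * G.degree v) {0} ≤ ENNReal.ofReal (Real.exp (-lam)) := by
      intro v
      have h1 := poisson_pow (lam * G.degree v) 0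
      have h2 : ∀ n : ℕ, ((0 : NNReal) : ENNReal) ^ n = ({0} : Set ℕ).indicator 1 n := by
        intro n
        rcases Nat.eq_zero_or_pos n with rfl | hn
        · simp
        · rw [indicator_of_notMem (by simp; omega)]
          simp; omega
      simp only [h2] at h1
      rw [lintegral_indicator_one MeasurableSet.of_discrete] at h1
      rw [h1]
      refine ENNReal.ofReal_le_ofReal (Real.exp_le_exp.2 ?_)
      push_cast
      have h3 : (1 : ℝ) ≤ G.degree v := by exact_mod_cast hdeg v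
      have h4 : (0 : ℝ) ≤ lam := NNReal.coe_nonneg lam
      nlinarith
    refine (Finset.prod_le_prod' fun v _ => e2 v).trans_eq ?_
    rw [Finset.prod_const, ← ENNReal.ofReal_pow (Real.exp_pos _).le, ← Real.exp_nat_mul]
    congr 2
    ring
  -- the constants
  have hΔ1 : 1 ≤ Δ := (hdeg (σ0 0)).trans_le (hΔ _)
  have hc1 : 0 ≤ 1 - c1 Δ (4 * τ) := by
    rw [sub_nonneg, c1]
    refine inv_le_one_of_one_le₀ (one_le_pow₀ ?_)
    have : (1 : ℝ) ≤ Δ := by exact_mod_cast hΔ1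
    linarith
  have hlam : (0 : ℝ) ≤ lam := NNReal.coe_nonneg lam
  have hev : ∀ {k : ℕ} (σ : Ag V K → Sk V k), 0 ≤ evB G Δ (4 * τ) τ m
      (U.image (Sum.inr : Sk V K → Ag V K)) σ := by
    intro k σ
    refine mul_nonneg (Finset.prod_nonneg fun a _ => Finset.prod_nonneg fun j _ => ?_)
      (Finset.prod_nonneg fun j _ => pow_nonneg hc1 _)
    exact measureReal_nonneg
  have hsplit := evB_split (G := G) (T := 4 * τ) hdeg (Δ := Δ) (τ := τ) (m := m) c.s U
    (fun _ => σ0 c.s) (fun _ => σ0 c.s)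
  refine hsum.trans ((mul_le_mul' le_rfl hcS).trans ?_)
  have e1 : ∏ σ : U, (ENNReal.ofReal lam * (G.degree (σ.1 c.s) : ENNReal)) =
      ENNReal.ofReal (∏ σ ∈ U, ((lam : ℝ) * G.degree (σ c.s))) := by
    rw [ENNReal.ofReal_prod_of_nonneg fun σ _ => by positivity, ← Finset.prod_coe_sort U]
    refine Finset.prod_congr rfl fun σ _ => ?_
    rw [ENNReal.ofReal_mul hlam, ENNReal.ofReal_natCast]
  rw [hC1, e1, ← ENNReal.ofReal_mul (Real.exp_pos _).le, ← ENNReal.ofReal_mul (hev _),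
    ← ENNReal.ofReal_mul (mul_nonneg (hev _) (hev _)),
    ← ENNReal.ofReal_mul (mul_nonneg (Real.exp_pos _).le (Finset.prod_nonneg fun σ _ => by
      positivity))]
  refine ENNReal.ofReal_le_ofReal ?_
  have hwsk : 0 ≤ ∏ σ ∈ U, wsk G (4 * τ) σ := by
    refine Finset.prod_nonneg fun σ _ => mul_nonneg (Nat.cast_nonneg _)
      (Finset.prod_nonneg fun j _ => measureReal_nonneg)
  have hblk : 0 ≤ ∏ j : Fin K, (1 - c1 Δ (4 * τ)) ^ (m - fst' G τ U id j) :=
    Finset.prod_nonneg fun j _ => pow_nonneg hc1 _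
  have hcard : (c.W.card : ℝ) ≤ U.card := by exact_mod_cast Finset.card_le_card hWU
  calc Real.exp (lam * Δ * c.W.card) * (∏ σ ∈ U, ((lam : ℝ) * G.degree (σ c.s))) *
        (eb * ef * Real.exp (-(lam * (vac G ℓ c.F).card)))
      = Real.exp (lam * Δ * c.W.card) * lam ^ U.card *
          ((∏ σ ∈ U, (G.degree (σ c.s) : ℝ)) * eb * ef) *
          Real.exp (-(lam * (vac G ℓ c.F).card)) := by
        rw [Finset.prod_mul_distrib, Finset.prod_const]
        ring
    _ = Real.exp (lam * Δ * c.W.card) * lam ^ U.card *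
          ((∏ σ ∈ U, wsk G (4 * τ) σ) * ∏ j : Fin K, (1 - c1 Δ (4 * τ)) ^ (m - fst' G τ U id j)) *
          Real.exp (-(lam * (vac G ℓ c.F).card)) := by
        rw [← hsplit]
    _ ≤ Real.exp (lam * Δ * U.card) * lam ^ U.card *
          ((∏ σ ∈ U, wsk G (4 * τ) σ) * ∏ j : Fin K, (1 - c1 Δ (4 * τ)) ^ (m - fst' G τ U id j)) *
          Real.exp (-(lam * (vac G ℓ c.F).card)) := by
        gcongr
    _ = _ := by
        rw [Finset.prod_mul_distrib, Finset.prod_const, mul_pow, ← Real.exp_nat_mul,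
          mul_comm (U.card : ℝ) (lam * Δ)]
        ring

end

end Cut7315
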