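import Pool.Agent.Lib.MP_7315a9_cut.Def2

/-!
# The parameters

Row 7315-D4. Sketch:
z = (B^r + 1)^{-3}. Choose A1 ≥ 2 with lam A1/(4Δ) ≥ 2 log(Δ+1) + 2 (+ something for C), then B ≥ 2 (Δ+1)^{64 A1 + 2} (2Δ)^{64 A1},
then A with lam A/2 ≥ 21 log(2B) or so; then r large (filter eventually: all are limits as r → ∞: exponential vs polynomial in K).
(1 + 15 (16/27)^τ)^7 ≤ 3/2 for τ large, (3/4)^K ≤ (K+1)^{-21} for K large. c1 K = B^r (2Δ)^{-64 A1 r} ≥ 2^r.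
-/

open MeasureTheory ProbabilityTheory Set Relation
open scoped Classical

namespace Cut7315

open MP7315a9

noncomputable section

private lemma D4_pow (c : ℝ) : ∀ᶠ r : ℕ in Filter.atTop, c ≤ (2 : ℝ) ^ r :=
  (tendsto_pow_atTop_atTop_of_one_lt (one_lt_two : (1 : ℝ) < 2)).eventually_ge_atTop c

private lemma D4_lin (L : ℝ) : ∀ᶠ r : ℕ in Filter.atTop, (r : ℝ) * L ≤ (2 : ℝ) ^ r / 4 := by
  have h := tendsto_pow_const_div_const_pow_of_one_lt 1 (one_lt_two : (1 : ℝ) < 2)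
  have hpos : (0 : ℝ) < 1 / (4 * (|L| + 1)) := by positivity
  filter_upwards [h.eventually_lt_const hpos] with r hr
  have h2 : (0 : ℝ) < (2 : ℝ) ^ r := by positivity
  have hL : 0 < |L| + 1 := by positivity
  rw [pow_one, div_lt_div_iff₀ h2 (by positivity), one_mul] at hr
  have h3 : (r : ℝ) * L ≤ r * (|L| + 1) := by
    refine mul_le_mul_of_nonneg_left ?_ (Nat.cast_nonneg _)
    linarith [le_abs_self L]
  linarith

private lemma D4_geo : ∀ᶠ n : ℕ in Filter.atTop, (3 / 4 : ℝ) ^ n ≤ (((n : ℝ) + 1) ^ 21)⁻¹ := by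
  have h := tendsto_pow_const_mul_const_pow_of_abs_lt_one 21
    (show |(3 / 4 : ℝ)| < 1 by rw [abs_of_pos (by norm_num)]; norm_num)
  have h1 := (Filter.tendsto_add_atTop_iff_nat 1).2 h
  have hpos : (0 : ℝ) < 3 / 4 := by norm_num
  filter_upwards [h1.eventually_lt_const hpos] with n hn
  have h2 : (0 : ℝ) < ((n : ℝ) + 1) ^ 21 := by positivity
  rw [le_inv_comm₀ (by positivity) h2, ← one_div, le_div_iff₀ (by positivity)]
  rw [Nat.cast_add, Nat.cast_one, pow_succ (3 / 4 : ℝ) n] at hn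
  linarith

private lemma D4_eps (A1 : ℕ) (hA1 : 1 ≤ A1) :
    ∀ᶠ r : ℕ in Filter.atTop, (15 : ℝ) * (16 / 27 : ℝ) ^ (8 * (A1 * r)) ≤ 1 / 20 := by
  have h := tendsto_pow_atTop_nhds_zero_of_lt_one (show (0 : ℝ) ≤ 16 / 27 by norm_num)
    (show (16 / 27 : ℝ) < 1 by norm_num)
  have hpos : (0 : ℝ) < 1 / 300 := by norm_num
  filter_upwards [h.eventually_lt_const hpos] with r hr
  have h1 : (16 / 27 : ℝ) ^ (8 * (A1 * r)) ≤ (16 / 27 : ℝ) ^ r := by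
    refine pow_le_pow_of_le_one (by norm_num) (by norm_num) ?_
    calc r = 1 * (1 * r) := by ring
      _ ≤ 8 * (A1 * r) := Nat.mul_le_mul (by norm_num) (Nat.mul_le_mul hA1 le_rfl)
  linarith

private lemma D4_succ {b : ℝ} (hb : 0 ≤ b) {r : ℕ} (hr : 1 ≤ r) : b ^ r + 1 ≤ (b + 1) ^ r := by
  obtain ⟨m, rfl⟩ : ∃ m, r = m + 1 := ⟨r - 1, by omega⟩
  rw [pow_succ, pow_succ]
  have h8 : b ^ m ≤ (b + 1) ^ m := pow_le_pow_left₀ hb (by linarith) m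
  have h9 : (1 : ℝ) ≤ (b + 1) ^ m := one_le_pow₀ (by linarith)
  have h10 : b ^ m * b ≤ (b + 1) ^ m * b := mul_le_mul_of_nonneg_right h8 hb
  linarith

/-- D4 -/
theorem params (Δ C : ℕ) (hΔ : 1 ≤ Δ) {lam δ : ℝ} (hl : 0 < lam) (hδ : 0 < δ) :
    ∃ A A1 B r1 : ℕ, ∀ r ≥ r1, ∃ z : ℝ, 0 < z ∧ z ≤ 1 ∧ r + 1 ≤ A1 * r ∧ 1 ≤ r ∧
      ((B ^ r : ℕ) + 1) * (Δ + 1 : ℝ) ^ (8 * (8 * (A1 * r)) + 2 * r) *
        (8 * (lam * Real.exp (lam * Δ)) * Δ + 1) * z * Real.exp 1 ≤ 1 / 2 ∧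
      (Δ + 1 : ℝ) ^ (2 * r + 1) *
        (2 * C * Real.exp (1 - lam * (A1 * r : ℕ) / (4 * Δ))) ≤ 1 / 2 ∧
      Real.exp (-(lam * (A * r : ℕ) / 2)) ≤ z ^ 7 ∧
      Real.exp (-(c1 Δ (4 * (8 * (A1 * r))) * (B ^ r : ℕ) / 4)) ≤ z ^ 7 ∧
      (1 / 2 : ℝ) ^ (B ^ r) * (1 + 15 * (16 / 27 : ℝ) ^ (8 * (A1 * r))) ^ (7 * B ^ r) ≤ z ^ 7 ∧
      ((B ^ r : ℕ) + 1) * (2 * (8 * (lam * Real.exp (lam * Δ)) * z * Δ) * Real.exp 1) ≤ δ := by
  have hΔ' : (1 : ℝ) ≤ Δ := by exact_mod_cast hΔ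
  have hΔ0 : (0 : ℝ) < Δ := by linarith
  obtain ⟨A0, hA0⟩ := exists_nat_ge (2 * ((Δ : ℝ) + 1) ^ 2 * (4 * Δ) / lam)
  set A1 : ℕ := A0 + 2 with hA1
  have hA1r : 2 * ((Δ : ℝ) + 1) ^ 2 ≤ Real.exp (lam * A1 / (4 * Δ)) := by
    have h1 : 2 * ((Δ : ℝ) + 1) ^ 2 ≤ lam * A1 / (4 * Δ) := by
      rw [le_div_iff₀ (by positivity)]
      rw [div_le_iff₀ hl] at hA0
      have h2 : (A0 : ℝ) ≤ A1 := by rw [hA1]; push_cast; linarith
      have h3 : (A0 : ℝ) * lam ≤ A1 * lam := mul_le_mul_of_nonneg_right h2 hl.le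
      linarith
    linarith [Real.add_one_le_exp (lam * A1 / (4 * Δ))]
  set B : ℕ := 2 * (Δ + 1) ^ (64 * A1 + 2) * (2 * Δ) ^ (64 * A1) with hB
  have hBP : 2 * ((Δ : ℝ) + 1) ^ (64 * A1 + 2) ≤ B := by
    rw [hB]
    push_cast
    have h1 : (1 : ℝ) ≤ (2 * Δ) ^ (64 * A1) := one_le_pow₀ (by linarith)
    have h2 : (0 : ℝ) ≤ 2 * ((Δ : ℝ) + 1) ^ (64 * A1 + 2) := by positivity
    exact le_mul_of_one_le_right h2 h1
  have hBQ : 2 * (2 * (Δ : ℝ)) ^ (64 * A1) ≤ B := by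
    rw [hB]
    push_cast
    have h1 : (1 : ℝ) ≤ ((Δ : ℝ) + 1) ^ (64 * A1 + 2) := one_le_pow₀ (by linarith)
    have h2 : (0 : ℝ) ≤ 2 * (2 * (Δ : ℝ)) ^ (64 * A1) := by positivity
    have h3 := le_mul_of_one_le_right h2 h1
    linarith
  have hB2 : (2 : ℝ) ≤ B := by
    have h1 : (1 : ℝ) ≤ ((Δ : ℝ) + 1) ^ (64 * A1 + 2) := one_le_pow₀ (by linarith)
    linarith
  have hB2' : 1 < B := by
    have : (1 : ℝ) < B := by linarith
    exact_mod_cast this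
  obtain ⟨A, hA⟩ := exists_nat_ge (((B : ℝ) + 1) ^ 21 * 2 / lam)
  have hAr : ((B : ℝ) + 1) ^ 21 ≤ Real.exp (lam * A / 2) := by
    rw [div_le_iff₀ hl] at hA
    have h1 : ((B : ℝ) + 1) ^ 21 ≤ lam * A / 2 := by linarith
    linarith [Real.add_one_le_exp (lam * A / 2)]
  set κ : ℝ := lam * Real.exp (lam * Δ) with hκ
  have hκ0 : 0 < κ := by positivity
  have hA12 : 2 ≤ A1 := by omega
  clear_value κ
  clear_value B
  clear_value A1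
  have hBr : Filter.Tendsto (fun r : ℕ => B ^ r) Filter.atTop Filter.atTop :=
    tendsto_pow_atTop_atTop_of_one_lt hB2'
  have hall : ∀ᶠ r : ℕ in Filter.atTop, 1 ≤ r ∧ 2 * (8 * κ * Δ + 1) * Real.exp 1 ≤ (2 : ℝ) ^ r ∧
      4 * C * (Δ + 1) * Real.exp 1 ≤ (2 : ℝ) ^ r ∧
      (r : ℝ) * Real.log (((B : ℝ) + 1) ^ 21) ≤ (2 : ℝ) ^ r / 4 ∧
      (3 / 4 : ℝ) ^ (B ^ r) ≤ ((((B ^ r : ℕ) : ℝ) + 1) ^ 21)⁻¹ ∧
      (15 : ℝ) * (16 / 27 : ℝ) ^ (8 * (A1 * r)) ≤ 1 / 20 ∧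
      16 * κ * Δ * Real.exp 1 / δ ≤ (2 : ℝ) ^ r := by
    filter_upwards [Filter.eventually_ge_atTop 1, D4_pow (2 * (8 * κ * Δ + 1) * Real.exp 1),
      D4_pow (4 * C * (Δ + 1) * Real.exp 1), D4_lin (Real.log (((B : ℝ) + 1) ^ 21)),
      hBr.eventually D4_geo, D4_eps A1 (by omega), D4_pow (16 * κ * Δ * Real.exp 1 / δ)]
      with r h1 h2 h3 h4 h5 h6 h7
    exact ⟨h1, h2, h3, h4, h5, h6, h7⟩
  obtain ⟨r1, hr1⟩ := Filter.eventually_atTop.1 hall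
  refine ⟨A, A1, B, r1, fun r hr => ?_⟩
  obtain ⟨h1, h2, h3, h4, h5, h6, h7⟩ := hr1 r hr
  set N : ℝ := ((B ^ r : ℕ) : ℝ) + 1 with hN
  have hNB : ((B ^ r : ℕ) : ℝ) = (B : ℝ) ^ r := by push_cast; rfl
  have hN1 : 1 ≤ N := by
    have : (0 : ℝ) ≤ ((B ^ r : ℕ) : ℝ) := Nat.cast_nonneg _
    linarith
  have hN0 : 0 < N := by linarith
  have h2N : (2 : ℝ) ^ r ≤ N := by
    have : (2 : ℝ) ^ r ≤ (B : ℝ) ^ r := pow_le_pow_left₀ (by norm_num) hB2 r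
    rw [hN, hNB]
    linarith
  have hNsq : N * (N ^ 3)⁻¹ = (N ^ 2)⁻¹ := by
    field_simp
  have hNN : N ≤ N ^ 2 := le_self_pow₀ hN1 (by norm_num)
  have hNle : N ≤ ((B : ℝ) + 1) ^ r := by
    rw [hN, hNB]
    exact D4_succ (Nat.cast_nonneg _) h1
  have hz7 : ((N ^ 3)⁻¹) ^ 7 = (N ^ 21)⁻¹ := by
    rw [inv_pow, ← pow_mul]
  have hN21 : N ^ 21 ≤ (((B : ℝ) + 1) ^ 21) ^ r := by
    calc N ^ 21 ≤ (((B : ℝ) + 1) ^ r) ^ 21 := pow_le_pow_left₀ hN0.le hNle 21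
      _ = (((B : ℝ) + 1) ^ 21) ^ r := by rw [← pow_mul, ← pow_mul, mul_comm]
  refine ⟨(N ^ 3)⁻¹, by positivity, inv_le_one_of_one_le₀ (one_le_pow₀ hN1), ?_, h1, ?_, ?_, ?_,
    ?_, ?_, ?_⟩
  · calc r + 1 ≤ 2 * r := by omega
      _ ≤ A1 * r := Nat.mul_le_mul hA12 le_rfl
  · -- (d)
    have e1 : ((Δ : ℝ) + 1) ^ (8 * (8 * (A1 * r)) + 2 * r) =
        (((Δ : ℝ) + 1) ^ (64 * A1 + 2)) ^ r := by
      rw [← pow_mul]
      congr 1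
      ring
    have e2 : (2 : ℝ) ^ r * (((Δ : ℝ) + 1) ^ (64 * A1 + 2)) ^ r ≤ N ^ 2 := by
      rw [← mul_pow]
      calc (2 * ((Δ : ℝ) + 1) ^ (64 * A1 + 2)) ^ r ≤ (B : ℝ) ^ r :=
            pow_le_pow_left₀ (by positivity) hBP r
        _ ≤ N := by rw [hN, hNB]; linarith
        _ ≤ N ^ 2 := hNN
    rw [e1]
    set P : ℝ := (((Δ : ℝ) + 1) ^ (64 * A1 + 2)) ^ r with hP
    have hP0 : 0 < P := by positivity
    have e3 : N * P * (8 * κ * Δ + 1) * (N ^ 3)⁻¹ * Real.exp 1 =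
        (P * ((8 * κ * Δ + 1) * Real.exp 1)) / N ^ 2 := by
      field_simp
    rw [e3, div_le_iff₀ (by positivity)]
    have e4 : P * (2 * (8 * κ * Δ + 1) * Real.exp 1) ≤ P * (2 : ℝ) ^ r :=
      mul_le_mul_of_nonneg_left h2 hP0.le
    linarith
  · -- (e)
    have e1 : Real.exp (1 - lam * (A1 * r : ℕ) / (4 * Δ)) =
        Real.exp 1 * ((Real.exp (lam * A1 / (4 * Δ))) ^ r)⁻¹ := by
      rw [← Real.exp_nat_mul, ← Real.exp_neg, ← Real.exp_add]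
      congr 1
      push_cast
      ring
    set X : ℝ := Real.exp (lam * A1 / (4 * Δ)) with hX
    have hX0 : 0 < X := Real.exp_pos _
    have e2 : (2 : ℝ) ^ r * (((Δ : ℝ) + 1) ^ 2) ^ r ≤ X ^ r := by
      rw [← mul_pow]
      exact pow_le_pow_left₀ (by positivity) hA1r r
    have e3 : ((Δ : ℝ) + 1) ^ (2 * r + 1) = ((Δ + 1) ^ 2) ^ r * (Δ + 1) := by
      rw [pow_succ, pow_mul]
    rw [e1, e3]
    set P : ℝ := (((Δ : ℝ) + 1) ^ 2) ^ r with hP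
    have hP0 : 0 < P := by positivity
    have e4 : P * (Δ + 1) * (2 * C * (Real.exp 1 * (X ^ r)⁻¹)) =
        (P * (2 * C * (Δ + 1) * Real.exp 1)) / X ^ r := by
      field_simp
    rw [e4, div_le_iff₀ (by positivity)]
    have e5 : P * (4 * C * (Δ + 1) * Real.exp 1) ≤ P * (2 : ℝ) ^ r :=
      mul_le_mul_of_nonneg_left h3 hP0.le
    linarith
  · -- (f)
    rw [hz7, Real.exp_neg]
    refine inv_anti₀ (by positivity) (hN21.trans ?_)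
    have e1 : Real.exp (lam * (A * r : ℕ) / 2) = (Real.exp (lam * A / 2)) ^ r := by
      rw [← Real.exp_nat_mul]
      congr 1
      push_cast
      ring
    rw [e1]
    exact pow_le_pow_left₀ (by positivity) hAr r
  · -- (g)
    rw [hz7, Real.exp_neg]
    refine inv_anti₀ (by positivity) (hN21.trans ?_)
    have e0 : (0 : ℝ) < ((B : ℝ) + 1) ^ 21 := by positivity
    have e1 : (((B : ℝ) + 1) ^ 21) ^ r = Real.exp (r * Real.log (((B : ℝ) + 1) ^ 21)) := by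
      rw [Real.exp_nat_mul, Real.exp_log e0]
    rw [e1]
    refine Real.exp_le_exp.2 (h4.trans ?_)
    have e2 : (2 : ℝ) ^ r ≤ c1 Δ (4 * (8 * (A1 * r))) * (B ^ r : ℕ) := by
      unfold c1
      have e3 : (2 * (Δ : ℝ)) ^ (2 * (4 * (8 * (A1 * r)))) = ((2 * (Δ : ℝ)) ^ (64 * A1)) ^ r := by
        rw [← pow_mul]
        congr 1
        ring
      rw [e3, inv_mul_eq_div, le_div_iff₀ (by positivity), ← mul_pow, hNB]
      exact pow_le_pow_left₀ (by positivity) hBQ r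
    linarith
  · -- (h)
    rw [hz7]
    refine le_trans ?_ h5
    rw [pow_mul, ← mul_pow]
    refine pow_le_pow_left₀ (by positivity) ?_ _
    have e1 : (1 + 15 * (16 / 27 : ℝ) ^ (8 * (A1 * r))) ^ 7 ≤ (1 + 1 / 20 : ℝ) ^ 7 :=
      pow_le_pow_left₀ (by positivity) (by linarith) 7
    have e2 : (1 + 1 / 20 : ℝ) ^ 7 ≤ 3 / 2 := by norm_num
    linarith
  · -- (i)
    have e1 : N * (2 * (8 * κ * (N ^ 3)⁻¹ * Δ) * Real.exp 1) =
        (16 * κ * Δ * Real.exp 1) / N ^ 2 := by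
      field_simp
      ring
    rw [e1, div_le_iff₀ (by positivity)]
    rw [div_le_iff₀ hδ] at h7
    have e2 : (2 : ℝ) ^ r ≤ N ^ 2 := h2N.trans hNN
    calc 16 * κ * Δ * Real.exp 1 ≤ (2 : ℝ) ^ r * δ := h7
      _ ≤ N ^ 2 * δ := mul_le_mul_of_nonneg_right e2 hδ.le
      _ = δ * N ^ 2 := mul_comm _ _

end

end Cut7315
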