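import Pool.Agent.Lib.MP_7315a9_cut.KP

/-!
# The sum over the structures

Row 7315-D2. Sketch:
For c ∈ S: (c.s, c.nodes σ0) = (s, N), N connected from w σ0 w.r.t. nadj for s, w σ0 ∈ N. The fibre over (s,N) injects
into triples (W, W', L) of subsets of the walkers of N (W' ⊆ W by Ok.sub; F and Y are determined by N), so it has at most
8^{|wk|} elements, |wk| = number of walkers of N. So the sum is ≤ ∑_s ∑_N ∏_{n∈N} wN n ≤ (K+1) wN(w σ0) e^{φ} by kp with Λ = union of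
all nodes, phN (w σ0) = 1.
-/

open MeasureTheory ProbabilityTheory Set Relation
open scoped Classical

namespace Cut7315

open MP7315a9

noncomputable section

variable {V : Type*} {G : SimpleGraph V} [G.LocallyFinite] {K T : ℕ}
variable [MeasurableSpace V] [DiscreteMeasurableSpace V] [Countable V]

omit [DiscreteMeasurableSpace V] [Countable V] in
lemma D2_wN_nonneg {T τ : ℕ} {κ z a Q β : ℝ} (hκ : 0 ≤ κ) (hz : 0 ≤ z) (ha : 0 ≤ a)
    (hQ : 0 < Q) (n : Nd V K) : 0 ≤ wN G T τ κ z a Q β n := by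
  cases n with
  | w σ =>
    have h1 : 0 ≤ wsk G T σ := by
      unfold wsk
      exact mul_nonneg (Nat.cast_nonneg _)
        (Finset.prod_nonneg fun j _ => by unfold pT; exact measureReal_nonneg)
    simp only [wN]
    positivity
  | y v => simpa [wN] using hz
  | c F =>
    simp only [wN]
    split_ifs
    · positivity
    · exact le_rfl

/-- The walkers of a set of nodes. -/
def D2_wk (N : Finset (Nd V K)) : Finset (Sk V K) :=
  N.preimage Nd.w (fun a _ b _ h => by injection h)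

omit [MeasurableSpace V] [DiscreteMeasurableSpace V] [Countable V] in
lemma D2_wk_nodes (c : Str V K) (σ0 : Sk V K) : D2_wk (c.nodes σ0) = c.wk σ0 := by
  ext σ
  simp [D2_wk, Str.nodes]

omit [MeasurableSpace V] [DiscreteMeasurableSpace V] [Countable V] in
lemma D2_mem_F (c : Str V K) (σ0 : Sk V K) (F : Finset V) :
    Nd.c F ∈ c.nodes σ0 ↔ F ∈ c.F := by
  simp [Str.nodes]

omit [MeasurableSpace V] [DiscreteMeasurableSpace V] [Countable V] in
lemma D2_mem_Y (c : Str V K) (σ0 : Sk V K) (v : V) :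
    Nd.y v ∈ c.nodes σ0 ↔ v ∈ c.Y := by
  simp [Str.nodes]

omit [MeasurableSpace V] [DiscreteMeasurableSpace V] [Countable V] in
lemma D2_card {G : SimpleGraph V} [G.LocallyFinite] {Δ ℓ r v T' : ℕ} (σ0 : Sk V K)
    (S : Finset (Str V K)) (hS : ∀ c ∈ S, c.Ok G Δ ℓ r v T' σ0)
    (p : Fin (K + 1) × Finset (Nd V K)) :
    (S.filter fun c => (c.s, c.nodes σ0) = p).card ≤ 8 ^ (D2_wk p.2).card := by
  have h8 : (8 : ℕ) ^ (D2_wk p.2).card =
      ((D2_wk p.2).powerset ×ˢ (D2_wk p.2).powerset ×ˢ (D2_wk p.2).powerset).card := by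
    rw [Finset.card_product, Finset.card_product, Finset.card_powerset, ← pow_add, ← pow_add,
      show (8 : ℕ) = 2 ^ 3 by norm_num, ← pow_mul]
    congr 1
    ring
  rw [h8]
  refine Finset.card_le_card_of_injOn (fun c => (c.W, c.W', c.L)) ?_ ?_
  · intro c hc
    obtain ⟨hc1, hc2⟩ := Finset.mem_filter.1 hc
    have hN : c.nodes σ0 = p.2 := congrArg Prod.snd hc2
    have hwk : D2_wk p.2 = c.wk σ0 := by rw [← hN, D2_wk_nodes]
    have hW : c.W ⊆ c.wk σ0 := by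
      intro x hx
      simp [Str.wk, hx]
    have hL : c.L ⊆ c.wk σ0 := by
      intro x hx
      simp [Str.wk, hx]
    simp only [Finset.coe_product, Set.mem_prod, Finset.mem_coe, Finset.mem_powerset, hwk]
    exact ⟨hW, ((hS c hc1).sub).trans hW, hL⟩
  · intro c hc c' hc' hcc
    obtain ⟨hc1, hc2⟩ := Finset.mem_filter.1 hc
    obtain ⟨hc1', hc2'⟩ := Finset.mem_filter.1 hc'
    have hs : c.s = c'.s := (congrArg Prod.fst hc2).trans (congrArg Prod.fst hc2').symm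
    have hN : c.nodes σ0 = c'.nodes σ0 :=
      (congrArg Prod.snd hc2).trans (congrArg Prod.snd hc2').symm
    have hF : c.F = c'.F := by
      ext F
      rw [← D2_mem_F c σ0, ← D2_mem_F c' σ0, hN]
    have hY : c.Y = c'.Y := by
      ext y
      rw [← D2_mem_Y c σ0, ← D2_mem_Y c' σ0, hN]
    simp only [Prod.mk.injEq] at hcc
    obtain ⟨h1, h2, h3⟩ := hcc
    cases c
    cases c'
    simp only at hs hF hY h1 h2 h3
    subst hs hF hY h1 h2 h3
    rfl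

/-- D2 -/
theorem sum_str {τ r ℓ v Δ : ℕ} {κ z a Q β : ℝ} (hκ : 0 ≤ κ) (hz : 0 ≤ z) (ha : 0 ≤ a)
    (hQ : 0 < Q) (σ0 : Sk V K)
    (hkp : ∀ (s : Fin (K + 1)) (n : Nd V K) (B : Finset (Nd V K)),
      (∀ b ∈ B, nadj G (4 * τ) r s σ0 n b) →
      ∑ b ∈ B, wN G (4 * τ) τ κ z a Q β b * Real.exp (phN G b) ≤ phN G n)
    (S : Finset (Str V K)) (hS : ∀ c ∈ S, c.Ok G Δ ℓ r v (4 * τ) σ0) :
    ∑ c ∈ S, (1 / 8 : ℝ) ^ (c.wk σ0).card * ∏ n ∈ c.nodes σ0, wN G (4 * τ) τ κ z a Q β n ≤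
      (K + 1) * (wN G (4 * τ) τ κ z a Q β (Nd.w σ0) * Real.exp 1) := by
  set w : Nd V K → ℝ := fun n => wN G (4 * τ) τ κ z a Q β n with hw
  have hw0 : ∀ n, 0 ≤ w n := fun n => D2_wN_nonneg hκ hz ha hQ n
  have hprod : ∀ N : Finset (Nd V K), 0 ≤ ∏ n ∈ N, w n :=
    fun N => Finset.prod_nonneg fun n _ => hw0 n
  set Φ : Str V K → Fin (K + 1) × Finset (Nd V K) := fun c => (c.s, c.nodes σ0) with hΦ
  have hfib : ∑ c ∈ S, (1 / 8 : ℝ) ^ (c.wk σ0).card * ∏ n ∈ c.nodes σ0, w n =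
      ∑ p ∈ S.image Φ, ∑ c ∈ S.filter (fun c => Φ c = p),
        (1 / 8 : ℝ) ^ (c.wk σ0).card * ∏ n ∈ c.nodes σ0, w n :=
    (Finset.sum_fiberwise_of_maps_to (fun c hc => Finset.mem_image_of_mem Φ hc) _).symm
  have h1 : ∑ c ∈ S, (1 / 8 : ℝ) ^ (c.wk σ0).card * ∏ n ∈ c.nodes σ0, w n ≤
      ∑ p ∈ S.image Φ, ∏ n ∈ p.2, w n := by
    rw [hfib]
    refine Finset.sum_le_sum fun p hp => ?_
    have h2 : ∀ c ∈ S.filter (fun c => Φ c = p),
        (1 / 8 : ℝ) ^ (c.wk σ0).card * ∏ n ∈ c.nodes σ0, w n =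
          (1 / 8 : ℝ) ^ (D2_wk p.2).card * ∏ n ∈ p.2, w n := by
      intro c hc
      have hN : c.nodes σ0 = p.2 := congrArg Prod.snd (Finset.mem_filter.1 hc).2
      rw [← hN, D2_wk_nodes]
    rw [Finset.sum_congr rfl h2, Finset.sum_const, nsmul_eq_mul, ← mul_assoc]
    have h3 : ((S.filter (fun c => Φ c = p)).card : ℝ) ≤ 8 ^ (D2_wk p.2).card := by
      exact_mod_cast D2_card σ0 S hS p
    have h4 : ((S.filter (fun c => Φ c = p)).card : ℝ) * (1 / 8 : ℝ) ^ (D2_wk p.2).card ≤ 1 := by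
      calc ((S.filter (fun c => Φ c = p)).card : ℝ) * (1 / 8 : ℝ) ^ (D2_wk p.2).card
          ≤ 8 ^ (D2_wk p.2).card * (1 / 8 : ℝ) ^ (D2_wk p.2).card :=
            mul_le_mul_of_nonneg_right h3 (by positivity)
        _ = 1 := by rw [← mul_pow]; norm_num
    calc ((S.filter (fun c => Φ c = p)).card : ℝ) * (1 / 8 : ℝ) ^ (D2_wk p.2).card *
          ∏ n ∈ p.2, w n ≤ 1 * ∏ n ∈ p.2, w n := mul_le_mul_of_nonneg_right h4 (hprod _)
      _ = _ := one_mul _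
  set Λ : Finset (Nd V K) := S.biUnion fun c => c.nodes σ0 with hΛ
  set 𝓣 : Finset (Fin (K + 1) × Finset (Nd V K)) :=
    ((Finset.univ : Finset (Fin (K + 1))) ×ˢ Λ.powerset).filter
      (fun p => Nd.w σ0 ∈ p.2 ∧ ConnF (nadj G (4 * τ) r p.1 σ0) p.2 (Nd.w σ0)) with h𝓣
  have hsub : S.image Φ ⊆ 𝓣 := by
    intro p hp
    obtain ⟨c, hc, rfl⟩ := Finset.mem_image.1 hp
    rw [h𝓣, Finset.mem_filter, Finset.mem_product, Finset.mem_powerset]
    refine ⟨⟨Finset.mem_univ _, Finset.subset_biUnion_of_mem (fun c : Str V K => c.nodes σ0) hc⟩,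
      ?_, (hS c hc).conn⟩
    simp [hΦ, Str.nodes, Str.wk]
  have h5 : ∑ p ∈ S.image Φ, ∏ n ∈ p.2, w n ≤ ∑ p ∈ 𝓣, ∏ n ∈ p.2, w n :=
    Finset.sum_le_sum_of_subset_of_nonneg hsub fun p _ _ => hprod _
  have h6 : ∑ p ∈ 𝓣, ∏ n ∈ p.2, w n = ∑ s : Fin (K + 1),
      ∑ N ∈ Λ.powerset.filter
        (fun N => Nd.w σ0 ∈ N ∧ ConnF (nadj G (4 * τ) r s σ0) N (Nd.w σ0)), ∏ n ∈ N, w n := by
    rw [h𝓣, Finset.sum_filter, Finset.sum_product]
    refine Finset.sum_congr rfl fun s _ => ?_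
    rw [Finset.sum_filter]
  have h7 : ∀ s : Fin (K + 1), ∑ N ∈ Λ.powerset.filter
        (fun N => Nd.w σ0 ∈ N ∧ ConnF (nadj G (4 * τ) r s σ0) N (Nd.w σ0)), ∏ n ∈ N, w n ≤
      w (Nd.w σ0) * Real.exp 1 := by
    intro s
    have := kp (nadj G (4 * τ) r s σ0) w (phN G) hw0 (fun n B hB => hkp s n B hB) Λ (Nd.w σ0)
    simpa [phN] using this
  calc ∑ c ∈ S, (1 / 8 : ℝ) ^ (c.wk σ0).card * ∏ n ∈ c.nodes σ0, w n
      ≤ ∑ p ∈ S.image Φ, ∏ n ∈ p.2, w n := h1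
    _ ≤ ∑ p ∈ 𝓣, ∏ n ∈ p.2, w n := h5
    _ = _ := h6
    _ ≤ ∑ s : Fin (K + 1), w (Nd.w σ0) * Real.exp 1 := Finset.sum_le_sum fun s _ => h7 s
    _ = (K + 1) * (w (Nd.w σ0) * Real.exp 1) := by
        rw [Finset.sum_const, Finset.card_univ, Fintype.card_fin, nsmul_eq_mul]
        push_cast
        ring

end

end Cut7315
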