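import Pool.Agent.Lib.MP_7315a9_cut.Heart
import Pool.Agent.Lib.MP_7315a9_cut.PMain
import Pool.Agent.Lib.MP_7315a9_cut.KPCond
import Pool.Agent.Lib.MP_7315a9_cut.SumStr
import Pool.Agent.Lib.MP_7315a9_cut.DetBound
import Pool.Agent.Lib.MP_7315a9_cut.Params
import Pool.Agent.Lib.MP_7315a9_cut.Growth
import Pool.Agent.Lib.MP_7315a9_cut.OcLaw
import Pool.Agent.Lib.MP_7315a9_cut.FinClass
import Pool.Agent.Lib.MP_7315a9_cut.OcStart
import Pool.Agent.Lib.MP_7315a9_cut.Paths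

/-!
# All intensities on graphs with exponentially many minimal cutsets
-/

open MeasureTheory ProbabilityTheory Set Relation
open scoped Classical

namespace Cut7315

open MP7315a9

noncomputable section

variable {V : Type*} {G : SimpleGraph V} [G.LocallyFinite]

instance {K : ℕ} [Countable V] : Countable (Str V K) := by
  have h : Function.Injective fun c : Str V K => (c.s, c.W, c.W', c.L, c.F, c.Y) := by
    rintro ⟨a1, a2, a3, a4, a5, a6⟩ ⟨b1, b2, b3, b4, b5, b6⟩ h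
    simp only [Prod.mk.injEq] at h
    obtain ⟨rfl, rfl, rfl, rfl, rfl, rfl⟩ := h
    rfl
  exact h.countable

lemma countable_of_connected (hconn : G.Connected) : Countable V := by
  obtain ⟨v0⟩ := hconn.nonempty
  have h1 : (univ : Set V) ⊆ ⋃ n : ℕ, (ball G n v0 : Set V) := by
    intro v _
    obtain ⟨p⟩ := hconn.preconnected v0 v
    exact mem_iUnion.2 ⟨p.length, mem_ball.2 ⟨p, le_rfl⟩⟩
  have h2 : (univ : Set V).Countable :=
    (countable_iUnion fun n => (ball G n v0).countable_toSet).mono h1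
  exact countable_univ_iff.1 h2

variable [MeasurableSpace V] [DiscreteMeasurableSpace V]

/-- The probability that some walker at `o` has a realised structure. -/
theorem struct_bound [Infinite V] [Countable V] (hG : G.Connected) {Δ C τ r ℓ v K : ℕ} (hΔ1 : 1 ≤ Δ)
    (hΔ : ∀ v, G.degree v ≤ Δ) (hdeg : ∀ v, 0 < G.degree v) (hC : CutBound G C) (lam : NNReal)
    {z Q : ℝ} (hz : 0 < z) (hz1 : z ≤ 1) (hQ : 1 + (16 - 1) * (16 / 27) ^ τ ≤ Q) (hτ : 1 ≤ τ)
    (hℓτ : 2 * (4 * ℓ) ≤ τ) {κ : ℝ} (hκe : κ = lam * Real.exp (lam * Δ))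
    (h1 : (K + 1) * (Δ + 1 : ℝ) ^ (8 * τ + 2 * r) * (8 * κ * Δ + 1) * z * Real.exp 1 ≤ 1 / 2)
    (h2 : (Δ + 1 : ℝ) ^ (2 * r + 1) * (2 * C * Real.exp (1 - lam * ℓ / (4 * Δ))) ≤ 1 / 2)
    (h3 : Real.exp (-(lam * v / 2)) ≤ z ^ 7)
    (h4 : Real.exp (-(c1 Δ (4 * τ) * K / 4)) ≤ z ^ 7)
    (h5 : (1 / 2 : ℝ) ^ K * Q ^ (7 * K) ≤ z ^ 7) (o : V) :
    bits (bet G lam) {η : Tr V (K * (4 * τ)) → Bool | ∃ σ0 : Sk V K, σ0 0 = o ∧
      ∃ c : Str V K, c.Ok G Δ ℓ r v (4 * τ) σ0 ∧ c.Real G (4 * ℓ) ℓ (occ G η) (acs G η) σ0} ≤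
    ENNReal.ofReal ((K + 1) * (2 * (8 * κ * z * Δ) * Real.exp 1)) := by
  have hκ : 0 ≤ κ := by rw [hκe]; positivity
  have hε : (0 : ℝ) ≤ (16 / 27) ^ τ := by positivity
  have hQ1 : 1 ≤ Q := by nlinarith
  have hQ0 : 0 < Q := by linarith
  set w1 : Nd V K → ℝ := wN G (4 * τ) τ κ z 1 1 (lam * ℓ / (4 * Δ)) with hw1
  set w2 : Nd V K → ℝ := wN G (4 * τ) τ κ z 16 Q (lam * ℓ / (4 * Δ)) with hw2
  have hmass : ∀ (a Q : ℝ), 1 ≤ a → 0 < Q → 1 + (a - 1) * (16 / 27) ^ τ ≤ Q →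
      ∀ S : Finset {σ0 : Sk V K // σ0 0 = o},
      ∑ σ ∈ S, wN G (4 * τ) τ κ z a Q (lam * ℓ / (4 * Δ)) (Nd.w σ.1) ≤ 8 * κ * z * Δ := by
    intro a Q ha hQ0 hQ S
    have e1 := mass_wsk (G := G) (K := K) hdeg ha hQ o 0 (S.image Subtype.val) (by
      intro σ hσ
      obtain ⟨σ', _, rfl⟩ := Finset.mem_image.1 hσ
      exact σ'.2)
    rw [Finset.sum_image (fun a _ b _ h => Subtype.ext h)] at e1
    have e2 : ∑ σ ∈ S, wN G (4 * τ) τ κ z a Q (lam * ℓ / (4 * Δ)) (Nd.w σ.1) =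
        8 * κ * z / Q ^ K * ∑ σ ∈ S, wsk G (4 * τ) σ.1 * a ^ nf G τ σ.1 := by
      rw [Finset.mul_sum]
      rfl
    rw [e2]
    have e3 : (G.degree o : ℝ) ≤ Δ := by exact_mod_cast hΔ o
    have e4 : 0 < Q ^ K := by positivity
    calc 8 * κ * z / Q ^ K * ∑ σ ∈ S, wsk G (4 * τ) σ.1 * a ^ nf G τ σ.1
        ≤ 8 * κ * z / Q ^ K * (G.degree o * Q ^ K) :=
          mul_le_mul_of_nonneg_left e1 (by positivity)
      _ = 8 * κ * z * G.degree o := by field_simp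
      _ ≤ 8 * κ * z * Δ := mul_le_mul_of_nonneg_left e3 (by positivity)
  -- the sum over the structures
  have hw1nn : ∀ n, 0 ≤ w1 n := by
    intro n
    rcases n with σ | y | F
    · simp only [hw1, wN, wsk, pT]; positivity
    · simp only [hw1, wN]; positivity
    · simp only [hw1, wN]; split_ifs <;> positivity
  have hw2nn : ∀ n, 0 ≤ w2 n := by
    intro n
    rcases n with σ | y | F
    · simp only [hw2, wN, wsk, pT]; positivity
    · simp only [hw2, wN]; positivity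
    · simp only [hw2, wN]; split_ifs <;> positivity
  have hc : ∀ σ0 : Sk V K, ∑' c : {c : Str V K // c.Ok G Δ ℓ r v (4 * τ) σ0},
      bits (bet G lam) {η : Tr V (K * (4 * τ)) → Bool |
        c.1.Real G (4 * ℓ) ℓ (occ G η) (acs G η) σ0} ≤
      ENNReal.ofReal ((K + 1) * Real.exp 1 * (w1 (Nd.w σ0) + w2 (Nd.w σ0))) := by
    intro σ0
    rw [ENNReal.tsum_eq_iSup_sum]
    refine iSup_le fun S => ?_
    have e1 : ∀ c ∈ S, bits (bet G lam) {η : Tr V (K * (4 * τ)) → Bool |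
        c.1.Real G (4 * ℓ) ℓ (occ G η) (acs G η) σ0} ≤
        ENNReal.ofReal ((1 / 8 : ℝ) ^ (c.1.wk σ0).card *
          (∏ n ∈ c.1.nodes σ0, w1 n + ∏ n ∈ c.1.nodes σ0, w2 n)) := by
      intro c _
      refine (pmain hΔ hdeg hℓτ lam c.1 c.2.sub σ0).trans (ENNReal.ofReal_le_ofReal ?_)
      have := det_bound (G := G) hΔ1 lam hκ hz hz1 hQ1 c.1 c.2 h3 h4 h5
      rw [← hκe]
      exact this
    refine (Finset.sum_le_sum e1).trans ?_
    rw [← ENNReal.ofReal_sum_of_nonneg (by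
      intro c _
      have := Finset.prod_nonneg (s := c.1.nodes σ0) fun n _ => hw1nn n
      have := Finset.prod_nonneg (s := c.1.nodes σ0) fun n _ => hw2nn n
      positivity)]
    refine ENNReal.ofReal_le_ofReal ?_
    have hs1 := sum_str (G := G) (τ := τ) (r := r) (ℓ := ℓ) (v := v) (Δ := Δ) (a := 1) (Q := 1)
      (β := lam * ℓ / (4 * Δ)) hκ hz.le zero_le_one one_pos σ0
      (fun s n B hB => kp_cond hG hΔ1 hΔ hC hκ hz.le le_rfl (by simp) hτ h1 h2 s σ0 n B hB)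
      (S.image Subtype.val) (by
        intro c hc
        obtain ⟨c', _, rfl⟩ := Finset.mem_image.1 hc
        exact c'.2)
    have hs2 := sum_str (G := G) (τ := τ) (r := r) (ℓ := ℓ) (v := v) (Δ := Δ) (a := 16) (Q := Q)
      (β := lam * ℓ / (4 * Δ)) hκ hz.le (by norm_num) hQ0 σ0
      (fun s n B hB => kp_cond hG hΔ1 hΔ hC hκ hz.le (by norm_num) hQ hτ h1 h2 s σ0 n B hB)
      (S.image Subtype.val) (by
        intro c hc
        obtain ⟨c', _, rfl⟩ := Finset.mem_image.1 hc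
        exact c'.2)
    rw [Finset.sum_image (fun a _ b _ h => Subtype.ext h)] at hs1 hs2
    calc ∑ c ∈ S, (1 / 8 : ℝ) ^ (c.1.wk σ0).card *
          (∏ n ∈ c.1.nodes σ0, w1 n + ∏ n ∈ c.1.nodes σ0, w2 n)
        = ∑ c ∈ S, (1 / 8 : ℝ) ^ (c.1.wk σ0).card * ∏ n ∈ c.1.nodes σ0, w1 n +
          ∑ c ∈ S, (1 / 8 : ℝ) ^ (c.1.wk σ0).card * ∏ n ∈ c.1.nodes σ0, w2 n := by
          rw [← Finset.sum_add_distrib]
          exact Finset.sum_congr rfl fun c _ => by ring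
      _ ≤ (K + 1) * (w1 (Nd.w σ0) * Real.exp 1) + (K + 1) * (w2 (Nd.w σ0) * Real.exp 1) :=
          add_le_add hs1 hs2
      _ = _ := by ring
  have hsub : {η : Tr V (K * (4 * τ)) → Bool | ∃ σ0 : Sk V K, σ0 0 = o ∧
      ∃ c : Str V K, c.Ok G Δ ℓ r v (4 * τ) σ0 ∧ c.Real G (4 * ℓ) ℓ (occ G η) (acs G η) σ0} ⊆
      ⋃ σ0 : {σ0 : Sk V K // σ0 0 = o}, ⋃ c : {c : Str V K // c.Ok G Δ ℓ r v (4 * τ) σ0.1},
        {η | c.1.Real G (4 * ℓ) ℓ (occ G η) (acs G η) σ0.1} := by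
    rintro η ⟨σ0, h, c, hc1, hc2⟩
    exact mem_iUnion.2 ⟨⟨σ0, h⟩, mem_iUnion.2 ⟨⟨c, hc1⟩, hc2⟩⟩
  refine (measure_mono hsub).trans ((measure_iUnion_le _).trans ?_)
  refine (ENNReal.tsum_le_tsum fun σ0 => (measure_iUnion_le _).trans (hc σ0.1)).trans ?_
  rw [ENNReal.tsum_eq_iSup_sum]
  refine iSup_le fun S => ?_
  rw [← ENNReal.ofReal_sum_of_nonneg (by
    intro σ _
    have := hw1nn (Nd.w σ.1)
    have := hw2nn (Nd.w σ.1)
    positivity)]
  refine ENNReal.ofReal_le_ofReal ?_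
  have hm1 := hmass 1 1 le_rfl one_pos (by simp) S
  have hm2 := hmass 16 Q (by norm_num) hQ0 hQ S
  have e1 : (0 : ℝ) ≤ (K + 1) * Real.exp 1 := by positivity
  calc ∑ σ ∈ S, (K + 1) * Real.exp 1 * (w1 (Nd.w σ.1) + w2 (Nd.w σ.1))
      = (K + 1) * Real.exp 1 * (∑ σ ∈ S, w1 (Nd.w σ.1) + ∑ σ ∈ S, w2 (Nd.w σ.1)) := by
        rw [← Finset.sum_add_distrib, Finset.mul_sum]
    _ ≤ (K + 1) * Real.exp 1 * (8 * κ * z * Δ + 8 * κ * z * Δ) :=
        mul_le_mul_of_nonneg_left (add_le_add hm1 hm2) e1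
    _ = _ := by ring

/-- All intensities. -/
theorem main_thm [Infinite V] (hG : G.Connected) {Δ C : ℕ} (hΔ : ∀ v, G.degree v ≤ Δ)
    (hC : CutBound G C) {lam : NNReal} (hlam : 0 < lam) :
    ∃ t0 : ℕ, ∀ t ≥ t0, ∀ᵐ ω ∂(snLaw G lam), InfClass ω t := by
  have hV : Countable V := countable_of_connected hG
  have hdeg : ∀ v, 0 < G.degree v := fun v => hG.preconnected.degree_pos_of_nontrivial v
  obtain ⟨o⟩ := hG.nonempty
  have hΔ1 : 1 ≤ Δ := (hdeg o).trans_le (hΔ o)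
  have hl : (0 : ℝ) < lam := by exact_mod_cast hlam
  have hlt : Real.exp (-(lam : ℝ)) < 1 := by
    rw [Real.exp_lt_one_iff]; linarith
  obtain ⟨A, A1, B, r1, hp⟩ := params Δ C hΔ1 hl (δ := (1 - Real.exp (-(lam : ℝ))) / 2) (by linarith)
  obtain ⟨r0, hr0⟩ := growth hG hΔ hC A
  obtain ⟨z, hz, hz1, p1, p2, p3, p4, p5, p6, p7, p8⟩ := hp (max r0 r1) (le_max_right _ _)
  set r := max r0 r1 with hr
  have hgr : ∀ x, A * r ≤ (ball G r x).card := fun x => hr0 r (le_max_left _ _) x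
  have hA1r : 1 ≤ A1 * r := by omega
  have := snLaw_prob G lam hdeg
  set ℓ := A1 * r with hℓ
  set τ := 8 * ℓ with hτ
  set K := B ^ r with hK
  have hb := struct_bound (G := G) (ℓ := ℓ) (v := A * r) (K := K) (r := r) (τ := τ) hG hΔ1 hΔ hdeg hC
    lam hz hz1 (Q := 1 + 15 * (16 / 27 : ℝ) ^ τ) (by norm_num) (by omega) (by omega)
    (κ := lam * Real.exp (lam * Δ)) rfl (by exact_mod_cast p3) (by exact_mod_cast p4)
    (by exact_mod_cast p5) (by exact_mod_cast p6) (by exact_mod_cast p7) o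
  -- positive probability at time `K * T`
  have hpos : snLaw G lam {ω | InfClass ω (K * (4 * τ))} ≠ 0 := by
    intro h0
    have e0 : ∀ᵐ ω ∂(snLaw G lam), ¬ InfClass ω (K * (4 * τ)) := by
      rw [ae_iff]; simpa using h0
    have e1 := oc_start (G := G) (K := K) (T := 4 * τ) hdeg lam o
    have hmeas : Measurable fun ω (γ : Tr V (K * (4 * τ))) => oc ω γ := by
      refine measurable_pi_lambda _ fun γ => ?_
      refine measurable_to_bool ?_
      have h2 : (fun ω : Om V => oc ω γ) ⁻¹' {true} =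
          ⋃ i : ℕ, ({ω : Om V | i < ω.1 (γ 0)} ∩ {ω : Om V | traj _ ω (γ 0, i) = γ}) := by
        ext ω; simp [oc]
      rw [h2]
      refine MeasurableSet.iUnion fun i => MeasurableSet.inter ?_ ?_
      · have h1 : Measurable fun ω : Om V => ω.1 (γ 0) := by fun_prop
        exact h1 (MeasurableSet.of_discrete (s := {n | i < n}))
      · exact measurable_traj _ (γ 0, i) (MeasurableSet.of_discrete (s := {y | y = γ}))
    have e2 : snLaw G lam {ω | ∃ σ0 : Sk V K, σ0 0 = o ∧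
        σ0 ∈ occ G (oc (n := K * (4 * τ)) ω)} ≤
        snLaw G lam ((fun ω (γ : Tr V (K * (4 * τ))) => oc ω γ) ⁻¹' {η | ∃ σ0 : Sk V K,
          σ0 0 = o ∧ ∃ c : Str V K, c.Ok G Δ ℓ r (A * r) (4 * τ) σ0 ∧
          c.Real G (4 * ℓ) ℓ (occ G η) (acs G η) σ0}) := by
      refine measure_mono_ae ?_
      filter_upwards [e0, ae_step G lam hdeg] with ω hω hω2
      rintro ⟨σ0, hσ0, hocc⟩
      have hR := finite_class (G := G) hω2 hω hocc
      obtain ⟨c, hc1, hc2⟩ := heart (G := G) (T := 4 * τ) hG hΔ (ℓ := ℓ) (r := r) (v := A * r) (by omega)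
        hgr (by omega) (wsys_occ (by omega) _) hR
      exact ⟨σ0, hσ0, c, hc1, hc2⟩
    have hSm : MeasurableSet {η : Tr V (K * (4 * τ)) → Bool | ∃ σ0 : Sk V K, σ0 0 = o ∧
        ∃ c : Str V K, c.Ok G Δ ℓ r (A * r) (4 * τ) σ0 ∧
        c.Real G (4 * ℓ) ℓ (occ G η) (acs G η) σ0} := by
      have : {η : Tr V (K * (4 * τ)) → Bool | ∃ σ0 : Sk V K, σ0 0 = o ∧
          ∃ c : Str V K, c.Ok G Δ ℓ r (A * r) (4 * τ) σ0 ∧
          c.Real G (4 * ℓ) ℓ (occ G η) (acs G η) σ0} =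
        ⋃ σ0 : {σ0 : Sk V K // σ0 0 = o},
          ⋃ c : {c : Str V K // c.Ok G Δ ℓ r (A * r) (4 * τ) σ0.1},
            {η | c.1.Real G (4 * ℓ) ℓ (occ G η) (acs G η) σ0.1} := by
        ext η
        simp only [mem_ofPred_eq, mem_iUnion, Subtype.exists, exists_prop]
      rw [this]
      exact MeasurableSet.iUnion fun σ0 => MeasurableSet.iUnion fun c =>
        measurable_real c.1 _ _ _
    rw [← Measure.map_apply hmeas hSm, oc_law hdeg lam] at e2
    have e3 := e1.trans (e2.trans hb)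
    rw [ENNReal.ofReal_le_ofReal_iff (by positivity)] at e3
    have p8' : ((K : ℕ) + 1 : ℝ) * (2 * (8 * (lam * Real.exp (lam * Δ)) * z * Δ) * Real.exp 1) ≤
      (1 - Real.exp (-(lam : ℝ))) / 2 := by exact_mod_cast p8
    linarith
  have hone : snLaw G lam {ω | InfClass ω (K * (4 * τ))} = 1 :=
    (zero_one_inf G lam hdeg _).resolve_left hpos
  refine ⟨K * (4 * τ), fun t ht => ?_⟩
  have h4 := (prob_compl_eq_zero_iff (μ := snLaw G lam) (measurable_infClass (V := V) _)).2 hone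
  have h5 : ∀ᵐ ω ∂(snLaw G lam), InfClass ω (K * (4 * τ)) := by
    rw [ae_iff]; exact h4
  filter_upwards [h5] with ω hω
  exact infClass_mono ht hω

end

end Cut7315
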