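import Pool.Agent.Lib.MP_7315a9_cut.Def3

/-!
# Paths outside a cut

Row 7315-S2b. Sketch:
path_split: the component of any point of A in V \ F is infinite (IsCut.inf; A is outside F), so there is a walk in V \ F from
a point of A to a point outside X ∪ F. Take the last vertex a of the walk in A, and then the first vertex a' after it which is in
D \ A or outside X ∪ F; the vertices in between are in X \ D. (Induct on the walk / ReflTransGen from the end.)
cover: if w ∉ X \ D is adjacent to v ∈ X \ D and w ∈ F then v ∈ ob G F ⊆ D, contradiction; so w ∉ F: w ∈ D or w ∉ X.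
-/

open MeasureTheory ProbabilityTheory Set Relation
open scoped Classical

namespace Cut7315

open MP7315a9

noncomputable section

variable {V : Type*} {G : SimpleGraph V} [G.LocallyFinite]

/-- S2b -/
theorem path_split {F : Finset V} (hF : IsCut G F) {X D A : Finset V} (hXF : Disjoint X F)
    (hD : D ⊆ X) (hA : A ⊆ D) (hne : A.Nonempty) :
    ∃ a ∈ A, ∃ y, ReflTransGen (fun x y => G.Adj x y ∧ y ∈ X \ D) a y ∧
      ∃ a' ∈ {w | w ∈ D \ A ∨ (w ∉ X ∧ w ∉ F)}, G.Adj y a' := by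
  obtain ⟨a0, ha0⟩ := hne
  have ha0F : a0 ∉ F := Finset.disjoint_left.1 hXF (hD (hA ha0))
  obtain ⟨z, hz, hzX⟩ := (hF.inf a0 ha0F).exists_notMem_finset X
  have key : ∀ v, ReflTransGen (fun a b => G.Adj a b ∧ b ∉ F) a0 v →
      (∃ a ∈ A, ∃ y, ReflTransGen (fun x y => G.Adj x y ∧ y ∈ X \ D) a y ∧
        ∃ a' ∈ {w | w ∈ D \ A ∨ (w ∉ X ∧ w ∉ F)}, G.Adj y a') ∨
      ∃ a ∈ A, ReflTransGen (fun x y => G.Adj x y ∧ y ∈ X \ D) a v := by
    intro v hv
    induction hv with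
    | refl => exact Or.inr ⟨a0, ha0, ReflTransGen.refl⟩
    | @tail v w _ hvw ih =>
      rcases ih with ih | ⟨a, ha, hav⟩
      · exact Or.inl ih
      · by_cases hwX : w ∈ X
        · by_cases hwD : w ∈ D
          · by_cases hwA : w ∈ A
            · exact Or.inr ⟨w, hwA, ReflTransGen.refl⟩
            · exact Or.inl ⟨a, ha, v, hav, w, Or.inl (Finset.mem_sdiff.2 ⟨hwD, hwA⟩), hvw.1⟩
          · exact Or.inr ⟨a, ha, hav.tail ⟨hvw.1, Finset.mem_sdiff.2 ⟨hwX, hwD⟩⟩⟩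
        · exact Or.inl ⟨a, ha, v, hav, w, Or.inr ⟨hwX, hvw.2⟩, hvw.1⟩
  rcases key z hz with h | ⟨a, ha, haz⟩
  · exact h
  · exfalso
    rcases ReflTransGen.cases_tail haz with h | ⟨y, _, hyz⟩
    · subst h
      exact hzX (hD (hA ha))
    · exact hzX (Finset.mem_sdiff.1 hyz.2).1

/-- S2c -/
theorem cover {F X D A : Finset V} (hXF : Disjoint X F) (hD : D ⊆ X) (hob : ob G F ⊆ D) :
    ∀ v ∈ X \ D, ∀ w, w ∉ X \ D → G.Adj v w → w ∈ A ∨ w ∈ {w | w ∈ D \ A ∨ (w ∉ X ∧ w ∉ F)} := by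
  intro v hv w hw hvw
  obtain ⟨hvX, hvD⟩ := Finset.mem_sdiff.1 hv
  by_cases hwF : w ∈ F
  · exfalso
    refine hvD (hob (Finset.mem_image.2 ⟨(w, v), mem_bd.2 ⟨hwF, ?_, hvw.symm⟩, rfl⟩))
    exact Finset.disjoint_left.1 hXF hvX
  · by_cases hwX : w ∈ X
    · have hwD : w ∈ D := by
        by_contra hwD
        exact hw (Finset.mem_sdiff.2 ⟨hwX, hwD⟩)
      by_cases hwA : w ∈ A
      · exact Or.inl hwA
      · exact Or.inr (Or.inl (Finset.mem_sdiff.2 ⟨hwD, hwA⟩))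
    · exact Or.inr (Or.inr ⟨hwX, hwF⟩)

end

end Cut7315
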