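import Pool.Agent.Lib.MP_7315a9_cut.Def3

/-!
# Quasi-transitive graphs

Row 7315-S10. Sketch:
pc G is the infimum of {p | P_p(HasInf) ≠ 0} (it contains 1, see pc_ge in Pos.lean), so some p < 1 has P_p(HasInf) ≠ 0; increase p a little
(bits_mono) to have 0 < p < 1. HasInf is the union over v of {cluster of v infinite}: some v has P_p(v) > 0. Every w has P_p(w) > 0: take a path w
to v with finite edge set Q; {v's cluster infinite} ⊆ {ω | ω with Q opened has an infinite cluster of w} =: B, B is
independent of the bits of Q, and {Q open} ∩ B ⊆ {w's cluster infinite}: P(w) ≥ p^|Q| P(v) (bits_indep). Automorphism φ: P(φ w) = P(w)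
(the map ω ↦ ω ∘ (edge permutation) preserves bits: map_infinitePi_infinitePi_of_inj or infinitePi_map_piCongrLeft). c = the minimum over S
of the (real) probabilities, positive.
-/

open MeasureTheory ProbabilityTheory Set Relation
open scoped Classical

namespace Cut7315

open MP7315a9

noncomputable section

variable {V : Type*} {G : SimpleGraph V} [G.LocallyFinite] [Countable V]

/-- the cluster of `v` is infinite -/
private def S10_A (G : SimpleGraph V) (v : V) : Set (G.edgeSet → Bool) :=
  {ω | {u | (openGraph G ω).Reachable v u}.Infinite}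

omit [G.LocallyFinite] in
private theorem S10_meas (v : V) : MeasurableSet (S10_A G v) := by
  have : S10_A G v = ⋂ F : Finset V, ⋃ u : {u // u ∉ F}, {ω | (openGraph G ω).Reachable v u} := by
    ext ω
    simp only [S10_A, mem_ofPred_eq, mem_iUnion, mem_iInter]
    constructor
    · intro h F
      obtain ⟨u, hu, hF⟩ := h.exists_notMem_finset F
      exact ⟨⟨u, hF⟩, hu⟩
    · intro h hfin
      obtain ⟨u, hu⟩ := h hfin.toFinset
      exact u.2 (hfin.mem_toFinset.2 hu)
  rw [this]
  exact MeasurableSet.iInter fun F =>
    MeasurableSet.iUnion fun u => measurable_reachable (measurable_adj_open G) _ _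

omit [G.LocallyFinite] [Countable V] in
private theorem S10_bit (p : unitInterval) (e : G.edgeSet) :
    bits (fun _ : G.edgeSet => p) {ω | ω e = true} = ENNReal.ofReal p := by
  have h1 := (measurePreserving_eval_infinitePi (fun _ : G.edgeSet => bern p) e).measure_preimage
    (s := {true}) (MeasurableSet.of_discrete.nullMeasurableSet)
  rw [bern_true] at h1
  exact h1

omit [G.LocallyFinite] in
/-- one step -/
private theorem S10_step (p : unitInterval) (hp : (0 : ℝ) < p) {v w : V} (h : G.Adj w v)
    (hv : bits (fun _ : G.edgeSet => p) (S10_A G v) ≠ 0) :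
    bits (fun _ : G.edgeSet => p) (S10_A G w) ≠ 0 := by
  let e : G.edgeSet := ⟨s(w, v), h⟩
  let f : (G.edgeSet → Bool) → G.edgeSet → Bool := fun ω => Function.update ω e true
  have hf : Measurable f := by
    refine measurable_pi_lambda _ fun k => ?_
    by_cases hk : k = e
    · subst hk
      simp only [f, Function.update_self]
      exact measurable_const
    · simp only [f, Function.update_of_ne hk]
      exact measurable_pi_apply k
  have h1 := bits_indep (fun _ : G.edgeSet => p) (S := {e}) (T := {e}ᶜ) disjoint_compl_right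
    (A := {ω | ω e = true}) (B := f ⁻¹' S10_A G w)
    (measurableSet_eq_fun (measurable_pi_apply e) measurable_const) (hf (S10_meas w)) (by
      intro η η' hη h
      simp only [mem_ofPred_eq] at h ⊢
      rw [← hη e rfl]; exact h) (by
      intro η η' hη h
      have : f η = f η' := by
        funext k
        by_cases hk : k = e
        · subst hk; simp [f]
        · simp only [f, Function.update_of_ne hk]
          exact hη k hk
      rw [mem_preimage, ← this]
      exact h)
  have h2 : S10_A G v ⊆ f ⁻¹' S10_A G w := by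
    intro ω hω
    simp only [S10_A, mem_preimage, mem_ofPred_eq] at hω ⊢
    refine hω.mono fun u hu => ?_
    have h3 : openGraph G ω ≤ openGraph G (f ω) := by
      refine openGraph_mono fun k => ?_
      by_cases hk : k = e
      · subst hk; simp [f]
      · simp only [f, Function.update_of_ne hk]
        exact le_rfl
    have h4 : (openGraph G (f ω)).Adj w v := ⟨h, by simp [f, e]⟩
    exact h4.reachable.trans (hu.mono h3)
  have h5 : {ω | ω e = true} ∩ f ⁻¹' S10_A G w ⊆ S10_A G w := by
    rintro ω ⟨k1, k2⟩
    have : f ω = ω := by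
      have k3 : ω e = true := k1
      simp only [f]
      rw [← k3, Function.update_eq_self]
    rw [mem_preimage, this] at k2
    exact k2
  intro h0
  have h6 := measure_mono (μ := bits (fun _ : G.edgeSet => p)) h5
  rw [h1, h0, S10_bit, le_zero_iff, mul_eq_zero] at h6
  rcases h6 with h6 | h6
  · rw [ENNReal.ofReal_eq_zero] at h6
    linarith
  · exact hv (measure_mono_null h2 h6)

omit [G.LocallyFinite] in
/-- automorphisms -/
private theorem S10_aut (p : unitInterval) (φ : G ≃g G) (w : V) :
    bits (fun _ : G.edgeSet => p) (S10_A G (φ w)) = bits (fun _ : G.edgeSet => p) (S10_A G w) := by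
  let σ : G.edgeSet ≃ G.edgeSet := φ.mapEdgeSet
  have h1 : (bits (fun _ : G.edgeSet => p)).map (fun ω k => ω (σ k)) = bits (fun _ : G.edgeSet => p) := by
    have := Measure.map_infinitePi_infinitePi_of_inj (P := fun _ : G.edgeSet => bern p) σ.injective
    simpa [bits] using this
  have hm : Measurable fun (ω : G.edgeSet → Bool) (k : G.edgeSet) => ω (σ k) := by fun_prop
  have h2 : (fun (ω : G.edgeSet → Bool) (k : G.edgeSet) => ω (σ k)) ⁻¹' S10_A G w = S10_A G (φ w) := by
    ext ω
    simp only [S10_A, mem_preimage, mem_ofPred_eq]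
    have hadj : ∀ a b, (openGraph G fun k => ω (σ k)).Adj a b ↔ (openGraph G ω).Adj (φ a) (φ b) := by
      intro a b
      constructor
      · rintro ⟨k1, k2⟩
        exact ⟨φ.map_adj_iff.2 k1, k2⟩
      · rintro ⟨k1, k2⟩
        exact ⟨φ.map_adj_iff.1 k1, k2⟩
    let ψ : (openGraph G fun k => ω (σ k)) ≃g openGraph G ω :=
      ⟨φ.toEquiv, fun {a b} => (hadj a b).symm⟩
    have h3 : {u | (openGraph G ω).Reachable (φ w) u} = φ '' {u | (openGraph G fun k => ω (σ k)).Reachable w u} := by
      ext u
      simp only [mem_ofPred_eq, mem_image]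
      constructor
      · intro hu
        refine ⟨φ.symm u, ?_, φ.apply_symm_apply u⟩
        have := ψ.reachable_iff (u := w) (v := φ.symm u)
        refine this.1 ?_
        have e1 : ψ (φ.symm u) = u := φ.apply_symm_apply u
        rw [e1]
        exact hu
      · rintro ⟨y, hy, rfl⟩
        exact (ψ.reachable_iff (u := w) (v := y)).2 hy
    rw [h3, Set.infinite_image_iff φ.injective.injOn]
  rw [← h2, ← Measure.map_apply hm (S10_meas w), h1]

/-- S10 -/
theorem uni_of_qtrans [Infinite V] (hG : G.Connected) (hq : QTrans G) (hpc : pc G < 1) :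
    ∃ p : unitInterval, (p : ℝ) < 1 ∧ ∃ c : ℝ, 0 < c ∧ Uni G p c := by
  have hinf : HasInf G := by
    obtain ⟨v⟩ : Nonempty V := inferInstance
    refine ⟨v, ?_⟩
    have : {u | G.Reachable v u} = univ := by
      ext u
      simpa using hG.preconnected v u
    rw [this]
    exact infinite_univ
  -- the parameter
  obtain ⟨q, hq1, hq2⟩ : ∃ q : ℝ, max (pc G) 0 < q ∧ q < 1 := exists_between (max_lt hpc one_pos)
  have hq0 : 0 < q := lt_of_le_of_lt (le_max_right _ _) hq1
  let p : unitInterval := ⟨q, hq0.le, hq2.le⟩
  have hsup := supercritical hinf (r := fun _ : G.edgeSet => p) (p := p)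
    (lt_of_le_of_lt (le_max_left _ _) hq1) (fun _ => le_rfl)
  -- some vertex
  obtain ⟨v, hv⟩ : ∃ v, bits (fun _ : G.edgeSet => p) (S10_A G v) ≠ 0 := by
    by_contra hcon
    push Not at hcon
    have h1 : bits (fun _ : G.edgeSet => p) (⋃ v, S10_A G v) = 0 := measure_iUnion_null hcon
    have h2 : (⋃ v, S10_A G v) = {ω | HasInf (openGraph G ω)} := by
      ext ω
      simp [S10_A, HasInf]
    rw [h2] at h1
    have h3 : bits (fun _ : G.edgeSet => p) univ = 0 := by
      rw [ae_iff] at hsup
      have : (univ : Set (G.edgeSet → Bool)) = {ω | HasInf (openGraph G ω)} ∪ {ω | ¬ HasInf (openGraph G ω)} := by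
        ext ω
        simp [em]
      rw [this]
      exact measure_union_null h1 hsup
    rw [measure_univ] at h3
    exact one_ne_zero h3
  have hall : ∀ w, bits (fun _ : G.edgeSet => p) (S10_A G w) ≠ 0 := by
    intro w
    obtain ⟨W⟩ := hG.preconnected w v
    induction W with
    | nil => exact hv
    | cons h _ ih => exact S10_step p hq0 h (ih hv)
  obtain ⟨S, hS⟩ := hq
  have hSne : S.Nonempty := by
    obtain ⟨s, hs, _⟩ := hS v
    exact ⟨s, hs⟩
  obtain ⟨s0, hs0, hmin⟩ := S.exists_min_image (fun s => bits (fun _ : G.edgeSet => p) (S10_A G s)) hSne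
  refine ⟨p, hq2, (bits (fun _ : G.edgeSet => p) (S10_A G s0)).toReal,
    ENNReal.toReal_pos (hall s0) (measure_ne_top _ _), ?_⟩
  intro x
  obtain ⟨s, hs, φ, rfl⟩ := hS x
  rw [ENNReal.ofReal_toReal (measure_ne_top _ _)]
  refine (hmin s hs).trans (le_of_eq ?_)
  exact (S10_aut p φ s).symm

end

end Cut7315
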