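import Pool.Agent.Lib.MP_7315a9_cut.ExpK

/-!
# One step of the exploration

Row 7315-S5. Sketch:
cn is symmetric (stp is) and monotone in Q. Points of X are outside F (hXF). Points of a.I: by Inv joined to a.c at the cost
of a.r edges (besides Q0). Points v of K = expK G Y a.I ω: open path inside Y to u ∈ Y adjacent to some x0 ∈ a.I (expK_path):
cost 1 for the edge x0 u, then a.r. So every x ∈ a.I ∪ K is joined to a.c at cost a.r + 1. step_J: the success edge x a' costs 1, a' ∈ DJ costs rJ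
more to reach a point outside X ∪ F (or a' is one): total ≤ (a.r + 1) + 1 + rJ: enlarge Q0 by these edges: Q0'. Then a.c is connected to a point w
outside X ∪ F by Q0'; fields: points of the other islands as before (monotone), b with cn b a.c now reaches w, points of DJ
as before, points of a.I, K reach a.c and then w at cost ≤ a.r + 1. step_I: the success edge x y, y ∈ a'.I costs 1, then a'.r: a.c and a'.c are connected
by Q0'; the new island has centre a.c; its points are joined to a.c at cost ≤ max (a.r+1) a'.r. (Finset.card_union_le,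
card_insert_le.)
-/

open MeasureTheory ProbabilityTheory Set Relation
open scoped Classical

namespace Cut7315

open MP7315a9

noncomputable section

variable {V : Type*} {G : SimpleGraph V} [G.LocallyFinite]

omit [G.LocallyFinite] in
private theorem S5_swap {a b : V} (h : G.Adj a b) :
    (⟨s(b, a), h.symm⟩ : G.edgeSet) = ⟨s(a, b), h⟩ := Subtype.ext Sym2.eq_swap

omit [G.LocallyFinite] in
private theorem S5_symm {F : Finset V} {ω : G.edgeSet → Bool} {Q : Finset G.edgeSet} {a b : V}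
    (h : cn G F ω Q a b) : cn G F ω Q b a := by
  induction h with
  | refl => exact ReflTransGen.refl
  | tail _ hxy ih =>
    obtain ⟨h1, h2, h3, h4⟩ := hxy
    refine ReflTransGen.head ⟨h2, h1, h3.symm, ?_⟩ ih
    rw [S5_swap h3]
    exact h4

omit [G.LocallyFinite] in
private theorem S5_mono {F : Finset V} {ω : G.edgeSet → Bool} {Q Q' : Finset G.edgeSet}
    (hQ : Q ⊆ Q') {a b : V} (h : cn G F ω Q a b) : cn G F ω Q' a b := by
  refine ReflTransGen.mono (fun x y hxy => ?_) _ _ h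
  obtain ⟨h1, h2, h3, h4⟩ := hxy
  exact ⟨h1, h2, h3, h4.imp_right fun h => hQ h⟩

omit [G.LocallyFinite] in
private theorem S5_edge {F : Finset V} {ω : G.edgeSet → Bool} {Q : Finset G.edgeSet} {a b : V}
    (ha : a ∉ F) (hb : b ∉ F) (h : G.Adj a b) (hQ : (⟨s(a, b), h⟩ : G.edgeSet) ∈ Q) :
    cn G F ω Q a b :=
  ReflTransGen.single ⟨ha, hb, h, Or.inr hQ⟩

/-- Points of an island and of the clusters around it are joined to the centre. -/
private theorem S5_x {F X Y : Finset V} (hXF : Disjoint X F) (hY : Y ⊆ X)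
    {ω : G.edgeSet → Bool} {Q0 : Finset G.edgeSet} {a : Isl V} (haX : a.I ⊆ X)
    (h : ∀ u ∈ a.I, ∃ Q : Finset G.edgeSet, Q.card ≤ a.r ∧ cn G F ω (Q0 ∪ Q) u a.c) {x : V}
    (hx : x ∈ a.I ∨ x ∈ expK G Y a.I ω) :
    x ∉ F ∧ ∃ Q : Finset G.edgeSet, Q.card ≤ a.r + 1 ∧ cn G F ω (Q0 ∪ Q) x a.c := by
  have hX : ∀ v ∈ X, v ∉ F := fun v hv => Finset.disjoint_left.1 hXF hv
  rcases hx with hx | hx
  · obtain ⟨Q, h1, h2⟩ := h x hx
    exact ⟨hX x (haX hx), Q, h1.trans (Nat.le_succ _), h2⟩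
  · have hxY : x ∈ Y := (Finset.mem_filter.1 hx).1
    refine ⟨hX x (hY hxY), ?_⟩
    obtain ⟨u, hu, ⟨x0, hx0, hadj⟩, hp⟩ := expK_path hx
    obtain ⟨Q, h1, h2⟩ := h x0 hx0
    refine ⟨insert ⟨s(u, x0), hadj.symm⟩ Q, (Finset.card_insert_le _ _).trans
      (Nat.succ_le_succ h1), ?_⟩
    have h3 : cn G F ω (Q0 ∪ insert ⟨s(u, x0), hadj.symm⟩ Q) x u := by
      refine ReflTransGen.mono (fun p q hpq => ?_) _ _ hp
      obtain ⟨h4, h5, h6, h7⟩ := hpq
      exact ⟨hX p (hY h4), hX q (hY h5), h6, Or.inl h7⟩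
    have h4 : cn G F ω (Q0 ∪ insert ⟨s(u, x0), hadj.symm⟩ Q) u x0 :=
      S5_edge (hX u (hY hu)) (hX x0 (haX hx0)) hadj.symm
        (Finset.mem_union_right _ (Finset.mem_insert_self _ _))
    exact (h3.trans h4).trans
      (S5_mono (Finset.union_subset_union_right (Finset.subset_insert _ _)) h2)

/-- S5a -/
theorem step_J {F X Y : Finset V} (hXF : Disjoint X F) (hY : Y ⊆ X) {L : Finset (Isl V)}
    {DJ : Finset V} {rJ q : ℕ} {ω : G.edgeSet → Bool} (hL : ∀ a ∈ L, a.I ⊆ X) (hDJ : DJ ⊆ X)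
    (hInv : Inv G F X L DJ rJ q ω) {a : Isl V} (ha : a ∈ L)
    (hs : ∃ x, (x ∈ a.I ∨ x ∈ expK G Y a.I ω) ∧ ∃ a', (a' ∈ DJ ∨ (a' ∉ X ∧ a' ∉ F)) ∧ G.Adj x a') :
    Inv G F X (L.erase a) (DJ ∪ a.I ∪ expK G Y a.I ω) (max rJ (a.r + 1)) (q + a.r + rJ + 2) ω := by
  obtain ⟨Q0, hQ0, hI, hB, hD⟩ := hInv
  obtain ⟨x, hx, a', ha', hadj⟩ := hs
  obtain ⟨hxF, Qx, hQx, hxc⟩ := S5_x hXF hY (hL a ha) (hI a ha) hx
  obtain ⟨haF, Qd, hQd, w, hwX, hwF, hw⟩ : a' ∉ F ∧ ∃ Qd : Finset G.edgeSet, Qd.card ≤ rJ ∧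
      ∃ w, w ∉ X ∧ w ∉ F ∧ cn G F ω (Q0 ∪ Qd) a' w := by
    rcases ha' with ha' | ⟨h1, h2⟩
    · exact ⟨Finset.disjoint_left.1 hXF (hDJ ha'), hD a' ha'⟩
    · exact ⟨h2, ∅, by simp, a', h1, h2, ReflTransGen.refl⟩
  have hQ : ∀ Q : Finset G.edgeSet, Q0 ∪ Q ⊆ (Q0 ∪ (Qx ∪ insert ⟨s(x, a'), hadj⟩ Qd)) ∪ Q :=
    fun Q => Finset.union_subset_union_left Finset.subset_union_left
  have h0 : Q0 ⊆ Q0 ∪ (Qx ∪ insert ⟨s(x, a'), hadj⟩ Qd) := Finset.subset_union_left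
  have hcw : cn G F ω (Q0 ∪ (Qx ∪ insert ⟨s(x, a'), hadj⟩ Qd)) a.c w := by
    have h1 : cn G F ω (Q0 ∪ (Qx ∪ insert ⟨s(x, a'), hadj⟩ Qd)) a.c x :=
      S5_symm (S5_mono (Finset.union_subset_union_right Finset.subset_union_left) hxc)
    have h2 : cn G F ω (Q0 ∪ (Qx ∪ insert ⟨s(x, a'), hadj⟩ Qd)) x a' :=
      S5_edge hxF haF hadj (Finset.mem_union_right _ (Finset.mem_union_right _
        (Finset.mem_insert_self _ _)))
    have h3 : cn G F ω (Q0 ∪ (Qx ∪ insert ⟨s(x, a'), hadj⟩ Qd)) a' w :=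
      S5_mono (Finset.union_subset_union_right
        ((Finset.subset_insert _ _).trans Finset.subset_union_right)) hw
    exact (h1.trans h2).trans h3
  refine ⟨Q0 ∪ (Qx ∪ insert ⟨s(x, a'), hadj⟩ Qd), ?_, ?_, ?_, ?_⟩
  · have h1 := Finset.card_union_le Q0 (Qx ∪ insert ⟨s(x, a'), hadj⟩ Qd)
    have h2 := Finset.card_union_le Qx (insert ⟨s(x, a'), hadj⟩ Qd)
    have h3 := Finset.card_insert_le (⟨s(x, a'), hadj⟩ : G.edgeSet) Qd
    omega
  · intro b hb u hu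
    obtain ⟨Q, h1, h2⟩ := hI b (Finset.mem_of_mem_erase hb) u hu
    exact ⟨Q, h1, S5_mono (hQ Q) h2⟩
  · intro b hb
    rcases hB b hb with ⟨c, hc, h1⟩ | ⟨z, h1, h2, h3⟩
    · by_cases hca : c = a
      · right
        subst hca
        exact ⟨w, hwX, hwF, (S5_mono h0 h1).trans hcw⟩
      · left
        exact ⟨c, Finset.mem_erase.2 ⟨hca, hc⟩, S5_mono h0 h1⟩
    · right
      exact ⟨z, h1, h2, S5_mono h0 h3⟩
  · intro u hu
    have h1 : u ∈ DJ ∨ (u ∈ a.I ∨ u ∈ expK G Y a.I ω) := by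
      rcases Finset.mem_union.1 hu with hu | hu
      · rcases Finset.mem_union.1 hu with hu | hu
        · exact Or.inl hu
        · exact Or.inr (Or.inl hu)
      · exact Or.inr (Or.inr hu)
    rcases h1 with h1 | h1
    · obtain ⟨Q, h2, z, h3, h4, h5⟩ := hD u h1
      exact ⟨Q, h2.trans (le_max_left _ _), z, h3, h4, S5_mono (hQ Q) h5⟩
    · obtain ⟨_, Q, h2, h3⟩ := S5_x hXF hY (hL a ha) (hI a ha) h1
      exact ⟨Q, h2.trans (le_max_right _ _), w, hwX, hwF,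
        (S5_mono (hQ Q) h3).trans (S5_mono Finset.subset_union_left hcw)⟩

/-- S5b -/
theorem step_I {F X Y : Finset V} (hXF : Disjoint X F) (hY : Y ⊆ X) {L : Finset (Isl V)}
    {DJ : Finset V} {rJ q : ℕ} {ω : G.edgeSet → Bool} (hL : ∀ a ∈ L, a.I ⊆ X)
    (hInv : Inv G F X L DJ rJ q ω) {a a' : Isl V} (ha : a ∈ L) (ha' : a' ∈ L) (hne : a' ≠ a)
    (hs : ∃ x, (x ∈ a.I ∨ x ∈ expK G Y a.I ω) ∧ ∃ y ∈ a'.I, G.Adj x y) :
    Inv G F X (insert ⟨a.I ∪ a'.I ∪ expK G Y a.I ω, a.c, max (a.r + 1) a'.r⟩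
      ((L.erase a).erase a')) DJ rJ (q + a.r + a'.r + 2) ω := by
  obtain ⟨Q0, hQ0, hI, hB, hD⟩ := hInv
  obtain ⟨x, hx, y, hy, hadj⟩ := hs
  obtain ⟨hxF, Qx, hQx, hxc⟩ := S5_x hXF hY (hL a ha) (hI a ha) hx
  obtain ⟨Qy, hQy, hyc⟩ := hI a' ha' y hy
  have hyF : y ∉ F := Finset.disjoint_left.1 hXF (hL a' ha' hy)
  have hQ : ∀ Q : Finset G.edgeSet, Q0 ∪ Q ⊆ (Q0 ∪ (Qx ∪ insert ⟨s(x, y), hadj⟩ Qy)) ∪ Q :=
    fun Q => Finset.union_subset_union_left Finset.subset_union_left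
  have h0 : Q0 ⊆ Q0 ∪ (Qx ∪ insert ⟨s(x, y), hadj⟩ Qy) := Finset.subset_union_left
  have hcc : cn G F ω (Q0 ∪ (Qx ∪ insert ⟨s(x, y), hadj⟩ Qy)) a'.c a.c := by
    have h1 : cn G F ω (Q0 ∪ (Qx ∪ insert ⟨s(x, y), hadj⟩ Qy)) x a.c :=
      S5_mono (Finset.union_subset_union_right Finset.subset_union_left) hxc
    have h2 : cn G F ω (Q0 ∪ (Qx ∪ insert ⟨s(x, y), hadj⟩ Qy)) x y :=
      S5_edge hxF hyF hadj (Finset.mem_union_right _ (Finset.mem_union_right _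
        (Finset.mem_insert_self _ _)))
    have h3 : cn G F ω (Q0 ∪ (Qx ∪ insert ⟨s(x, y), hadj⟩ Qy)) y a'.c :=
      S5_mono (Finset.union_subset_union_right
        ((Finset.subset_insert _ _).trans Finset.subset_union_right)) hyc
    exact ((S5_symm h3).trans (S5_symm h2)).trans h1
  refine ⟨Q0 ∪ (Qx ∪ insert ⟨s(x, y), hadj⟩ Qy), ?_, ?_, ?_, ?_⟩
  · have h1 := Finset.card_union_le Q0 (Qx ∪ insert ⟨s(x, y), hadj⟩ Qy)
    have h2 := Finset.card_union_le Qx (insert ⟨s(x, y), hadj⟩ Qy)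
    have h3 := Finset.card_insert_le (⟨s(x, y), hadj⟩ : G.edgeSet) Qy
    omega
  · intro b hb u hu
    rcases Finset.mem_insert.1 hb with rfl | hb
    · have h1 : u ∈ a'.I ∨ (u ∈ a.I ∨ u ∈ expK G Y a.I ω) := by
        rcases Finset.mem_union.1 hu with hu | hu
        · rcases Finset.mem_union.1 hu with hu | hu
          · exact Or.inr (Or.inl hu)
          · exact Or.inl hu
        · exact Or.inr (Or.inr hu)
      rcases h1 with h1 | h1
      · obtain ⟨Q, h2, h3⟩ := hI a' ha' u h1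
        exact ⟨Q, h2.trans (le_max_right _ _),
          (S5_mono (hQ Q) h3).trans (S5_mono Finset.subset_union_left hcc)⟩
      · obtain ⟨_, Q, h2, h3⟩ := S5_x hXF hY (hL a ha) (hI a ha) h1
        exact ⟨Q, h2.trans (le_max_left _ _), S5_mono (hQ Q) h3⟩
    · obtain ⟨Q, h1, h2⟩ := hI b (Finset.mem_of_mem_erase (Finset.mem_of_mem_erase hb)) u hu
      exact ⟨Q, h1, S5_mono (hQ Q) h2⟩
  · intro b hb
    rcases hB b hb with ⟨c, hc, h1⟩ | ⟨z, h1, h2, h3⟩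
    · left
      by_cases hca : c = a
      · subst hca
        exact ⟨_, Finset.mem_insert_self _ _, S5_mono h0 h1⟩
      · by_cases hca' : c = a'
        · subst hca'
          exact ⟨_, Finset.mem_insert_self _ _, (S5_mono h0 h1).trans hcc⟩
        · exact ⟨c, Finset.mem_insert_of_mem (Finset.mem_erase.2
            ⟨hca', Finset.mem_erase.2 ⟨hca, hc⟩⟩), S5_mono h0 h1⟩
    · right
      exact ⟨z, h1, h2, S5_mono h0 h3⟩
  · intro u hu
    obtain ⟨Q, h2, z, h3, h4, h5⟩ := hD u hu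
    exact ⟨Q, h2, z, h3, h4, S5_mono (hQ Q) h5⟩

end

end Cut7315
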