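import Pool.Agent.Lib.MP_7315a9_cut.Explore
import Pool.Agent.Lib.MP_7315a9_cut.Step

/-!
The recursion

Row 7315-S6. Sketch:
Induction on m. m = 0: L empty: Inv gives GoodN with N = q (all b reach outside), for every ω: probability 1.
m + 1: a ∈ L with minimal rank, A = a.I, Y = X \ D, K ω = expK G Y A ω. Apply explore_lemma with Succ = {ω | Suc G Y A A' ω}, A' = {w | w ∈ D \ A ∨
(w ∉ X ∧ w ∉ F)}, S ω = tch G (K ω) ⊆ E0 = tch G Y, Tgt = {ω | GoodN ... (mrg (tch G D) η ω)} (measurable: GoodN depends only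
on countably many bits: or: it is a countable union over Q of finite intersections of countable unions ...; cn is measurable
by measurable_rtg of BitsInd), q = δ^m; hs gives bits Succ ≥ δ. hstop: expK_congr, suc_iff. For ω ∈ Succ put D' = D ∪ K ω, η' = mrg (tch G D) η ω; then
mrg (tch D) η (mrg (S ω) ω ω') = mrg (tch D') η' ω' (tch (D ∪ K) = tch D ∪ tch K), and for this configuration expK is still K ω (edges inside Y are
not in tch D). Success: suc_iff gives x and a' ∈ A': a' ∈ DJ or outside X ∪ F: step_J, L' = L.erase a; or a' in another island: step_I. Apply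
the induction hypothesis to (L', D', ...): L'.card ≤ m (if smaller: δ^m ≤ δ^card as δ ≤ 1; so state the induction for L.card ≤ m), ranks: minimality of
a.r and ranks ≤ a.r + 1 give max (a.r+1) a'.r = a.r + 1, max rJ (a.r+1) = a.r+1 ≤ every remaining rank + 1; sums: new potential + cost ≤ old
potential (2(a.r+1)+5 + a.r + a'.r + 2 ≤ (2 a.r + 5) + (2 a'.r + 5) since a.r ≤ a'.r; and a.r + rJ + 2 ≤ 2 a.r + 5), GoodN monotone in N. D' = DJ' ∪ ⋃ islands.
-/

open MeasureTheory ProbabilityTheory Set Relation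
open scoped Classical

namespace Cut7315

open MP7315a9

noncomputable section

variable {V : Type*} {G : SimpleGraph V} [G.LocallyFinite] [Countable V]

omit [G.LocallyFinite] in
lemma RecGood_edge_countable : Countable G.edgeSet := by
  have : Countable (Sym2 V) :=
    Function.Surjective.countable (f := fun z : V × V => s(z.1, z.2)) fun e => by
      induction e using Sym2.ind with
      | _ a b => exact ⟨(a, b), rfl⟩
  infer_instance

omit [G.LocallyFinite] in
lemma RecGood_meas_cn (F : Finset V) (Q : Finset G.edgeSet) (b w : V) :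
    MeasurableSet {ω : G.edgeSet → Bool | cn G F ω Q b w} := by
  unfold cn
  refine measurable_rtg (r := fun ω => stp G F ω Q) (fun u v => ?_) b w
  by_cases h1 : u ∉ F ∧ v ∉ F ∧ G.Adj u v
  · by_cases h2 : (⟨s(u, v), h1.2.2⟩ : G.edgeSet) ∈ Q
    · have : {ω : G.edgeSet → Bool | stp G F ω Q u v} = univ := by
        ext ω
        simp only [mem_ofPred_eq, mem_univ, iff_true]
        exact ⟨h1.1, h1.2.1, h1.2.2, Or.inr h2⟩
      rw [this]
      exact MeasurableSet.univ
    · have : {ω : G.edgeSet → Bool | stp G F ω Q u v} =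
          (fun ω : G.edgeSet → Bool => ω ⟨s(u, v), h1.2.2⟩) ⁻¹' {true} := by
        ext ω
        simp only [mem_ofPred_eq, mem_preimage, mem_singleton_iff]
        constructor
        · rintro ⟨_, _, h, h3 | h3⟩
          · exact h3
          · exact absurd h3 h2
        · intro h3
          exact ⟨h1.1, h1.2.1, h1.2.2, Or.inl h3⟩
      rw [this]
      exact measurable_pi_apply _ (measurableSet_singleton _)
  · have : {ω : G.edgeSet → Bool | stp G F ω Q u v} = ∅ := by
      ext ω
      simp only [mem_ofPred_eq, mem_empty_iff_false, iff_false]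
      rintro ⟨h2, h3, h, _⟩
      exact h1 ⟨h2, h3, h⟩
    rw [this]
    exact MeasurableSet.empty

lemma RecGood_meas_good (F X : Finset V) (N : ℕ) :
    MeasurableSet {ω : G.edgeSet → Bool | GoodN G F X N ω} := by
  have := RecGood_edge_countable (G := G)
  have h1 : {ω : G.edgeSet → Bool | GoodN G F X N ω} =
      ⋃ Q : Finset G.edgeSet, ⋃ _ : Q.card ≤ N, ⋂ b ∈ ob G F, ⋃ w : V, ⋃ _ : w ∉ X ∧ w ∉ F,
        {ω : G.edgeSet → Bool | cn G F ω Q b w} := by
    ext ω
    simp only [GoodN, mem_ofPred_eq, mem_iUnion, mem_iInter, exists_prop, and_assoc]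
  rw [h1]
  refine MeasurableSet.iUnion fun Q => MeasurableSet.iUnion fun _ => ?_
  refine MeasurableSet.biInter (Finset.countable_toSet _) fun b _ => ?_
  exact MeasurableSet.iUnion fun w => MeasurableSet.iUnion fun _ => RecGood_meas_cn F Q b w

lemma RecGood_meas_mrg {X : Type*} (S : Finset X) (η : X → Bool) :
    Measurable fun ω : X → Bool => mrg S η ω := by
  rw [measurable_pi_iff]
  intro k
  unfold mrg
  by_cases h : k ∈ S
  · simp only [h, if_true]
    exact measurable_const
  · simp only [h, if_false]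
    exact measurable_pi_apply k

omit [Countable V] in
lemma RecGood_mono {F X : Finset V} {N N' : ℕ} (h : N ≤ N') {ω : G.edgeSet → Bool}
    (hg : GoodN G F X N ω) : GoodN G F X N' ω := by
  obtain ⟨Q, h1, h2⟩ := hg
  exact ⟨Q, h1.trans h, h2⟩

omit [G.LocallyFinite] [Countable V] in
lemma RecGood_expK_sub (Y A : Finset V) (ω : G.edgeSet → Bool) : expK G Y A ω ⊆ Y :=
  Finset.filter_subset _ _

omit [Countable V] in
lemma RecGood_merge (D K : Finset V) (η ω ω' : G.edgeSet → Bool) :
    mrg (tch G D) η (mrg (tch G K) ω ω') = mrg (tch G (D ∪ K)) (mrg (tch G D) η ω) ω' := by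
  funext k
  have h : k ∈ tch G (D ∪ K) ↔ k ∈ tch G D ∨ k ∈ tch G K := by
    simp only [mem_tch, Finset.mem_union]
    constructor
    · rintro ⟨x, hx | hx, h⟩
      · exact Or.inl ⟨x, hx, h⟩
      · exact Or.inr ⟨x, hx, h⟩
    · rintro (⟨x, hx, h⟩ | ⟨x, hx, h⟩)
      · exact ⟨x, Or.inl hx, h⟩
      · exact ⟨x, Or.inr hx, h⟩
  unfold mrg
  by_cases h1 : k ∈ tch G D
  · rw [if_pos h1, if_pos (h.2 (Or.inl h1)), if_pos h1]
  · by_cases h2 : k ∈ tch G K
    · rw [if_neg h1, if_pos h2, if_pos (h.2 (Or.inr h2)), if_neg h1]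
    · rw [if_neg h1, if_neg h2, if_neg (fun h3 => (h.1 h3).elim h1 h2)]

/-- S6 -/
theorem rec_good {p : unitInterval} {δ : ENNReal} (hδ1 : δ ≤ 1) {F X : Finset V}
    (hXF : Disjoint X F)
    (hs : ∀ D A : Finset V, D ⊆ X → ob G F ⊆ D → A ⊆ D → A.Nonempty →
      δ ≤ bits (fun _ : G.edgeSet => p)
        {ω | Suc G (X \ D) A {w | w ∈ D \ A ∨ (w ∉ X ∧ w ∉ F)} ω})
    (m : ℕ) (L : Finset (Isl V)) (D DJ : Finset V) (η : G.edgeSet → Bool) (rJ q : ℕ)
    (hm : L.card ≤ m) (hD : D = DJ ∪ L.biUnion Isl.I) (hDX : D ⊆ X) (hob : ob G F ⊆ D)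
    (hne : ∀ a ∈ L, a.I.Nonempty) (hr : ∀ a ∈ L, ∀ a' ∈ L, a'.r ≤ a.r + 1)
    (hrJ : ∀ a ∈ L, rJ ≤ a.r + 1)
    (hInv : ∀ ω, Inv G F X L DJ rJ q (mrg (tch G D) η ω)) :
    δ ^ m ≤ bits (fun _ : G.edgeSet => p)
      {ω | GoodN G F X (q + ∑ a ∈ L, (2 * a.r + 5)) (mrg (tch G D) η ω)} := by
  induction m generalizing L D DJ η rJ q with
  | zero =>
    have hL : L = ∅ := Finset.card_eq_zero.1 (Nat.le_zero.1 hm)
    subst hL
    have h1 : {ω | GoodN G F X (q + ∑ a ∈ (∅ : Finset (Isl V)), (2 * a.r + 5))
        (mrg (tch G D) η ω)} = univ := by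
      ext ω
      simp only [mem_ofPred_eq, mem_univ, iff_true]
      obtain ⟨Q0, hQ, -, hb, -⟩ := hInv ω
      refine ⟨Q0, hQ.trans (Nat.le_add_right _ _), fun b hbF => ?_⟩
      rcases hb b hbF with ⟨a, ha, -⟩ | h
      · exact absurd ha (Finset.notMem_empty a)
      · exact h
    rw [h1, measure_univ, pow_zero]
  | succ m ih =>
    rcases L.eq_empty_or_nonempty with hL | hL
    · subst hL
      have h1 : {ω | GoodN G F X (q + ∑ a ∈ (∅ : Finset (Isl V)), (2 * a.r + 5))
          (mrg (tch G D) η ω)} = univ := by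
        ext ω
        simp only [mem_ofPred_eq, mem_univ, iff_true]
        obtain ⟨Q0, hQ, -, hb, -⟩ := hInv ω
        refine ⟨Q0, hQ.trans (Nat.le_add_right _ _), fun b hbF => ?_⟩
        rcases hb b hbF with ⟨a, ha, -⟩ | h
        · exact absurd ha (Finset.notMem_empty a)
        · exact h
      rw [h1, measure_univ]
      exact pow_le_one₀ zero_le hδ1
    obtain ⟨a, ha, hmin⟩ := L.exists_min_image Isl.r hL
    have haD : a.I ⊆ D := by
      rw [hD]
      exact (Finset.subset_biUnion_of_mem Isl.I ha).trans Finset.subset_union_right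
    have hLX : ∀ a ∈ L, a.I ⊆ X := fun a ha =>
      ((Finset.subset_biUnion_of_mem Isl.I ha).trans
        (Finset.subset_union_right.trans hD.symm.le)).trans hDX
    have hDJX : DJ ⊆ X := (Finset.subset_union_left.trans hD.symm.le).trans hDX
    have hsuc := hs D a.I hDX hob haD (hne a ha)
    set Y : Finset V := X \ D with hY
    set A' : Set V := {w | w ∈ D \ a.I ∨ (w ∉ X ∧ w ∉ F)} with hA'
    have hYX : Y ⊆ X := Finset.sdiff_subset
    have hKY : ∀ ω, expK G Y a.I ω ⊆ Y := RecGood_expK_sub Y a.I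
    have key : ∀ ω ∈ {ω | Suc G Y a.I A' ω}, δ ^ m ≤ bits (fun _ : G.edgeSet => p)
        {ω' | mrg (tch G (expK G Y a.I ω)) ω ω' ∈ {ω | GoodN G F X
          (q + ∑ a ∈ L, (2 * a.r + 5)) (mrg (tch G D) η ω)}} := by
      intro ω hω
      have hmrg := RecGood_merge (G := G) D (expK G Y a.I ω) η ω
      have hexp : ∀ ω', expK G Y a.I
          (mrg (tch G (D ∪ expK G Y a.I ω)) (mrg (tch G D) η ω) ω') = expK G Y a.I ω := by
        intro ω'
        refine expK_congr ?_
        intro u v huv hu hv huK
        have h1 : (⟨s(u, v), huv⟩ : G.edgeSet) ∈ tch G (D ∪ expK G Y a.I ω) :=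
          mem_tch.2 ⟨u, Finset.mem_union_right _ huK, by simp⟩
        have h2 : (⟨s(u, v), huv⟩ : G.edgeSet) ∉ tch G D := by
          intro h
          obtain ⟨x, hx, hxe⟩ := mem_tch.1 h
          rw [Sym2.mem_iff] at hxe
          rcases hxe with rfl | rfl
          · exact (Finset.mem_sdiff.1 hu).2 hx
          · exact (Finset.mem_sdiff.1 hv).2 hx
        unfold mrg
        rw [if_pos h1, if_neg h2]
      have hInv' : ∀ ω', Inv G F X L DJ rJ q
          (mrg (tch G (D ∪ expK G Y a.I ω)) (mrg (tch G D) η ω) ω') := by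
        intro ω'
        rw [← hmrg]
        exact hInv _
      -- the new data
      suffices hnew : ∃ (L' : Finset (Isl V)) (DJ' : Finset V) (rJ' q' : ℕ), L'.card ≤ m ∧
          D ∪ expK G Y a.I ω = DJ' ∪ L'.biUnion Isl.I ∧ (∀ a ∈ L', a.I.Nonempty) ∧
          (∀ a ∈ L', ∀ a' ∈ L', a'.r ≤ a.r + 1) ∧ (∀ a ∈ L', rJ' ≤ a.r + 1) ∧
          (∀ ω', Inv G F X L' DJ' rJ' q'
            (mrg (tch G (D ∪ expK G Y a.I ω)) (mrg (tch G D) η ω) ω')) ∧
          q' + ∑ a ∈ L', (2 * a.r + 5) ≤ q + ∑ a ∈ L, (2 * a.r + 5) by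
        obtain ⟨L', DJ', rJ', q', h1, h2, h3, h4, h5, h6, h7⟩ := hnew
        refine (ih L' (D ∪ expK G Y a.I ω) DJ' (mrg (tch G D) η ω) rJ' q' h1 h2
          (Finset.union_subset hDX ((hKY ω).trans hYX)) (hob.trans Finset.subset_union_left)
          h3 h4 h5 h6).trans (measure_mono ?_)
        intro ω' hω'
        simp only [mem_ofPred_eq] at hω' ⊢
        rw [hmrg]
        exact RecGood_mono h7 hω'
      have hsum : ∑ b ∈ L, (2 * b.r + 5) = (2 * a.r + 5) + ∑ b ∈ L.erase a, (2 * b.r + 5) :=
        (Finset.add_sum_erase L _ ha).symm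
      have hrJa := hrJ a ha
      have hcard : (L.erase a).card = L.card - 1 := Finset.card_erase_of_mem ha
      have hLpos : 0 < L.card := hL.card_pos
      have hbig : ∀ v, v ∈ L.biUnion Isl.I ↔ v ∈ a.I ∨ v ∈ (L.erase a).biUnion Isl.I := by
        intro v
        rw [← Finset.insert_erase ha, Finset.biUnion_insert, Finset.mem_union,
          Finset.insert_erase ha]
      obtain ⟨x, hx, a', ha', hxa⟩ := suc_iff.1 hω
      by_cases hcase : a' ∈ DJ ∨ (a' ∉ X ∧ a' ∉ F)
      · refine ⟨L.erase a, DJ ∪ a.I ∪ expK G Y a.I ω, max rJ (a.r + 1), q + a.r + rJ + 2,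
          by omega, ?_, fun b hb => hne b (Finset.mem_of_mem_erase hb),
          fun b hb b' hb' => hr b (Finset.mem_of_mem_erase hb) b' (Finset.mem_of_mem_erase hb'),
          fun b hb => ?_, fun ω' => ?_, ?_⟩
        · ext v
          rw [hD]
          simp only [Finset.mem_union, hbig]
          tauto
        · have h1 := hrJ b (Finset.mem_of_mem_erase hb)
          have h2 := hmin b (Finset.mem_of_mem_erase hb)
          exact max_le h1 (by omega)
        · have h1 := step_J hXF hYX hLX hDJX (hInv' ω') ha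
            (by rw [hexp]; exact ⟨x, hx, a', hcase, hxa⟩)
          rw [hexp] at h1
          exact h1
        · rw [hsum]
          omega
      · have h1 : a' ∈ D \ a.I := by
          rcases ha' with h | h
          · exact h
          · exact absurd (Or.inr h) hcase
        obtain ⟨h2, h3⟩ := Finset.mem_sdiff.1 h1
        rw [hD, Finset.mem_union] at h2
        have h4 : a' ∈ L.biUnion Isl.I := h2.resolve_left fun h => hcase (Or.inl h)
        obtain ⟨b, hb, hab⟩ := Finset.mem_biUnion.1 h4
        have hba : b ≠ a := by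
          rintro rfl
          exact h3 hab
        have hbe : b ∈ L.erase a := Finset.mem_erase.2 ⟨hba, hb⟩
        have hbr := hmin b hb
        have hbr' := hr a ha b hb
        have hmax : max (a.r + 1) b.r = a.r + 1 := max_eq_left hbr'
        have hcard2 : ((L.erase a).erase b).card = (L.erase a).card - 1 :=
          Finset.card_erase_of_mem hbe
        have hpos2 : 0 < (L.erase a).card := Finset.card_pos.2 ⟨b, hbe⟩
        have hsum2 : ∑ c ∈ L.erase a, (2 * c.r + 5) =
            (2 * b.r + 5) + ∑ c ∈ (L.erase a).erase b, (2 * c.r + 5) :=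
          (Finset.add_sum_erase _ _ hbe).symm
        have hsubL : ∀ c ∈ (L.erase a).erase b, c ∈ L := fun c hc =>
          Finset.mem_of_mem_erase (Finset.mem_of_mem_erase hc)
        have hbig2 : ∀ v, v ∈ (L.erase a).biUnion Isl.I ↔
            v ∈ b.I ∨ v ∈ ((L.erase a).erase b).biUnion Isl.I := by
          intro v
          rw [← Finset.insert_erase hbe, Finset.biUnion_insert, Finset.mem_union,
            Finset.insert_erase hbe]
        refine ⟨insert ⟨a.I ∪ b.I ∪ expK G Y a.I ω, a.c, max (a.r + 1) b.r⟩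
          ((L.erase a).erase b), DJ, rJ, q + a.r + b.r + 2, ?_, ?_, ?_, ?_, ?_, fun ω' => ?_, ?_⟩
        · refine (Finset.card_insert_le _ _).trans ?_
          omega
        · ext v
          rw [hD]
          simp only [Finset.mem_union, hbig, hbig2, Finset.biUnion_insert]
          tauto
        · intro c hc
          rcases Finset.mem_insert.1 hc with rfl | hc
          · obtain ⟨z, hz⟩ := hne a ha
            exact ⟨z, Finset.mem_union_left _ (Finset.mem_union_left _ hz)⟩
          · exact hne c (hsubL c hc)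
        · intro c hc c' hc'
          rcases Finset.mem_insert.1 hc with rfl | hc
          · rcases Finset.mem_insert.1 hc' with rfl | hc'
            · exact Nat.le_succ _
            · have := hr a ha c' (hsubL c' hc')
              show c'.r ≤ max (a.r + 1) b.r + 1
              omega
          · rcases Finset.mem_insert.1 hc' with rfl | hc'
            · have := hmin c (hsubL c hc)
              show max (a.r + 1) b.r ≤ c.r + 1
              omega
            · exact hr c (hsubL c hc) c' (hsubL c' hc')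
        · intro c hc
          rcases Finset.mem_insert.1 hc with rfl | hc
          · show rJ ≤ max (a.r + 1) b.r + 1
            omega
          · exact hrJ c (hsubL c hc)
        · have h5 := step_I hXF hYX hLX (hInv' ω') ha hb hba
            (by rw [hexp]; exact ⟨x, hx, a', hab, hxa⟩)
          rw [hexp] at h5
          exact h5
        · have h6 : ∑ c ∈ insert (⟨a.I ∪ b.I ∪ expK G Y a.I ω, a.c, max (a.r + 1) b.r⟩ : Isl V)
              ((L.erase a).erase b), (2 * c.r + 5) ≤
              (2 * (a.r + 1) + 5) + ∑ c ∈ (L.erase a).erase b, (2 * c.r + 5) := by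
            by_cases h7 : (⟨a.I ∪ b.I ∪ expK G Y a.I ω, a.c, max (a.r + 1) b.r⟩ : Isl V) ∈
              (L.erase a).erase b
            · rw [Finset.insert_eq_of_mem h7]
              omega
            · rw [Finset.sum_insert h7]
              show 2 * max (a.r + 1) b.r + 5 + _ ≤ _
              rw [hmax]
          omega
    have hexpl := explore_lemma (fun _ : G.edgeSet => p) (tch G Y)
      (fun ω => tch G (expK G Y a.I ω)) (Succ := {ω | Suc G Y a.I A' ω})
      (Tgt := {ω | GoodN G F X (q + ∑ a ∈ L, (2 * a.r + 5)) (mrg (tch G D) η ω)})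
      (fun ω k hk => by
        obtain ⟨x, hx, h⟩ := mem_tch.1 hk
        exact mem_tch.2 ⟨x, hKY ω hx, h⟩)
      (fun ω hω ω' h => by
        have h1 : expK G Y a.I ω' = expK G Y a.I ω := by
          refine expK_congr ?_
          intro u v huv hu hv huK
          exact h _ (mem_tch.2 ⟨u, huK, by simp⟩)
        refine ⟨by rw [h1], ?_⟩
        have h2 := suc_iff.1 hω
        rw [← h1] at h2
        exact suc_iff.2 h2)
      ((RecGood_meas_mrg (tch G D) η) (RecGood_meas_good F X _)) key
    calc δ ^ (m + 1) = δ ^ m * δ := pow_succ _ _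
      _ ≤ δ ^ m * bits (fun _ : G.edgeSet => p) {ω | Suc G Y a.I A' ω} :=
        mul_le_mul_right hsuc _
      _ ≤ _ := hexpl

end

end Cut7315
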