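import Pool.Agent.Lib.MP_7315a9_cut.SucProb
import Pool.Agent.Lib.MP_7315a9_cut.PathSplit
import Pool.Agent.Lib.MP_7315a9_cut.RecGood
import Pool.Agent.Lib.MP_7315a9_cut.ConnProb
import Pool.Agent.Lib.MP_7315a9_cut.Decode
import Pool.Agent.Lib.MP_7315a9_cut.QTransUni
import Pool.Agent.Lib.MP_7315a9_cut.Main

/-!
# Uniform percolation gives exponentially many minimal cutsets
-/

open MeasureTheory ProbabilityTheory Set Relation
open scoped Classical

namespace Cut7315

open MP7315a9

noncomputable section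

variable {V : Type*} {G : SimpleGraph V} [G.LocallyFinite]

lemma measurable_goodN' [Countable V] (F X : Finset V) (N : ℕ) :
    MeasurableSet {ω : G.edgeSet → Bool | GoodN G F X N ω} := by
  have h0 : ∀ (Q : Finset G.edgeSet) (a b : V), MeasurableSet {ω | stp G F ω Q a b} := by
    intro Q a b
    by_cases h : a ∉ F ∧ b ∉ F ∧ G.Adj a b
    · obtain ⟨h1, h2, h3⟩ := h
      by_cases hQ : (⟨s(a, b), h3⟩ : G.edgeSet) ∈ Q
      · have : {ω : G.edgeSet → Bool | stp G F ω Q a b} = univ := by
          ext ω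
          simp only [mem_ofPred_eq, mem_univ, iff_true]
          exact ⟨h1, h2, h3, Or.inr hQ⟩
        rw [this]; exact MeasurableSet.univ
      · have : {ω : G.edgeSet → Bool | stp G F ω Q a b} = {ω | ω ⟨s(a, b), h3⟩ = true} := by
          ext ω
          simp only [mem_ofPred_eq]
          constructor
          · rintro ⟨_, _, _, h | h⟩
            · exact h
            · exact absurd h hQ
          · intro h
            exact ⟨h1, h2, h3, Or.inl h⟩
        rw [this]
        exact measurableSet_eq_fun (by fun_prop) measurable_const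
    · have : {ω : G.edgeSet → Bool | stp G F ω Q a b} = ∅ := by
        ext ω
        simp only [mem_ofPred_eq, mem_empty_iff_false, iff_false]
        rintro ⟨h1, h2, h3, _⟩
        exact h ⟨h1, h2, h3⟩
      rw [this]; exact MeasurableSet.empty
  have h1 : {ω : G.edgeSet → Bool | GoodN G F X N ω} =
      ⋃ Q : {Q : Finset G.edgeSet // Q.card ≤ N}, ⋂ b ∈ ob G F,
        ⋃ w : {w : V // w ∉ X ∧ w ∉ F}, {ω | ReflTransGen (stp G F ω Q.1) b w.1} := by
    ext ω
    simp only [mem_ofPred_eq, GoodN, mem_iUnion, mem_iInter, Subtype.exists, exists_prop, cn,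
      and_assoc]
  rw [h1]
  refine MeasurableSet.iUnion fun Q => Finset.measurableSet_biInter _ fun b _ =>
    MeasurableSet.iUnion fun w => ?_
  exact measurable_rtg (fun a b => h0 Q.1 a b) b w.1

/-- Uniform percolation gives exponentially many minimal cutsets. -/
theorem est [Infinite V] (hG : G.Connected) {Δ : ℕ} (hΔ : ∀ v, G.degree v ≤ Δ)
    {p : unitInterval} (hp : (p : ℝ) < 1) {c : ℝ} (hc : 0 < c) (hU : Uni G p c) :
    ∃ C : ℕ, CutBound G C := by
  have hV : Countable V := countable_of_connected hG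
  obtain ⟨o⟩ := hG.nonempty
  have hp0 : 0 < (p : ℝ) := by
    by_contra h
    have h0 : (Δ : ℝ) * p < 1 := by
      have : (p : ℝ) = 0 := le_antisymm (not_lt.1 h) p.2.1
      rw [this]; simp
    have h1 := hU o
    rw [cluster_null hΔ h0 o] at h1
    have := ENNReal.ofReal_pos.2 hc
    exact absurd h1 (not_le.2 this)
  have hc1 : c ≤ 1 := by
    have h1 := (hU o).trans prob_le_one
    rwa [← ENNReal.ofReal_one, ENNReal.ofReal_le_ofReal_iff zero_le_one] at h1
  have hp1 : (p : ℝ) ≤ 1 := p.2.2
  set δ : ENNReal := ENNReal.ofReal (p * c ^ 2 / 4) with hδ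
  have hδ0 : 0 < δ := ENNReal.ofReal_pos.2 (by positivity)
  have hδ1 : δ ≤ 1 := by
    rw [hδ, ← ENNReal.ofReal_one]
    refine ENNReal.ofReal_le_ofReal ?_
    have : (p : ℝ) * c ^ 2 ≤ 1 := mul_le_one₀ hp1 (by positivity) (pow_le_one₀ hc.le hc1)
    linarith
  let e : unitInterval := ⟨1 / 2, by norm_num, by norm_num⟩
  have he : (e : ℝ) = 1 / 2 := rfl
  set p' : unitInterval := unitInterval.symm (unitInterval.symm p * unitInterval.symm e) with hp'
  have hp'1 : (p' : ℝ) < 1 := by
    have h1 : (p' : ℝ) = 1 - (1 - p) * (1 - e) := rfl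
    rw [h1, he]
    have : 0 < 1 - (p : ℝ) := by linarith
    nlinarith
  set θ : ENNReal := ENNReal.ofReal ((e : ℝ) ^ 5) * δ with hθ
  have hθ0 : 0 < θ := by
    refine ENNReal.mul_pos (ENNReal.ofReal_pos.2 ?_).ne' hδ0.ne'
    rw [he]; norm_num
  have he1 : ENNReal.ofReal ((e : ℝ) ^ 5) ≤ 1 := by
    rw [← ENNReal.ofReal_one]
    refine ENNReal.ofReal_le_ofReal ?_
    rw [he]; norm_num
  have hθ1 : θ ≤ 1 := mul_le_one' he1 hδ1
  refine cutBound_of hp'1 hθ0 hθ1 fun F hF => ?_
  refine limit_prob fun X hXF hob => ?_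
  have hm : (ob G F).card ≤ (bd G F).card := Finset.card_image_le
  -- the recursion
  have hs : ∀ D A : Finset V, D ⊆ X → ob G F ⊆ D → A ⊆ D → A.Nonempty →
      δ ≤ bits (fun _ : G.edgeSet => p)
        {ω | Suc G (X \ D) A {w | w ∈ D \ A ∨ (w ∉ X ∧ w ∉ F)} ω} := by
    intro D A hDX hobD hAD hne
    exact suc_prob hc.le hU (X \ D) A _ (cover hXF hDX hobD) (path_split hF hXF hDX hAD hne)
  set L0 : Finset (Isl V) := (ob G F).image fun b => (⟨{b}, b, 0⟩ : Isl V) with hL0
  have hinj : Function.Injective fun b : V => (⟨{b}, b, 0⟩ : Isl V) := by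
    intro a b h
    simp only [Isl.mk.injEq] at h
    exact h.2.1
  have hgood : δ ^ (ob G F).card ≤ bits (fun _ : G.edgeSet => p)
      {ω | GoodN G F X (5 * (ob G F).card) ω} := by
    have h1 := explore_lemma (fun _ : G.edgeSet => p) (tch G (ob G F)) (fun _ => tch G (ob G F))
      (Succ := univ) (Tgt := {ω | GoodN G F X (5 * (ob G F).card) ω}) (fun _ => subset_rfl)
      (fun _ _ _ _ => ⟨rfl, mem_univ _⟩) (measurable_goodN' F X _) (q := δ ^ (ob G F).card) (by
        intro η _
        have h2 := rec_good (G := G) (p := p) hδ1 hXF hs (ob G F).card L0 (ob G F) ∅ η 0 0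
          Finset.card_image_le (by
            ext v
            simp only [hL0, Finset.empty_union, Finset.mem_biUnion, Finset.mem_image,
              exists_exists_and_eq_and, Finset.mem_singleton, exists_eq_right']) hob subset_rfl
          (by
            intro a ha
            obtain ⟨b, _, rfl⟩ := Finset.mem_image.1 ha
            exact Finset.singleton_nonempty b)
          (by
            intro a _ a' ha'
            obtain ⟨b, _, rfl⟩ := Finset.mem_image.1 ha'
            exact Nat.zero_le _)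
          (fun a _ => Nat.zero_le _)
          (by
            intro ω
            refine ⟨∅, by simp, ?_, ?_, by simp⟩
            · intro a ha u hu
              obtain ⟨b, _, rfl⟩ := Finset.mem_image.1 ha
              rw [Finset.mem_singleton] at hu
              subst hu
              exact ⟨∅, by simp, ReflTransGen.refl⟩
            · intro b hb
              exact Or.inl ⟨⟨{b}, b, 0⟩, Finset.mem_image_of_mem _ hb, ReflTransGen.refl⟩)
        have h3 : 0 + ∑ a ∈ L0, (2 * a.r + 5) = 5 * (ob G F).card := by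
          rw [hL0, Finset.sum_image fun a _ b _ h => hinj h]
          simp [mul_comm]
        rw [h3] at h2
        exact h2)
    rwa [measure_univ, mul_one] at h1
  have h4 := conn_prob (e := e) hXF hob hgood
  refine le_trans ?_ h4
  calc θ ^ (bd G F).card ≤ θ ^ (ob G F).card := pow_le_pow_right_of_le_one' hθ1 hm
    _ = ENNReal.ofReal ((e : ℝ) ^ (5 * (ob G F).card)) * δ ^ (ob G F).card := by
        have h5 : (0 : ℝ) ≤ (e : ℝ) ^ 5 := by rw [he]; norm_num
        rw [hθ, mul_pow, pow_mul, ENNReal.ofReal_pow h5]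

/-- All intensities under uniform percolation. -/
theorem uniform_thm [Infinite V] [MeasurableSpace V] [DiscreteMeasurableSpace V]
    (hG : G.Connected) {Δ : ℕ} (hΔ : ∀ v, G.degree v ≤ Δ)
    (h : (∃ p : unitInterval, (p : ℝ) < 1 ∧ ∃ c : ℝ, 0 < c ∧ Uni G p c) ∨ (pc G < 1 ∧ QTrans G))
    {lam : NNReal} (hlam : 0 < lam) :
    ∃ t0 : ℕ, ∀ t ≥ t0, ∀ᵐ ω ∂(snLaw G lam), InfClass ω t := by
  have h1 : ∃ p : unitInterval, (p : ℝ) < 1 ∧ ∃ c : ℝ, 0 < c ∧ Uni G p c := by
    rcases h with h | ⟨h, h'⟩
    · exact h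
    · have hV : Countable V := countable_of_connected hG
      exact uni_of_qtrans hG h' h
  obtain ⟨p, hp, c, hc, hU⟩ := h1
  obtain ⟨C, hC⟩ := est hG hΔ hp hc hU
  exact main_thm hG hΔ hC hlam

end

end Cut7315
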