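import Pool.Agent.Lib.MP_7315a9_cut.Def3

/-!
# Leaving a finite set

Row 7315-S1. Sketch:
If the cluster of v is infinite it is not contained in the finite set Y; the walk from v to a point outside Y has a first
edge (u,w) leaving Y; u is connected to v by open edges inside Y. (reachable = ReflTransGen of Adj of openGraph.)
measure_mono.
-/

open MeasureTheory ProbabilityTheory Set Relation
open scoped Classical

namespace Cut7315

open MP7315a9

noncomputable section

variable {V : Type*} {G : SimpleGraph V} [G.LocallyFinite] [Countable V]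

/-- S1 -/
theorem exit_prob {p : unitInterval} {c : ℝ} (hU : Uni G p c) (Y : Finset V) {v : V}
    (hv : v ∈ Y) : ENNReal.ofReal c ≤ bits (fun _ : G.edgeSet => p)
      {ω | ∃ u ∈ Y, yc G Y ω v u ∧ ∃ w, w ∉ Y ∧ G.Adj u w} := by
  refine (hU v).trans (measure_mono fun ω hω => ?_)
  obtain ⟨u, hu, huY⟩ := hω.exists_notMem_finset Y
  have h1 : ReflTransGen (openGraph G ω).Adj v u :=
    (SimpleGraph.reachable_iff_reflTransGen v u).1 hu
  have h2 : ∀ x, ReflTransGen (openGraph G ω).Adj x u → x ∈ Y →
      ∃ u ∈ Y, yc G Y ω x u ∧ ∃ w, w ∉ Y ∧ G.Adj u w := by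
    intro x hx
    induction hx using ReflTransGen.head_induction_on with
    | refl => exact fun h => absurd h huY
    | @head x y hxy _ ih =>
      intro hx
      obtain ⟨h, ho⟩ := hxy
      by_cases hy : y ∈ Y
      · obtain ⟨u', hu', h3, w, hw, h4⟩ := ih hy
        exact ⟨u', hu', ReflTransGen.head ⟨hx, hy, h, ho⟩ h3, w, hw, h4⟩
      · exact ⟨x, hx, ReflTransGen.refl, y, hy, h⟩
  exact h2 v h1 hv

end

end Cut7315
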