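import Pool.Agent.Lib.MP_7315a9_cut.Def3

/-!
# The explored clusters

Row 7315-S4b. Sketch:
expK_congr: a vertex v of expK ω is reached by an open path in Y starting at a neighbour of A; all vertices of the path are in
expK ω, so its edges have the same value under ω': v ∈ expK ω'. Conversely, by induction along an ω'-open path in Y from
a neighbour u of A (u ∈ expK ω): every vertex is in expK ω, because the next edge starts in expK ω, so its value under ω
is the same, i.e. open, and its end is in Y. Note expK ⊆ Y. The other statements are immediate.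
-/

open MeasureTheory ProbabilityTheory Set Relation
open scoped Classical

namespace Cut7315

open MP7315a9

noncomputable section

variable {V : Type*} {G : SimpleGraph V} [G.LocallyFinite]

/-- S4b -/
theorem expK_congr {Y A : Finset V} {ω ω' : G.edgeSet → Bool}
    (h : ∀ a b (hab : G.Adj a b), a ∈ Y → b ∈ Y → a ∈ expK G Y A ω →
      ω' ⟨s(a, b), hab⟩ = ω ⟨s(a, b), hab⟩) : expK G Y A ω' = expK G Y A ω := by
  have key : ∀ u ∈ Y, (∃ a ∈ A, G.Adj a u) → ∀ v, yc G Y ω' u v ↔ yc G Y ω u v := by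
    intro u hu hA v
    constructor
    · intro hv
      induction hv with
      | refl => exact ReflTransGen.refl
      | tail _ hbc ih =>
        obtain ⟨hb, hc, hadj, ho⟩ := hbc
        refine ReflTransGen.tail ih ⟨hb, hc, hadj, ?_⟩
        rw [← h _ _ hadj hb hc (Finset.mem_filter.2 ⟨hb, u, hu, hA, ih⟩)]
        exact ho
    · intro hv
      induction hv with
      | refl => exact ReflTransGen.refl
      | tail hub hbc ih =>
        obtain ⟨hb, hc, hadj, ho⟩ := hbc
        refine ReflTransGen.tail ih ⟨hb, hc, hadj, ?_⟩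
        rw [h _ _ hadj hb hc (Finset.mem_filter.2 ⟨hb, u, hu, hA, hub⟩)]
        exact ho
  unfold expK
  refine Finset.filter_congr fun v _ => ?_
  constructor
  · rintro ⟨u, hu, hA, h1⟩
    exact ⟨u, hu, hA, (key u hu hA v).1 h1⟩
  · rintro ⟨u, hu, hA, h1⟩
    exact ⟨u, hu, hA, (key u hu hA v).2 h1⟩

/-- S4c: from a point of `expK` there is an open path inside `expK` to a neighbour of `A`. -/
theorem expK_path {Y A : Finset V} {ω : G.edgeSet → Bool} {v : V} (hv : v ∈ expK G Y A ω) :
    ∃ u ∈ Y, (∃ a ∈ A, G.Adj a u) ∧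
      ReflTransGen (fun a b => a ∈ Y ∧ b ∈ Y ∧ ∃ h : G.Adj a b, ω ⟨s(a, b), h⟩ = true) v u := by
  obtain ⟨-, u, hu, hA, h1⟩ := Finset.mem_filter.1 hv
  refine ⟨u, hu, hA, ?_⟩
  unfold yc at h1
  clear hv
  induction h1 with
  | refl => exact ReflTransGen.refl
  | tail _ hbc ih =>
    obtain ⟨hb, hc, hadj, ho⟩ := hbc
    refine ReflTransGen.head ⟨hc, hb, hadj.symm, ?_⟩ ih
    rw [← ho]
    congr 1
    exact Subtype.ext Sym2.eq_swap

/-- S4d -/
theorem suc_iff {Y A : Finset V} {A' : Set V} {ω : G.edgeSet → Bool} : Suc G Y A A' ω ↔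
    ∃ x, (x ∈ A ∨ x ∈ expK G Y A ω) ∧ ∃ a' ∈ A', G.Adj x a' := by
  constructor
  · rintro (⟨a, ha, h1⟩ | ⟨v, hv, h1⟩)
    · exact ⟨a, Or.inl ha, h1⟩
    · exact ⟨v, Or.inr hv, h1⟩
  · rintro ⟨x, hx | hx, h1⟩
    · exact Or.inl ⟨x, hx, h1⟩
    · exact Or.inr ⟨x, hx, h1⟩

end

end Cut7315
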