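import Pool.Agent.Lib.MP_7315a9_cut.Def3

/-!
# The exploration lemma

Row 7315-S4. Sketch:
Partition Succ into the cylinders C = {ω' | ω' = ω on S ω}, ω ∈ Succ (by hstop two cylinders are equal or disjoint, and Succ is
their union; they are indexed by (S ω, ω on S ω), finitely many because S ω ⊆ E0: e.g. index by the restriction of ω to E0:
for f : E0 → Bool, or sum over pairs (S0 ⊆ E0, pattern S0 → Bool)). For such a cylinder {ω' ∈ C} ∩ {ω' | mrg (S ω) ω ω' ∈ Tgt} ⊆ Tgt,
the two events are independent (bits_indep with S ω and its complement), so bits(C ∩ Tgt) ≥ bits C * q. Sum over the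
cylinders.
-/

open MeasureTheory ProbabilityTheory Set Relation
open scoped Classical

namespace Cut7315

open MP7315a9

noncomputable section

private lemma S4_meas_mrg {X : Type*} (S : Finset X) (η : X → Bool) :
    Measurable (fun ω' : X → Bool => mrg S η ω') := by
  rw [measurable_pi_iff]
  intro k
  by_cases hk : k ∈ S
  · have h1 : (fun ω' : X → Bool => mrg S η ω' k) = fun _ => η k := by
      funext ω'; simp [mrg, hk]
    rw [h1]
    exact measurable_const
  · have h1 : (fun ω' : X → Bool => mrg S η ω' k) = fun ω' => ω' k := by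
      funext ω'; simp [mrg, hk]
    rw [h1]
    exact measurable_pi_apply k

private lemma S4_meas_cyl {X : Type*} (S : Finset X) (η : X → Bool) :
    MeasurableSet {ω' : X → Bool | ∀ k ∈ S, ω' k = η k} := by
  have h1 : {ω' : X → Bool | ∀ k ∈ S, ω' k = η k} =
      ⋂ k ∈ S, (fun ω' : X → Bool => ω' k) ⁻¹' {η k} := by
    ext ω'
    simp
  rw [h1]
  exact Finset.measurableSet_biInter S fun k _ =>
    measurable_pi_apply k (measurableSet_singleton _)

/-- one cylinder -/
private lemma S4_one {X : Type*} (r : X → unitInterval) (S : Finset X) (η : X → Bool)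
    {Tgt : Set (X → Bool)} (hT : MeasurableSet Tgt) {q : ENNReal}
    (hq : q ≤ bits r {ω' | mrg S η ω' ∈ Tgt}) :
    q * bits r {ω' : X → Bool | ∀ k ∈ S, ω' k = η k} ≤
      bits r ({ω' : X → Bool | ∀ k ∈ S, ω' k = η k} ∩ Tgt) := by
  have h1 : {ω' : X → Bool | ∀ k ∈ S, ω' k = η k} ∩ Tgt =
      {ω' : X → Bool | ∀ k ∈ S, ω' k = η k} ∩ {ω' | mrg S η ω' ∈ Tgt} := by
    ext ω'
    simp only [mem_inter_iff, mem_ofPred_eq]
    refine and_congr_right fun h2 => ?_
    have h3 : mrg S η ω' = ω' := by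
      funext k
      by_cases hk : k ∈ S
      · simp [mrg, hk, h2 k hk]
      · simp [mrg, hk]
    rw [h3]
  have hmT : MeasurableSet {ω' | mrg S η ω' ∈ Tgt} := S4_meas_mrg S η hT
  have h5 := bits_indep r (S := (S : Set X)) (T := (S : Set X)ᶜ) disjoint_compl_right
    (S4_meas_cyl S η) hmT ?_ ?_
  · rw [h1, h5, mul_comm]
    exact mul_le_mul' le_rfl hq
  · intro ω ω' h2 h3 k hk
    rw [← h2 k (Finset.mem_coe.2 hk)]
    exact h3 k hk
  · intro ω ω' h2 h3
    have h4 : mrg S η ω' = mrg S η ω := by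
      funext k
      by_cases hk : k ∈ S
      · simp [mrg, hk]
      · have h5 := h2 k (by simpa using hk)
        simp [mrg, hk, h5]
    show mrg S η ω' ∈ Tgt
    rw [h4]
    exact h3

/-- S4 -/
theorem explore_lemma {X : Type*} (r : X → unitInterval) (E0 : Finset X)
    (S : (X → Bool) → Finset X) {Succ Tgt : Set (X → Bool)} (hS : ∀ ω, S ω ⊆ E0)
    (hstop : ∀ ω ∈ Succ, ∀ ω' : X → Bool, (∀ k ∈ S ω, ω' k = ω k) → S ω' = S ω ∧ ω' ∈ Succ)
    (hT : MeasurableSet Tgt) {q : ENNReal}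
    (hq : ∀ ω ∈ Succ, q ≤ bits r {ω' | mrg (S ω) ω ω' ∈ Tgt}) :
    q * bits r Succ ≤ bits r Tgt := by
  classical
  let cyl : (X → Bool) → Set (X → Bool) := fun ω => {ω' | ∀ k ∈ S ω, ω' k = ω k}
  let ex : (E0 → Bool) → X → Bool := fun f k => if h : k ∈ E0 then f ⟨k, h⟩ else false
  let 𝓒 : Finset (Set (X → Bool)) :=
    (Finset.univ.filter fun f : E0 → Bool => ex f ∈ Succ).image fun f => cyl (ex f)
  have m𝓒 : ∀ C, C ∈ 𝓒 ↔ ∃ f : E0 → Bool, ex f ∈ Succ ∧ cyl (ex f) = C := by
    intro C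
    simp only [𝓒, Finset.mem_image, Finset.mem_filter, Finset.mem_univ, true_and]
  have hSucc : Succ = ⋃ C ∈ 𝓒, id C := by
    ext ω
    simp only [mem_iUnion, id, exists_prop]
    constructor
    · intro hω
      let f : E0 → Bool := fun k => ω k.1
      have h1 : ∀ k ∈ S ω, ex f k = ω k := by
        intro k hk
        have hk' : k ∈ E0 := hS ω hk
        simp [ex, f, hk']
      obtain ⟨h2, h3⟩ := hstop ω hω (ex f) h1
      refine ⟨cyl (ex f), (m𝓒 _).2 ⟨f, h3, rfl⟩, ?_⟩
      intro k hk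
      rw [h2] at hk
      exact (h1 k hk).symm
    · rintro ⟨C, hC, hω⟩
      obtain ⟨f, hf, rfl⟩ := (m𝓒 C).1 hC
      exact (hstop _ hf ω hω).2
  have hdisj : (𝓒 : Set (Set (X → Bool))).PairwiseDisjoint id := by
    intro C hC C' hC' hne
    rw [Function.onFun, id, id, Set.disjoint_left]
    intro ω h1 h2
    obtain ⟨f, hf, rfl⟩ := (m𝓒 C).1 hC
    obtain ⟨f', hf', rfl⟩ := (m𝓒 C').1 hC'
    apply hne
    have e1 := (hstop _ hf ω h1).1
    have e2 := (hstop _ hf' ω h2).1
    have e3 : S (ex f) = S (ex f') := e1.symm.trans e2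
    ext ω'
    constructor
    · intro h3 k hk
      have hk' : k ∈ S (ex f) := by rw [e3]; exact hk
      rw [h3 k hk', ← h1 k hk', h2 k hk]
    · intro h3 k hk
      have hk' : k ∈ S (ex f') := by rw [← e3]; exact hk
      rw [h3 k hk', ← h2 k hk', h1 k hk]
  have hmeasC : ∀ C ∈ 𝓒, MeasurableSet (id C) := by
    intro C hC
    obtain ⟨f, hf, rfl⟩ := (m𝓒 C).1 hC
    exact S4_meas_cyl _ _
  have hdisj2 : (𝓒 : Set (Set (X → Bool))).PairwiseDisjoint fun C => C ∩ Tgt := by
    intro C hC C' hC' hne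
    exact (hdisj hC hC' hne).mono inter_subset_left inter_subset_left
  calc q * bits r Succ = q * ∑ C ∈ 𝓒, bits r (id C) := by
        conv_lhs => rw [hSucc]
        rw [measure_biUnion_finset hdisj hmeasC]
    _ = ∑ C ∈ 𝓒, q * bits r (id C) := by rw [Finset.mul_sum]
    _ ≤ ∑ C ∈ 𝓒, bits r (C ∩ Tgt) := by
        refine Finset.sum_le_sum fun C hC => ?_
        obtain ⟨f, hf, rfl⟩ := (m𝓒 C).1 hC
        exact S4_one r _ _ hT (hq _ hf)
    _ = bits r (⋃ C ∈ 𝓒, C ∩ Tgt) := by
        rw [measure_biUnion_finset hdisj2 fun C hC => (hmeasC C hC).inter hT]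
    _ ≤ bits r Tgt := by
        refine measure_mono ?_
        intro ω hω
        simp only [mem_iUnion, exists_prop] at hω
        obtain ⟨C, -, h1⟩ := hω
        exact h1.2

end

end Cut7315
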