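import Pool.Agent.Lib.MP_7315a9_cut.Def2

/-!
# Fast blocks

Row 7315-B5. Sketch:
E_x 3^{dist(x, X_n)} ≤ 2^n: with d = G.dist x (or: the least n with y ∈ ball n x; if G is not connected
only points of the component matter, wt = 0 for others) one step: E 3^{d(X_{n+1})} ≤ (1/2) 3^{d} + (1/2) 3^{d+1} = 2 * 3^d. So
P(d(X_{4τ}) > 3τ) ≤ 2^{4τ} / 3^{3τ} = (16/27)^τ. Suggested: induct on n for the ENNReal sums over Tr V n
(pl_singleton, wt of a path = wt of its first n steps times the last step, tsum_stepProb), or use Pe G from Op.lean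
((Pe G)^[n] f x = ∫ f(γ n) d pl, see Op.lean / HeatK.lean): Pe (3^d) ≤ 2 * 3^d.
-/

open MeasureTheory ProbabilityTheory Set Relation
open scoped Classical

namespace Cut7315

open MP7315a9

noncomputable section

variable {V : Type*} {G : SimpleGraph V} [G.LocallyFinite]
variable [MeasurableSpace V] [DiscreteMeasurableSpace V] [Countable V]

omit [MeasurableSpace V] [DiscreteMeasurableSpace V] [Countable V] in
private lemma step_le (hdeg : ∀ v, 0 < G.degree v) (x y : V) :
    Pe G (fun y => ⨅ n, ⨅ _ : y ∈ ball G n x, (3 : ENNReal) ^ n) y ≤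
      2 * ⨅ n, ⨅ _ : y ∈ ball G n x, (3 : ENNReal) ^ n := by
  set f : V → ENNReal := fun y => ⨅ n, ⨅ _ : y ∈ ball G n x, (3 : ENNReal) ^ n with hf
  have h1 : ∀ y', G.Adj y y' → f y' ≤ 3 * f y := by
    intro y' h
    simp only [hf]
    rw [ENNReal.mul_iInf_of_ne (by norm_num) (by norm_num)]
    refine le_iInf fun n => ?_
    by_cases hn : y ∈ ball G n x
    · simp only [hn, iInf_pos]
      rw [← pow_succ']
      exact iInf₂_le (f := fun m (_ : y' ∈ ball G m x) => (3 : ENNReal) ^ m) (n + 1)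
        (ball_step hn (Or.inr h))
    · simp [hn]
  have h2 : Pe G f y ≤ ENNReal.ofReal (1 / 2) * f y +
      ∑ y' ∈ G.neighborFinset y, ENNReal.ofReal (1 / (2 * G.degree y)) * (3 * f y) := by
    rw [Pe, tsum_stepProb]
    gcongr with y' hy'
    exact h1 y' (by simpa using hy')
  refine h2.trans ?_
  rw [Finset.sum_const, nsmul_eq_mul, SimpleGraph.card_neighborFinset_eq_degree, ← mul_assoc,
    ← ENNReal.ofReal_natCast, ← ENNReal.ofReal_mul (by positivity)]
  have h3 : (0 : ℝ) < G.degree y := by exact_mod_cast hdeg y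
  have h4 : (G.degree y : ℝ) * (1 / (2 * G.degree y)) = 1 / 2 := by field_simp
  rw [h4, ← mul_assoc, ← add_mul]
  refine le_of_eq ?_
  congr 1
  rw [show (3 : ENNReal) = ENNReal.ofReal 3 by simp, ← ENNReal.ofReal_mul (by norm_num),
    ← ENNReal.ofReal_add (by norm_num) (by norm_num)]
  norm_num

omit [MeasurableSpace V] [DiscreteMeasurableSpace V] [Countable V] in
private lemma iter_le (hdeg : ∀ v, 0 < G.degree v) (x : V) (k : ℕ) (y : V) :
    (Pe G)^[k] (fun y => ⨅ n, ⨅ _ : y ∈ ball G n x, (3 : ENNReal) ^ n) y ≤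
      2 ^ k * ⨅ n, ⨅ _ : y ∈ ball G n x, (3 : ENNReal) ^ n := by
  induction k generalizing y with
  | zero => simp
  | succ k ih =>
    rw [Function.iterate_succ_apply']
    refine (Pe_mono ih y).trans ?_
    rw [Pe_mul, pow_succ, mul_assoc]
    gcongr
    exact step_le hdeg x y

/-- B5 -/
theorem pT_fast (hdeg : ∀ v, 0 < G.degree v) (τ : ℕ) (x : V) (B : Finset V)
    (hB : ∀ y ∈ B, y ∉ ball G (3 * τ) x) :
    ∑ y ∈ B, pT G (4 * τ) x y ≤ (16 / 27) ^ τ := by
  have hpr : IsProbabilityMeasure (pl G (4 * τ) x) := isProb_pl G hdeg _ x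
  have h1 : ∑ y ∈ B, pT G (4 * τ) x y =
      (pl G (4 * τ) x).real ((fun γ : Tr V (4 * τ) => γ (Fin.last (4 * τ))) ⁻¹' (B : Set V)) := by
    rw [← sum_measureReal_preimage_singleton B fun y _ => MeasurableSet.of_discrete]
    rfl
  rw [h1, Measure.real]
  refine ENNReal.toReal_le_of_le_ofReal (by positivity) ?_
  rw [pl_apply G hdeg]
  let h : ℕ → V → ENNReal := fun j z => if j = 4 * τ then (if z ∈ B then 1 else 0) else 1
  have h2 : ∑' γ : Tr V (4 * τ), ((fun γ : Tr V (4 * τ) => γ (Fin.last (4 * τ))) ⁻¹'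
      (B : Set V)).indicator (fun γ => if γ 0 = x then wt G γ else 0) γ =
      ∑' γ : Tr V (4 * τ), (if γ 0 = x then 1 else 0) * wt G γ *
        ∏ j : Fin (4 * τ + 1), h j (γ j) := by
    refine tsum_congr fun γ => ?_
    rw [Fin.prod_univ_castSucc]
    have e1 : ∏ i : Fin (4 * τ), h (i.castSucc : Fin (4 * τ + 1)) (γ i.castSucc) = 1 := by
      refine Finset.prod_eq_one fun i _ => ?_
      have : (i : ℕ) ≠ 4 * τ := by omega
      simp [h, this]
    rw [e1, one_mul]
    simp only [h, Fin.val_last, if_true, indicator, mem_preimage, Finset.mem_coe]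
    by_cases a : γ (Fin.last (4 * τ)) ∈ B <;> by_cases b : γ 0 = x <;> simp [a, b]
  rw [h2, sum_paths (4 * τ) h fun z => if z = x then 1 else 0, tsum_eq_single x
    (fun z hz => by simp [hz]), if_pos rfl, one_mul, U_iter (k := 4 * τ) le_rfl
    (fun j hj y => by have : j ≠ 4 * τ := by omega
                      simp [h, this])]
  have h3 : ∀ y, (U G (4 * τ - 4 * τ) fun j => h (j + 4 * τ)) y ≤
      (3 ^ (3 * τ))⁻¹ * ⨅ n, ⨅ _ : y ∈ ball G n x, (3 : ENNReal) ^ n := by
    intro y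
    rw [Nat.sub_self]
    simp only [U, zero_add, h, if_true]
    by_cases hy : y ∈ B
    · rw [if_pos hy, ← ENNReal.inv_mul_cancel (a := 3 ^ (3 * τ)) (by positivity)
        (by simp [ENNReal.pow_eq_top_iff])]
      refine mul_le_mul_right (le_iInf₂ fun n hn => pow_le_pow_right₀ (by norm_num) ?_) _
      by_contra hlt
      exact hB y hy (ball_mono (not_le.1 hlt).le hn)
    · rw [if_neg hy]; exact zero_le
  refine (Pe_iter_mono h3 (4 * τ) x).trans ?_
  rw [Pe_iter_mul]
  have h4 : (⨅ n, ⨅ _ : x ∈ ball G n x, (3 : ENNReal) ^ n) ≤ 1 := by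
    refine (iInf₂_le 0 (by simp [ball])).trans (by simp)
  refine (mul_le_mul_right ((iter_le hdeg x (4 * τ) x).trans (mul_le_mul_right h4 _)) _).trans ?_
  rw [mul_one]
  have h5 : (16 / 27 : ℝ) ^ τ = (3 ^ (3 * τ))⁻¹ * 2 ^ (4 * τ) := by
    rw [pow_mul, pow_mul, div_pow, div_eq_inv_mul]; norm_num
  rw [h5, ENNReal.ofReal_mul (by positivity), ENNReal.ofReal_inv_of_pos (by positivity),
    ENNReal.ofReal_pow (by norm_num), ENNReal.ofReal_pow (by norm_num)]
  simp

end

end Cut7315
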