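import Pool.Agent.Lib.MP_7315a9_cut.Def2

/-!
# Finitely many paths

Row 7315-P3. Sketch:
A legal path from x lives in ball n x (Lg.mem_ball: import Paths if you like, or induct on n), so it is in a finite set
of functions. finite_Pth: skel K T γ = σ implies γ 0 = σ 0.
-/

open MeasureTheory ProbabilityTheory Set Relation
open scoped Classical

namespace Cut7315

open MP7315a9

noncomputable section

variable {V : Type*} {G : SimpleGraph V} [G.LocallyFinite] {K T : ℕ}

private theorem P3_mem {n : ℕ} {γ : Tr V n} (h : Lg G γ) (i : ℕ) (hi : i < n + 1) :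
    γ ⟨i, hi⟩ ∈ ball G i (γ 0) := by
  induction i with
  | zero => exact mem_ball.2 ⟨SimpleGraph.Walk.nil, le_refl _⟩
  | succ i ih =>
    have h1 := ih (by omega)
    have h2 := h ⟨i, by omega⟩
    have e1 : (⟨i, by omega⟩ : Fin n).castSucc = (⟨i, by omega⟩ : Fin (n + 1)) := rfl
    have e2 : (⟨i, by omega⟩ : Fin n).succ = (⟨i + 1, hi⟩ : Fin (n + 1)) := rfl
    rw [e1, e2] at h2
    exact ball_step h1 h2

/-- P3 -/
theorem finite_paths (n : ℕ) (x : V) : {γ : Tr V n | Lg G γ ∧ γ 0 = x}.Finite := by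
  refine (Set.Finite.pi' (fun _ : Fin (n + 1) => (ball G n x).finite_toSet)).subset ?_
  rintro γ ⟨hγ, rfl⟩ i
  exact ball_mono (Nat.lt_succ_iff.1 i.2) (P3_mem hγ i i.2)

/-- P3b -/
theorem finite_Pth (σ : Sk V K) : {γ : Tr V (K * T) | Lg G γ ∧ skel K T γ = σ}.Finite := by
  refine (finite_paths (G := G) (K * T) (σ 0)).subset ?_
  rintro γ ⟨hγ, rfl⟩
  refine ⟨hγ, ?_⟩
  unfold skel
  congr 1
  ext
  simp

end

end Cut7315
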