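import Pool.Agent.Lib.MP_7315a9_cut.Def3

/-!
# The Harris inequality

Row 7315-S3. Sketch:
Both events depend on the finite set S of bits. Induction on S (S = insert k S'): split according to ω k (Fubini on one
coordinate: A_b = {ω | ω with ω k := b is in A}, b = true, false, depends on S', A_false ⊆ A_true; by bits_indep
bits A = r_k bits A_true + (1 - r_k) bits A_false) and (r a1 + (1-r) a0)(r b1 + (1-r) b0) ≤ r a1 b1 + (1-r) a0 b0 for a0 ≤ a1, b0 ≤ b1
(Chebyshev), then the induction hypothesis. S empty: the events are ∅ or univ. (Or use Mathlib's fkg on Finset S.)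
-/

open MeasureTheory ProbabilityTheory Set Relation
open scoped Classical

namespace Cut7315

open MP7315a9

noncomputable section

/-- Events which depend on finitely many bits are measurable. -/
lemma harris_meas {X : Type*} (S : Finset X) {A : Set (X → Bool)}
    (hA : ∀ ω ω' : X → Bool, (∀ k ∈ S, ω k = ω' k) → ω ∈ A → ω' ∈ A) : MeasurableSet A := by
  let f : (X → Bool) → (S → Bool) := fun ω k => ω k
  have hf : Measurable f := measurable_pi_lambda _ fun k => measurable_pi_apply _
  have hfA : f ⁻¹' (f '' A) = A := by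
    refine Subset.antisymm ?_ (subset_preimage_image f A)
    rintro ω ⟨ω', hω', h⟩
    refine hA ω' ω (fun k hk => ?_) hω'
    exact congrFun h ⟨k, hk⟩
  rw [← hfA]
  exact hf (Set.toFinite _).measurableSet

/-- The event `A` after setting the bit `k` to `b`. -/
def harris_sec {X : Type*} (k : X) (b : Bool) (A : Set (X → Bool)) : Set (X → Bool) :=
  {ω | Function.update ω k b ∈ A}

lemma harris_sec_dep {X : Type*} (k : X) (b : Bool) {S : Finset X} {A : Set (X → Bool)}
    (hA : ∀ ω ω' : X → Bool, (∀ j ∈ insert k S, ω j = ω' j) → ω ∈ A → ω' ∈ A) :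
    ∀ ω ω' : X → Bool, (∀ j ∈ S, ω j = ω' j) → ω ∈ harris_sec k b A → ω' ∈ harris_sec k b A := by
  intro ω ω' h hω
  refine hA _ _ (fun j hj => ?_) hω
  by_cases hjk : j = k
  · subst hjk; simp
  · rw [Function.update_of_ne hjk, Function.update_of_ne hjk]
    exact h j ((Finset.mem_insert.1 hj).resolve_left hjk)

lemma harris_sec_mono {X : Type*} (k : X) (b : Bool) {A : Set (X → Bool)}
    (hA : ∀ ω ω' : X → Bool, ω ≤ ω' → ω ∈ A → ω' ∈ A) :
    ∀ ω ω' : X → Bool, ω ≤ ω' → ω ∈ harris_sec k b A → ω' ∈ harris_sec k b A := by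
  intro ω ω' h hω
  refine hA _ _ (fun j => ?_) hω
  by_cases hjk : j = k
  · subst hjk; simp
  · rw [Function.update_of_ne hjk, Function.update_of_ne hjk]
    exact h j

lemma harris_sec_le {X : Type*} (k : X) {A : Set (X → Bool)}
    (hA : ∀ ω ω' : X → Bool, ω ≤ ω' → ω ∈ A → ω' ∈ A) :
    harris_sec k false A ⊆ harris_sec k true A := by
  intro ω hω
  refine hA _ _ (fun j => ?_) hω
  by_cases hjk : j = k
  · subst hjk; simp
  · rw [Function.update_of_ne hjk, Function.update_of_ne hjk]

/-- Splitting according to one bit. -/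
lemma harris_split {X : Type*} (r : X → unitInterval) {k : X} {S : Finset X} (hk : k ∉ S)
    {A : Set (X → Bool)}
    (hA : ∀ ω ω' : X → Bool, (∀ j ∈ insert k S, ω j = ω' j) → ω ∈ A → ω' ∈ A) :
    (bits r).real A = (bits r).real {ω | ω k = true} * (bits r).real (harris_sec k true A) +
      (1 - (bits r).real {ω | ω k = true}) * (bits r).real (harris_sec k false A) := by
  have hm : ∀ b : Bool, MeasurableSet {ω : X → Bool | ω k = b} := fun b =>
    (measurableSet_singleton b).preimage (measurable_pi_apply k)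
  have hd : Disjoint (S : Set X) {k} := by
    rw [Set.disjoint_singleton_right]; simpa using hk
  have hs : ∀ b : Bool, bits r (harris_sec k b A ∩ {ω | ω k = b}) =
      bits r (harris_sec k b A) * bits r {ω | ω k = b} := by
    intro b
    refine bits_indep r hd (harris_meas S (harris_sec_dep k b hA)) (hm b) ?_ ?_
    · intro η η' h hη
      exact harris_sec_dep k b hA η η' (fun j hj => h j (by simpa using hj)) hη
    · intro η η' h hη
      have := h k (by simp)
      simp only [Set.mem_ofPred_eq] at hη ⊢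
      rw [← this]; exact hη
  have he : ∀ b : Bool, A ∩ {ω | ω k = b} = harris_sec k b A ∩ {ω | ω k = b} := by
    intro b
    ext ω
    simp only [Set.mem_inter_iff, Set.mem_ofPred_eq, harris_sec]
    constructor
    · rintro ⟨h1, h2⟩
      refine ⟨?_, h2⟩
      rw [← h2, Function.update_eq_self]; exact h1
    · rintro ⟨h1, h2⟩
      refine ⟨?_, h2⟩
      rw [← h2, Function.update_eq_self] at h1; exact h1
  have hc : {ω : X → Bool | ω k = true}ᶜ = {ω | ω k = false} := by
    ext ω; simp
  have hr : ∀ b : Bool, (bits r).real (A ∩ {ω | ω k = b}) =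
      (bits r).real {ω | ω k = b} * (bits r).real (harris_sec k b A) := by
    intro b
    rw [he b, measureReal_def, hs b, ENNReal.toReal_mul, mul_comm]
    rfl
  have h1 : (bits r).real A = (bits r).real (A ∩ {ω | ω k = true}) +
      (bits r).real (A ∩ {ω | ω k = false}) := by
    rw [← hc, ← Set.sdiff_eq]
    exact (measureReal_inter_add_sdiff (hm true)).symm
  have h2 : (bits r).real {ω : X → Bool | ω k = false} =
      1 - (bits r).real {ω : X → Bool | ω k = true} := by
    rw [← hc, probReal_compl_eq_one_sub (hm true)]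
  rw [h1, hr true, hr false, h2]

lemma harris_real {X : Type*} (r : X → unitInterval) (S : Finset X) :
    ∀ {A B : Set (X → Bool)},
    (∀ ω ω' : X → Bool, (∀ k ∈ S, ω k = ω' k) → ω ∈ A → ω' ∈ A) →
    (∀ ω ω' : X → Bool, (∀ k ∈ S, ω k = ω' k) → ω ∈ B → ω' ∈ B) →
    (∀ ω ω' : X → Bool, ω ≤ ω' → ω ∈ A → ω' ∈ A) →
    (∀ ω ω' : X → Bool, ω ≤ ω' → ω ∈ B → ω' ∈ B) →
    (bits r).real A * (bits r).real B ≤ (bits r).real (A ∩ B) := by
  induction S using Finset.induction_on with
  | empty =>
    intro A B hA hB _ _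
    have h01 : ∀ {C : Set (X → Bool)},
        (∀ ω ω' : X → Bool, (∀ k ∈ (∅ : Finset X), ω k = ω' k) → ω ∈ C → ω' ∈ C) →
        C = ∅ ∨ C = univ := by
      intro C hC
      rcases C.eq_empty_or_nonempty with h | ⟨ω, hω⟩
      · exact Or.inl h
      · exact Or.inr (eq_univ_of_forall fun ω' => hC ω ω' (by simp) hω)
    rcases h01 hA with rfl | rfl
    · simp
    · rcases h01 hB with rfl | rfl <;> simp
  | insert k S hk ih =>
    intro A B hA hB hAu hBu
    have hAB : ∀ ω ω' : X → Bool, (∀ j ∈ insert k S, ω j = ω' j) → ω ∈ A ∩ B → ω' ∈ A ∩ B :=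
      fun ω ω' h hω => ⟨hA ω ω' h hω.1, hB ω ω' h hω.2⟩
    rw [harris_split r hk hA, harris_split r hk hB, harris_split r hk hAB]
    have h1 := ih (harris_sec_dep k true hA) (harris_sec_dep k true hB)
      (harris_sec_mono k true hAu) (harris_sec_mono k true hBu)
    have h0 := ih (harris_sec_dep k false hA) (harris_sec_dep k false hB)
      (harris_sec_mono k false hAu) (harris_sec_mono k false hBu)
    have e1 : ∀ b : Bool, harris_sec k b A ∩ harris_sec k b B = harris_sec k b (A ∩ B) :=
      fun b => rfl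
    rw [e1] at h1 h0
    have ha : (bits r).real (harris_sec k false A) ≤ (bits r).real (harris_sec k true A) :=
      measureReal_mono (harris_sec_le k hAu)
    have hb : (bits r).real (harris_sec k false B) ≤ (bits r).real (harris_sec k true B) :=
      measureReal_mono (harris_sec_le k hBu)
    have hr0 : 0 ≤ (bits r).real {ω : X → Bool | ω k = true} := measureReal_nonneg
    have hr1 : (bits r).real {ω : X → Bool | ω k = true} ≤ 1 := measureReal_le_one
    generalize (bits r).real {ω : X → Bool | ω k = true} = x at *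
    generalize (bits r).real (harris_sec k true A) = a1 at *
    generalize (bits r).real (harris_sec k false A) = a0 at *
    generalize (bits r).real (harris_sec k true B) = b1 at *
    generalize (bits r).real (harris_sec k false B) = b0 at *
    have h3 : 0 ≤ x * (1 - x) * ((a1 - a0) * (b1 - b0)) :=
      mul_nonneg (mul_nonneg hr0 (by linarith)) (mul_nonneg (by linarith) (by linarith))
    have h4 := mul_le_mul_of_nonneg_left h1 hr0
    have h5 := mul_le_mul_of_nonneg_left h0 (by linarith : (0 : ℝ) ≤ 1 - x)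
    nlinarith [h3, h4, h5]

/-- S3 -/
theorem harris {X : Type*} (r : X → unitInterval) (S : Finset X) {A B : Set (X → Bool)}
    (hA : ∀ ω ω' : X → Bool, (∀ k ∈ S, ω k = ω' k) → ω ∈ A → ω' ∈ A)
    (hB : ∀ ω ω' : X → Bool, (∀ k ∈ S, ω k = ω' k) → ω ∈ B → ω' ∈ B)
    (hAu : ∀ ω ω' : X → Bool, ω ≤ ω' → ω ∈ A → ω' ∈ A)
    (hBu : ∀ ω ω' : X → Bool, ω ≤ ω' → ω ∈ B → ω' ∈ B) :
    bits r A * bits r B ≤ bits r (A ∩ B) := by
  have h := harris_real r S hA hB hAu hBu
  rw [measureReal_def, measureReal_def, measureReal_def, ← ENNReal.toReal_mul] at h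
  exact (ENNReal.toReal_le_toReal (ENNReal.mul_ne_top (measure_ne_top _ _) (measure_ne_top _ _))
    (measure_ne_top _ _)).1 h

end

end Cut7315
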