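import Pool.Agent.Lib.MP_7315a9_cut.Cross

/-!
# Matchings

Row 7315-A6. Sketch:
Let B = the finite set of σ' ∈ Occ, σ' ∉ R with σ' j in the union of ball D (σ j), σ ∈ R (finite_sk with
Z = that union). Take a maximal (by card) M ⊆ R ×ˢ B satisfying the two last properties. The cover
W' = M.image fst ∪ M.image snd satisfies Cov at j by maximality (else the uncovered pair could be added), and
card ≤ 2 M.card. W' ⊆ Occ.
-/

open MeasureTheory ProbabilityTheory Set Relation
open scoped Classical

namespace Cut7315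

open MP7315a9

noncomputable section

variable {V : Type*} {G : SimpleGraph V} [G.LocallyFinite] {K : ℕ} {T : ℕ} {Occ : Set (Sk V K)}
  {Acq : Sk V K → Sk V K → Prop}

/-- A6 -/
theorem exists_matching {D k : ℕ} {R : Finset (Sk V K)} {j : Fin (K + 1)}
    (h : ∀ σ ∈ Occ, ∀ j : Fin K, σ j.succ ∈ ball G T (σ j.castSucc))
    (hR : (R : Set (Sk V K)) ⊆ Occ)
    (hk : ∀ W' : Finset (Sk V K), Cov G D Occ R W' j → k ≤ W'.card) :
    ∃ M : Finset (Sk V K × Sk V K), k ≤ 2 * M.card ∧
      (∀ p ∈ M, p.1 ∈ R ∧ p.2 ∈ Occ ∧ p.2 ∉ R ∧ p.2 j ∈ ball G D (p.1 j)) ∧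
      ∀ p ∈ M, ∀ q ∈ M, p.1 = q.1 ∨ p.2 = q.2 → p = q := by
  have hfin := finite_sk h j (R.biUnion fun σ => ball G D (σ j))
  set B : Finset (Sk V K) := hfin.toFinset with hB
  let good : Finset (Sk V K × Sk V K) → Prop := fun M =>
    (∀ p ∈ M, p.1 ∈ R ∧ p.2 ∈ Occ ∧ p.2 ∉ R ∧ p.2 j ∈ ball G D (p.1 j)) ∧
      ∀ p ∈ M, ∀ q ∈ M, p.1 = q.1 ∨ p.2 = q.2 → p = q
  have hne : ((R ×ˢ B).powerset.filter good).Nonempty := by
    refine ⟨∅, ?_⟩
    rw [Finset.mem_filter]
    refine ⟨Finset.empty_mem_powerset _, ?_, ?_⟩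
    · intro p hp; exact absurd hp (Finset.notMem_empty _)
    · intro p hp; exact absurd hp (Finset.notMem_empty _)
  obtain ⟨M, hM, hmax⟩ := Finset.exists_max_image _ Finset.card hne
  rw [Finset.mem_filter, Finset.mem_powerset] at hM
  obtain ⟨hMs, hM1, hM2⟩ := hM
  refine ⟨M, ?_, hM1, hM2⟩
  have hcov : Cov G D Occ R (M.image Prod.fst ∪ M.image Prod.snd) j := by
    constructor
    · intro σ hσ
      rw [Finset.mem_coe, Finset.mem_union, Finset.mem_image, Finset.mem_image] at hσ
      rcases hσ with ⟨p, hp, rfl⟩ | ⟨p, hp, rfl⟩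
      · exact hR (hM1 p hp).1
      · exact (hM1 p hp).2.1
    · intro σ hσ σ' hσ' hσR hd
      by_contra hcon
      push Not at hcon
      obtain ⟨h1, h2⟩ := hcon
      rw [Finset.mem_union, Finset.mem_image, Finset.mem_image] at h1 h2
      push Not at h1 h2
      have hnot : (σ, σ') ∉ M := fun hmem => h1.1 (σ, σ') hmem rfl
      have hgood : insert (σ, σ') M ∈ (R ×ˢ B).powerset.filter good := by
        rw [Finset.mem_filter, Finset.mem_powerset]
        refine ⟨?_, ?_, ?_⟩
        · intro p hp
          rw [Finset.mem_insert] at hp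
          rcases hp with rfl | hp
          · rw [Finset.mem_product]
            refine ⟨hσ, ?_⟩
            rw [hB, Set.Finite.mem_toFinset]
            refine ⟨hσ', ?_⟩
            rw [Finset.mem_biUnion]
            exact ⟨σ, hσ, hd⟩
          · exact hMs hp
        · intro p hp
          rw [Finset.mem_insert] at hp
          rcases hp with rfl | hp
          · exact ⟨hσ, hσ', hσR, hd⟩
          · exact hM1 p hp
        · intro p hp q hq hpq
          rw [Finset.mem_insert] at hp hq
          rcases hp with rfl | hp <;> rcases hq with rfl | hq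
          · rfl
          · exfalso
            rcases hpq with hpq | hpq
            · exact h1.1 q hq hpq.symm
            · exact h2.2 q hq hpq.symm
          · exfalso
            rcases hpq with hpq | hpq
            · exact h1.1 p hp hpq
            · exact h2.2 p hp hpq
          · exact hM2 p hp q hq hpq
      have := hmax _ hgood
      rw [Finset.card_insert_of_notMem hnot] at this
      omega
  have h3 := hk _ hcov
  have h4 : (M.image Prod.fst ∪ M.image Prod.snd).card ≤ M.card + M.card :=
    (Finset.card_union_le _ _).trans (Nat.add_le_add Finset.card_image_le Finset.card_image_le)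
  omega

end

end Cut7315
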