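import Pool.Agent.Lib.MP_7315a9_cut.Def2

/-!
# The merge lemma

Row 7315-A9. Sketch:
Induction on p = number of q ∈ P not reachable (write Reach N u x for ReflTransGen (adj a b ∧ b ∈ N) u x):
for every L ⊆ Wk all of whose elements are reachable in N0 ∪ L, with p unreachable elements of P, there is L' ⊇ L with
L' ⊆ Wk, |L'| ≤ |L| + 2p and ConnF. If all of N0 is reachable, L' = L. Otherwise h gives a, b, q, x. Put L1 = L ∪ {a, b}:
reachability grows, a is reachable (from x), b too (adj a b), q too (b = q or adj b q, q ∈ P ⊆ N0). So p drops by at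
least one (q) and |L1| ≤ |L| + 2. (x = a: then a is already reachable.)
-/

open MeasureTheory ProbabilityTheory Set Relation
open scoped Classical

namespace Cut7315

open MP7315a9

noncomputable section

/-- A9 -/
theorem merge {α : Type*} (adj : α → α → Prop) (N0 : Finset α) (u : α) (P : Finset α)
    (hP : P ⊆ N0) (Wk : Set α)
    (h : ∀ L : Finset α, (L : Set α) ⊆ Wk →
      (∀ x ∈ L, ReflTransGen (fun a b => adj a b ∧ b ∈ N0 ∪ L) u x) →
      (∃ n ∈ N0, ¬ ReflTransGen (fun a b => adj a b ∧ b ∈ N0 ∪ L) u n) →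
      ∃ a ∈ Wk, ∃ b ∈ Wk, ∃ q ∈ P,
        (∃ x, ReflTransGen (fun a b => adj a b ∧ b ∈ N0 ∪ L) u x ∧ (x = a ∨ adj x a)) ∧
        adj a b ∧ (b = q ∨ adj b q) ∧
        ¬ ReflTransGen (fun a b => adj a b ∧ b ∈ N0 ∪ L) u q) :
    ∃ L : Finset α, (L : Set α) ⊆ Wk ∧ L.card ≤ 2 * P.card ∧ ConnF adj (N0 ∪ L) u := by
  have key : ∀ (n : ℕ) (L : Finset α), (L : Set α) ⊆ Wk →
      (∀ x ∈ L, ReflTransGen (fun a b => adj a b ∧ b ∈ N0 ∪ L) u x) →
      (P.filter fun q => ¬ ReflTransGen (fun a b => adj a b ∧ b ∈ N0 ∪ L) u q).card ≤ n →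
      ∃ L' : Finset α, (L' : Set α) ⊆ Wk ∧ L'.card ≤ L.card + 2 * n ∧
        ConnF adj (N0 ∪ L') u := by
    intro n
    induction n with
    | zero =>
      intro L hL hR hc
      by_cases hN : ∃ n ∈ N0, ¬ ReflTransGen (fun a b => adj a b ∧ b ∈ N0 ∪ L) u n
      · obtain ⟨a, -, b, -, q, hq, -, -, -, hqn⟩ := h L hL hR hN
        have : q ∈ P.filter fun q =>
            ¬ ReflTransGen (fun a b => adj a b ∧ b ∈ N0 ∪ L) u q :=
          Finset.mem_filter.2 ⟨hq, hqn⟩
        have h1 := Finset.card_pos.2 ⟨q, this⟩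
        omega
      · push Not at hN
        refine ⟨L, hL, by omega, fun y hy => ?_⟩
        rcases Finset.mem_union.1 hy with hy | hy
        · exact hN y hy
        · exact hR y hy
    | succ n ih =>
      intro L hL hR hc
      by_cases hN : ∃ n ∈ N0, ¬ ReflTransGen (fun a b => adj a b ∧ b ∈ N0 ∪ L) u n
      · obtain ⟨a, ha, b, hb, q, hq, ⟨x, hx, hxa⟩, hab, hbq, hqn⟩ := h L hL hR hN
        have mono : ∀ y, ReflTransGen (fun a b => adj a b ∧ b ∈ N0 ∪ L) u y →
            ReflTransGen (fun c d => adj c d ∧ d ∈ N0 ∪ (L ∪ {a, b})) u y := by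
          intro y hy
          refine ReflTransGen.mono ?_ _ _ hy
          intro c d hcd
          obtain ⟨h1, h2⟩ := hcd
          refine ⟨h1, ?_⟩
          rcases Finset.mem_union.1 h2 with h2 | h2
          · exact Finset.mem_union_left _ h2
          · exact Finset.mem_union_right _ (Finset.mem_union_left _ h2)
        have memr : ∀ y ∈ ({a, b} : Finset α), y ∈ N0 ∪ (L ∪ {a, b}) := fun y hy =>
          Finset.mem_union_right _ (Finset.mem_union_right _ hy)
        have ra : ReflTransGen (fun c d => adj c d ∧ d ∈ N0 ∪ (L ∪ {a, b})) u a := by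
          rcases hxa with rfl | hxa
          · exact mono _ hx
          · exact (mono _ hx).tail ⟨hxa, memr a (by simp)⟩
        have rb : ReflTransGen (fun c d => adj c d ∧ d ∈ N0 ∪ (L ∪ {a, b})) u b :=
          ra.tail ⟨hab, memr b (by simp)⟩
        have rq : ReflTransGen (fun c d => adj c d ∧ d ∈ N0 ∪ (L ∪ {a, b})) u q := by
          rcases hbq with rfl | hbq
          · exact rb
          · exact rb.tail ⟨hbq, Finset.mem_union_left _ (hP hq)⟩
        have hsub : (P.filter fun y =>
            ¬ ReflTransGen (fun c d => adj c d ∧ d ∈ N0 ∪ (L ∪ {a, b})) u y) ⊆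
            (P.filter fun y =>
              ¬ ReflTransGen (fun a b => adj a b ∧ b ∈ N0 ∪ L) u y).erase q := by
          intro y hy
          rw [Finset.mem_filter] at hy
          refine Finset.mem_erase.2 ⟨?_, Finset.mem_filter.2 ⟨hy.1, fun h' => hy.2 (mono _ h')⟩⟩
          rintro rfl
          exact hy.2 rq
        have hqm : q ∈ P.filter fun q =>
            ¬ ReflTransGen (fun a b => adj a b ∧ b ∈ N0 ∪ L) u q :=
          Finset.mem_filter.2 ⟨hq, hqn⟩
        have hcard := Finset.card_le_card hsub
        rw [Finset.card_erase_of_mem hqm] at hcard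
        obtain ⟨L', h1, h2, h3⟩ := ih (L ∪ {a, b}) (by
            intro y hy
            rcases Finset.mem_union.1 (Finset.mem_coe.1 hy) with hy | hy
            · exact hL hy
            · rcases Finset.mem_insert.1 hy with rfl | hy
              · exact ha
              · rw [Finset.mem_singleton.1 hy]; exact hb) (by
            intro y hy
            rcases Finset.mem_union.1 hy with hy | hy
            · exact mono _ (hR y hy)
            · rcases Finset.mem_insert.1 hy with rfl | hy
              · exact ra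
              · rw [Finset.mem_singleton.1 hy]; exact rb) (by omega)
        refine ⟨L', h1, ?_, h3⟩
        have h4 : (L ∪ {a, b}).card ≤ L.card + 2 :=
          (Finset.card_union_le _ _).trans (Nat.add_le_add_left Finset.card_le_two _)
        omega
      · push Not at hN
        refine ⟨L, hL, by omega, fun y hy => ?_⟩
        rcases Finset.mem_union.1 hy with hy | hy
        · exact hN y hy
        · exact hR y hy
  obtain ⟨L', h1, h2, h3⟩ := key P.card ∅ (by simp) (by simp) (Finset.card_filter_le _ _)
  exact ⟨L', h1, by simpa using h2, h3⟩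

end

end Cut7315
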