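import Pool.Agent.Lib.MP_7315a9_cut.Def2

/-!
# Existence of a minimal choice

Row 7315-A7. Sketch:
Use Nat.find twice (or argmin on ℕ-valued functions of nonempty sets). For Cl R take W = R: a cover at every
j. If Cov R W j then S = union over σ ∈ R \ W of ball ell (σ j) is Adm: for σ' ∈ Occ \ R, σ' ∉ W a common point of the
two balls gives dist ≤ 2 ell ≤ D, so Cov puts one of them into W. First minimise W.card over all (R, W, j), then
(bd G S).card over all (R, W, j, S) with that W.card.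
-/

open MeasureTheory ProbabilityTheory Set Relation
open scoped Classical

namespace Cut7315

open MP7315a9

noncomputable section

variable {V : Type*} {G : SimpleGraph V} [G.LocallyFinite] {K : ℕ} {T : ℕ} {Occ : Set (Sk V K)}
  {Acq : Sk V K → Sk V K → Prop}

/-- A7 -/
theorem exists_minCh {D ℓ : ℕ} (hD : 2 * ℓ ≤ D) {σ0 : Sk V K}
    (hR : ∃ R, Cl Occ Acq σ0 R) : ∃ R W s S, MinCh G D ℓ Occ Acq σ0 R W s S := by
  obtain ⟨R0, hR0⟩ := hR
  -- every cover has an admissible set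
  have hadm : ∀ R W (j : Fin (K + 1)), Cl Occ Acq σ0 R → Cov G D Occ R W j →
      ∃ S, Adm G ℓ Occ R W j S := by
    intro R W j _ hcov
    refine ⟨(R \ W).biUnion fun σ => ball G ℓ (σ j), ?_, ?_⟩
    · intro σ hσ hσW z hz
      exact Finset.mem_biUnion.2 ⟨σ, Finset.mem_sdiff.2 ⟨hσ, hσW⟩, hz⟩
    · intro σ' hσ' hσ'R hσ'W z hz hzS
      obtain ⟨σ, hσ, hzσ⟩ := Finset.mem_biUnion.1 hzS
      obtain ⟨hσR, hσW⟩ := Finset.mem_sdiff.1 hσ
      have h1 : σ' j ∈ ball G (ℓ + ℓ) (σ j) := ball_trans hzσ (ball_symm hz)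
      have h2 : σ' j ∈ ball G D (σ j) := ball_mono (by omega) h1
      rcases hcov.2 σ hσR σ' hσ' hσ'R h2 with h | h
      · exact hσW h
      · exact hσ'W h
  have h1 : ∃ n : ℕ, ∃ R W, ∃ j : Fin (K + 1), Cl Occ Acq σ0 R ∧ Cov G D Occ R W j ∧
      W.card = n :=
    ⟨R0.card, R0, R0, 0, hR0, ⟨hR0.1, fun σ hσ _ _ _ _ => Or.inl hσ⟩, rfl⟩
  obtain ⟨R1, W1, j1, hR1, hW1, hn1⟩ := Nat.find_spec h1
  have hmin1 : ∀ R' W' (j : Fin (K + 1)), Cl Occ Acq σ0 R' → Cov G D Occ R' W' j →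
      Nat.find h1 ≤ W'.card := fun R' W' j hR' hW' =>
    Nat.find_min' h1 ⟨R', W', j, hR', hW', rfl⟩
  obtain ⟨S1, hS1⟩ := hadm R1 W1 j1 hR1 hW1
  have h2 : ∃ n : ℕ, ∃ R W, ∃ j : Fin (K + 1), ∃ S, Cl Occ Acq σ0 R ∧ Cov G D Occ R W j ∧
      Adm G ℓ Occ R W j S ∧ W.card = Nat.find h1 ∧ (bd G S).card = n :=
    ⟨(bd G S1).card, R1, W1, j1, S1, hR1, hW1, hS1, hn1, rfl⟩
  obtain ⟨R, W, j, S, hR, hW, hS, hn, hm⟩ := Nat.find_spec h2
  refine ⟨R, W, j, S, hR, hW, hS, ?_, ?_⟩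
  · intro R' W' j' hR' hW'
    rw [hn]
    exact hmin1 R' W' j' hR' hW'
  · intro R' W' j' S' hR' hW' hS' hc
    rw [hm]
    exact Nat.find_min' h2 ⟨R', W', j', S', hR', hW', hS', hc.trans hn, rfl⟩

end

end Cut7315
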