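import Pool.Agent.Lib.MP_7315a9_cut.Par
import Pool.Agent.Lib.MP_7315a9_cut.Cross

/-!
# The two group lemma

Row 7315-A8. Sketch:
S_i = Sof 𝓕i; by par_union x ∈ S iff (x ∈ S_1 xor x ∈ S_2). If σ ∈ Occ does not touch group i
then for all j, j' the sides agree: σ_j ∈ S_i ↔ σ_j' ∈ S_i, all z ∈ ball (2T) (σ_j) are on the side of σ_j (cross, with
exists_bd for 𝓕i: a boundary edge e of S_i with both ends in ball (2T) (σ_j); e or e.swap is in bd F, F ∈ 𝓕i: so σ touches).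
Define the colour c_i(σ): if σ does not touch i: σ_s ∈ S_i; if σ touches i (then it does not touch i', by hno for the
pair σ, σ): (σ ∈ R) xor c_{i'}(σ). Always (σ ∈ R) = c_1(σ) xor c_2(σ) (if σ touches neither, then σ ∉ W and Adm
gives σ ∈ R ↔ σ_s ∈ S). R_i = {σ ∈ Occ | c_i(σ)} is finite (finite_sk: S_i, boundary balls, W_i). Closed: let
Acq σ σ'; near at j. Either both do not touch 1: c_1 agree (σ'_j ∈ ball (2T) (σ_j)); or both do not touch 2: c_2 agree,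
and σ ∈ R ↔ σ' ∈ R (Cl and symm), so c_1 agree; else there is a forbidden link (use hno and its symmetric form: near is symmetric).
σ0 ∈ R so exactly one c_i(σ0); by symmetry σ0 ∈ R_1, so Cl R_1. Cov for (R_1, W_1, s): σ ∈ R_1, σ' ∈ Occ \ R_1, distance ≤ D ≤ 2T at
s, neither in W_1: not both avoid touching 1 (then colours agree), so both avoid 2, c_2 agree, so exactly one is in R,
Cov R W s gives one in W, so in W_2: touches 2, contradiction. Adm for (R_1, W_1, s, S_1): σ ∉ W_1: if σ does not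
touch 1 clear (ell ≤ 2T); if it touches 1 then σ ∉ W, the ball is on one side of S_2, and z ∈ S_1 = (z ∈ S) xor (z ∈ S_2)
= (σ ∈ R) xor c_2(σ) = c_1(σ). min1: |W| ≤ |W_1| so W_2 = ∅; min2: |bd S| ≤ |bd S_1| = sum over 𝓕1 (card_bd, Lam.mono), so
the sum over 𝓕2 is 0 and 𝓕2 = ∅ (bd_nonempty).
-/

open MeasureTheory ProbabilityTheory Set Relation
open scoped Classical

namespace Cut7315

open MP7315a9

noncomputable section

variable {V : Type*} {G : SimpleGraph V} [G.LocallyFinite] {K : ℕ} {T : ℕ} {Occ : Set (Sk V K)}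
  {Acq : Sk V K → Sk V K → Prop}

/-- all points near a walker which does not touch the group lie on its side -/
private theorem A8_side {𝓕 : Finset (Finset V)} {W : Finset (Sk V K)} {σ : Sk V K}
    (h : ¬ touch G T 𝓕 W σ) (j : Fin (K + 1)) {z : V} (hz : z ∈ ball G (2 * T) (σ j)) :
    σ j ∈ Sof 𝓕 ↔ z ∈ Sof 𝓕 := by
  by_contra hne
  obtain ⟨e, he, h1, h2⟩ := cross hz hne
  obtain ⟨F, hF, h3⟩ := exists_bd (fun x => mem_Sof) he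
  apply h
  refine Or.inr ⟨F, hF, ?_⟩
  rcases h3 with h3 | h3
  · exact ⟨e, h3, j, h1⟩
  · exact ⟨e.swap, h3, j, h2⟩

private theorem A8_side2 (hW : WSys G T Occ Acq) {𝓕 : Finset (Finset V)} {W : Finset (Sk V K)}
    {σ : Sk V K} (hσ : σ ∈ Occ) (h : ¬ touch G T 𝓕 W σ) (j : Fin (K + 1)) :
    σ 0 ∈ Sof 𝓕 ↔ σ j ∈ Sof 𝓕 := by
  induction j using Fin.induction with
  | zero => exact Iff.rfl
  | succ i ih =>
    refine ih.trans (A8_side h i.castSucc ?_)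
    exact ball_mono (by omega) (hW.step σ hσ i)

private theorem A8_side3 (hW : WSys G T Occ Acq) {𝓕 : Finset (Finset V)} {W : Finset (Sk V K)}
    {σ : Sk V K} (hσ : σ ∈ Occ) (h : ¬ touch G T 𝓕 W σ) (i j : Fin (K + 1)) :
    σ i ∈ Sof 𝓕 ↔ σ j ∈ Sof 𝓕 :=
  (A8_side2 hW hσ h i).symm.trans (A8_side2 hW hσ h j)

private theorem A8_core [Infinite V] (hG : G.Connected) {D ℓ : ℕ} (hD : D ≤ 2 * T)
    (hℓ : ℓ ≤ 2 * T) (hW : WSys G T Occ Acq) {σ0 : Sk V K} {R W : Finset (Sk V K)}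
    {s : Fin (K + 1)} {S : Finset V}
    (hM : MinCh G D ℓ Occ Acq σ0 R W s S) {𝓕1 𝓕2 : Finset (Finset V)} {W1 W2 : Finset (Sk V K)}
    (hF : Disjoint 𝓕1 𝓕2) (hWW : Disjoint W1 W2) (hWe : W = W1 ∪ W2)
    (hcut : ∀ F ∈ 𝓕1 ∪ 𝓕2, IsCut G F) (hL : Lam G (𝓕1 ∪ 𝓕2))
    (hS : ∀ x, x ∈ S ↔ par (𝓕1 ∪ 𝓕2) x)
    (hno : ∀ σ ∈ Occ, ∀ σ' ∈ Occ, (∃ j, σ' j ∈ ball G (2 * T) (σ j)) →
      touch G T 𝓕1 W1 σ → ¬ touch G T 𝓕2 W2 σ')
    (c1 c2 : Sk V K → Prop) (P0 : ∀ σ ∈ Occ, (σ ∈ R ↔ ¬ (c1 σ ↔ c2 σ)))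
    (P1 : ∀ σ ∈ Occ, ¬ touch G T 𝓕1 W1 σ → (c1 σ ↔ σ s ∈ Sof 𝓕1))
    (P2 : ∀ σ ∈ Occ, ¬ touch G T 𝓕2 W2 σ → (c2 σ ↔ σ s ∈ Sof 𝓕2)) (h0 : c1 σ0) :
    𝓕2 = ∅ ∧ W2 = ∅ := by
  have hself : ∀ (n : ℕ) (x : V), x ∈ ball G n x := fun n x =>
    mem_ball.2 ⟨SimpleGraph.Walk.nil, by simp⟩
  have hSx : ∀ z, z ∈ S ↔ ¬ (z ∈ Sof 𝓕1 ↔ z ∈ Sof 𝓕2) := by
    intro z
    rw [hS z, par_union hF z, mem_Sof, mem_Sof]
  have hdich : ∀ σ ∈ Occ, ∀ σ' ∈ Occ, (∃ j, σ' j ∈ ball G (2 * T) (σ j)) →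
      (¬ touch G T 𝓕1 W1 σ ∧ ¬ touch G T 𝓕1 W1 σ') ∨
      (¬ touch G T 𝓕2 W2 σ ∧ ¬ touch G T 𝓕2 W2 σ') := by
    intro σ hσ σ' hσ' hj
    by_cases h1 : touch G T 𝓕1 W1 σ
    · exact Or.inr ⟨hno σ hσ σ hσ ⟨0, hself _ _⟩ h1, hno σ hσ σ' hσ' hj h1⟩
    · by_cases h2 : touch G T 𝓕1 W1 σ'
      · obtain ⟨j, hj⟩ := hj
        exact Or.inr ⟨hno σ' hσ' σ hσ ⟨j, ball_symm hj⟩ h2,
          hno σ' hσ' σ' hσ' ⟨0, hself _ _⟩ h2⟩
      · exact Or.inl ⟨h1, h2⟩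
  have ag1 : ∀ σ ∈ Occ, ∀ σ' ∈ Occ, (∃ j, σ' j ∈ ball G (2 * T) (σ j)) →
      ¬ touch G T 𝓕1 W1 σ → ¬ touch G T 𝓕1 W1 σ' → (c1 σ ↔ c1 σ') := by
    rintro σ hσ σ' hσ' ⟨j, hj⟩ h1 h2
    rw [P1 σ hσ h1, P1 σ' hσ' h2, A8_side3 hW hσ h1 s j, A8_side h1 j hj,
      A8_side3 hW hσ' h2 j s]
  have ag2 : ∀ σ ∈ Occ, ∀ σ' ∈ Occ, (∃ j, σ' j ∈ ball G (2 * T) (σ j)) →
      ¬ touch G T 𝓕2 W2 σ → ¬ touch G T 𝓕2 W2 σ' → (c2 σ ↔ c2 σ') := by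
    rintro σ hσ σ' hσ' ⟨j, hj⟩ h1 h2
    rw [P2 σ hσ h1, P2 σ' hσ' h2, A8_side3 hW hσ h1 s j, A8_side h1 j hj,
      A8_side3 hW hσ' h2 j s]
  have hRO : ∀ σ ∈ R, σ ∈ Occ := fun σ hσ => hM.cl.1 hσ
  have hWO : ∀ σ ∈ W, σ ∈ Occ := fun σ hσ => hM.cov.1 hσ
  -- the first set is finite
  have hfin : {σ | σ ∈ Occ ∧ c1 σ}.Finite := by
    set Z : Finset V := Sof 𝓕1 ∪ 𝓕1.biUnion (fun F => (bd G F).biUnion fun e =>
      ball G (2 * T) e.1) with hZ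
    refine Set.Finite.subset ((W1 : Set (Sk V K)).toFinite.union
      (Set.finite_iUnion fun j => finite_sk (Occ := Occ) hW.step j Z)) ?_
    rintro σ ⟨hσ, hc⟩
    by_cases h1 : touch G T 𝓕1 W1 σ
    · rcases h1 with h1 | ⟨F, hF1, e, he, j, hj⟩
      · exact Or.inl h1
      · refine Or.inr (Set.mem_iUnion.2 ⟨j, hσ, ?_⟩)
        rw [hZ, Finset.mem_union]
        right
        rw [Finset.mem_biUnion]
        exact ⟨F, hF1, Finset.mem_biUnion.2 ⟨e, he, ball_symm hj⟩⟩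
    · refine Or.inr (Set.mem_iUnion.2 ⟨s, hσ, ?_⟩)
      rw [hZ, Finset.mem_union]
      exact Or.inl ((P1 σ hσ h1).1 hc)
  set R1 : Finset (Sk V K) := hfin.toFinset with hR1
  have hmem : ∀ σ, σ ∈ R1 ↔ σ ∈ Occ ∧ c1 σ := by
    intro σ
    rw [hR1, Set.Finite.mem_toFinset]
    exact Iff.rfl
  have hCl : Cl Occ Acq σ0 R1 := by
    refine ⟨fun σ hσ => ((hmem σ).1 hσ).1, (hmem σ0).2 ⟨hRO _ hM.cl.2.1, h0⟩, ?_⟩
    intro σ hσ σ' hσ' hA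
    obtain ⟨hσO, hc⟩ := (hmem σ).1 hσ
    refine (hmem σ').2 ⟨hσ', ?_⟩
    have hj := hW.near σ hσO σ' hσ' hA
    have hRR : σ ∈ R ↔ σ' ∈ R :=
      ⟨fun h => hM.cl.2.2 σ h σ' hσ' hA, fun h => hM.cl.2.2 σ' h σ hσO (hW.symm _ _ hA)⟩
    rcases hdich σ hσO σ' hσ' hj with ⟨h1, h2⟩ | ⟨h1, h2⟩
    · exact (ag1 σ hσO σ' hσ' hj h1 h2).1 hc
    · have h3 := ag2 σ hσO σ' hσ' hj h1 h2
      have h4 := P0 σ hσO
      have h5 := P0 σ' hσ'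
      tauto
  have hCov : Cov G D Occ R1 W1 s := by
    refine ⟨fun σ hσ => hWO σ (hWe ▸ Finset.mem_union_left _ hσ), ?_⟩
    intro σ hσ σ' hσ' hnot hj
    obtain ⟨hσO, hc⟩ := (hmem σ).1 hσ
    have hc' : ¬ c1 σ' := fun h => hnot ((hmem σ').2 ⟨hσ', h⟩)
    by_contra hcon
    push Not at hcon
    have hj2 : ∃ j, σ' j ∈ ball G (2 * T) (σ j) := ⟨s, ball_mono hD hj⟩
    rcases hdich σ hσO σ' hσ' hj2 with ⟨h1, h2⟩ | ⟨h1, h2⟩
    · exact hc' ((ag1 σ hσO σ' hσ' hj2 h1 h2).1 hc)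
    · have h3 := ag2 σ hσO σ' hσ' hj2 h1 h2
      have h4 := P0 σ hσO
      have h5 := P0 σ' hσ'
      have hnW : σ ∉ W := by
        rw [hWe, Finset.mem_union]
        rintro (h | h)
        · exact hcon.1 h
        · exact h1 (Or.inl h)
      have hnW' : σ' ∉ W := by
        rw [hWe, Finset.mem_union]
        rintro (h | h)
        · exact hcon.2 h
        · exact h2 (Or.inl h)
      by_cases hR : σ ∈ R
      · have hR' : σ' ∉ R := by tauto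
        rcases hM.cov.2 σ hR σ' hσ' hR' hj with h | h
        · exact hnW h
        · exact hnW' h
      · have hR' : σ' ∈ R := by tauto
        rcases hM.cov.2 σ' hR' σ hσO hR (ball_symm hj) with h | h
        · exact hnW' h
        · exact hnW h
  have hz : ∀ σ ∈ Occ, σ ∉ W1 → ∀ z ∈ ball G ℓ (σ s), (z ∈ Sof 𝓕1 ↔ c1 σ) := by
    intro σ hσ hn z hz
    have hz2 : z ∈ ball G (2 * T) (σ s) := ball_mono hℓ hz
    by_cases h1 : touch G T 𝓕1 W1 σ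
    · have h2 : ¬ touch G T 𝓕2 W2 σ := hno σ hσ σ hσ ⟨0, hself _ _⟩ h1
      have hnW : σ ∉ W := by
        rw [hWe, Finset.mem_union]
        rintro (h | h)
        · exact hn h
        · exact h2 (Or.inl h)
      have h3 := P2 σ hσ h2
      have h4 := A8_side h2 s hz2
      have h5 := P0 σ hσ
      have h6 := hSx z
      have h7 : z ∈ S ↔ σ ∈ R := by
        by_cases hR : σ ∈ R
        · exact ⟨fun _ => hR, fun _ => hM.adm.1 σ hR hnW z hz⟩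
        · exact ⟨fun h => absurd h (hM.adm.2 σ hσ hR hnW z hz), fun h => absurd h hR⟩
      tauto
    · rw [P1 σ hσ h1]
      exact (A8_side h1 s hz2).symm
  have hAdm : Adm G ℓ Occ R1 W1 s (Sof 𝓕1) := by
    constructor
    · intro σ hσ hn z hz'
      obtain ⟨hσO, hc⟩ := (hmem σ).1 hσ
      exact (hz σ hσO hn z hz').2 hc
    · intro σ hσ hnR hn z hz' hzS
      exact hnR ((hmem σ).2 ⟨hσ, (hz σ hσ hn z hz').1 hzS⟩)
  have hc1 := hM.min1 R1 W1 s hCl hCov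
  have hcW : W.card = W1.card + W2.card := by rw [hWe, Finset.card_union_of_disjoint hWW]
  have hW2 : W2 = ∅ := by
    rw [← Finset.card_eq_zero]
    omega
  have hc2 := hM.min2 R1 W1 s (Sof 𝓕1) hCl hCov hAdm (by omega)
  rw [card_bd hL hS, card_bd (Lam.mono Finset.subset_union_left hL) (fun x => mem_Sof),
    Finset.sum_union hF] at hc2
  refine ⟨?_, hW2⟩
  by_contra hne
  obtain ⟨F, hF2⟩ := Finset.nonempty_iff_ne_empty.2 hne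
  have h8 : 0 < (bd G F).card :=
    Finset.card_pos.2 (bd_nonempty hG (hcut F (Finset.mem_union_right _ hF2)).nonempty)
  have h9 : (bd G F).card ≤ ∑ F ∈ 𝓕2, (bd G F).card :=
    Finset.single_le_sum (f := fun F => (bd G F).card) (fun _ _ => Nat.zero_le _) hF2
  omega

/-- A8 -/
theorem two_group [Infinite V] (hG : G.Connected) {D ℓ : ℕ} (hD : D ≤ 2 * T) (hℓ : ℓ ≤ 2 * T)
    (hW : WSys G T Occ Acq) {σ0 : Sk V K} {R W : Finset (Sk V K)} {s : Fin (K + 1)} {S : Finset V}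
    (hM : MinCh G D ℓ Occ Acq σ0 R W s S) {𝓕1 𝓕2 : Finset (Finset V)} {W1 W2 : Finset (Sk V K)}
    (hF : Disjoint 𝓕1 𝓕2) (hWW : Disjoint W1 W2) (hWe : W = W1 ∪ W2)
    (hcut : ∀ F ∈ 𝓕1 ∪ 𝓕2, IsCut G F) (hL : Lam G (𝓕1 ∪ 𝓕2))
    (hS : ∀ x, x ∈ S ↔ par (𝓕1 ∪ 𝓕2) x)
    (hno : ∀ σ ∈ Occ, ∀ σ' ∈ Occ, (∃ j, σ' j ∈ ball G (2 * T) (σ j)) →
      touch G T 𝓕1 W1 σ → ¬ touch G T 𝓕2 W2 σ') :
    (𝓕1 = ∅ ∧ W1 = ∅) ∨ (𝓕2 = ∅ ∧ W2 = ∅) := by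
  have hself : ∀ (n : ℕ) (x : V), x ∈ ball G n x := fun n x =>
    mem_ball.2 ⟨SimpleGraph.Walk.nil, by simp⟩
  have hSx : ∀ z, z ∈ S ↔ ¬ (z ∈ Sof 𝓕1 ↔ z ∈ Sof 𝓕2) := by
    intro z
    rw [hS z, par_union hF z, mem_Sof, mem_Sof]
  set c1 : Sk V K → Prop := fun σ =>
    if touch G T 𝓕1 W1 σ then ¬ (σ ∈ R ↔ σ s ∈ Sof 𝓕2) else σ s ∈ Sof 𝓕1 with hc1
  set c2 : Sk V K → Prop := fun σ =>
    if touch G T 𝓕2 W2 σ then ¬ (σ ∈ R ↔ σ s ∈ Sof 𝓕1) else σ s ∈ Sof 𝓕2 with hc2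
  have P1 : ∀ σ ∈ Occ, ¬ touch G T 𝓕1 W1 σ → (c1 σ ↔ σ s ∈ Sof 𝓕1) := by
    intro σ _ h
    simp only [hc1, if_neg h]
  have P2 : ∀ σ ∈ Occ, ¬ touch G T 𝓕2 W2 σ → (c2 σ ↔ σ s ∈ Sof 𝓕2) := by
    intro σ _ h
    simp only [hc2, if_neg h]
  have P0 : ∀ σ ∈ Occ, (σ ∈ R ↔ ¬ (c1 σ ↔ c2 σ)) := by
    intro σ hσ
    by_cases h1 : touch G T 𝓕1 W1 σ
    · have h2 : ¬ touch G T 𝓕2 W2 σ := hno σ hσ σ hσ ⟨0, hself _ _⟩ h1
      simp only [hc1, hc2, if_pos h1, if_neg h2]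
      tauto
    · by_cases h2 : touch G T 𝓕2 W2 σ
      · simp only [hc1, hc2, if_neg h1, if_pos h2]
        tauto
      · simp only [hc1, hc2, if_neg h1, if_neg h2]
        have hnW : σ ∉ W := by
          rw [hWe, Finset.mem_union]
          rintro (h | h)
          · exact h1 (Or.inl h)
          · exact h2 (Or.inl h)
        have h7 : σ s ∈ S ↔ σ ∈ R := by
          by_cases hR : σ ∈ R
          · exact ⟨fun _ => hR, fun _ => hM.adm.1 σ hR hnW _ (hself _ _)⟩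
          · exact ⟨fun h => absurd h (hM.adm.2 σ hσ hR hnW _ (hself _ _)), fun h => absurd h hR⟩
        rw [← h7, hSx]
  have hσ0 : σ0 ∈ Occ := hM.cl.1 hM.cl.2.1
  by_cases h0 : c1 σ0
  · right
    exact A8_core hG hD hℓ hW hM hF hWW hWe hcut hL hS hno c1 c2 P0 P1 P2 h0
  · left
    have h0' : c2 σ0 := by
      have h3 := P0 σ0 hσ0
      have h4 : σ0 ∈ R := hM.cl.2.1
      tauto
    have P0' : ∀ σ ∈ Occ, (σ ∈ R ↔ ¬ (c2 σ ↔ c1 σ)) := by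
      intro σ hσ
      have := P0 σ hσ
      tauto
    refine A8_core hG hD hℓ hW hM hF.symm hWW.symm (by rw [hWe, Finset.union_comm])
      (by rwa [Finset.union_comm]) (by rwa [Finset.union_comm]) (by rwa [Finset.union_comm])
      ?_ c2 c1 P0' P2 P1 h0'
    rintro σ hσ σ' hσ' ⟨j, hj⟩ h1 h2
    exact hno σ' hσ' σ hσ ⟨j, ball_symm hj⟩ h2 h1

end

end Cut7315
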