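import Pool.Agent.Lib.MP_7315a9_cut.Cross

/-!
# The volume of the vacant layer

Row 7315-A3. Sketch:
D = 4 ell. Let E_a = {e ∈ bd S | ∃ σ' ∈ R \ W, e.1 ∈ ball (2 ell) (σ' s)}, E_b the others; Y_a (Y_b) =
endpoints of the edges in E_a (E_b); N_k(Y) = union of ball k y, y ∈ Y. For k < ell:
P_k = S ∪ N_k(Y_a) is Adm: for blue σ ∉ W and z ∈ ball ell (σ s), z ∉ S; if z ∈ ball k y, y endpoint of e ∈ E_a, then
dist(σ' s, σ s) ≤ 2 ell + 1 + (ell-1) + ell = 4 ell, so Cov gives σ ∈ W or σ' ∈ W, contradiction.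
Q_k = S \ N_k(Y_b) is Adm: for red σ ∉ W, z ∈ ball ell (σ s) within k of y, endpoint of e ∈ E_b: e.1 ∈ ball (2 ell) (σ s), so
e ∈ E_a, contradiction. By min2 |bd S| ≤ |bd P_k|, |bd Q_k|. A boundary edge of P_k either is an edge of bd S \ E_a or
starts in the layer N_k(Y_a) \ N_{k-1}(Y_a) (N_{-1} = ∅): |E_a| ≤ Δ |layer k|; a boundary edge of Q_k either is in
bd S \ E_b or ENDS in the layer k of Y_b: |E_b| ≤ Δ |layer k of Y_b|. Sum over k < ell: ell |E_a| ≤ Δ |N_{ell-1}(Y_a)| and the same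
for b; both sets are in the union on the right.
-/

open MeasureTheory ProbabilityTheory Set Relation
open scoped Classical

namespace Cut7315

open MP7315a9

noncomputable section

variable {V : Type*} {G : SimpleGraph V} [G.LocallyFinite] {K : ℕ} {T : ℕ} {Occ : Set (Sk V K)}
  {Acq : Sk V K → Sk V K → Prop}

private lemma A3_ball_self {n : ℕ} {x : V} : x ∈ ball G n x := by
  have h : x ∈ ball G 0 x := by simp [ball]
  exact ball_mono (Nat.zero_le n) h

private lemma A3_ball_adj {x y : V} (h : G.Adj x y) : y ∈ ball G 1 x := by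
  have h0 : x ∈ ball G 0 x := by simp [ball]
  exact ball_step h0 (Or.inr h)

/-- the points at distance at most `k` from the endpoints of the edges in `E` -/
private def A3_N (G : SimpleGraph V) [G.LocallyFinite] (E : Finset (V × V)) (k : ℕ) : Finset V :=
  E.biUnion fun e => ball G k e.1 ∪ ball G k e.2

private def A3_M (G : SimpleGraph V) [G.LocallyFinite] (E : Finset (V × V)) : ℕ → Finset V
  | 0 => ∅
  | k + 1 => A3_N G E k

private lemma A3_mem {E : Finset (V × V)} {k : ℕ} {x : V} :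
    x ∈ A3_N G E k ↔ ∃ e ∈ E, x ∈ ball G k e.1 ∨ x ∈ ball G k e.2 := by
  simp only [A3_N, Finset.mem_biUnion, Finset.mem_union]

private lemma A3_mono {E : Finset (V × V)} {k m : ℕ} (h : k ≤ m) : A3_N G E k ⊆ A3_N G E m := by
  intro x hx
  rw [A3_mem] at hx ⊢
  obtain ⟨e, he, h1⟩ := hx
  exact ⟨e, he, h1.imp (ball_mono h) (ball_mono h)⟩

private lemma A3_M_sub {E : Finset (V × V)} {k : ℕ} : A3_M G E k ⊆ A3_N G E k := by
  cases k with
  | zero => exact Finset.empty_subset _
  | succ k => exact A3_mono (Nat.le_succ k)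

/-- a neighbour of a point of the inner set is in the next one -/
private lemma A3_M_adj {E : Finset (V × V)} {k : ℕ} {a b : V} (ha : a ∈ A3_M G E k)
    (hab : G.Adj a b) : b ∈ A3_N G E k := by
  cases k with
  | zero => exact absurd ha (Finset.notMem_empty _)
  | succ k =>
    have ha' : a ∈ A3_N G E k := ha
    rw [A3_mem] at ha' ⊢
    obtain ⟨e, he, h1⟩ := ha'
    exact ⟨e, he, h1.imp (fun h => ball_step h (Or.inr hab)) (fun h => ball_step h (Or.inr hab))⟩

private lemma A3_sum {E : Finset (V × V)} {c Δ : ℕ} (n : ℕ)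
    (h : ∀ k < n, c ≤ Δ * (A3_N G E k \ A3_M G E k).card) :
    n * c ≤ Δ * (A3_M G E n).card := by
  induction n with
  | zero => simp
  | succ n ih =>
    have h1 := ih fun k hk => h k (Nat.lt_succ_of_lt hk)
    have h2 := h n (Nat.lt_succ_self n)
    have h3 : (A3_N G E n \ A3_M G E n).card + (A3_M G E n).card = (A3_N G E n).card :=
      Finset.card_sdiff_add_card_eq_card A3_M_sub
    have h4 : (A3_M G E (n + 1)).card = (A3_N G E n).card := rfl
    rw [h4, ← h3, Nat.mul_add, Nat.succ_mul]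
    omega

/-- the edges which start in a set -/
private lemma A3_edges {Δ : ℕ} (hΔ : ∀ v, G.degree v ≤ Δ) (L : Finset V) :
    (L.biUnion fun x => (G.neighborFinset x).image fun y => (x, y)).card ≤ Δ * L.card := by
  refine Finset.card_biUnion_le.trans ?_
  calc _ ≤ ∑ x ∈ L, Δ := Finset.sum_le_sum fun x _ =>
        Finset.card_image_le.trans ((G.card_neighborFinset_eq_degree x).le.trans (hΔ x))
    _ = Δ * L.card := by rw [Finset.sum_const, smul_eq_mul, mul_comm]

/-- the edges which end in a set -/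
private lemma A3_edges' {Δ : ℕ} (hΔ : ∀ v, G.degree v ≤ Δ) (L : Finset V) :
    (L.biUnion fun x => (G.neighborFinset x).image fun y => (y, x)).card ≤ Δ * L.card := by
  refine Finset.card_biUnion_le.trans ?_
  calc _ ≤ ∑ x ∈ L, Δ := Finset.sum_le_sum fun x _ =>
        Finset.card_image_le.trans ((G.card_neighborFinset_eq_degree x).le.trans (hΔ x))
    _ = Δ * L.card := by rw [Finset.sum_const, smul_eq_mul, mul_comm]

/-- A3 -/
theorem volume {Δ ℓ : ℕ} (hΔ : ∀ v, G.degree v ≤ Δ) (hℓ : 1 ≤ ℓ) {σ0 : Sk V K}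
    {R W : Finset (Sk V K)} {s : Fin (K + 1)} {S : Finset V}
    (h : MinCh G (4 * ℓ) ℓ Occ Acq σ0 R W s S) :
    ℓ * (bd G S).card ≤
      2 * Δ * ((bd G S).biUnion fun e => ball G (ℓ - 1) e.1 ∪ ball G (ℓ - 1) e.2).card := by
  set Ea := (bd G S).filter fun e => ∃ σ' ∈ R, σ' ∉ W ∧ e.1 ∈ ball G (2 * ℓ) (σ' s) with hEa
  set Eb := (bd G S).filter fun e => ¬ ∃ σ' ∈ R, σ' ∉ W ∧ e.1 ∈ ball G (2 * ℓ) (σ' s) with hEb
  have hcard : Ea.card + Eb.card = (bd G S).card := Finset.card_filter_add_card_filter_not _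
  have hEaS : Ea ⊆ bd G S := Finset.filter_subset _ _
  have hEbS : Eb ⊆ bd G S := Finset.filter_subset _ _
  -- the enlarged set
  have hP : ∀ k < ℓ, (bd G S).card ≤ (bd G (S ∪ A3_N G Ea k)).card := by
    intro k hk
    refine h.min2 R W s _ h.cl h.cov ⟨?_, ?_⟩ rfl
    · intro σ h1 h2 z hz
      exact Finset.mem_union_left _ (h.adm.1 σ h1 h2 z hz)
    · intro σ h1 h2 h3 z hz hz'
      rcases Finset.mem_union.1 hz' with h4 | h4
      · exact h.adm.2 σ h1 h2 h3 z hz h4
      · rw [A3_mem] at h4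
        obtain ⟨e, he, h5⟩ := h4
        rw [hEa, Finset.mem_filter] at he
        obtain ⟨he1, σ', h6, h7, h8⟩ := he
        have h9 : ∃ y, y ∈ ball G (2 * ℓ + 1) (σ' s) ∧ z ∈ ball G k y := by
          rcases h5 with h5 | h5
          · exact ⟨e.1, ball_mono (Nat.le_succ _) h8, h5⟩
          · exact ⟨e.2, ball_step h8 (Or.inr (mem_bd.1 he1).2.2), h5⟩
        obtain ⟨y, hy1, hy2⟩ := h9
        have h10 := ball_trans (ball_trans hy1 hy2) (ball_symm hz)
        have h11 : σ s ∈ ball G (4 * ℓ) (σ' s) := ball_mono (by omega) h10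
        rcases h.cov.2 σ' h6 σ h1 h2 h11 with h12 | h12
        · exact h7 h12
        · exact h3 h12
  have hQ : ∀ k < ℓ, (bd G S).card ≤ (bd G (S \ A3_N G Eb k)).card := by
    intro k hk
    refine h.min2 R W s _ h.cl h.cov ⟨?_, ?_⟩ rfl
    · intro σ h1 h2 z hz
      rw [Finset.mem_sdiff]
      refine ⟨h.adm.1 σ h1 h2 z hz, fun h4 => ?_⟩
      rw [A3_mem] at h4
      obtain ⟨e, he, h5⟩ := h4
      rw [hEb, Finset.mem_filter] at he
      obtain ⟨he1, he2⟩ := he
      apply he2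
      refine ⟨σ, h1, h2, ?_⟩
      rcases h5 with h5 | h5
      · exact ball_mono (by omega) (ball_trans hz (ball_symm h5))
      · have h6 := ball_step (ball_trans hz (ball_symm h5)) (Or.inr (mem_bd.1 he1).2.2.symm)
        exact ball_mono (by omega) h6
    · intro σ h1 h2 h3 z hz hz'
      exact h.adm.2 σ h1 h2 h3 z hz (Finset.mem_sdiff.1 hz').1
  -- the layers
  have hLa : ∀ k < ℓ, Ea.card ≤ Δ * (A3_N G Ea k \ A3_M G Ea k).card := by
    intro k hk
    have h1 : bd G (S ∪ A3_N G Ea k) ⊆ (bd G S \ Ea) ∪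
        ((A3_N G Ea k \ A3_M G Ea k).biUnion fun x =>
          (G.neighborFinset x).image fun y => (x, y)) := by
      rintro ⟨a, b⟩ he
      obtain ⟨ha, hb, hab⟩ := mem_bd.1 he
      have hb1 : b ∉ S := fun hb' => hb (Finset.mem_union_left _ hb')
      have hb2 : b ∉ A3_N G Ea k := fun hb' => hb (Finset.mem_union_right _ hb')
      rw [Finset.mem_union]
      by_cases haS : a ∈ S
      · left
        rw [Finset.mem_sdiff]
        refine ⟨mem_bd.2 ⟨haS, hb1, hab⟩, fun h2 => hb2 ?_⟩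
        rw [A3_mem]
        exact ⟨(a, b), h2, Or.inr A3_ball_self⟩
      · right
        have haN : a ∈ A3_N G Ea k := (Finset.mem_union.1 ha).resolve_left haS
        rw [Finset.mem_biUnion]
        refine ⟨a, ?_, ?_⟩
        · rw [Finset.mem_sdiff]
          exact ⟨haN, fun h2 => hb2 (A3_M_adj h2 hab)⟩
        · rw [Finset.mem_image]
          exact ⟨b, (G.mem_neighborFinset a b).2 hab, rfl⟩
    have h2 := (hP k hk).trans ((Finset.card_le_card h1).trans (Finset.card_union_le _ _))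
    have h3 := A3_edges hΔ (A3_N G Ea k \ A3_M G Ea k)
    have h4 := Finset.card_sdiff_add_card_eq_card hEaS
    omega
  have hLb : ∀ k < ℓ, Eb.card ≤ Δ * (A3_N G Eb k \ A3_M G Eb k).card := by
    intro k hk
    have h1 : bd G (S \ A3_N G Eb k) ⊆ (bd G S \ Eb) ∪
        ((A3_N G Eb k \ A3_M G Eb k).biUnion fun x =>
          (G.neighborFinset x).image fun y => (y, x)) := by
      rintro ⟨a, b⟩ he
      obtain ⟨ha, hb, hab⟩ := mem_bd.1 he
      obtain ⟨ha1, ha2⟩ := Finset.mem_sdiff.1 ha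
      have ha2' : a ∉ A3_N G Eb k := ha2
      rw [Finset.mem_union]
      by_cases hbS : b ∈ S
      · right
        have hbN : b ∈ A3_N G Eb k := by
          by_contra h5
          exact hb (Finset.mem_sdiff.2 ⟨hbS, h5⟩)
        rw [Finset.mem_biUnion]
        refine ⟨b, ?_, ?_⟩
        · rw [Finset.mem_sdiff]
          exact ⟨hbN, fun h2 => ha2' (A3_M_adj h2 hab.symm)⟩
        · rw [Finset.mem_image]
          exact ⟨a, (G.mem_neighborFinset b a).2 hab.symm, rfl⟩
      · left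
        rw [Finset.mem_sdiff]
        refine ⟨mem_bd.2 ⟨ha1, hbS, hab⟩, fun h2 => ha2' ?_⟩
        rw [A3_mem]
        exact ⟨(a, b), h2, Or.inl A3_ball_self⟩
    have h2 := (hQ k hk).trans ((Finset.card_le_card h1).trans (Finset.card_union_le _ _))
    have h3 := A3_edges' hΔ (A3_N G Eb k \ A3_M G Eb k)
    have h4 := Finset.card_sdiff_add_card_eq_card hEbS
    omega
  have hsub : ∀ E ⊆ bd G S, A3_M G E ℓ ⊆
      (bd G S).biUnion fun e => ball G (ℓ - 1) e.1 ∪ ball G (ℓ - 1) e.2 := by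
    intro E hE
    obtain ⟨n, rfl⟩ : ∃ n, ℓ = n + 1 := ⟨ℓ - 1, by omega⟩
    exact Finset.biUnion_subset_biUnion_of_subset_left _ hE
  have ha := A3_sum ℓ hLa
  have hb := A3_sum ℓ hLb
  have ha' := Nat.mul_le_mul_left Δ (Finset.card_le_card (hsub Ea hEaS))
  have hb' := Nat.mul_le_mul_left Δ (Finset.card_le_card (hsub Eb hEbS))
  calc ℓ * (bd G S).card = ℓ * Ea.card + ℓ * Eb.card := by rw [← hcard, Nat.mul_add]
    _ ≤ Δ * ((bd G S).biUnion fun e => ball G (ℓ - 1) e.1 ∪ ball G (ℓ - 1) e.2).card +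
        Δ * ((bd G S).biUnion fun e => ball G (ℓ - 1) e.1 ∪ ball G (ℓ - 1) e.2).card :=
      Nat.add_le_add (ha.trans ha') (hb.trans hb')
    _ = _ := by ring

end

end Cut7315
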