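import Pool.Agent.Lib.MP_7315a9_cut.Decomp
import Pool.Agent.Lib.MP_7315a9_cut.Volume
import Pool.Agent.Lib.MP_7315a9_cut.Matching
import Pool.Agent.Lib.MP_7315a9_cut.MinExists
import Pool.Agent.Lib.MP_7315a9_cut.TwoGroup
import Pool.Agent.Lib.MP_7315a9_cut.Merge

/-!
# The deterministic heart
-/

open MeasureTheory ProbabilityTheory Set Relation
open scoped Classical

namespace Cut7315

open MP7315a9

noncomputable section

variable {V : Type*} {G : SimpleGraph V} [G.LocallyFinite] {K : ℕ} {T : ℕ} {Occ : Set (Sk V K)}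
  {Acq : Sk V K → Sk V K → Prop}

lemma nadj_symm {r : ℕ} {s : Fin (K + 1)} {σ0 : Sk V K} {a b : Nd V K}
    (h : nadj G T r s σ0 a b) : nadj G T r s σ0 b a := by
  rcases a with σ | y | F <;> rcases b with σ' | y' | F' <;> simp only [nadj] at h ⊢
  · obtain ⟨j, hj⟩ := h
    exact ⟨j, ball_symm hj⟩
  all_goals exact h

/-- A maximal set of points with disjoint balls. -/
lemma exists_packing (E : Finset V) (r : ℕ) : ∃ Y ⊆ E,
    (∀ y ∈ Y, ∀ y' ∈ Y, y ≠ y' → Disjoint (ball G r y) (ball G r y')) ∧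
    ∀ u ∈ E, ∃ y ∈ Y, u ∈ ball G (2 * r) y := by
  let Pr : Finset V → Prop := fun Y =>
    ∀ y ∈ Y, ∀ y' ∈ Y, y ≠ y' → Disjoint (ball G r y) (ball G r y')
  obtain ⟨Y, hY, hmax⟩ := Finset.exists_max_image (E.powerset.filter Pr) Finset.card
    ⟨∅, by simp [Pr]⟩
  rw [Finset.mem_filter, Finset.mem_powerset] at hY
  refine ⟨Y, hY.1, hY.2, fun u hu => ?_⟩
  by_cases huY : u ∈ Y
  · exact ⟨u, huY, mem_ball.2 ⟨SimpleGraph.Walk.nil, by simp⟩⟩
  by_contra hcon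
  push Not at hcon
  have hd : ∀ y ∈ Y, Disjoint (ball G r u) (ball G r y) := by
    intro y hy
    rw [Finset.disjoint_left]
    intro z hz hz'
    refine hcon y hy ?_
    have h1 := ball_trans hz' (ball_symm hz)
    rwa [← two_mul] at h1
  have h1 := hmax (insert u Y) (by
    rw [Finset.mem_filter, Finset.mem_powerset]
    refine ⟨Finset.insert_subset hu hY.1, ?_⟩
    intro y hy y' hy' hne
    rw [Finset.mem_insert] at hy hy'
    rcases hy with rfl | hy <;> rcases hy' with rfl | hy'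
    · exact absurd rfl hne
    · exact hd y' hy'
    · exact (hd y hy).symm
    · exact hY.2 y hy y' hy' hne)
  rw [Finset.card_insert_of_notMem huY] at h1
  omega

/-- The endpoints of the boundary edges. -/
def ends (G : SimpleGraph V) [G.LocallyFinite] (𝓕 : Finset (Finset V)) : Finset V :=
  𝓕.biUnion fun F => (bd G F).biUnion fun e => {e.1, e.2}

lemma mem_ends {𝓕 : Finset (Finset V)} {u : V} :
    u ∈ ends G 𝓕 ↔ ∃ F ∈ 𝓕, ∃ e ∈ bd G F, u = e.1 ∨ u = e.2 := by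
  simp [ends]

lemma mem_vac {𝓕 : Finset (Finset V)} {ℓ : ℕ} {z : V} :
    z ∈ vac G ℓ 𝓕 ↔ ∃ u ∈ ends G 𝓕, z ∈ ball G (ℓ - 1) u := by
  simp only [vac, Finset.mem_biUnion, Finset.mem_union, mem_ends]
  constructor
  · rintro ⟨F, hF, e, he, h | h⟩
    · exact ⟨e.1, ⟨F, hF, e, he, Or.inl rfl⟩, h⟩
    · exact ⟨e.2, ⟨F, hF, e, he, Or.inr rfl⟩, h⟩
  · rintro ⟨u, ⟨F, hF, e, he, rfl | rfl⟩, h⟩
    · exact ⟨F, hF, e, he, Or.inl h⟩
    · exact ⟨F, hF, e, he, Or.inr h⟩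

lemma ball_self (n : ℕ) (x : V) : x ∈ ball G n x :=
  mem_ball.2 ⟨SimpleGraph.Walk.nil, by simp⟩

/-- A10 -/
theorem heart [Infinite V] (hG : G.Connected) {Δ ℓ r v : ℕ} (hΔ : ∀ v, G.degree v ≤ Δ)
    (hr : r + 1 ≤ ℓ) (hv : ∀ x, v ≤ (ball G r x).card) (hℓ : 4 * ℓ ≤ 2 * T)
    (hW : WSys G T Occ Acq) {σ0 : Sk V K} (h0 : ∃ R, Cl Occ Acq σ0 R) :
    ∃ c : Str V K, c.Ok G Δ ℓ r v T σ0 ∧ c.Real G (4 * ℓ) ℓ Occ Acq σ0 := by
  obtain ⟨R, W, s, S, hM⟩ := exists_minCh (G := G) (D := 4 * ℓ) (ℓ := ℓ) (by omega) h0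
  obtain ⟨𝓕, hcut, hL, hS⟩ := decomp hG S
  -- the vacant set
  have hvac : ((bd G S).biUnion fun e => ball G (ℓ - 1) e.1 ∪ ball G (ℓ - 1) e.2) = vac G ℓ 𝓕 := by
    ext z
    simp only [Finset.mem_biUnion, Finset.mem_union, vac]
    constructor
    · rintro ⟨e, he, h⟩
      obtain ⟨F, hF, h1 | h1⟩ := exists_bd hS he
      · exact ⟨F, hF, e, h1, h⟩
      · exact ⟨F, hF, e.swap, h1, h.symm⟩
    · rintro ⟨F, hF, e, he, h⟩
      rcases bd_of_bd hL hS hF he with h1 | h1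
      · exact ⟨e, h1, h⟩
      · exact ⟨e.swap, h1, h.symm⟩
  obtain ⟨Y, hYE, hY1, hY2⟩ := exists_packing (G := G) (ends G 𝓕) r
  have hocc : (R : Set (Sk V K)) ⊆ Occ := hM.cl.1
  have hσ0R : σ0 ∈ R := hM.cl.2.1
  have hWocc : (W : Set (Sk V K)) ⊆ Occ := hM.cov.1
  -- the root
  have hroot : σ0 ∈ W ∨ ∃ F ∈ 𝓕, σ0 s ∈ F := by
    by_cases h : σ0 ∈ W
    · exact Or.inl h
    · right
      have h1 := hM.adm.1 σ0 hσ0R h (σ0 s) (ball_self _ _)
      rw [hS, par] at h1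
      obtain ⟨F, hF⟩ := Finset.card_pos.1 h1.pos
      rw [Finset.mem_filter] at hF
      exact ⟨F, hF.1, hF.2⟩
  set N0 : Finset (Nd V K) := (insert σ0 W).image Nd.w ∪ Y.image Nd.y ∪ 𝓕.image Nd.c with hN0
  set P : Finset (Nd V K) := W.image Nd.w ∪ Y.image Nd.y with hPdef
  have hPN : P ⊆ N0 := by
    intro n hn
    simp only [hPdef, hN0, Finset.mem_union, Finset.mem_image, Finset.mem_insert] at hn ⊢
    rcases hn with ⟨σ, h, rfl⟩ | h
    · exact Or.inl (Or.inl ⟨σ, Or.inr h, rfl⟩)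
    · exact Or.inl (Or.inr h)
  obtain ⟨L', hL'1, hL'2, hL'3⟩ := merge (nadj G T r s σ0) N0 (Nd.w σ0) P hPN
    {n | ∃ σ ∈ Occ, n = Nd.w σ} (by
    intro L hLw hLr hn
    set Re : Nd V K → Prop :=
      ReflTransGen (fun a b => nadj G T r s σ0 a b ∧ b ∈ N0 ∪ L) (Nd.w σ0) with hRe
    have hstep : ∀ {a b}, Re a → nadj G T r s σ0 a b → b ∈ N0 → Re b := fun ha hab hb =>
      ha.tail ⟨hab, Finset.mem_union_left _ hb⟩
    have hNw : ∀ {σ}, σ ∈ W → Nd.w σ ∈ N0 := fun h => hPN (by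
      rw [hPdef]; exact Finset.mem_union_left _ (Finset.mem_image_of_mem _ h))
    have hNy : ∀ {y}, y ∈ Y → Nd.y y ∈ N0 := fun h => hPN (by
      rw [hPdef]; exact Finset.mem_union_right _ (Finset.mem_image_of_mem _ h))
    have hNc : ∀ {F}, F ∈ 𝓕 → Nd.c F ∈ N0 := fun h => by
      rw [hN0]; exact Finset.mem_union_right _ (Finset.mem_image_of_mem _ h)
    have hyF : ∀ {F e}, F ∈ 𝓕 → e ∈ bd G F → ∃ y ∈ Y, e.1 ∈ ball G (2 * r) y ∧
        nadj G T r s σ0 (Nd.c F) (Nd.y y) ∧ nadj G T r s σ0 (Nd.y y) (Nd.c F) := by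
      intro F e hF he
      obtain ⟨y, hy, h1⟩ := hY2 e.1 (mem_ends.2 ⟨F, hF, e, he, Or.inl rfl⟩)
      exact ⟨y, hy, h1, ⟨e, he, Or.inl h1⟩, ⟨e, he, Or.inl h1⟩⟩
    set W1 := W.filter fun σ => Re (Nd.w σ) with hW1
    set W2 := W.filter fun σ => ¬ Re (Nd.w σ) with hW2
    set 𝓕1 := 𝓕.filter fun F => Re (Nd.c F) with h𝓕1
    set 𝓕2 := 𝓕.filter fun F => ¬ Re (Nd.c F) with h𝓕2
    have hWu : W = W1 ∪ W2 := (Finset.filter_union_filter_not_eq _ _).symm
    have hFu : 𝓕 = 𝓕1 ∪ 𝓕2 := (Finset.filter_union_filter_not_eq _ _).symm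
    have hg1 : ¬ (𝓕1 = ∅ ∧ W1 = ∅) := by
      rintro ⟨h1, h2⟩
      rcases hroot with h | ⟨F, hF, h⟩
      · have : σ0 ∈ W1 := Finset.mem_filter.2 ⟨h, ReflTransGen.refl⟩
        rw [h2] at this; simp at this
      · have : F ∈ 𝓕1 := Finset.mem_filter.2 ⟨hF, hstep ReflTransGen.refl ⟨rfl, h⟩ (hNc hF)⟩
        rw [h1] at this; simp at this
    have hg2 : ¬ (𝓕2 = ∅ ∧ W2 = ∅) := by
      rintro ⟨h1, h2⟩
      have hallW : ∀ σ ∈ W, Re (Nd.w σ) := fun σ h => by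
        by_contra hc
        have : σ ∈ W2 := Finset.mem_filter.2 ⟨h, hc⟩
        rw [h2] at this; simp at this
      have hallF : ∀ F ∈ 𝓕, Re (Nd.c F) := fun σ h => by
        by_contra hc
        have : σ ∈ 𝓕2 := Finset.mem_filter.2 ⟨h, hc⟩
        rw [h1] at this; simp at this
      obtain ⟨n, hn, hn'⟩ := hn
      simp only [hN0, Finset.mem_union, Finset.mem_image, Finset.mem_insert] at hn
      rcases hn with (⟨σ, rfl | h, rfl⟩ | ⟨y, h, rfl⟩) | ⟨F, h, rfl⟩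
      · exact hn' ReflTransGen.refl
      · exact hn' (hallW σ h)
      · obtain ⟨F, hF, e, he, h3⟩ := mem_ends.1 (hYE h)
        refine hn' (hstep (hallF F hF) ?_ (hNy h))
        refine ⟨e, he, ?_⟩
        rcases h3 with h3 | h3
        · left; rw [h3]; exact ball_self _ _
        · right; rw [h3]; exact ball_self _ _
      · exact hn' (hallF F h)
    have hlink : ∃ σ ∈ Occ, ∃ σ' ∈ Occ, (∃ j, σ' j ∈ ball G (2 * T) (σ j)) ∧
        touch G T 𝓕1 W1 σ ∧ touch G T 𝓕2 W2 σ' := by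
      by_contra hcon
      push Not at hcon
      rcases two_group hG hℓ (by omega) hW hM (𝓕1 := 𝓕1) (𝓕2 := 𝓕2) (W1 := W1) (W2 := W2)
        (Finset.disjoint_filter_filter_not _ _ _) (Finset.disjoint_filter_filter_not _ _ _) hWu
        (by rw [← hFu]; exact hcut) (by rw [← hFu]; exact hL) (by rw [← hFu]; exact hS)
        (fun σ h σ' h' hn ht => hcon σ h σ' h' hn ht) with h | h
      · exact hg1 h
      · exact hg2 h
    obtain ⟨σ, hσ, σ', hσ', hnear, ht1, ht2⟩ := hlink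
    refine ⟨Nd.w σ, ⟨σ, hσ, rfl⟩, Nd.w σ', ⟨σ', hσ', rfl⟩, ?_⟩
    have ha : ∃ x, Re x ∧ (x = Nd.w σ ∨ nadj G T r s σ0 x (Nd.w σ)) := by
      rcases ht1 with h | ⟨F, hF, e, he, j, hj⟩
      · exact ⟨Nd.w σ, (Finset.mem_filter.1 h).2, Or.inl rfl⟩
      · rw [Finset.mem_filter] at hF
        obtain ⟨y, hy, h1, h2, _⟩ := hyF hF.1 he
        refine ⟨Nd.y y, hstep hF.2 h2 (hNy hy), Or.inr ⟨j, ?_⟩⟩
        exact ball_trans hj (ball_symm h1)
    have hb : ∃ q ∈ P, (Nd.w σ' = q ∨ nadj G T r s σ0 (Nd.w σ') q) ∧ ¬ Re q := by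
      rcases ht2 with h | ⟨F, hF, e, he, j, hj⟩
      · rw [Finset.mem_filter] at h
        exact ⟨Nd.w σ', Finset.mem_union_left _ (Finset.mem_image_of_mem _ h.1), Or.inl rfl, h.2⟩
      · rw [Finset.mem_filter] at hF
        obtain ⟨y, hy, h1, _, h2⟩ := hyF hF.1 he
        refine ⟨Nd.y y, Finset.mem_union_right _ (Finset.mem_image_of_mem _ hy),
          Or.inr ⟨j, ball_trans hj (ball_symm h1)⟩, fun h3 => hF.2 (hstep h3 h2 (hNc hF.1))⟩
    obtain ⟨q, hq, hq1, hq2⟩ := hb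
    exact ⟨q, hq, ha, hnear, hq1, hq2⟩)
  -- the linking walkers
  let unw : Nd V K → Sk V K := fun n => match n with
    | .w σ => σ
    | .y _ => σ0
    | .c _ => σ0
  set L : Finset (Sk V K) := L'.image unw with hLdef
  have hLim : L.image Nd.w = L' := by
    rw [hLdef, Finset.image_image]
    ext n
    simp only [Finset.mem_image, Function.comp]
    constructor
    · rintro ⟨a, ha, rfl⟩
      obtain ⟨σ, _, rfl⟩ := hL'1 ha
      exact ha
    · intro hn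
      obtain ⟨σ, _, rfl⟩ := hL'1 hn
      exact ⟨_, hn, rfl⟩
  have hLocc : ∀ σ ∈ L, σ ∈ Occ := by
    intro σ hσ
    obtain ⟨n, hn, rfl⟩ := Finset.mem_image.1 hσ
    obtain ⟨σ', h, rfl⟩ := hL'1 hn
    exact h
  have hPcard : P.card ≤ W.card + Y.card :=
    (Finset.card_union_le _ _).trans (add_le_add Finset.card_image_le Finset.card_image_le)
  set c : Str V K := ⟨s, W, W.filter fun σ => ¬ (σ ∈ R ↔ par 𝓕 (σ s)), L, 𝓕, Y⟩ with hc
  have hwk : c.wk σ0 = insert σ0 (W ∪ L) := rfl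
  have hnodes : c.nodes σ0 = N0 ∪ L' := by
    rw [← hLim]
    have hn1 : c.nodes σ0 = (insert σ0 (W ∪ L)).image Nd.w ∪ Y.image Nd.y ∪ 𝓕.image Nd.c := rfl
    rw [hn1]
    ext n
    simp only [hN0, Finset.mem_union, Finset.mem_image, Finset.mem_insert]
    constructor
    · rintro ((⟨σ, rfl | h | h, rfl⟩ | h) | h)
      · exact Or.inl (Or.inl (Or.inl ⟨_, Or.inl rfl, rfl⟩))
      · exact Or.inl (Or.inl (Or.inl ⟨_, Or.inr h, rfl⟩))
      · exact Or.inr ⟨_, h, rfl⟩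
      · exact Or.inl (Or.inl (Or.inr h))
      · exact Or.inl (Or.inr h)
    · rintro (((⟨σ, rfl | h, rfl⟩ | h) | h) | ⟨σ, h, rfl⟩)
      · exact Or.inl (Or.inl ⟨_, Or.inl rfl, rfl⟩)
      · exact Or.inl (Or.inl ⟨_, Or.inr (Or.inl h), rfl⟩)
      · exact Or.inl (Or.inr h)
      · exact Or.inr h
      · exact Or.inl (Or.inl ⟨_, Or.inr (Or.inr h), rfl⟩)
  -- colours
  have hred : ∀ σ ∈ Occ, (c.red σ ↔ σ ∈ R) := by
    intro σ hσ
    have hc' : c.red σ ↔ ¬ (par 𝓕 (σ s) ↔ (σ ∈ W ∧ ¬ (σ ∈ R ↔ par 𝓕 (σ s)))) := by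
      simp only [Str.red, hc, Finset.mem_filter]
    rw [hc']
    by_cases hσW : σ ∈ W
    · by_cases h1 : σ ∈ R <;> by_cases h2 : par 𝓕 (σ s) <;> simp [hσW, h1, h2]
    · by_cases h1 : σ ∈ R
      · have h2 : par 𝓕 (σ s) := (hS _).1 (hM.adm.1 σ h1 hσW _ (ball_self _ _))
        simp [hσW, h1, h2]
      · have h2 : ¬ par 𝓕 (σ s) := fun h => hM.adm.2 σ hσ h1 hσW _ (ball_self _ _) ((hS _).2 h)
        simp [hσW, h1, h2]
  refine ⟨c, ?_, ?_⟩
  · refine ⟨hcut, Finset.filter_subset _ _, ?_, ?_, ?_, ?_, ?_⟩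
    · -- the centres
      show Y.card * v ≤ (vac G ℓ 𝓕).card
      have h1 : (Y.biUnion fun y => ball G r y) ⊆ vac G ℓ 𝓕 := by
        intro z hz
        obtain ⟨y, hy, hz⟩ := Finset.mem_biUnion.1 hz
        exact mem_vac.2 ⟨y, hYE hy, ball_mono (by omega) hz⟩
      calc Y.card * v = ∑ y ∈ Y, v := by simp
        _ ≤ ∑ y ∈ Y, (ball G r y).card := Finset.sum_le_sum fun y _ => hv y
        _ = (Y.biUnion fun y => ball G r y).card := (Finset.card_biUnion fun y hy y' hy' h =>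
            hY1 y hy y' hy' h).symm
        _ ≤ _ := Finset.card_le_card h1
    · show ℓ * ∑ F ∈ 𝓕, (bd G F).card ≤ 2 * Δ * (vac G ℓ 𝓕).card
      rw [← card_bd hL hS, ← hvac]
      exact volume hΔ (by omega) hM
    · show L.card ≤ 2 * (W.card + Y.card)
      calc L.card ≤ L'.card := Finset.card_image_le
        _ ≤ 2 * P.card := hL'2
        _ ≤ _ := Nat.mul_le_mul_left 2 hPcard
    · show 1 ≤ W.card + Y.card
      rcases hroot with h | ⟨F, hF, h⟩
      · have := Finset.card_pos.2 ⟨_, h⟩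
        omega
      · obtain ⟨e, he⟩ := bd_nonempty hG (hcut F hF).nonempty
        obtain ⟨y, hy, _⟩ := hY2 e.1 (mem_ends.2 ⟨F, hF, e, he, Or.inl rfl⟩)
        have := Finset.card_pos.2 ⟨_, hy⟩
        omega
    · rw [hnodes]
      exact hL'3
  · refine ⟨?_, ?_, ?_, ?_⟩
    · intro σ hσ
      rw [hwk, Finset.mem_insert, Finset.mem_union] at hσ
      rcases hσ with rfl | h | h
      · exact hocc hσ0R
      · exact hWocc h
      · exact hLocc σ h
    · intro σ hσ hz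
      change σ s ∈ vac G ℓ 𝓕 at hz
      show σ ∈ W
      rw [← hvac] at hz
      obtain ⟨e, he, hz⟩ := Finset.mem_biUnion.1 hz
      rw [Finset.mem_union] at hz
      obtain ⟨he1, he2, he3⟩ := mem_bd.1 he
      have hb : e.1 ∈ ball G ℓ (σ s) ∧ e.2 ∈ ball G ℓ (σ s) := by
        have e1 : e.2 ∈ ball G 1 e.1 := ball_step (ball_self 0 e.1) (Or.inr he3)
        have hl : ℓ - 1 + 1 = ℓ := by omega
        rcases hz with h | h
        · have h1 := ball_symm h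
          refine ⟨ball_mono (by omega) h1, ?_⟩
          have := ball_trans h1 e1
          rwa [hl] at this
        · have h1 := ball_symm h
          refine ⟨?_, ball_mono (by omega) h1⟩
          have := ball_trans h1 (ball_symm e1)
          rwa [hl] at this
      by_contra hσW
      by_cases h1 : σ ∈ R
      · exact he2 (hM.adm.1 σ h1 hσW _ hb.2)
      · exact hM.adm.2 σ hσ h1 hσW _ hb.1 he1
    · intro σ hσ σ' hσ' h
      rw [hred σ hσ, hred σ' hσ']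
      exact ⟨fun h1 => hM.cl.2.2 σ h1 σ' hσ' h, fun h1 => hM.cl.2.2 σ' h1 σ hσ (hW.symm _ _ h)⟩
    · intro j
      obtain ⟨M, hM1, hM2, hM3⟩ := exists_matching (G := G) (T := T) (D := 4 * ℓ) (k := W.card)
        (j := j) hW.step hocc (fun W' hW' => hM.min1 R W' j hM.cl hW')
      refine ⟨M, hM1, ?_, hM3⟩
      intro p hp
      obtain ⟨h1, h2, h3, h4⟩ := hM2 p hp
      exact ⟨hocc h1, h2, (hred _ (hocc h1)).2 h1, fun h => h3 ((hred _ h2).1 h), h4⟩

end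

end Cut7315
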