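import Pool.Agent.Lib.MP_7315a9_cut.Def2

/-!
# Filling the holes of a finite set

Row 7315-A0. Sketch:
V \ S has finitely many components: every component of V \ S is adjacent to S (G connected,
S nonempty), and S has finitely many neighbours. Take A = S together with all points outside S whose component in
V \ S is finite: A = S ∪ ⋃ over the (finitely many) outer neighbours y of S with finite component
{z | ReflTransGen (fun a b => G.Adj a b ∧ b ∉ S) y z} of these components (every x ∉ S with finite component is in
the component of an outer neighbour of S: walk from x to S, last vertex before S). (2) x ∉ A: its component in V \ S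
is infinite and contained in V \ A (components are disjoint from A). (3) an edge from A to outside A starts in S
(a point of a finite component only has neighbours in its component or in S). (4) x in a finite component:
walk inside the component to an outer neighbour of S, then one step into S; reverse.
-/

open MeasureTheory ProbabilityTheory Set Relation
open scoped Classical

namespace Cut7315

open MP7315a9

noncomputable section

variable {V : Type*} {G : SimpleGraph V} [G.LocallyFinite]

/-- One step outside `S`. -/
private def Ost (G : SimpleGraph V) (S : Finset V) (a b : V) : Prop := G.Adj a b ∧ b ∉ S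

omit [G.LocallyFinite] in
private lemma ost_notMem {S : Finset V} {x z : V} (hx : x ∉ S)
    (h : ReflTransGen (Ost G S) x z) : z ∉ S := by
  induction h with
  | refl => exact hx
  | tail _ h2 _ => exact h2.2

omit [G.LocallyFinite] in
private lemma ost_symm {S : Finset V} {x z : V} (hx : x ∉ S)
    (h : ReflTransGen (Ost G S) x z) : ReflTransGen (Ost G S) z x := by
  induction h with
  | refl => exact ReflTransGen.refl
  | tail h1 h2 ih =>
    exact ReflTransGen.head ⟨h2.1.symm, ost_notMem hx h1⟩ ih

omit [G.LocallyFinite] in
private lemma ost_comp {S : Finset V} {x z : V} (hx : x ∉ S)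
    (h : ReflTransGen (Ost G S) x z) :
    {y | ReflTransGen (Ost G S) x y} = {y | ReflTransGen (Ost G S) z y} := by
  ext y
  constructor
  · intro h1
    exact (ost_symm hx h).trans h1
  · intro h1
    exact h.trans h1

omit [G.LocallyFinite] in
private lemma ost_walk {S : Finset V} {x s : V} (p : G.Walk x s) (hs : s ∈ S) (hx : x ∉ S) :
    ∃ y, ReflTransGen (Ost G S) x y ∧ y ∉ S ∧ ∃ s' ∈ S, G.Adj s' y := by
  induction p with
  | nil => exact absurd hs hx
  | @cons u v w h p ih =>
    by_cases hv : v ∈ S
    · exact ⟨u, ReflTransGen.refl, hx, v, hv, h.symm⟩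
    · obtain ⟨y, h1, h2, h3⟩ := ih hs hv
      exact ⟨y, ReflTransGen.head ⟨h, hv⟩ h1, h2, h3⟩

/-- A0 -/
theorem hull [Infinite V] (hG : G.Connected) (S : Finset V) (hS : S.Nonempty) :
    ∃ A : Finset V, S ⊆ A ∧
      (∀ x, x ∉ A → {y | ReflTransGen (fun a b => G.Adj a b ∧ b ∉ A) x y}.Infinite) ∧
      (∀ x ∈ A, ∀ y, y ∉ A → G.Adj x y → x ∈ S) ∧
      ∀ x ∈ A, ∃ s ∈ S, ReflTransGen (fun a b => G.Adj a b ∧ b ∈ A) s x := by
  obtain ⟨s0, hs0⟩ := hS
  have hnb : ∀ x, x ∉ S →
      ∃ y, ReflTransGen (Ost G S) x y ∧ y ∉ S ∧ ∃ s' ∈ S, G.Adj s' y := by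
    intro x hx
    obtain ⟨p⟩ := hG.preconnected x s0
    exact ost_walk p hs0 hx
  let B : Set V := {x | x ∈ S ∨ {y | ReflTransGen (Ost G S) x y}.Finite}
  have hB : B.Finite := by
    have h1 : (S : Set V).Finite := S.finite_toSet
    have h2 : (⋃ y ∈ (S.biUnion fun s => G.neighborFinset s),
        (if ({z | ReflTransGen (Ost G S) y z}).Finite then {z | ReflTransGen (Ost G S) y z}
          else (∅ : Set V))).Finite := by
      apply Set.Finite.biUnion (Finset.finite_toSet _)
      intro y _
      split_ifs with h
      · exact h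
      · exact Set.finite_empty
    refine (h1.union h2).subset ?_
    intro x hx
    by_cases hxS : x ∈ S
    · exact Or.inl hxS
    · right
      have hf : {y | ReflTransGen (Ost G S) x y}.Finite := by
        rcases hx with h | h
        · exact absurd h hxS
        · exact h
      obtain ⟨y, h3, _, s', hs', h5⟩ := hnb x hxS
      rw [Set.mem_iUnion₂]
      refine ⟨y, ?_, ?_⟩
      · rw [Finset.mem_biUnion]
        exact ⟨s', hs', by rw [SimpleGraph.mem_neighborFinset]; exact h5⟩
      · have h6 : {z | ReflTransGen (Ost G S) y z}.Finite := by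
          rw [← ost_comp hxS h3]; exact hf
        rw [if_pos h6]
        exact ost_symm hxS h3
  have hmem : ∀ x, x ∈ hB.toFinset ↔ x ∈ S ∨ {y | ReflTransGen (Ost G S) x y}.Finite := by
    intro x
    rw [Set.Finite.mem_toFinset]
    exact Iff.rfl
  refine ⟨hB.toFinset, ?_, ?_, ?_, ?_⟩
  · intro x hx
    exact (hmem x).2 (Or.inl hx)
  · intro x hx
    have hx' : x ∉ S ∧ ¬ {y | ReflTransGen (Ost G S) x y}.Finite := by
      rw [hmem] at hx
      exact not_or.1 hx
    refine Set.Infinite.mono ?_ hx'.2
    intro y hy
    change ReflTransGen (fun a b => G.Adj a b ∧ b ∉ hB.toFinset) x y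
    change ReflTransGen (Ost G S) x y at hy
    induction hy with
    | refl => exact ReflTransGen.refl
    | @tail b c h1 h2 ih =>
      refine ReflTransGen.tail ih ⟨h2.1, ?_⟩
      rw [hmem]
      refine not_or.2 ⟨h2.2, ?_⟩
      rw [← ost_comp hx'.1 (h1.tail h2)]
      exact hx'.2
  · intro x hx y hy hxy
    by_contra hxS
    rw [hmem] at hx hy
    have hf := hx.resolve_left hxS
    have hy' := not_or.1 hy
    apply hy'.2
    rw [← ost_comp hxS (ReflTransGen.single ⟨hxy, hy'.1⟩)]
    exact hf
  · intro x hx
    by_cases hxS : x ∈ S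
    · exact ⟨x, hxS, ReflTransGen.refl⟩
    · have hf := ((hmem x).1 hx).resolve_left hxS
      obtain ⟨y, h3, h4, s', hs', h5⟩ := hnb x hxS
      have hfy : {z | ReflTransGen (Ost G S) y z}.Finite := by
        rw [← ost_comp hxS h3]; exact hf
      refine ⟨s', hs', ?_⟩
      refine ReflTransGen.head ⟨h5, (hmem y).2 (Or.inr hfy)⟩ ?_
      have h6 := ost_symm hxS h3
      clear hx hxS hf h3
      induction h6 with
      | refl => exact ReflTransGen.refl
      | @tail b c h1 h2 ih =>
        refine ReflTransGen.tail ih ⟨h2.1, ?_⟩
        rw [hmem]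
        right
        rw [← ost_comp h4 (h1.tail h2)]
        exact hfy

end

end Cut7315
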