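import Pool.Agent.Lib.MP_7315a9_cut.Def2

/-!
# The Kotecky-Preiss bound

Row 7315-B1. Sketch:
Strong induction on Λ.card (all u): Z(u,Λ) = the left side. If u ∉ Λ it is 0. For N ∋ u connected
from u inside N: decompose N \ {u}. For a clean proof: let NB = {b ∈ Λ \ {u} | adj u b}. Every connected N is covered as
N = {u} ∪ ⋃_{b ∈ B} N_b for some B ⊆ NB and for each b ∈ B a set N_b ⊆ Λ \ {u}, b ∈ N_b, N_b = the set of points reachable from
b in N \ {u}, where B is a set of neighbours of u in N with pairwise different (disjoint) N_b: choose B MINIMAL with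
union of the N_b = N \ {u}... note adj need not be symmetric, so N_b need not be disjoint. Remedy: order NB (any
linear order, e.g. via a list) and peel: let b1, ..., bm be the neighbours; N_{b1} = reachable from b1 in N \ {u} (if b1 ∈ N),
N_{b2} = reachable from b2 in N \ {u} \ N_{b1} (if b2 is there) and so on. N \ {u} is the disjoint union (a point reachable
from bi by a path in N \ {u}: the path enters some N_{bk} or stays outside all earlier ones; once a point is in N_{bk} all
points reachable from it in the remaining set are in N_{bk} or earlier ones). So prod over N of w =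
w u * prod_i (1 or prod over N_{bi}), and N is determined by the N_{bi}: ∑_N ∏ ≤ w u ∏_{b ∈ NB} (1 + Z(b, Λ \ {u})) ≤
w u exp(∑_b w b e^{φ b}) ≤ w u e^{φ u} (induction for Λ \ {u}, h). A convenient form for induction over a list of
neighbours: for disjoint finsets: X(Λ', l) = ∑ over N ⊆ Λ' such that every n ∈ N is reachable inside N from an element
of l ∩ N, of ∏ w n, satisfies X(Λ', b :: l) ≤ (1 + Z(b,Λ')) * X(Λ', l) (map N to (N_b, N \ N_b), injective).
-/

open MeasureTheory ProbabilityTheory Set Relation
open scoped Classical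

namespace Cut7315

open MP7315a9

noncomputable section

/-- every element is reached from an element of `l` inside `N` -/
def kpCov {α : Type*} (adj : α → α → Prop) (N l : Finset α) : Prop :=
  ∀ n ∈ N, ∃ b ∈ l, b ∈ N ∧ ReflTransGen (fun a b => adj a b ∧ b ∈ N) b n

/-- the sum over connected sets -/
def kpZ {α : Type*} (adj : α → α → Prop) (w : α → ℝ) (Λ : Finset α) (u : α) : ℝ :=
  ∑ N ∈ Λ.powerset.filter (fun N => u ∈ N ∧ ConnF adj N u), ∏ n ∈ N, w n

/-- the sum over covered sets -/
def kpX {α : Type*} (adj : α → α → Prop) (w : α → ℝ) (Λ l : Finset α) : ℝ :=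
  ∑ N ∈ Λ.powerset.filter (fun N => kpCov adj N l), ∏ n ∈ N, w n

theorem kpX_empty {α : Type*} (adj : α → α → Prop) (w : α → ℝ) (Λ : Finset α) :
    kpX adj w Λ ∅ = 1 := by
  unfold kpX
  rw [Finset.sum_eq_single ∅]
  · simp
  · intro N hN hne
    exfalso
    obtain ⟨n, hn⟩ := Finset.nonempty_iff_ne_empty.2 hne
    obtain ⟨b, hb, _⟩ := (Finset.mem_filter.1 hN).2 n hn
    simp at hb
  · intro h
    exfalso
    apply h
    simp [kpCov]

theorem kp_inj {α β : Type*} (S : Finset α) (T : Finset β) (i : α → β) (f : α → ℝ) (g : β → ℝ)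
    (hi : ∀ a ∈ S, i a ∈ T) (hinj : ∀ a ∈ S, ∀ b ∈ S, i a = i b → a = b)
    (hfg : ∀ a ∈ S, f a = g (i a)) (hg : ∀ b ∈ T, 0 ≤ g b) : ∑ a ∈ S, f a ≤ ∑ b ∈ T, g b := by
  calc ∑ a ∈ S, f a = ∑ a ∈ S, g (i a) := Finset.sum_congr rfl hfg
    _ = ∑ b ∈ S.image i, g b := (Finset.sum_image (fun a ha b hb h => hinj a ha b hb h)).symm
    _ ≤ ∑ b ∈ T, g b := by
        apply Finset.sum_le_sum_of_subset_of_nonneg
        · intro b hb
          obtain ⟨a, ha, rfl⟩ := Finset.mem_image.1 hb
          exact hi a ha
        · intro b hb _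
          exact hg b hb

theorem kpX_insert {α : Type*} (adj : α → α → Prop) (w : α → ℝ) (hw : ∀ a, 0 ≤ w a)
    (Λ l : Finset α) (b : α) :
    kpX adj w Λ (insert b l) ≤ (1 + kpZ adj w Λ b) * kpX adj w Λ l := by
  set P : Finset α → Finset α := fun N =>
    if b ∈ N then N.filter (fun n => ReflTransGen (fun a c => adj a c ∧ c ∈ N) b n) else ∅ with hP
  have hPN : ∀ N, P N ⊆ N := by
    intro N
    simp only [hP]
    split_ifs
    · exact Finset.filter_subset _ _
    · exact Finset.empty_subset _
  set Zc : Finset (Finset α) := Λ.powerset.filter (fun N => b ∈ N ∧ ConnF adj N b) with hZc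
  set Xc : Finset (Finset α) := Λ.powerset.filter (fun N => kpCov adj N l) with hXc
  have hem : (∅ : Finset α) ∉ Zc := by
    intro h
    have := (Finset.mem_filter.1 h).2.1
    simp at this
  have key : kpX adj w Λ (insert b l) ≤ ∑ p ∈ (insert ∅ Zc) ×ˢ Xc,
      (∏ n ∈ p.1, w n) * ∏ n ∈ p.2, w n := by
    unfold kpX
    apply kp_inj _ _ (fun N => (P N, N \ P N))
    · intro N hN
      obtain ⟨hNΛ, hcov⟩ := Finset.mem_filter.1 hN
      rw [Finset.mem_powerset] at hNΛ
      rw [Finset.mem_product]
      constructor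
      · by_cases hb : b ∈ N
        · apply Finset.mem_insert_of_mem
          rw [hZc, Finset.mem_filter, Finset.mem_powerset]
          refine ⟨(hPN N).trans hNΛ, ?_, ?_⟩
          · simp only [hP, if_pos hb]
            exact Finset.mem_filter.2 ⟨hb, ReflTransGen.refl⟩
          · have hPe : P N = N.filter (fun n => ReflTransGen (fun a c => adj a c ∧ c ∈ N) b n) := by
              simp only [hP, if_pos hb]
            have hgen : ∀ n, ReflTransGen (fun a c => adj a c ∧ c ∈ N) b n →
                ReflTransGen (fun a c => adj a c ∧ c ∈ P N) b n := by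
              intro n hn
              induction hn with
              | refl => exact ReflTransGen.refl
              | tail h1 h2 ih =>
                refine ih.tail ⟨h2.1, ?_⟩
                rw [hPe]
                exact Finset.mem_filter.2 ⟨h2.2, h1.tail h2⟩
            intro n hn
            rw [hPe] at hn
            exact hgen n (Finset.mem_filter.1 hn).2
        · have : P N = ∅ := by simp only [hP, if_neg hb]
          rw [this]
          exact Finset.mem_insert_self _ _
      · rw [hXc, Finset.mem_filter, Finset.mem_powerset]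
        refine ⟨Finset.sdiff_subset.trans hNΛ, ?_⟩
        intro n hn
        obtain ⟨hnN, hnP⟩ := Finset.mem_sdiff.1 hn
        obtain ⟨c, hc, hcN, hreach⟩ := hcov n hnN
        have hcl : ∀ m, m ∈ P N → ∀ k, ReflTransGen (fun a c => adj a c ∧ c ∈ N) m k → k ∈ N →
            k ∈ P N := by
          intro m hm k hk hkN
          by_cases hb : b ∈ N
          · simp only [hP, if_pos hb] at hm ⊢
            exact Finset.mem_filter.2 ⟨hkN, (Finset.mem_filter.1 hm).2.trans hk⟩
          · simp only [hP, if_neg hb] at hm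
            simp at hm
        have hcP : c ∉ P N := fun h => hnP (hcl c h n hreach hnN)
        have hcb : c ≠ b := by
          rintro rfl
          apply hcP
          simp only [hP, if_pos hcN]
          exact Finset.mem_filter.2 ⟨hcN, ReflTransGen.refl⟩
        refine ⟨c, Finset.mem_of_mem_insert_of_ne hc hcb, Finset.mem_sdiff.2 ⟨hcN, hcP⟩, ?_⟩
        have hback : ∀ k, ReflTransGen (fun a c => adj a c ∧ c ∈ N) c k → k ∉ P N →
            ReflTransGen (fun a c => adj a c ∧ c ∈ N \ P N) c k := by
          intro k hk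
          induction hk with
          | refl => intro _; exact ReflTransGen.refl
          | tail h1 h2 ih =>
            rename_i m k'
            intro hk'
            have hm : m ∉ P N := fun h => hk' (hcl m h _ (ReflTransGen.single h2) h2.2)
            exact (ih hm).tail ⟨h2.1, Finset.mem_sdiff.2 ⟨h2.2, hk'⟩⟩
        exact hback n hreach hnP
    · intro N hN M hM h
      have h1 : P N = P M := congrArg Prod.fst h
      have h2 : N \ P N = M \ P M := congrArg Prod.snd h
      rw [← Finset.union_sdiff_of_subset (hPN N), ← Finset.union_sdiff_of_subset (hPN M), h2, h1]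
    · intro N hN
      simp only
      rw [mul_comm]
      exact (Finset.prod_sdiff (hPN N)).symm
    · intro p _
      exact mul_nonneg (Finset.prod_nonneg fun n _ => hw n) (Finset.prod_nonneg fun n _ => hw n)
  refine key.trans (le_of_eq ?_)
  rw [Finset.sum_product]
  simp_rw [← Finset.mul_sum]
  rw [← Finset.sum_mul, Finset.sum_insert hem]
  simp only [Finset.prod_empty]
  rfl

theorem kpX_nonneg {α : Type*} (adj : α → α → Prop) (w : α → ℝ) (hw : ∀ a, 0 ≤ w a)
    (Λ l : Finset α) : 0 ≤ kpX adj w Λ l :=
  Finset.sum_nonneg fun N _ => Finset.prod_nonneg fun n _ => hw n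

theorem kpZ_nonneg {α : Type*} (adj : α → α → Prop) (w : α → ℝ) (hw : ∀ a, 0 ≤ w a)
    (Λ : Finset α) (u : α) : 0 ≤ kpZ adj w Λ u :=
  Finset.sum_nonneg fun N _ => Finset.prod_nonneg fun n _ => hw n

theorem kpX_le {α : Type*} (adj : α → α → Prop) (w : α → ℝ) (hw : ∀ a, 0 ≤ w a)
    (Λ l : Finset α) : kpX adj w Λ l ≤ Real.exp (∑ b ∈ l, kpZ adj w Λ b) := by
  induction l using Finset.induction_on with
  | empty => rw [kpX_empty]; simp
  | insert b l hb ih =>
    refine (kpX_insert adj w hw Λ l b).trans ?_
    rw [Finset.sum_insert hb, Real.exp_add]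
    have h1 : 1 + kpZ adj w Λ b ≤ Real.exp (kpZ adj w Λ b) := by
      rw [add_comm]
      exact Real.add_one_le_exp _
    exact mul_le_mul h1 ih (kpX_nonneg adj w hw Λ l) (Real.exp_pos _).le

theorem kpZ_le {α : Type*} (adj : α → α → Prop) (w : α → ℝ) (hw : ∀ a, 0 ≤ w a)
    (Λ : Finset α) (u : α) :
    kpZ adj w Λ u ≤ w u * kpX adj w (Λ.erase u) ((Λ.erase u).filter (fun b => adj u b)) := by
  unfold kpX
  rw [Finset.mul_sum]
  unfold kpZ
  apply kp_inj _ _ (fun N => N.erase u)
  · intro N hN
    obtain ⟨hNΛ, huN, hc⟩ := Finset.mem_filter.1 hN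
    rw [Finset.mem_powerset] at hNΛ
    rw [Finset.mem_filter, Finset.mem_powerset]
    refine ⟨Finset.erase_subset_erase u hNΛ, ?_⟩
    have hgen : ∀ m, ReflTransGen (fun a c => adj a c ∧ c ∈ N) u m → m = u ∨
        ∃ b ∈ (Λ.erase u).filter (fun b => adj u b), b ∈ N.erase u ∧
          ReflTransGen (fun a c => adj a c ∧ c ∈ N.erase u) b m := by
      intro m hm
      induction hm with
      | refl => exact Or.inl rfl
      | tail h1 h2 ih =>
        rename_i m k
        by_cases hk : k = u
        · exact Or.inl hk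
        · right
          have hkN : k ∈ N.erase u := Finset.mem_erase.2 ⟨hk, h2.2⟩
          rcases ih with ih | ⟨b, hb1, hb2, hb3⟩
          · subst ih
            refine ⟨k, ?_, hkN, ReflTransGen.refl⟩
            rw [Finset.mem_filter]
            exact ⟨Finset.mem_erase.2 ⟨hk, hNΛ h2.2⟩, h2.1⟩
          · exact ⟨b, hb1, hb2, hb3.tail ⟨h2.1, hkN⟩⟩
    intro n hn
    obtain ⟨hnu, hnN⟩ := Finset.mem_erase.1 hn
    rcases hgen n (hc n hnN) with h1 | h1
    · exact absurd h1 hnu
    · exact h1
  · intro N hN M hM h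
    have h1 := (Finset.mem_filter.1 hN).2.1
    have h2 := (Finset.mem_filter.1 hM).2.1
    rw [← Finset.insert_erase h1, ← Finset.insert_erase h2]
    exact congrArg (insert u) h
  · intro N hN
    have h1 := (Finset.mem_filter.1 hN).2.1
    exact (Finset.mul_prod_erase N w h1).symm
  · intro N _
    exact mul_nonneg (hw u) (Finset.prod_nonneg fun n _ => hw n)

/-- B1 -/
theorem kp {α : Type*} (adj : α → α → Prop) (w φ : α → ℝ) (hw : ∀ a, 0 ≤ w a)
    (h : ∀ (a : α) (B : Finset α), (∀ b ∈ B, adj a b) → ∑ b ∈ B, w b * Real.exp (φ b) ≤ φ a)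
    (Λ : Finset α) (u : α) :
    ∑ N ∈ Λ.powerset.filter (fun N => u ∈ N ∧ ConnF adj N u), ∏ n ∈ N, w n ≤
      w u * Real.exp (φ u) := by
  have main : ∀ k : ℕ, ∀ (Λ : Finset α), Λ.card = k → ∀ u : α,
      kpZ adj w Λ u ≤ w u * Real.exp (φ u) := by
    intro k
    induction k using Nat.strong_induction_on with
    | _ k ih =>
      intro Λ hk u
      by_cases hu : u ∈ Λ
      · refine (kpZ_le adj w hw Λ u).trans ?_
        apply mul_le_mul_of_nonneg_left _ (hw u)
        refine (kpX_le adj w hw _ _).trans ?_
        apply Real.exp_le_exp.2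
        have hcard : (Λ.erase u).card < k := by
          rw [Finset.card_erase_of_mem hu, ← hk]
          have := Finset.card_pos.2 ⟨u, hu⟩
          omega
        calc ∑ b ∈ (Λ.erase u).filter (fun b => adj u b), kpZ adj w (Λ.erase u) b
            ≤ ∑ b ∈ (Λ.erase u).filter (fun b => adj u b), w b * Real.exp (φ b) :=
              Finset.sum_le_sum fun b _ => ih _ hcard _ rfl b
          _ ≤ φ u := h u _ fun b hb => (Finset.mem_filter.1 hb).2
      · have h0 : kpZ adj w Λ u = 0 := by
          unfold kpZ
          rw [Finset.sum_eq_zero]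
          intro N hN
          obtain ⟨hNΛ, huN, _⟩ := Finset.mem_filter.1 hN
          exact absurd (Finset.mem_powerset.1 hNΛ huN) hu
        rw [h0]
        exact mul_nonneg (hw u) (Real.exp_pos _).le
  exact main _ Λ rfl u

end

end Cut7315
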