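import Pool.Agent.Lib.MP_7315a9_cut.Def2

/-!
# The mass of the skeletons through a point

Row 7315-B4. Sketch:
Generalise: prove first the forward bound ∑_{σ ∈ B, σ 0 = x} ∏_{i<K} k ≤ Q^K by induction on K (split off the
first or last step, Fin.cons / Fin.snoc; B ⊆ product of finsets), note Q ≥ 0 (B = ∅). Then for the point j: by d x k x y =
d y k y x, d(σ 0) ∏_{i<K} k(σ i, σ (i+1)) = d(σ j) ∏_{i ≥ j} k(σ i, σ (i+1)) ∏_{i < j} k(σ (i+1), σ i), and sum over the
forward and the backward part independently: ≤ d z Q^{K-j} Q^j. (Alternative: induction on j: move the root.)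
-/

open MeasureTheory ProbabilityTheory Set Relation
open scoped Classical

namespace Cut7315

open MP7315a9

noncomputable section

variable {V : Type*}

theorem B4_prod {K : ℕ} (k : V → V → ℝ) (σ : Sk V (K + 1)) :
    ∏ i : Fin (K + 1), k (σ i.castSucc) (σ i.succ) =
      k (σ 0) (σ 1) * ∏ i : Fin K, k ((Fin.tail σ : Sk V K) i.castSucc) ((Fin.tail σ : Sk V K) i.succ) := by
  rw [Fin.prod_univ_succ]
  rfl

theorem B4_forward (k : V → V → ℝ) (hk : ∀ x y, 0 ≤ k x y) {Q : ℝ}
    (hQ : ∀ x (B : Finset V), ∑ y ∈ B, k x y ≤ Q) : ∀ (K : ℕ) (x : V) (B : Finset (Sk V K)),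
    (∀ σ ∈ B, σ 0 = x) → ∑ σ ∈ B, ∏ i : Fin K, k (σ i.castSucc) (σ i.succ) ≤ Q ^ K := by
  intro K
  induction K with
  | zero =>
    intro x B hB
    have h1 : B.card ≤ 1 := by
      rw [Finset.card_le_one]
      intro a ha b hb
      funext i
      have : i = 0 := by ext; omega
      rw [this, hB a ha, hB b hb]
    simp only [Finset.univ_eq_empty, Finset.prod_empty, Finset.sum_const, nsmul_eq_mul, mul_one, pow_zero]
    exact_mod_cast h1
  | succ K ih =>
    intro x B hB
    have hQ0 : 0 ≤ Q := by simpa using hQ x ∅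
    have hinj : Set.InjOn (fun σ : Sk V (K + 1) => (Fin.tail σ : Sk V K)) B := by
      intro a ha b hb hab
      funext i
      refine Fin.cases ?_ (fun i => ?_) i
      · rw [hB a ha, hB b hb]
      · exact congrFun hab i
    have h1 : ∑ σ ∈ B, ∏ i : Fin (K + 1), k (σ i.castSucc) (σ i.succ) =
        ∑ τ ∈ B.image (fun σ : Sk V (K + 1) => (Fin.tail σ : Sk V K)),
          k x (τ 0) * ∏ i : Fin K, k (τ i.castSucc) (τ i.succ) := by
      rw [Finset.sum_image hinj]
      refine Finset.sum_congr rfl fun σ hσ => ?_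
      rw [B4_prod, hB σ hσ]
      rfl
    rw [h1]
    set C := B.image (fun σ : Sk V (K + 1) => (Fin.tail σ : Sk V K)) with hC
    rw [← Finset.sum_fiberwise_of_maps_to (s := C) (t := C.image (fun τ => τ 0)) (g := fun τ => τ 0)
      (fun τ hτ => Finset.mem_image_of_mem _ hτ)]
    calc ∑ y ∈ C.image (fun τ => τ 0), ∑ τ ∈ C with τ 0 = y,
            k x (τ 0) * ∏ i : Fin K, k (τ i.castSucc) (τ i.succ)
        ≤ ∑ y ∈ C.image (fun τ => τ 0), k x y * Q ^ K := by
          refine Finset.sum_le_sum fun y _ => ?_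
          have h2 : ∑ τ ∈ C with τ 0 = y, k x (τ 0) * ∏ i : Fin K, k (τ i.castSucc) (τ i.succ) =
              k x y * ∑ τ ∈ C with τ 0 = y, ∏ i : Fin K, k (τ i.castSucc) (τ i.succ) := by
            rw [Finset.mul_sum]
            refine Finset.sum_congr rfl fun τ hτ => ?_
            rw [(Finset.mem_filter.1 hτ).2]
          rw [h2]
          exact mul_le_mul_of_nonneg_left (ih y _ fun τ hτ => (Finset.mem_filter.1 hτ).2) (hk _ _)
      _ = (∑ y ∈ C.image (fun τ => τ 0), k x y) * Q ^ K := by rw [Finset.sum_mul]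
      _ ≤ Q * Q ^ K := mul_le_mul_of_nonneg_right (hQ _ _) (pow_nonneg hQ0 _)
      _ = Q ^ (K + 1) := by ring

/-- B4 -/
theorem mass_sk {K : ℕ} (d : V → ℝ) (k : V → V → ℝ) (hd : ∀ x, 0 ≤ d x) (hk : ∀ x y, 0 ≤ k x y)
    (hs : ∀ x y, d x * k x y = d y * k y x) {Q : ℝ}
    (hQ : ∀ x (B : Finset V), ∑ y ∈ B, k x y ≤ Q) (z : V) (j : Fin (K + 1))
    (B : Finset (Sk V K)) (hB : ∀ σ ∈ B, σ j = z) :
    ∑ σ ∈ B, d (σ 0) * ∏ i : Fin K, k (σ i.castSucc) (σ i.succ) ≤ d z * Q ^ K := by
  have hQ0 : 0 ≤ Q := by simpa using hQ z ∅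
  induction K with
  | zero =>
    have hj : j = 0 := by ext; omega
    subst hj
    have h1 := B4_forward k hk hQ 0 z B hB
    have h2 : ∑ σ ∈ B, d (σ 0) * ∏ i : Fin 0, k (σ i.castSucc) (σ i.succ) =
        d z * ∑ σ ∈ B, ∏ i : Fin 0, k (σ i.castSucc) (σ i.succ) := by
      rw [Finset.mul_sum]
      exact Finset.sum_congr rfl fun σ hσ => by rw [hB σ hσ]
    rw [h2]
    exact mul_le_mul_of_nonneg_left h1 (hd z)
  | succ K ih =>
    induction j using Fin.cases with
    | zero =>
      have h1 := B4_forward k hk hQ (K + 1) z B hB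
      have h2 : ∑ σ ∈ B, d (σ 0) * ∏ i : Fin (K + 1), k (σ i.castSucc) (σ i.succ) =
          d z * ∑ σ ∈ B, ∏ i : Fin (K + 1), k (σ i.castSucc) (σ i.succ) := by
        rw [Finset.mul_sum]
        exact Finset.sum_congr rfl fun σ hσ => by rw [hB σ hσ]
      rw [h2]
      exact mul_le_mul_of_nonneg_left h1 (hd z)
    | succ j =>
      set C := B.image (fun σ : Sk V (K + 1) => (Fin.tail σ : Sk V K)) with hC
      set A := B.image (fun σ : Sk V (K + 1) => σ 0) with hA
      have hCz : ∀ τ ∈ C, τ j = z := by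
        intro τ hτ
        obtain ⟨σ, hσ, rfl⟩ := Finset.mem_image.1 hτ
        exact hB σ hσ
      let g : Sk V K → ℝ := fun τ => ∏ i : Fin K, k (τ i.castSucc) (τ i.succ)
      have hg : ∀ τ, 0 ≤ g τ := fun τ => Finset.prod_nonneg fun i _ => hk _ _
      have hinj : Set.InjOn (fun σ : Sk V (K + 1) => ((Fin.tail σ : Sk V K), σ 0)) B := by
        intro a _ b _ hab
        simp only [Prod.mk.injEq] at hab
        funext i
        refine Fin.cases hab.2 (fun i => congrFun hab.1 i) i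
      calc ∑ σ ∈ B, d (σ 0) * ∏ i : Fin (K + 1), k (σ i.castSucc) (σ i.succ)
          = ∑ p ∈ B.image (fun σ : Sk V (K + 1) => ((Fin.tail σ : Sk V K), σ 0)),
              d (p.1 0) * g p.1 * k (p.1 0) p.2 := by
            rw [Finset.sum_image hinj]
            refine Finset.sum_congr rfl fun σ _ => ?_
            rw [B4_prod, ← mul_assoc, hs]
            change d (σ 1) * k (σ 1) (σ 0) * g (Fin.tail σ) = d (σ 1) * g (Fin.tail σ) * k (σ 1) (σ 0)
            ring
        _ ≤ ∑ p ∈ C ×ˢ A, d (p.1 0) * g p.1 * k (p.1 0) p.2 := by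
            refine Finset.sum_le_sum_of_subset_of_nonneg ?_ fun p _ _ =>
              mul_nonneg (mul_nonneg (hd _) (hg _)) (hk _ _)
            intro p hp
            obtain ⟨σ, hσ, rfl⟩ := Finset.mem_image.1 hp
            exact Finset.mem_product.2 ⟨Finset.mem_image_of_mem _ hσ, Finset.mem_image_of_mem _ hσ⟩
        _ = ∑ τ ∈ C, (d (τ 0) * g τ) * ∑ x ∈ A, k (τ 0) x := by
            rw [Finset.sum_product]
            exact Finset.sum_congr rfl fun τ _ => by rw [Finset.mul_sum]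
        _ ≤ ∑ τ ∈ C, (d (τ 0) * g τ) * Q :=
            Finset.sum_le_sum fun τ _ => mul_le_mul_of_nonneg_left (hQ _ _) (mul_nonneg (hd _) (hg _))
        _ = (∑ τ ∈ C, d (τ 0) * g τ) * Q := by rw [Finset.sum_mul]
        _ ≤ (d z * Q ^ K) * Q := mul_le_mul_of_nonneg_right (ih j C hCz) hQ0
        _ = d z * Q ^ (K + 1) := by ring

end

end Cut7315
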