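import Pool.Agent.Lib.MP_7315a9_cut.Def2

/-!
# Transition probabilities of a block

Row 7315-B2. Sketch:
pl_singleton: pl G n x {γ} = if γ 0 = x then wt G γ else 0; so pT x y = ∑' over γ with γ 0 = x, γ T = y of
(wt γ).toReal. Reversal γ ↦ γ ∘ Fin.rev is a bijection, and deg(γ 0) wt γ = deg(γ T) wt (reversed) by stepProb_symm
(in ENNReal: do everything in ENNReal, then toReal). pT_sum: disjoint events, probability ≤ 1 (isProb_pl).
-/

open MeasureTheory ProbabilityTheory Set Relation
open scoped Classical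

namespace Cut7315

open MP7315a9

noncomputable section

variable {V : Type*} {G : SimpleGraph V} [G.LocallyFinite]
variable [MeasurableSpace V] [DiscreteMeasurableSpace V] [Countable V]

omit [MeasurableSpace V] [DiscreteMeasurableSpace V] [Countable V] in
/-- moving the root of a path from its start to its end -/
theorem PT_prod (hdeg : ∀ v, 0 < G.degree v) (n : ℕ) (γ : Fin (n + 1) → V) :
    (G.degree (γ 0) : ENNReal) *
        ∏ s : Fin n, ENNReal.ofReal (stepProb G (γ s.castSucc) (γ s.succ)) =
      (G.degree (γ (Fin.last n)) : ENNReal) *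
        ∏ s : Fin n, ENNReal.ofReal (stepProb G (γ s.succ) (γ s.castSucc)) := by
  induction n with
  | zero => simp
  | succ n ih =>
    rw [Fin.prod_univ_succ, Fin.prod_univ_succ, ← mul_assoc]
    have h1 := ih (fun i => γ i.succ)
    have h2 := stepProb_symm hdeg (γ 0) (γ 1)
    simp only [Fin.castSucc_zero, Fin.succ_zero_eq_one, Fin.succ_last, Fin.succ_castSucc] at h1 h2 ⊢
    rw [h2, mul_right_comm]
    refine (congrArg (· * ENNReal.ofReal (stepProb G (γ 1) (γ 0))) h1).trans ?_
    simp only [Nat.succ_eq_add_one]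
    ring

omit [MeasurableSpace V] [DiscreteMeasurableSpace V] [Countable V] in
/-- the weight of the reversed path -/
theorem PT_rev (hdeg : ∀ v, 0 < G.degree v) (n : ℕ) (γ : Tr V n) :
    (G.degree (γ 0) : ENNReal) * wt G γ =
      (G.degree (γ (Fin.last n)) : ENNReal) * wt G (fun i => γ (Fin.rev i) : Tr V n) := by
  have h1 : wt G (fun i => γ (Fin.rev i) : Tr V n) =
      ∏ s : Fin n, ENNReal.ofReal (stepProb G (γ s.succ) (γ s.castSucc)) := by
    unfold wt
    rw [← Equiv.prod_comp Fin.revPerm]
    refine Finset.prod_congr rfl fun s _ => ?_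
    simp only [Fin.revPerm_apply, Fin.rev_castSucc, Fin.rev_succ, Fin.rev_rev]
  rw [h1]
  exact PT_prod hdeg n γ

/-- the probability of a block as a sum over the paths -/
theorem PT_apply (hdeg : ∀ v, 0 < G.degree v) (T : ℕ) (x y : V) :
    (G.degree x : ENNReal) * pl G T x {γ | γ (Fin.last T) = y} =
      ∑' γ : Tr V T, if γ 0 = x ∧ γ (Fin.last T) = y then
        (G.degree (γ 0) : ENNReal) * wt G γ else 0 := by
  rw [pl_apply G hdeg, ← ENNReal.tsum_mul_left]
  refine tsum_congr fun γ => ?_
  by_cases h1 : γ 0 = x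
  · by_cases h2 : γ (Fin.last T) = y
    · rw [indicator_of_mem (by exact h2), if_pos h1, if_pos ⟨h1, h2⟩, h1]
    · rw [indicator_of_notMem (by exact h2), if_neg (fun h => h2 h.2), mul_zero]
  · rw [if_neg (fun h => h1 h.1)]
    by_cases h2 : γ (Fin.last T) = y
    · rw [indicator_of_mem (by exact h2), if_neg h1, mul_zero]
    · rw [indicator_of_notMem (by exact h2), mul_zero]

theorem PT_symm' (hdeg : ∀ v, 0 < G.degree v) (T : ℕ) (x y : V) :
    (G.degree x : ENNReal) * pl G T x {γ | γ (Fin.last T) = y} =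
      (G.degree y : ENNReal) * pl G T y {γ | γ (Fin.last T) = x} := by
  rw [PT_apply hdeg, PT_apply hdeg]
  rw [← Equiv.tsum_eq (Equiv.arrowCongr Fin.revPerm (Equiv.refl V))]
  refine tsum_congr fun γ => ?_
  have h0 : (Equiv.arrowCongr Fin.revPerm (Equiv.refl V)) γ =
      (fun i => γ (Fin.rev i) : Tr V T) := by
    funext i
    rfl
  rw [h0]
  simp only [Fin.rev_zero, Fin.rev_last]
  by_cases h : γ (Fin.last T) = x ∧ γ 0 = y
  · rw [if_pos h, if_pos h.symm, PT_rev hdeg]
    rfl
  · rw [if_neg h, if_neg (fun h' => h h'.symm)]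

/-- B2 -/
theorem pT_symm (hdeg : ∀ v, 0 < G.degree v) (T : ℕ) (x y : V) :
    (G.degree x : ℝ) * pT G T x y = G.degree y * pT G T y x := by
  have h := congrArg ENNReal.toReal (PT_symm' hdeg T x y)
  rw [ENNReal.toReal_mul, ENNReal.toReal_mul, ENNReal.toReal_natCast, ENNReal.toReal_natCast] at h
  exact h

/-- B3 -/
theorem pT_sum (hdeg : ∀ v, 0 < G.degree v) (T : ℕ) (x : V) (B : Finset V) :
    ∑ y ∈ B, pT G T x y ≤ 1 := by
  have hp := isProb_pl G hdeg T x
  unfold pT
  rw [← measureReal_biUnion_finset]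
  · exact measureReal_le_one
  · intro a _ b _ hab
    refine Set.disjoint_left.2 fun γ h1 h2 => hab ?_
    exact (show γ (Fin.last T) = a from h1).symm.trans (show γ (Fin.last T) = b from h2)
  · intro b _
    exact MeasurableSet.of_discrete

end

end Cut7315
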