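import Pool.Agent.Lib.MP_7315a9_cut.MassSk
import Pool.Agent.Lib.MP_7315a9_cut.PT
import Pool.Agent.Lib.MP_7315a9_cut.Fast

/-!
# The mass of the skeletons

Row 7315-D0. Sketch:
mass_sk with d = degree, k x y = pT (4τ) x y * (if y ∉ ball (3τ) x then a else 1) (symmetric by pT_symm and ball_symm);
∑_{y∈B} k = ∑ pT + (a-1) ∑_{y fast} pT ≤ 1 + (a-1)(16/27)^τ ≤ Q; wsk σ * a^nf = deg(σ 0) ∏ k.
-/

open MeasureTheory ProbabilityTheory Set Relation
open scoped Classical

namespace Cut7315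

open MP7315a9

noncomputable section

variable {V : Type*} {G : SimpleGraph V} [G.LocallyFinite] {K T : ℕ}
variable [MeasurableSpace V] [DiscreteMeasurableSpace V] [Countable V]

omit [DiscreteMeasurableSpace V] [Countable V] in
private theorem d0_pT_nonneg (T : ℕ) (x y : V) : 0 ≤ pT G T x y := by
  unfold pT
  exact measureReal_nonneg

/-- D0 -/
theorem mass_wsk (hdeg : ∀ v, 0 < G.degree v) {τ : ℕ} {a Q : ℝ} (ha : 1 ≤ a)
    (hQ : 1 + (a - 1) * (16 / 27) ^ τ ≤ Q) (z : V) (j : Fin (K + 1)) (B : Finset (Sk V K))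
    (hB : ∀ σ ∈ B, σ j = z) :
    ∑ σ ∈ B, wsk G (4 * τ) σ * a ^ nf G τ σ ≤ G.degree z * Q ^ K := by
  have h := mass_sk (K := K) (fun x => (G.degree x : ℝ))
    (fun x y => pT G (4 * τ) x y * (if y ∉ ball G (3 * τ) x then a else 1))
    (fun x => Nat.cast_nonneg _)
    (fun x y => mul_nonneg (d0_pT_nonneg _ _ _) (by split_ifs <;> linarith))
    (fun x y => by
      have h1 := pT_symm (G := G) hdeg (4 * τ) x y
      have h2 : (y ∉ ball G (3 * τ) x) ↔ (x ∉ ball G (3 * τ) y) := 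
        not_congr ⟨ball_symm, ball_symm⟩
      simp only [h2]
      rw [← mul_assoc, h1, mul_assoc])
    (Q := Q)
    (fun x B' => by
      have h1 := pT_sum (G := G) hdeg (4 * τ) x B'
      have h2 := pT_fast (G := G) hdeg τ x (B'.filter fun y => y ∉ ball G (3 * τ) x)
        (fun y hy => (Finset.mem_filter.1 hy).2)
      have h3 : ∑ y ∈ B', pT G (4 * τ) x y * (if y ∉ ball G (3 * τ) x then a else 1) =
          ∑ y ∈ B', pT G (4 * τ) x y +
            (a - 1) * ∑ y ∈ B'.filter (fun y => y ∉ ball G (3 * τ) x), pT G (4 * τ) x y := by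
        rw [Finset.mul_sum, Finset.sum_filter, ← Finset.sum_add_distrib]
        refine Finset.sum_congr rfl fun y _ => ?_
        split_ifs <;> ring
      have h4 := mul_le_mul_of_nonneg_left h2 (sub_nonneg.2 ha)
      show ∑ y ∈ B', pT G (4 * τ) x y * (if y ∉ ball G (3 * τ) x then a else 1) ≤ Q
      rw [h3]
      linarith) z j B hB
  refine le_trans (le_of_eq ?_) h
  refine Finset.sum_congr rfl fun σ _ => ?_
  show wsk G (4 * τ) σ * a ^ nf G τ σ = (G.degree (σ 0) : ℝ) * ∏ i : Fin K,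
    (pT G (4 * τ) (σ i.castSucc) (σ i.succ) *
      (if σ i.succ ∉ ball G (3 * τ) (σ i.castSucc) then a else 1))
  have hp : ∏ i : Fin K, (if σ i.succ ∉ ball G (3 * τ) (σ i.castSucc) then a else 1) =
      a ^ nf G τ σ := by
    rw [Finset.prod_ite]
    simp [nf]
  rw [Finset.prod_mul_distrib, hp, ← mul_assoc]
  rfl

end

end Cut7315
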