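import Pool.Agent.Lib.MP_7315a9_cut.Def2

/-!
# Minimal edge cutsets

Row 7315-A11. Sketch:
Injection F ↦ boundary edge set E(F) = (bd F).image (fun e => s(e.1, e.2)) from the cuts around x with
|bd F| = n to MinSep sets of card n. Card: the map e ↦ s(e.1,e.2) is injective on bd F. Sep: in G minus E(F) the
component of x is F (walks cannot leave F; F is connected by edges inside F, which are not deleted): this also gives
injectivity of F ↦ E(F). Minimality: E' ⊂ E(F), take s(a,b) ∈ E(F) \ E', a ∈ F, b ∉ F: x reaches a inside F, then b, then the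
infinite component of b outside F (edges with both ends outside F are not in E(F)): infinite.
-/

open MeasureTheory ProbabilityTheory Set Relation
open scoped Classical

namespace Cut7315

open MP7315a9

noncomputable section

variable {V : Type*} {G : SimpleGraph V} [G.LocallyFinite]

/-- The edges of `E` separate `x` from infinity. -/
def Sep (G : SimpleGraph V) (E : Finset (Sym2 V)) (x : V) : Prop :=
  {y | (G.deleteEdges (E : Set (Sym2 V))).Reachable x y}.Finite

/-- `E` is a minimal edge cutset between `x` and infinity. -/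
def MinSep (G : SimpleGraph V) (E : Finset (Sym2 V)) (x : V) : Prop :=
  Sep G E x ∧ ∀ E' ⊂ E, ¬ Sep G E' x

/-- The boundary edges of `F`, unoriented. -/
def A11_E (G : SimpleGraph V) [G.LocallyFinite] (F : Finset V) : Finset (Sym2 V) :=
  (bd G F).image fun e => s(e.1, e.2)

lemma A11_mem {F : Finset V} {a b : V} (ha : a ∈ F) :
    s(a, b) ∈ A11_E G F ↔ b ∉ F ∧ G.Adj a b := by
  unfold A11_E
  rw [Finset.mem_image]
  constructor
  · rintro ⟨e, he, h⟩
    rw [mem_bd] at he
    rw [Sym2.eq_iff] at h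
    rcases h with ⟨h1, h2⟩ | ⟨h1, h2⟩
    · rw [← h1, ← h2]
      exact he.2
    · exfalso
      apply he.2.1
      rw [h2]
      exact ha
  · rintro ⟨hb, hab⟩
    exact ⟨(a, b), mem_bd.2 ⟨ha, hb, hab⟩, rfl⟩

lemma A11_not_mem {F : Finset V} {a b : V} (ha : a ∉ F) (hb : b ∉ F) : s(a, b) ∉ A11_E G F := by
  unfold A11_E
  rw [Finset.mem_image]
  rintro ⟨e, he, h⟩
  rw [mem_bd] at he
  rw [Sym2.eq_iff] at h
  rcases h with ⟨h1, h2⟩ | ⟨h1, h2⟩
  · exact ha (h1 ▸ he.1)
  · exact hb (h1 ▸ he.1)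

lemma A11_card (F : Finset V) : (A11_E G F).card = (bd G F).card := by
  unfold A11_E
  apply Finset.card_image_of_injOn
  rintro ⟨a, b⟩ he ⟨a', b'⟩ he' h
  rw [Finset.mem_coe, mem_bd] at he he'
  simp only at h he he'
  rw [Sym2.eq_iff] at h
  rcases h with ⟨h1, h2⟩ | ⟨h1, h2⟩
  · rw [h1, h2]
  · exfalso
    apply he'.2.1
    rw [← h1]
    exact he.1

lemma A11_in {F : Finset V} {E' : Finset (Sym2 V)} (hE : E' ⊆ A11_E G F) {x y : V} (hx : x ∈ F)
    (h : ReflTransGen (fun a b => G.Adj a b ∧ b ∈ F) x y) :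
    y ∈ F ∧ (G.deleteEdges (E' : Set (Sym2 V))).Reachable x y := by
  induction h with
  | refl => exact ⟨hx, SimpleGraph.Reachable.refl _⟩
  | @tail b c _ hbc ih =>
    refine ⟨hbc.2, ih.2.trans (SimpleGraph.Adj.reachable ?_)⟩
    rw [SimpleGraph.deleteEdges_adj]
    refine ⟨hbc.1, fun hm => ?_⟩
    exact ((A11_mem ih.1).1 (hE hm)).1 hbc.2

lemma A11_out {F : Finset V} {E' : Finset (Sym2 V)} (hE : E' ⊆ A11_E G F) {x y : V} (hx : x ∉ F)
    (h : ReflTransGen (fun a b => G.Adj a b ∧ b ∉ F) x y) :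
    y ∉ F ∧ (G.deleteEdges (E' : Set (Sym2 V))).Reachable x y := by
  induction h with
  | refl => exact ⟨hx, SimpleGraph.Reachable.refl _⟩
  | @tail b c _ hbc ih =>
    refine ⟨hbc.2, ih.2.trans (SimpleGraph.Adj.reachable ?_)⟩
    rw [SimpleGraph.deleteEdges_adj]
    exact ⟨hbc.1, fun hm => A11_not_mem ih.1 hbc.2 (hE hm)⟩

lemma A11_stay {F : Finset V} {x y : V} (hx : x ∈ F)
    (h : (G.deleteEdges (A11_E G F : Set (Sym2 V))).Reachable x y) : y ∈ F := by
  obtain ⟨w⟩ := h
  induction w with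
  | nil => exact hx
  | @cons u v w hadj p ih =>
    apply ih
    rw [SimpleGraph.deleteEdges_adj] at hadj
    by_contra hv
    exact hadj.2 ((A11_mem hx).2 ⟨hv, hadj.1⟩)

lemma A11_set {F : Finset V} {x : V} (hx : x ∈ F) (hF : IsCut G F) :
    {y | (G.deleteEdges (A11_E G F : Set (Sym2 V))).Reachable x y} = (F : Set V) := by
  ext y
  rw [Set.mem_ofPred_eq, Finset.mem_coe]
  exact ⟨A11_stay hx, fun hy => (A11_in (Finset.Subset.refl _) hx (hF.conn x hx y hy)).2⟩

lemma A11_minSep {F : Finset V} {x : V} (hx : x ∈ F) (hF : IsCut G F) :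
    MinSep G (A11_E G F) x := by
  constructor
  · unfold Sep
    rw [A11_set hx hF]
    exact F.finite_toSet
  · intro E' hE' hsep
    have hsub : E' ⊆ A11_E G F := hE'.1
    obtain ⟨e, he, hne⟩ := (Finset.ssubset_iff_of_subset hsub).1 hE'
    unfold A11_E at he
    rw [Finset.mem_image] at he
    obtain ⟨⟨a, b⟩, hab, rfl⟩ := he
    rw [mem_bd] at hab
    simp only at hab hne
    have h1 := (A11_in hsub hx (hF.conn x hx a hab.1)).2
    have h2 : (G.deleteEdges (E' : Set (Sym2 V))).Adj a b := by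
      rw [SimpleGraph.deleteEdges_adj]
      exact ⟨hab.2.2, fun h => hne h⟩
    apply hF.inf b hab.2.1
    refine hsep.subset ?_
    intro y hy
    exact (h1.trans h2.reachable).trans (A11_out hsub hab.2.1 hy).2

/-- A11 -/
theorem cutBound_of_minSep (hG : G.Connected) {C : ℕ}
    (h : ∀ (x : V) (n : ℕ) (P : Finset (Finset (Sym2 V))),
      (∀ E ∈ P, MinSep G E x ∧ E.card = n) → P.card ≤ C ^ n) : CutBound G C := by
  intro x n 𝓕 h𝓕
  have hinj : Set.InjOn (A11_E G) (𝓕 : Set (Finset V)) := by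
    intro F hF F' hF' he
    have h1 := A11_set (h𝓕 F hF).1 (h𝓕 F hF).2.1
    have h2 := A11_set (h𝓕 F' hF').1 (h𝓕 F' hF').2.1
    rw [he] at h1
    exact Finset.coe_injective (h1.symm.trans h2)
  rw [← Finset.card_image_of_injOn hinj]
  apply h x n
  intro E hE
  rw [Finset.mem_image] at hE
  obtain ⟨F, hF, rfl⟩ := hE
  exact ⟨A11_minSep (h𝓕 F hF).1 (h𝓕 F hF).2.1, (A11_card F).trans (h𝓕 F hF).2.2⟩

end

end Cut7315
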