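import Pool.Agent.Lib.MP_7315a9_cut.Def2

/-!
# Paths that meet

Row 7315-P4. Sketch:
pair_meet: γ stays at x until time D, then walks to y (≤ 3τ steps, 3τ ≤ 4τ - D) and stays; γ' walks from x'
to x in the first D steps (and waits), then from x back to y' (distance ≤ D + 3τ ≤ 4τ - D) and stays. They meet at time D at x.
Build a general lemma first: y ∈ ball m x, m ≤ n → ∃ γ : ℕ → V, γ 0 = x, γ n = y, steps stay or move along edges; and
concatenation. wt_ge: each legal step has stepProb ≥ 1/(2Δ).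
-/

open MeasureTheory ProbabilityTheory Set Relation
open scoped Classical

namespace Cut7315

open MP7315a9

noncomputable section

variable {V : Type*} {G : SimpleGraph V} [G.LocallyFinite] {K T : ℕ}

/-- a walk of length at most `m`, then constant -/
private lemma P4_walk {m : ℕ} {x y : V} (h : y ∈ ball G m x) :
    ∃ γ : ℕ → V, γ 0 = x ∧ (∀ k, m ≤ k → γ k = y) ∧
      ∀ k, γ (k + 1) = γ k ∨ G.Adj (γ k) (γ (k + 1)) := by
  obtain ⟨p, hp⟩ := mem_ball.1 h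
  refine ⟨p.getVert, p.getVert_zero, fun k hk => p.getVert_of_length_le (hp.trans hk), fun k => ?_⟩
  rcases lt_or_ge k p.length with hk | hk
  · right
    exact p.adj_getVert_succ hk
  · left
    rw [p.getVert_of_length_le hk, p.getVert_of_length_le (hk.trans (Nat.le_succ k))]

omit [G.LocallyFinite] in
/-- concatenation -/
private lemma P4_cat (n : ℕ) {γ₁ γ₂ : ℕ → V} (h : γ₂ 0 = γ₁ n)
    (h1 : ∀ k, γ₁ (k + 1) = γ₁ k ∨ G.Adj (γ₁ k) (γ₁ (k + 1)))
    (h2 : ∀ k, γ₂ (k + 1) = γ₂ k ∨ G.Adj (γ₂ k) (γ₂ (k + 1))) :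
    ∃ γ : ℕ → V, γ 0 = γ₁ 0 ∧ (∀ k, n ≤ k → γ k = γ₂ (k - n)) ∧
      ∀ k, γ (k + 1) = γ k ∨ G.Adj (γ k) (γ (k + 1)) := by
  refine ⟨fun k => if k < n then γ₁ k else γ₂ (k - n), ?_, ?_, ?_⟩
  · rcases Nat.eq_zero_or_pos n with hn | hn
    · subst hn
      simpa using h
    · simp [hn]
  · intro k hk
    simp [not_lt.2 hk]
  · intro k
    rcases lt_trichotomy (k + 1) n with hk | hk | hk
    · have h3 : k < n := by omega
      simpa [hk, h3] using h1 k
    · subst hk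
      simpa [h] using h1 k
    · have h3 : ¬ k < n := by omega
      have h4 : ¬ k + 1 < n := by omega
      have h5 : k + 1 - n = k - n + 1 := by omega
      simpa [h3, h4, h5] using h2 (k - n)

private lemma P4_trans {n m : ℕ} {x y z : V} (h : y ∈ ball G n x) (h' : z ∈ ball G m y) :
    z ∈ ball G (n + m) x := by
  obtain ⟨p, hp⟩ := mem_ball.1 h
  obtain ⟨q, hq⟩ := mem_ball.1 h'
  exact mem_ball.2 ⟨p.append q, by rw [SimpleGraph.Walk.length_append]; omega⟩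

/-- P4 -/
theorem pair_meet {D τ : ℕ} (hD : 2 * D ≤ τ) {x x' y y' : V}
    (h : x' ∈ ball G D x) (hy : y ∈ ball G (3 * τ) x) (hy' : y' ∈ ball G (3 * τ) x') :
    ∃ γ γ' : Tr V (4 * τ), γ 0 = x ∧ γ' 0 = x' ∧ γ (Fin.last _) = y ∧ γ' (Fin.last _) = y' ∧
      Meet γ γ' ∧ Lg G γ ∧ Lg G γ' := by
  obtain ⟨a, a0, a1, a2⟩ := P4_walk hy
  obtain ⟨b, b0, b1, b2⟩ := P4_walk (ball_symm h)
  obtain ⟨c, c0, c1, c2⟩ := P4_walk (P4_trans h hy')
  obtain ⟨γ, g0, g1, g2⟩ := P4_cat (G := G) D (γ₁ := fun _ => x) (γ₂ := a) a0 (fun _ => Or.inl rfl) a2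
  obtain ⟨γ', g0', g1', g2'⟩ := P4_cat (G := G) D (γ₁ := b) (γ₂ := c) (by rw [c0, b1 D le_rfl]) b2 c2
  refine ⟨fun i => γ i, fun i => γ' i, ?_, ?_, ?_, ?_, ⟨⟨D, by omega⟩, ?_⟩, ?_, ?_⟩
  · simpa using g0
  · simpa [b0] using g0'
  · simp only [Fin.val_last]
    rw [g1 _ (by omega), a1 _ (by omega)]
  · simp only [Fin.val_last]
    rw [g1' _ (by omega), c1 _ (by omega)]
  · show γ D = γ' D
    rw [g1 D le_rfl, g1' D le_rfl, Nat.sub_self, a0, c0]
  · intro s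
    simpa using g2 s
  · intro s
    simpa using g2' s

/-- P5 -/
theorem wt_ge {Δ : ℕ} (hΔ : ∀ v, G.degree v ≤ Δ) (hdeg : ∀ v, 0 < G.degree v) {n : ℕ}
    {γ : Tr V n} (h : Lg G γ) : ENNReal.ofReal (((2 * Δ : ℝ) ^ n)⁻¹) ≤ wt G γ := by
  have h1 : ∀ s : Fin n, ENNReal.ofReal ((2 * Δ : ℝ)⁻¹) ≤
      ENNReal.ofReal (stepProb G (γ s.castSucc) (γ s.succ)) := by
    intro s
    apply ENNReal.ofReal_le_ofReal
    have hd : (G.degree (γ s.castSucc) : ℝ) ≤ Δ := by exact_mod_cast hΔ _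
    have hd' : (1 : ℝ) ≤ G.degree (γ s.castSucc) := by exact_mod_cast hdeg (γ s.castSucc)
    have hΔ1 : (1 : ℝ) ≤ Δ := hd'.trans hd
    unfold stepProb
    rcases h s with h2 | h2
    · rw [if_pos h2, one_div]
      exact inv_anti₀ (by norm_num) (by linarith)
    · rw [if_neg (fun h3 => h2.ne h3.symm), if_pos h2, one_div]
      exact inv_anti₀ (by linarith) (by linarith)
  unfold wt
  calc ENNReal.ofReal (((2 * Δ : ℝ) ^ n)⁻¹) = (ENNReal.ofReal ((2 * Δ : ℝ)⁻¹)) ^ n := by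
        rw [← ENNReal.ofReal_pow (by positivity), inv_pow]
    _ = ∏ _s : Fin n, ENNReal.ofReal ((2 * Δ : ℝ)⁻¹) := by simp
    _ ≤ _ := Finset.prod_le_prod' fun s _ => h1 s

end

end Cut7315
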