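import Pool.Agent.Lib.MP_7315a9_cut.Def2

/-!
# Families of cuts

Row 7315-A2. Sketch:
Elementary. par_union: the filters are disjoint, Nat.odd_add. For an edge a,b the number of
members containing a minus the number of members containing b has the parity of the number of separating members.
With Lam: (a ∈ S ↔ b ∉ S) iff exactly one member separates a,b. bd_of_bd: F separates e.1, e.2, so it is the only one, so
the parities differ. exists_bd: the parities differ so some member separates. card_bd: map the pairs (F, e), F ∈ 𝓕,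
e ∈ bd F, to bd S by e or e.swap (whichever is in bd S); bijective by Lam. bd_nonempty: F ≠ univ, so take a point
outside F and a walk to a point of F.
-/

open MeasureTheory ProbabilityTheory Set Relation
open scoped Classical

namespace Cut7315

open MP7315a9

noncomputable section

variable {V : Type*} {G : SimpleGraph V} [G.LocallyFinite]

omit [G.LocallyFinite] in
/-- A2a -/
theorem mem_Sof {𝓕 : Finset (Finset V)} {x : V} : x ∈ Sof 𝓕 ↔ par 𝓕 x := by
  unfold Sof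
  rw [Finset.mem_filter]
  refine ⟨fun h => h.2, fun h => ⟨?_, h⟩⟩
  have h1 : (𝓕.filter fun F => x ∈ F).Nonempty := by
    rw [Finset.nonempty_iff_ne_empty]
    intro h0
    unfold par at h
    rw [h0] at h
    simp at h
  obtain ⟨F, hF⟩ := h1
  rw [Finset.mem_filter] at hF
  exact Finset.mem_biUnion.2 ⟨F, hF.1, hF.2⟩

omit [G.LocallyFinite] in
/-- A2b -/
theorem Lam.mono {𝓕 𝓕' : Finset (Finset V)} (h : 𝓕' ⊆ 𝓕) (hL : Lam G 𝓕) : Lam G 𝓕' := by
  intro a b hab
  exact (Finset.card_le_card (Finset.filter_subset_filter _ h)).trans (hL a b hab)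

omit [G.LocallyFinite] in
/-- A2c -/
theorem par_union {𝓕1 𝓕2 : Finset (Finset V)} (h : Disjoint 𝓕1 𝓕2) (x : V) :
    par (𝓕1 ∪ 𝓕2) x ↔ ¬ (par 𝓕1 x ↔ par 𝓕2 x) := by
  unfold par
  rw [Finset.filter_union, Finset.card_union_of_disjoint (Finset.disjoint_filter_filter h),
    Nat.odd_add, ← Nat.not_odd_iff_even]
  tauto

omit [G.LocallyFinite] in
theorem parA2_sep {𝓕 : Finset (Finset V)} (a b : V) :
    ¬ (par 𝓕 a ↔ par 𝓕 b) ↔ Odd (𝓕.filter fun F => ¬ (a ∈ F ↔ b ∈ F)).card := by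
  unfold par
  have e1 : (𝓕.filter fun F => a ∈ F).card =
      (𝓕.filter fun F => a ∈ F ∧ b ∈ F).card + (𝓕.filter fun F => a ∈ F ∧ b ∉ F).card := by
    rw [← Finset.card_union_of_disjoint]
    · congr 1
      ext F
      simp only [Finset.mem_filter, Finset.mem_union]
      tauto
    · rw [Finset.disjoint_left]
      intro F h1 h2
      simp only [Finset.mem_filter] at h1 h2
      exact h2.2.2 h1.2.2
  have e2 : (𝓕.filter fun F => b ∈ F).card =
      (𝓕.filter fun F => a ∈ F ∧ b ∈ F).card + (𝓕.filter fun F => a ∉ F ∧ b ∈ F).card := by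
    rw [← Finset.card_union_of_disjoint]
    · congr 1
      ext F
      simp only [Finset.mem_filter, Finset.mem_union]
      tauto
    · rw [Finset.disjoint_left]
      intro F h1 h2
      simp only [Finset.mem_filter] at h1 h2
      exact h2.2.1 h1.2.1
  have e3 : (𝓕.filter fun F => ¬ (a ∈ F ↔ b ∈ F)).card =
      (𝓕.filter fun F => a ∈ F ∧ b ∉ F).card + (𝓕.filter fun F => a ∉ F ∧ b ∈ F).card := by
    rw [← Finset.card_union_of_disjoint]
    · congr 1
      ext F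
      simp only [Finset.mem_filter, Finset.mem_union]
      tauto
    · rw [Finset.disjoint_left]
      intro F h1 h2
      simp only [Finset.mem_filter] at h1 h2
      exact h2.2.1 h1.2.1
  rw [e1, e2, e3]
  simp only [Nat.odd_iff]
  omega

omit [G.LocallyFinite] in
theorem parA2_one {𝓕 : Finset (Finset V)} (hL : Lam G 𝓕) {F : Finset V} (hF : F ∈ 𝓕) {a b : V}
    (hab : G.Adj a b) (h : ¬ (a ∈ F ↔ b ∈ F)) :
    Odd (𝓕.filter fun F => ¬ (a ∈ F ↔ b ∈ F)).card := by
  have h1 := hL a b hab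
  have h2 : 0 < (𝓕.filter fun F => ¬ (a ∈ F ↔ b ∈ F)).card :=
    Finset.card_pos.2 ⟨F, Finset.mem_filter.2 ⟨hF, h⟩⟩
  have h3 : (𝓕.filter fun F => ¬ (a ∈ F ↔ b ∈ F)).card = 1 := le_antisymm h1 h2
  rw [h3]
  exact odd_one

/-- A2d -/
theorem bd_of_bd {𝓕 : Finset (Finset V)} {S : Finset V} (hL : Lam G 𝓕)
    (hS : ∀ x, x ∈ S ↔ par 𝓕 x) {F : Finset V} (hF : F ∈ 𝓕) {e : V × V} (he : e ∈ bd G F) :
    e ∈ bd G S ∨ e.swap ∈ bd G S := by
  obtain ⟨h1, h2, h3⟩ := mem_bd.1 he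
  have h4 := (parA2_sep e.1 e.2).2 (parA2_one hL hF h3 (by tauto))
  rw [← hS, ← hS] at h4
  by_cases h5 : e.1 ∈ S
  · exact Or.inl (mem_bd.2 ⟨h5, by tauto, h3⟩)
  · exact Or.inr (mem_bd.2 ⟨by
      show e.2 ∈ S
      tauto, h5, h3.symm⟩)

/-- A2e -/
theorem exists_bd {𝓕 : Finset (Finset V)} {S : Finset V}
    (hS : ∀ x, x ∈ S ↔ par 𝓕 x) {e : V × V} (he : e ∈ bd G S) :
    ∃ F ∈ 𝓕, e ∈ bd G F ∨ e.swap ∈ bd G F := by
  obtain ⟨h1, h2, h3⟩ := mem_bd.1 he
  rw [hS] at h1 h2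
  have h4 := (parA2_sep (𝓕 := 𝓕) e.1 e.2).1 (by tauto)
  have h5 : (𝓕.filter fun F => ¬ (e.1 ∈ F ↔ e.2 ∈ F)).Nonempty := by
    rw [Finset.nonempty_iff_ne_empty]
    intro h0
    rw [h0] at h4
    simp at h4
  obtain ⟨F, hF⟩ := h5
  obtain ⟨hF1, hF2⟩ := Finset.mem_filter.1 hF
  refine ⟨F, hF1, ?_⟩
  by_cases h6 : e.1 ∈ F
  · exact Or.inl (mem_bd.2 ⟨h6, by tauto, h3⟩)
  · exact Or.inr (mem_bd.2 ⟨by
      show e.2 ∈ F
      tauto, h6, h3.symm⟩)

/-- A2f -/
theorem card_bd {𝓕 : Finset (Finset V)} {S : Finset V} (hL : Lam G 𝓕)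
    (hS : ∀ x, x ∈ S ↔ par 𝓕 x) : (bd G S).card = ∑ F ∈ 𝓕, (bd G F).card := by
  rw [← Finset.card_sigma]
  symm
  refine Finset.card_bij (fun p _ => if p.2 ∈ bd G S then p.2 else p.2.swap) ?_ ?_ ?_
  · intro p hp
    obtain ⟨h1, h2⟩ := Finset.mem_sigma.1 hp
    have h3 := bd_of_bd hL hS h1 h2
    by_cases h4 : p.2 ∈ bd G S
    · rw [if_pos h4]
      exact h4
    · rw [if_neg h4]
      exact h3.resolve_left h4
  · rintro ⟨F, e⟩ hp ⟨F', e'⟩ hp' h
    obtain ⟨h1, h2⟩ := Finset.mem_sigma.1 hp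
    obtain ⟨h1', h2'⟩ := Finset.mem_sigma.1 hp'
    simp only at h1 h2 h1' h2' h
    have hee : e' = e ∨ e' = e.swap := by
      by_cases h4 : e ∈ bd G S <;> by_cases h4' : e' ∈ bd G S
      · rw [if_pos h4, if_pos h4'] at h
        exact Or.inl h.symm
      · rw [if_pos h4, if_neg h4'] at h
        right
        rw [h, Prod.swap_swap]
      · rw [if_neg h4, if_pos h4'] at h
        exact Or.inr h.symm
      · rw [if_neg h4, if_neg h4'] at h
        exact Or.inl (Prod.swap_injective h).symm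
    obtain ⟨a1, a2, a3⟩ := mem_bd.1 h2
    obtain ⟨b1, b2, b3⟩ := mem_bd.1 h2'
    have hFF : F = F' := by
      have hone := Finset.card_le_one.1 (hL e.1 e.2 a3)
      refine hone F (Finset.mem_filter.2 ⟨h1, by tauto⟩) F' (Finset.mem_filter.2 ⟨h1', ?_⟩)
      rcases hee with rfl | rfl
      · tauto
      · simp only [Prod.fst_swap, Prod.snd_swap] at b1 b2
        tauto
    subst hFF
    rcases hee with rfl | rfl
    · rfl
    · exact absurd b1 a2
  · intro g hg
    obtain ⟨F, hF, h | h⟩ := exists_bd hS hg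
    · refine ⟨⟨F, g⟩, Finset.mem_sigma.2 ⟨hF, h⟩, ?_⟩
      simp only
      rw [if_pos hg]
    · refine ⟨⟨F, g.swap⟩, Finset.mem_sigma.2 ⟨hF, h⟩, ?_⟩
      simp only
      rw [if_neg, Prod.swap_swap]
      intro h5
      exact (mem_bd.1 hg).2.1 (mem_bd.1 h5).1

/-- A2g -/
theorem bd_nonempty [Infinite V] (hG : G.Connected) {F : Finset V} (hF : F.Nonempty) :
    (bd G F).Nonempty := by
  obtain ⟨y, hy⟩ := hF
  obtain ⟨x, hx⟩ := Infinite.exists_notMem_finset F
  obtain ⟨w⟩ := hG.preconnected y x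
  obtain ⟨d, -, h1, h2⟩ := w.exists_boundary_dart (F : Set V) hy hx
  exact ⟨(d.fst, d.snd), mem_bd.2 ⟨h1, h2, d.adj⟩⟩

end

end Cut7315
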