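import Pool.Agent.Lib.MP_7315a9_cut.Def2

/-!
# Legal paths

Row 7315-P1. Sketch:
Lg.mem_ball: induction (ball_step, ball_symm). wsys_occ: step: the two times differ by T. symm: Meet symmetric.
near: γ, γ' meet at time u ≤ K T; j = u / T (T ≥ 1), |u - jT| ≤ T: σ_j -> γ_u = γ'_u -> σ'_j.
-/

open MeasureTheory ProbabilityTheory Set Relation
open scoped Classical

namespace Cut7315

open MP7315a9

noncomputable section

variable {V : Type*} {G : SimpleGraph V} [G.LocallyFinite] {K T : ℕ}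

private lemma paths_fwd {n : ℕ} {γ : Tr V n} (h : Lg G γ) (a : ℕ) (ha : a < n + 1) (k : ℕ)
    (hk : a + k < n + 1) : γ ⟨a + k, hk⟩ ∈ ball G k (γ ⟨a, ha⟩) := by
  induction k with
  | zero => exact MP7315a9.mem_ball.2 ⟨SimpleGraph.Walk.nil, le_rfl⟩
  | succ k ih =>
    have hk' : a + k < n := by omega
    have h1 := ih (by omega)
    exact ball_step h1 (h ⟨a + k, hk'⟩)

private lemma paths_le {n : ℕ} {γ : Tr V n} (h : Lg G γ) (i j : Fin (n + 1)) (m : ℕ)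
    (hij : (i : ℕ) ≤ j) (hji : (j : ℕ) ≤ i + m) : γ j ∈ ball G m (γ i) := by
  obtain ⟨i, hi⟩ := i
  obtain ⟨j, hj⟩ := j
  simp only at hij hji
  obtain ⟨k, rfl⟩ := Nat.exists_eq_add_of_le hij
  exact ball_mono (by omega) (paths_fwd h i hi k hj)

/-- P1 -/
theorem Lg.mem_ball {n : ℕ} {γ : Tr V n} (h : Lg G γ) (i j : Fin (n + 1)) (m : ℕ)
    (hij : (i : ℕ) ≤ j + m) (hji : (j : ℕ) ≤ i + m) : γ j ∈ ball G m (γ i) := by
  rcases le_total (i : ℕ) (j : ℕ) with hle | hle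
  · exact paths_le h i j m hle hji
  · exact ball_symm (paths_le h j i m hle hij)

/-- P2 -/
theorem wsys_occ (hT : 1 ≤ T) (η : Tr V (K * T) → Bool) :
    WSys G T (occ G η) (acs G η) := by
  refine ⟨?_, ?_, ?_⟩
  · rintro σ ⟨γ, -, hγ, rfl⟩ j
    refine hγ.mem_ball _ _ T ?_ ?_
    · simp only [Fin.val_castSucc, Fin.val_succ, Nat.add_mul, Nat.one_mul]
      omega
    · simp only [Fin.val_castSucc, Fin.val_succ, Nat.add_mul, Nat.one_mul]
      omega
  · rintro σ σ' ⟨γ, γ', h1, h2, u, hu⟩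
    exact ⟨γ', γ, h2, h1, u, hu.symm⟩
  · rintro σ - σ' - ⟨γ, γ', ⟨-, h1, rfl⟩, ⟨-, h2, rfl⟩, u, hu⟩
    have hu' : (u : ℕ) ≤ K * T := Nat.lt_succ_iff.1 u.2
    have hd : (u : ℕ) / T ≤ K := Nat.div_le_of_le_mul (hu'.trans_eq (Nat.mul_comm K T))
    have e1 : (u : ℕ) / T * T ≤ u := Nat.div_mul_le_self _ _
    have e2 : (u : ℕ) ≤ (u : ℕ) / T * T + T := by
      have := Nat.lt_div_mul_add (a := (u : ℕ)) (b := T) hT
      omega
    refine ⟨⟨(u : ℕ) / T, Nat.lt_succ_of_le hd⟩, ?_⟩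
    have a1 : γ u ∈ ball G T (skel K T γ ⟨(u : ℕ) / T, Nat.lt_succ_of_le hd⟩) :=
      h1.mem_ball _ _ T (by simp only; omega) (by simp only; omega)
    have a2 : skel K T γ' ⟨(u : ℕ) / T, Nat.lt_succ_of_le hd⟩ ∈ ball G T (γ' u) :=
      h2.mem_ball _ _ T (by simp only; omega) (by simp only; omega)
    rw [← hu] at a2
    have a3 := ball_trans a1 a2
    rwa [← Nat.two_mul] at a3

end

end Cut7315
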