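import Pool.Agent.Lib.MP_7315a9_cut.Def2

/-!
# Erasing further paths

Row 7315-P6. Sketch:
occ G (setT P (erase G W η)) = occ G (setT P η) under hP (a path with skeleton in W can be replaced by one of P;
paths with other skeletons are not erased), and acs gets smaller. Then check the four fields.
-/

open MeasureTheory ProbabilityTheory Set Relation
open scoped Classical

namespace Cut7315

open MP7315a9

noncomputable section

variable {V : Type*} {G : SimpleGraph V} [G.LocallyFinite] {K T : ℕ}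

private lemma RealErase_le {W : Finset (Sk V K)} {P : Finset (Tr V (K * T))}
    {η : Tr V (K * T) → Bool} {γ : Tr V (K * T)} (h : setT P (erase G W η) γ = true) :
    setT P η γ = true := by
  unfold setT at h ⊢
  by_cases h1 : γ ∈ P
  · rw [if_pos h1]
  · rw [if_neg h1] at h ⊢
    unfold erase at h
    by_cases h2 : Lg G γ ∧ skel K T γ ∈ W
    · rw [if_pos h2] at h
      exact absurd h (by simp)
    · rwa [if_neg h2] at h

private lemma RealErase_occ {W : Finset (Sk V K)} {P : Finset (Tr V (K * T))}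
    (hP : ∀ σ ∈ W, ∃ γ ∈ P, Lg G γ ∧ skel K T γ = σ) (η : Tr V (K * T) → Bool) :
    occ G (setT P (erase G W η)) = occ G (setT P η) := by
  ext σ
  constructor
  · rintro ⟨γ, h1, h2, h3⟩
    exact ⟨γ, RealErase_le h1, h2, h3⟩
  · rintro ⟨γ, h1, h2, h3⟩
    by_cases h4 : γ ∈ P
    · exact ⟨γ, by unfold setT; rw [if_pos h4], h2, h3⟩
    · by_cases h5 : skel K T γ ∈ W
      · obtain ⟨γ', h6, h7, h8⟩ := hP _ h5
        exact ⟨γ', by unfold setT; rw [if_pos h6], h7, h8.trans h3⟩
      · refine ⟨γ, ?_, h2, h3⟩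
        unfold setT at h1 ⊢
        rw [if_neg h4] at h1 ⊢
        unfold erase
        rw [if_neg fun h => h5 h.2]
        exact h1

private lemma RealErase_acs {W : Finset (Sk V K)} {P : Finset (Tr V (K * T))}
    {η : Tr V (K * T) → Bool} {σ σ' : Sk V K} (h : acs G (setT P (erase G W η)) σ σ') :
    acs G (setT P η) σ σ' := by
  obtain ⟨γ, γ', ⟨h1, h2, h3⟩, ⟨h4, h5, h6⟩, h7⟩ := h
  exact ⟨γ, γ', ⟨RealErase_le h1, h2, h3⟩, ⟨RealErase_le h4, h5, h6⟩, h7⟩

/-- P6: the structure survives the erasing of further paths. -/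
theorem real_erase {c : Str V K} {σ0 : Sk V K} {D ℓ : ℕ} {P : Finset (Tr V (K * T))}
    (hP : ∀ σ ∈ c.W, ∃ γ ∈ P, Lg G γ ∧ skel K T γ = σ) {η : Tr V (K * T) → Bool}
    (h : c.Real G D ℓ (occ G (setT P η)) (acs G (setT P η)) σ0) :
    c.Real G D ℓ (occ G (setT P (erase G c.W η))) (acs G (setT P (erase G c.W η))) σ0 := by
  rw [RealErase_occ hP η]
  exact ⟨h.occ, h.vacant, fun σ hσ σ' hσ' ha => h.closed σ hσ σ' hσ' (RealErase_acs ha), h.mtch⟩

end

end Cut7315
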