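import Pool.Agent.Lib.MP_7315a9_cut.BlockBound

/-!
# The sequential bound for finitely many walkers

Row 7315-C7. Sketch:
Induction on k, splitting off the LAST block: hd Γ = first k*T steps, last block = steps from k*T to (k+1)*T (index with
⟨i, proof⟩, no casts). pl G ((k+1)T) x {γ} = pl G (kT) x {hd γ} * pl G T (γ (kT)) {last block}. Γ ∈ Ev (k+1) implies hd Γ ∈ Ev k (with
σ a ∘ castSucc) and, at time kT: positions p a = Γ a (kT) with p a = σ a k for a ∈ U, a matching M of ≥ m red-blue pairs at distance ≤ D,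
the last block ends at σ a (k+1) for a ∈ U and the pairs do not meet: block_bound with x = p, y a = σ a (k+1) (0 ≤ 1-c1 ≤ 1 and
m ≤ |M| to get the power m - #fast). So P(Ev (k+1)) = ∑_Γ' P(Γ') 1[Ev k] * P(last block | p) ≤ evB k * block factor. The space
I → Tr V n is countable: use lintegral_countable / tsum over singletons, ENNReal.tsum_le..., and the injection Γ ↦ (hd, last).
-/

open MeasureTheory ProbabilityTheory Set Relation
open scoped Classical

namespace Cut7315

open MP7315a9

noncomputable section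

variable {V : Type*} {G : SimpleGraph V} [G.LocallyFinite] {K T : ℕ}
variable [MeasurableSpace V] [DiscreteMeasurableSpace V] [Countable V]

private lemma SF_succ_mul (k T : ℕ) : (k + 1) * T = k * T + T := Nat.succ_mul k T

/-- the first `k` blocks -/
private def SF_hd {k T : ℕ} (γ : Tr V ((k + 1) * T)) : Tr V (k * T) := fun i =>
  γ ⟨i, by have h1 := i.2; have h2 := SF_succ_mul k T; omega⟩

/-- the last block -/
private def SF_lst {k T : ℕ} (γ : Tr V ((k + 1) * T)) : Tr V T := fun i =>
  γ ⟨k * T + i, by have h1 := i.2; have h2 := SF_succ_mul k T; omega⟩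

omit [MeasurableSpace V] [DiscreteMeasurableSpace V] [Countable V] in
private lemma SF_ext {k T : ℕ} {γ γ' : Tr V ((k + 1) * T)} (h1 : SF_hd γ = SF_hd γ')
    (h2 : SF_lst γ = SF_lst γ') : γ = γ' := by
  funext i
  have h0 := SF_succ_mul k T
  rcases Nat.lt_or_ge i (k * T + 1) with hi | hi
  · exact congrFun h1 ⟨i, hi⟩
  · have h3 := congrFun h2 ⟨i - k * T, by have := i.2; omega⟩
    have e : (⟨k * T + (i - k * T), by have := i.2; omega⟩ : Fin ((k + 1) * T + 1)) = i :=
      Fin.ext (by simp only; omega)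
    simp only [SF_lst, e] at h3
    exact h3

omit [MeasurableSpace V] [DiscreteMeasurableSpace V] [Countable V] in
private lemma SF_wt {n : ℕ} (γ : Tr V n) (g : ℕ → V) (hg : ∀ i (h : i < n + 1), γ ⟨i, h⟩ = g i) :
    wt G γ = ∏ s ∈ Finset.range n, ENNReal.ofReal (stepProb G (g s) (g (s + 1))) := by
  rw [wt, ← Fin.prod_univ_eq_prod_range
    (fun s => ENNReal.ofReal (stepProb G (g s) (g (s + 1)))) n]
  refine Finset.prod_congr rfl fun s _ => ?_
  have h1 : γ s.castSucc = g s := hg s (by omega)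
  have h2 : γ s.succ = g (s + 1) := hg (s + 1) (by omega)
  rw [h1, h2]

omit [MeasurableSpace V] [DiscreteMeasurableSpace V] [Countable V] in
private lemma SF_wt_split {k T : ℕ} (γ : Tr V ((k + 1) * T)) :
    wt G γ = wt G (SF_hd γ) * wt G (SF_lst γ) := by
  have h0 := SF_succ_mul k T
  let g : ℕ → V := fun i => γ ⟨min i ((k + 1) * T), by omega⟩
  have hg : ∀ i (h : i < (k + 1) * T + 1), γ ⟨i, h⟩ = g i := by
    intro i h
    exact congrArg γ (Fin.ext (by simp only; omega))
  have e1 := SF_wt (G := G) γ g hg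
  have e2 := SF_wt (G := G) (SF_hd γ) g fun i h => hg i (by omega)
  have e3 := SF_wt (G := G) (SF_lst γ) (fun i => g (k * T + i)) fun i h => hg (k * T + i) (by omega)
  have e4 : Finset.range ((k + 1) * T) = Finset.range (k * T + T) := by rw [h0]
  rw [e1, e2, e3, e4, Finset.prod_range_add]
  rfl

private lemma SF_pl (hdeg : ∀ v, 0 < G.degree v) {k T : ℕ} (x : V) (γ : Tr V ((k + 1) * T)) :
    pl G ((k + 1) * T) x {γ} =
      pl G (k * T) x {SF_hd γ} * pl G T (SF_hd γ (Fin.last _)) {SF_lst γ} := by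
  rw [pl_singleton G hdeg, pl_singleton G hdeg, pl_singleton G hdeg]
  have h1 : SF_hd γ 0 = γ 0 := rfl
  have h2 : SF_lst γ 0 = SF_hd γ (Fin.last _) := rfl
  rw [if_pos h2, h1, SF_wt_split]
  split_ifs <;> simp

private lemma SF_pi (hdeg : ∀ v, 0 < G.degree v) {k T : ℕ} {I : Type*} [Fintype I] (x : I → V)
    (Γ : I → Tr V ((k + 1) * T)) :
    Measure.pi (fun a => pl G ((k + 1) * T) (x a)) {Γ} =
      Measure.pi (fun a => pl G (k * T) (x a)) {fun a => SF_hd (Γ a)} *
        Measure.pi (fun a => pl G T (SF_hd (Γ a) (Fin.last _))) {fun a => SF_lst (Γ a)} := by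
  have hp : ∀ n y, IsProbabilityMeasure (pl G n y) := fun n y => isProb_pl G hdeg n y
  rw [Measure.pi_singleton, Measure.pi_singleton, Measure.pi_singleton,
    ← Finset.prod_mul_distrib]
  exact Finset.prod_congr rfl fun a _ => SF_pl hdeg (x a) (Γ a)

omit [G.LocallyFinite] [MeasurableSpace V] [DiscreteMeasurableSpace V] [Countable V] in
private lemma SF_c1 (Δ T : ℕ) : 0 ≤ 1 - c1 Δ T ∧ 1 - c1 Δ T ≤ 1 := by
  have h0 : 0 ≤ c1 Δ T := by unfold c1; positivity
  have h1 : c1 Δ T ≤ 1 := by
    unfold c1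
    rcases Nat.eq_zero_or_pos Δ with h | h
    · subst h
      rcases Nat.eq_zero_or_pos (2 * T) with h2 | h2
      · rw [h2]; simp
      · rw [Nat.cast_zero, mul_zero, zero_pow h2.ne', inv_zero]
        exact zero_le_one
    · refine inv_le_one_of_one_le₀ (one_le_pow₀ ?_)
      have : (1 : ℝ) ≤ Δ := by exact_mod_cast h
      linarith
  constructor <;> linarith

omit [DiscreteMeasurableSpace V] [Countable V] in
private lemma SF_evB {I : Type*} {k : ℕ} (Δ T τ m : ℕ) (U : Finset I) (σ : I → Sk V (k + 1)) :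
    evB G Δ T τ m U σ = evB G Δ T τ m U (fun a (j : Fin (k + 1)) => σ a j.castSucc) *
      ((∏ a ∈ U, pT G T (σ a (Fin.last k).castSucc) (σ a (Fin.last k).succ)) *
        (1 - c1 Δ T) ^ (m - fst' G τ U σ (Fin.last k))) := by
  unfold evB
  rw [Fin.prod_univ_castSucc]
  have h1 : ∀ a ∈ U, ∏ j : Fin (k + 1), pT G T (σ a j.castSucc) (σ a j.succ) =
      (∏ j : Fin k, pT G T (σ a j.castSucc.castSucc) (σ a j.succ.castSucc)) *
        pT G T (σ a (Fin.last k).castSucc) (σ a (Fin.last k).succ) := by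
    intro a _
    rw [Fin.prod_univ_castSucc]
    rfl
  rw [Finset.prod_congr rfl h1, Finset.prod_mul_distrib]
  have h2 : ∀ j : Fin k, fst' G τ U σ j.castSucc =
      fst' G τ U (fun a (j : Fin (k + 1)) => σ a j.castSucc) j := fun j => rfl
  simp only [h2]
  ring

/-- there are `m` disjoint red-blue pairs at distance at most `D` -/
private def SF_HasM (G : SimpleGraph V) [G.LocallyFinite] {I : Type*} (D m : ℕ) (red : I → Prop)
    (p : I → V) (M : Finset (I × I)) : Prop :=
  m ≤ M.card ∧ (∀ q ∈ M, red q.1 ∧ ¬ red q.2 ∧ p q.2 ∈ ball G D (p q.1)) ∧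
    ∀ q ∈ M, ∀ q' ∈ M, q.1 = q'.1 ∨ q.2 = q'.2 → q = q'

/-- C7 -/
theorem seq_fin {Δ D τ k m : ℕ} (hΔ : ∀ v, G.degree v ≤ Δ) (hdeg : ∀ v, 0 < G.degree v)
    (hD : 2 * D ≤ τ) {I : Type*} [Fintype I] (x : I → V) (U : Finset I) (σ : I → Sk V k)
    (red : I → Prop) :
    Measure.pi (fun a => pl G (k * (4 * τ)) (x a)) (Ev G D (4 * τ) k m U σ red univ) ≤
    ENNReal.ofReal (evB G Δ (4 * τ) τ m U σ) := by
  have hp : ∀ n y, IsProbabilityMeasure (pl G n y) := fun n y => isProb_pl G hdeg n y
  induction k with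
  | zero =>
    have h1 : evB G Δ (4 * τ) τ m U σ = 1 := by
      unfold evB
      simp
    rw [h1, ENNReal.ofReal_one]
    exact prob_le_one
  | succ k ih =>
    set T := 4 * τ with hT
    set σ' : I → Sk V k := fun a (j : Fin (k + 1)) => σ a j.castSucc with hσ'
    set c : ℝ := (∏ a ∈ U, pT G T (σ a (Fin.last k).castSucc) (σ a (Fin.last k).succ)) *
        (1 - c1 Δ T) ^ (m - fst' G τ U σ (Fin.last k)) with hc
    have hc0 : 0 ≤ c := by
      refine mul_nonneg (Finset.prod_nonneg fun a _ => measureReal_nonneg)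
        (pow_nonneg (SF_c1 Δ T).1 _)
    have hev0 : 0 ≤ evB G Δ T τ m U σ' := by
      refine mul_nonneg (Finset.prod_nonneg fun a _ => Finset.prod_nonneg fun j _ =>
        measureReal_nonneg) (Finset.prod_nonneg fun j _ => pow_nonneg (SF_c1 Δ T).1 _)
    let posn : (I → Tr V (k * T)) → I → V := fun Γ a => Γ a (Fin.last _)
    let Q : (I → Tr V (k * T)) → Measure (I → Tr V T) := fun Γ =>
      Measure.pi fun a => pl G T (posn Γ a)
    let M : (I → Tr V (k * T)) → Finset (I × I) := fun Γ =>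
      if h : ∃ M, SF_HasM G D m red (posn Γ) M then h.choose else ∅
    have hM : ∀ Γ, (∃ M, SF_HasM G D m red (posn Γ) M) → SF_HasM G D m red (posn Γ) (M Γ) := by
      intro Γ h
      simp only [M, dif_pos h]
      exact h.choose_spec
    let E : Set (I → Tr V (k * T)) :=
      {Γ | Γ ∈ Ev G D T k m U σ' red univ ∧ ∃ M, SF_HasM G D m red (posn Γ) M}
    let B : (I → Tr V (k * T)) → Set (I → Tr V T) := fun Γ =>
      {Λ | (∀ a ∈ U, Λ a (Fin.last _) = σ a (Fin.last k).succ) ∧
        ∀ p ∈ M Γ, ¬ Meet (Λ p.1) (Λ p.2)}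
    let μ := Measure.pi (fun a => pl G (k * T) (x a))
    let F : (I → Tr V (k * T)) × (I → Tr V T) → ENNReal := fun p =>
      E.indicator (fun Γ => μ {Γ}) p.1 * (B p.1).indicator (fun Λ => Q p.1 {Λ}) p.2
    let φ : (I → Tr V ((k + 1) * T)) → (I → Tr V (k * T)) × (I → Tr V T) := fun Γ =>
      (fun a => SF_hd (Γ a), fun a => SF_lst (Γ a))
    have hφ : Function.Injective φ := by
      intro Γ Γ' h
      funext a
      have h1 := congrFun (congrArg Prod.fst h) a
      have h2 := congrFun (congrArg Prod.snd h) a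
      exact SF_ext h1 h2
    have hskel : ∀ (γ : Tr V ((k + 1) * T)) (j : Fin (k + 1)),
        skel k T (SF_hd γ) j = skel (k + 1) T γ j.castSucc := fun γ j => rfl
    have hlast : ∀ γ : Tr V ((k + 1) * T), SF_lst γ (Fin.last _) =
        skel (k + 1) T γ (Fin.last k).succ := by
      intro γ
      refine congrArg γ (Fin.ext ?_)
      have := SF_succ_mul k T
      simp only [Fin.val_last, Fin.val_succ]
      omega
    have hE : ∀ Γ : I → Tr V ((k + 1) * T), Γ ∈ Ev G D T (k + 1) m U σ red univ →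
        (φ Γ).1 ∈ E ∧ (φ Γ).2 ∈ B (φ Γ).1 := by
      rintro Γ ⟨h1, h2, h3⟩
      have hex : ∃ M, SF_HasM G D m red (posn (φ Γ).1) M := by
        obtain ⟨M, hM1, hM2, hM3⟩ := h2 (Fin.last k)
        refine ⟨M, hM1, fun q hq => ?_, hM3⟩
        obtain ⟨_, _, h4, h5, h6⟩ := hM2 q hq
        exact ⟨h4, h5, h6⟩
      refine ⟨⟨⟨?_, ?_, ?_⟩, hex⟩, ?_, ?_⟩
      · intro a ha
        funext j
        have h4 := congrFun (h1 a ha) j.castSucc
        exact h4
      · intro j
        obtain ⟨M, hM1, hM2, hM3⟩ := h2 j.castSucc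
        exact ⟨M, hM1, hM2, hM3⟩
      · rintro a ha b hb hra hrb ⟨t, ht⟩
        exact h3 a ha b hb hra hrb ⟨_, ht⟩
      · intro a ha
        have h4 := congrFun (h1 a ha) (Fin.last k).succ
        rw [← h4]
        exact hlast (Γ a)
      · rintro p hp' ⟨t, ht⟩
        obtain ⟨_, hM2, _⟩ := hM _ hex
        obtain ⟨h4, h5, _⟩ := hM2 p hp'
        exact h3 p.1 (mem_univ _) p.2 (mem_univ _) h4 h5 ⟨_, ht⟩
    have hblock : ∀ Γ ∈ E, Q Γ (B Γ) ≤ ENNReal.ofReal c := by
      rintro Γ ⟨⟨h1, _, _⟩, hex⟩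
      obtain ⟨hM1, hM2, hM3⟩ := hM Γ hex
      have hpos : ∀ a ∈ U, posn Γ a = σ a (Fin.last k).castSucc := by
        intro a ha
        have h4 := congrFun (h1 a ha) (Fin.last k)
        exact h4
      refine (block_bound hΔ hdeg hD (posn Γ) (fun a => σ a (Fin.last k).succ) U (M Γ)
        (fun p hp' => (hM2 p hp').2.2) hM3 ?_).trans ?_
      · intro p hp' q hq h
        have h4 := (hM2 p hp').1
        have h5 := (hM2 q hq).2.1
        rw [h] at h4
        exact h5 h4
      · refine ENNReal.ofReal_le_ofReal ?_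
        have e1 : ∏ a ∈ U, pT G T (posn Γ a) (σ a (Fin.last k).succ) =
            ∏ a ∈ U, pT G T (σ a (Fin.last k).castSucc) (σ a (Fin.last k).succ) :=
          Finset.prod_congr rfl fun a ha => by rw [hpos a ha]
        have e2 : (U.filter fun a => σ a (Fin.last k).succ ∉ ball G (3 * τ) (posn Γ a)).card =
            fst' G τ U σ (Fin.last k) := by
          unfold fst'
          congr 1
          refine Finset.filter_congr fun a ha => ?_
          rw [hpos a ha]
        rw [← hT, e1, e2]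
        refine mul_le_mul_of_nonneg_left ?_ (Finset.prod_nonneg fun a _ => measureReal_nonneg)
        exact pow_le_pow_of_le_one (SF_c1 Δ T).1 (SF_c1 Δ T).2 (by omega)
    calc Measure.pi (fun a => pl G ((k + 1) * T) (x a)) (Ev G D T (k + 1) m U σ red univ)
        = ∑' Γ, (Ev G D T (k + 1) m U σ red univ).indicator
            (fun Γ => Measure.pi (fun a => pl G ((k + 1) * T) (x a)) {Γ}) Γ :=
          (Measure.tsum_indicator_apply_singleton _ _ MeasurableSet.of_discrete).symm
      _ ≤ ∑' Γ, F (φ Γ) := by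
          refine ENNReal.tsum_le_tsum fun Γ => ?_
          by_cases h : Γ ∈ Ev G D T (k + 1) m U σ red univ
          · obtain ⟨h1, h2⟩ := hE Γ h
            rw [indicator_of_mem h]
            simp only [F]
            rw [indicator_of_mem h1, indicator_of_mem h2]
            exact (SF_pi hdeg x Γ).le
          · rw [indicator_of_notMem h]
            exact zero_le
      _ ≤ ∑' p, F p := ENNReal.tsum_comp_le_tsum_of_injective hφ F
      _ = ∑' Γ, ∑' Λ, F (Γ, Λ) := ENNReal.tsum_prod'
      _ = ∑' Γ, E.indicator (fun Γ => μ {Γ}) Γ * Q Γ (B Γ) := by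
          refine tsum_congr fun Γ => ?_
          simp only [F]
          rw [ENNReal.tsum_mul_left, Measure.tsum_indicator_apply_singleton _ _
            MeasurableSet.of_discrete]
      _ ≤ ∑' Γ, E.indicator (fun Γ => μ {Γ}) Γ * ENNReal.ofReal c := by
          refine ENNReal.tsum_le_tsum fun Γ => ?_
          by_cases h : Γ ∈ E
          · exact mul_le_mul_right (hblock Γ h) _
          · rw [indicator_of_notMem h, zero_mul, zero_mul]
      _ = μ E * ENNReal.ofReal c := by
          rw [ENNReal.tsum_mul_right, Measure.tsum_indicator_apply_singleton _ _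
            MeasurableSet.of_discrete]
      _ ≤ ENNReal.ofReal (evB G Δ T τ m U σ') * ENNReal.ofReal c := by
          refine mul_le_mul_left ((measure_mono fun Γ h => h.1).trans (ih σ')) _
      _ = ENNReal.ofReal (evB G Δ T τ m U σ) := by
          rw [← ENNReal.ofReal_mul hev0, SF_evB]

end

end Cut7315
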