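import Pool.Agent.Lib.MP_7315a9_cut.Def3

/-!
# Sprinkling

Row 7315-S7. Sketch:
bits p × bits ε mapped by (ω, ψ) ↦ (k ↦ ω k || ψ k) is bits with parameter 1 - (1-p)(1-ε) (bool_law on the product space, or
bits_group / map of infinitePi). E depends on S (finite) and is increasing. G = {ω | ∃ Q ⊆ S, card ≤ N, ω with Q opened ∈ E} (Q may be
intersected with S). Choose Q(ω) ⊆ S depending only on ω restricted to S (a function on the finite set of subsets of S: e.g. the first
in an enumeration); P(ω || ψ ∈ E) ≥ ∑_Q P(ω ∈ G, Q(ω) = Q) P(ψ = true on Q) ≥ ε^N bits p G (independence = product measure,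
ε ≤ 1).
-/

open MeasureTheory ProbabilityTheory Set Relation
open scoped Classical

namespace Cut7315

open MP7315a9

noncomputable section

private theorem s7_meas {K : Type*} (T : Finset K) {A : Set (K → Bool)}
    (hA : ∀ η η' : K → Bool, (∀ k ∈ T, η k = η' k) → η ∈ A → η' ∈ A) : MeasurableSet A := by
  let f : (K → Bool) → (T → Bool) := fun η k => η k
  have hf : Measurable f := by fun_prop
  let B : Set (T → Bool) := {g | (fun k => if h : k ∈ T then g ⟨k, h⟩ else false) ∈ A}
  have hB : MeasurableSet B := (Set.toFinite B).measurableSet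
  have h1 : f ⁻¹' B = A := by
    ext η
    constructor
    · intro h
      refine hA _ _ ?_ h
      intro k hk
      simp [f, hk]
    · intro h
      refine hA _ _ ?_ h
      intro k hk
      simp [f, hk]
  rw [← h1]
  exact hf hB

private theorem s7_open {K : Type*} (ρ : K × Bool → unitInterval) (e : unitInterval)
    (hρ : ∀ k, ρ (k, true) = e) (Q : Finset K) :
    bits ρ {b | ∀ k ∈ Q, b (k, true) = true} = ENNReal.ofReal ((e : ℝ) ^ Q.card) := by
  have h1 : {b : K × Bool → Bool | ∀ k ∈ Q, b (k, true) = true} =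
      Set.pi ((Q.image fun k => (k, true) : Finset (K × Bool)) : Set (K × Bool))
        fun _ => {true} := by
    ext b
    simp
  rw [h1, bits, Measure.infinitePi_pi _ (fun _ _ => by trivial)]
  simp only [bern_true]
  rw [Finset.prod_image (by
    intro a _ b _ hab
    exact (Prod.mk.inj hab).1)]
  simp only [hρ, Finset.prod_const]
  rw [ENNReal.ofReal_pow e.2.1]

/-- S7 -/
theorem sprinkle {X : Type*} (p e : unitInterval) (N : ℕ) (S : Finset X) {E : Set (X → Bool)}
    (hE : ∀ ω ω' : X → Bool, (∀ k ∈ S, ω k = ω' k) → ω ∈ E → ω' ∈ E)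
    (hEu : ∀ ω ω' : X → Bool, ω ≤ ω' → ω ∈ E → ω' ∈ E) :
    ENNReal.ofReal ((e : ℝ) ^ N) * bits (fun _ => p) {ω | ∃ Q : Finset X, Q.card ≤ N ∧
      (fun k => if k ∈ Q then true else ω k) ∈ E} ≤
    bits (fun _ => unitInterval.symm (unitInterval.symm p * unitInterval.symm e)) E := by
  let ρ : X × Bool → unitInterval := fun x => if x.2 then e else p
  let π₁ : (X × Bool → Bool) → X → Bool := fun b k => b (k, false)
  let π₂ : (X × Bool → Bool) → X → Bool := fun b k => decide (∃ j : Bool, b (k, j) = true)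
  have e1 : (bits ρ).map π₁ = bits (fun _ : X => p) := by
    have := Measure.map_infinitePi_infinitePi_of_inj (P := fun k => bern (ρ k))
      (f := fun k : X => (k, false)) (fun a b hab => by simpa using hab)
    simpa [bits, ρ, π₁] using this
  have e2 : (bits ρ).map π₂ =
      bits (fun _ : X => unitInterval.symm (unitInterval.symm p * unitInterval.symm e)) := by
    have := bits_group (J := fun _ : X => Bool) ρ (fun x => (x.1, x.2))
      (fun a b hab => by
        rcases a with ⟨a1, a2⟩; rcases b with ⟨b1, b2⟩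
        simp only [Prod.mk.injEq] at hab
        obtain ⟨rfl, rfl⟩ := hab; rfl)
      (fun _ b => decide (∃ j, b j = true)) (fun _ => measurable_of_finite _)
    refine Eq.trans this ?_
    unfold bits
    congr 1
    funext k
    refine (bits_exists (fun j : Bool => ρ (k, j)) fun b => by simp).trans ?_
    congr 1
    simp [ρ, mul_comm]
  have m1 : Measurable π₁ := by
    have h : Measurable fun (b : X × Bool → Bool) (k : X) => b (k, false) := by fun_prop
    exact h
  have m2 : Measurable π₂ := by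
    apply measurable_pi_lambda
    intro k
    have h1 : Measurable fun (b : X × Bool → Bool) (j : Bool) => b (k, j) := by fun_prop
    exact (measurable_of_finite (fun b : Bool → Bool => decide (∃ j, b j = true))).comp h1
  have mE : MeasurableSet E := s7_meas S hE
  -- the event with opened edges
  let G : Set (X → Bool) := {ω | ∃ Q : Finset X, Q.card ≤ N ∧
      (fun k => if k ∈ Q then true else ω k) ∈ E}
  have hG : ∀ ω ω' : X → Bool, (∀ k ∈ S, ω k = ω' k) → ω ∈ G → ω' ∈ G := by
    rintro ω ω' h ⟨Q, hQ, hQE⟩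
    refine ⟨Q, hQ, hE _ _ ?_ hQE⟩
    intro k hk
    by_cases hkQ : k ∈ Q
    · simp [hkQ]
    · simp [hkQ, h k hk]
  have mG : MeasurableSet G := s7_meas S hG
  let r : (X → Bool) → X → Bool := fun ω k => if k ∈ S then ω k else false
  have hr : ∀ ω, ∀ k ∈ S, ω k = r ω k := by
    intro ω k hk
    simp [r, hk]
  have hr' : ∀ ω ω' : X → Bool, (∀ k ∈ S, ω k = ω' k) → r ω = r ω' := by
    intro ω ω' h
    funext k
    by_cases hk : k ∈ S
    · simp [r, hk, h k hk]
    · simp [r, hk]
  let q : (X → Bool) → Finset X := fun ω => if h : r ω ∈ G then h.choose ∩ S else ∅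
  have hq : ∀ ω ω' : X → Bool, (∀ k ∈ S, ω k = ω' k) → q ω = q ω' := by
    intro ω ω' h
    have := hr' ω ω' h
    simp only [q]
    rw [this]
  have hqG : ∀ ω ∈ G, q ω ∈ S.powerset ∧ (q ω).card ≤ N ∧
      (fun k => if k ∈ q ω then true else ω k) ∈ E := by
    intro ω hω
    have h : r ω ∈ G := hG _ _ (hr ω) hω
    have h1 := h.choose_spec
    have h2 : q ω = h.choose ∩ S := by simp only [q, dif_pos h]
    rw [h2]
    refine ⟨Finset.mem_powerset.2 Finset.inter_subset_right,
      (Finset.card_le_card Finset.inter_subset_left).trans h1.1, hE _ _ ?_ h1.2⟩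
    intro k hk
    simp only [Finset.mem_inter, hk, and_true, r, if_true]
  let A : Finset X → Set (X × Bool → Bool) := fun Q => {b | π₁ b ∈ G ∧ q (π₁ b) = Q}
  let B : Finset X → Set (X × Bool → Bool) := fun Q => {b | ∀ k ∈ Q, b (k, true) = true}
  have hAdep : ∀ Q, ∀ η η' : X × Bool → Bool, (∀ k ∈ S.image (fun k => (k, false)), η k = η' k) →
      η ∈ A Q → η' ∈ A Q := by
    rintro Q η η' h ⟨h1, h2⟩
    have h3 : ∀ k ∈ S, π₁ η k = π₁ η' k := fun k hk => h _ (Finset.mem_image_of_mem _ hk)
    exact ⟨hG _ _ h3 h1, (hq _ _ h3).symm.trans h2⟩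
  have hBdep : ∀ Q, ∀ η η' : X × Bool → Bool, (∀ k ∈ Q.image (fun k => (k, true)), η k = η' k) →
      η ∈ B Q → η' ∈ B Q := by
    intro Q η η' h h1 k hk
    rw [← h _ (Finset.mem_image_of_mem _ hk)]
    exact h1 k hk
  have mA : ∀ Q, MeasurableSet (A Q) := fun Q => s7_meas _ (hAdep Q)
  have mB : ∀ Q, MeasurableSet (B Q) := fun Q => s7_meas _ (hBdep Q)
  have hind : ∀ Q, bits ρ (A Q ∩ B Q) = bits ρ (A Q) * ENNReal.ofReal ((e : ℝ) ^ Q.card) := by
    intro Q
    rw [bits_indep ρ (S := (fun k : X => (k, false)) '' (S : Set X))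
      (T := (fun k : X => (k, true)) '' (Q : Set X)) ?_ (mA Q) (mB Q) ?_ ?_]
    · congr 1
      exact s7_open ρ e (fun k => by simp [ρ]) Q
    · rw [Set.disjoint_left]
      rintro _ ⟨k, _, rfl⟩ ⟨k', _, h⟩
      simp at h
    · intro η η' h
      refine hAdep Q η η' ?_
      intro k hk
      rw [Finset.mem_image] at hk
      obtain ⟨x, hx, rfl⟩ := hk
      exact h _ ⟨x, hx, rfl⟩
    · intro η η' h
      refine hBdep Q η η' ?_
      intro k hk
      rw [Finset.mem_image] at hk
      obtain ⟨x, hx, rfl⟩ := hk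
      exact h _ ⟨x, hx, rfl⟩
  have hcov : π₁ ⁻¹' G = ⋃ Q ∈ S.powerset.filter (fun Q => Q.card ≤ N), A Q := by
    ext b
    simp only [mem_preimage, mem_iUnion, exists_prop, Finset.mem_filter]
    constructor
    · intro hb
      have h1 := hqG _ hb
      exact ⟨q (π₁ b), ⟨h1.1, h1.2.1⟩, hb, rfl⟩
    · rintro ⟨Q, _, hb⟩
      exact hb.1
  have hdisj : ∀ C : Finset X → Set (X × Bool → Bool), (∀ Q, C Q ⊆ A Q) →
      (↑(S.powerset.filter (fun Q => Q.card ≤ N)) : Set (Finset X)).PairwiseDisjoint C := by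
    intro C hC Q _ Q' _ hne
    rw [Function.onFun, Set.disjoint_left]
    intro b hb hb'
    exact hne ((hC Q hb).2.symm.trans (hC Q' hb').2)
  have hsub : (⋃ Q ∈ S.powerset.filter (fun Q => Q.card ≤ N), (A Q ∩ B Q)) ⊆ π₂ ⁻¹' E := by
    intro b hb
    simp only [mem_iUnion, exists_prop] at hb
    obtain ⟨Q, _, ⟨hbG, hbQ⟩, hbB⟩ := hb
    refine hEu _ _ ?_ (hqG _ hbG).2.2
    intro k
    by_cases hk : k ∈ q (π₁ b)
    · have h1 : b (k, true) = true := hbB k (hbQ ▸ hk)
      have h2 : π₂ b k = true := by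
        simp only [π₂, decide_eq_true_eq]
        exact ⟨true, h1⟩
      rw [h2]
      exact le_top
    · simp only [hk, if_false]
      by_cases h3 : b (k, false) = true
      · have h2 : π₂ b k = true := by
          simp only [π₂, decide_eq_true_eq]
          exact ⟨false, h3⟩
        rw [h2]
        exact le_top
      · have h4 : π₁ b k = false := by
          simpa [π₁] using h3
        rw [h4]
        exact bot_le
  calc ENNReal.ofReal ((e : ℝ) ^ N) * bits (fun _ => p) G
      = ENNReal.ofReal ((e : ℝ) ^ N) * bits ρ (π₁ ⁻¹' G) := by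
        rw [← e1, Measure.map_apply m1 mG]
    _ = ∑ Q ∈ S.powerset.filter (fun Q => Q.card ≤ N),
          bits ρ (A Q) * ENNReal.ofReal ((e : ℝ) ^ N) := by
        rw [hcov, measure_biUnion_finset (hdisj A fun Q => subset_rfl) (fun Q _ => mA Q),
          Finset.mul_sum]
        exact Finset.sum_congr rfl fun Q _ => mul_comm _ _
    _ ≤ ∑ Q ∈ S.powerset.filter (fun Q => Q.card ≤ N), bits ρ (A Q ∩ B Q) := by
        refine Finset.sum_le_sum fun Q hQ => ?_
        rw [hind Q]
        refine mul_le_mul_right ?_ _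
        exact ENNReal.ofReal_le_ofReal
          (pow_le_pow_of_le_one e.2.1 e.2.2 (Finset.mem_filter.1 hQ).2)
    _ = bits ρ (⋃ Q ∈ S.powerset.filter (fun Q => Q.card ≤ N), (A Q ∩ B Q)) := by
        rw [measure_biUnion_finset (hdisj (fun Q => A Q ∩ B Q) fun Q => inter_subset_left)
          (fun Q _ => (mA Q).inter (mB Q))]
    _ ≤ bits ρ (π₂ ⁻¹' E) := measure_mono hsub
    _ = _ := by rw [← e2, Measure.map_apply m2 mE]

end

end Cut7315
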