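import Pool.Agent.Lib.MP_7315a9_cut.ExitProb
import Pool.Agent.Lib.MP_7315a9_cut.Harris

/-!
# The probability of a link
-/

open MeasureTheory ProbabilityTheory Set Relation
open scoped Classical

namespace Cut7315

open MP7315a9

noncomputable section

variable {V : Type*} {G : SimpleGraph V} [G.LocallyFinite] [Countable V]

omit [Countable V] in
lemma yc_mono {Y : Finset V} {ω ω' : G.edgeSet → Bool}
    (h : ∀ e ∈ tch G Y, ω e = true → ω' e = true) {u v : V} (hv : yc G Y ω u v) :
    yc G Y ω' u v := by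
  unfold yc at hv ⊢
  refine rtg_mono ?_ hv
  rintro a b ⟨ha, hb, hab, ho⟩
  exact ⟨ha, hb, hab, h _ (mem_tch.2 ⟨a, ha, by simp⟩) ho⟩

omit [Countable V] in
lemma yc_symm {Y : Finset V} {ω : G.edgeSet → Bool} {u v : V} (h : yc G Y ω u v) :
    yc G Y ω v u := by
  unfold yc at h ⊢
  induction h with
  | refl => exact ReflTransGen.refl
  | tail _ h2 ih =>
    obtain ⟨ha, hb, hab, ho⟩ := h2
    refine ReflTransGen.head ⟨hb, ha, hab.symm, ?_⟩ ih
    rw [← ho]
    congr 1
    exact Subtype.ext Sym2.eq_swap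

/-- The event that `v` is connected inside `Y` to a vertex adjacent to `B`. -/
def lnk (G : SimpleGraph V) [G.LocallyFinite] (Y : Finset V) (B : Set V) (v : V) :
    Set (G.edgeSet → Bool) :=
  {ω | ∃ u ∈ Y, yc G Y ω v u ∧ ∃ b ∈ B, G.Adj u b}

omit [Countable V] in
lemma lnk_dep {Y : Finset V} {B : Set V} {v : V} (ω ω' : G.edgeSet → Bool)
    (h : ∀ k ∈ tch G Y, ω k = ω' k) (hω : ω ∈ lnk G Y B v) : ω' ∈ lnk G Y B v := by
  obtain ⟨u, hu, h1, h2⟩ := hω
  exact ⟨u, hu, yc_mono (fun e he h3 => by rw [← h e he]; exact h3) h1, h2⟩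

omit [Countable V] in
lemma lnk_up {Y : Finset V} {B : Set V} {v : V} (ω ω' : G.edgeSet → Bool)
    (h : ω ≤ ω') (hω : ω ∈ lnk G Y B v) : ω' ∈ lnk G Y B v := by
  obtain ⟨u, hu, h1, h2⟩ := hω
  refine ⟨u, hu, yc_mono (fun e _ h3 => ?_) h1, h2⟩
  have := h e
  rw [h3] at this
  exact top_le_iff.1 this

/-- S2 -/
theorem suc_prob {p : unitInterval} {c : ℝ} (hc0 : 0 ≤ c) (hU : Uni G p c) (Y A : Finset V)
    (A' : Set V) (hcov : ∀ v ∈ Y, ∀ w, w ∉ Y → G.Adj v w → w ∈ A ∨ w ∈ A')
    (hpath : ∃ a ∈ A, ∃ y, ReflTransGen (fun x y => G.Adj x y ∧ y ∈ Y) a y ∧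
      ∃ a' ∈ A', G.Adj y a') :
    ENNReal.ofReal (p * c ^ 2 / 4) ≤ bits (fun _ : G.edgeSet => p) {ω | Suc G Y A A' ω} := by
  obtain ⟨a, ha, y, hay, a', ha', hya'⟩ := hpath
  set P := bits (fun _ : G.edgeSet => p) with hP
  have hp0 : 0 ≤ (p : ℝ) := p.2.1
  have hp1 : (p : ℝ) ≤ 1 := p.2.2
  have hc1 : c ≤ 1 := by
    have h1 := (hU a).trans prob_le_one
    rwa [← ENNReal.ofReal_one, ENNReal.ofReal_le_ofReal_iff zero_le_one] at h1
  have hhalf : p * c ^ 2 / 4 ≤ c / 2 := by nlinarith [mul_nonneg hp0 hc0, sq_nonneg c]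
  by_cases hcpos : c = 0
  · simp [hcpos]
  have hc : 0 < c := lt_of_le_of_ne hc0 (Ne.symm hcpos)
  -- one of the two links
  have hsum : ∀ v ∈ Y, P (lnk G Y A' v) < ENNReal.ofReal (c / 2) →
      ENNReal.ofReal (c / 2) ≤ P (lnk G Y (A : Set V) v) := by
    intro v hv hlt
    have h1 := exit_prob hU Y hv
    have h2 : {ω : G.edgeSet → Bool | ∃ u ∈ Y, yc G Y ω v u ∧ ∃ w, w ∉ Y ∧ G.Adj u w} ⊆
        lnk G Y A' v ∪ lnk G Y (A : Set V) v := by
      rintro ω ⟨u, hu, h3, w, hw, h4⟩
      rcases hcov u hu w hw h4 with h5 | h5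
      · exact Or.inr ⟨u, hu, h3, w, h5, h4⟩
      · exact Or.inl ⟨u, hu, h3, w, h5, h4⟩
    have h3 := h1.trans ((measure_mono h2).trans (measure_union_le _ _))
    by_contra hcon
    push Not at hcon
    have h4 := ENNReal.add_lt_add hlt hcon
    rw [← ENNReal.ofReal_add (by linarith) (by linarith), add_halves] at h4
    exact absurd h3 (not_le.2 h4)
  -- induction along the path
  have key : ∀ z, ReflTransGen (fun x y => G.Adj x y ∧ y ∈ Y) a z →
      ENNReal.ofReal (p * c ^ 2 / 4) ≤ P {ω | Suc G Y A A' ω} ∨ z = a ∨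
      (z ∈ Y ∧ ENNReal.ofReal (c / 2) ≤ P (lnk G Y (A : Set V) z) ∧
        P (lnk G Y A' z) < ENNReal.ofReal (c / 2)) := by
    intro z hz
    induction hz with
    | refl => exact Or.inr (Or.inl rfl)
    | @tail b z _ hbz ih =>
      obtain ⟨hbz, hzY⟩ := hbz
      rcases ih with h | rfl | ⟨hbY, h1, h2⟩
      · exact Or.inl h
      · by_cases h3 : P (lnk G Y A' z) < ENNReal.ofReal (c / 2)
        · exact Or.inr (Or.inr ⟨hzY, hsum z hzY h3, h3⟩)
        · left
          push Not at h3
          refine (ENNReal.ofReal_le_ofReal hhalf).trans (h3.trans (measure_mono ?_))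
          rintro ω ⟨u, hu, h4, x, hx, h5⟩
          refine Or.inr ⟨u, ?_, x, hx, h5⟩
          rw [expK, Finset.mem_filter]
          exact ⟨hu, z, hzY, ⟨b, ha, hbz⟩, h4⟩
      · by_cases h3 : P (lnk G Y A' z) < ENNReal.ofReal (c / 2)
        · exact Or.inr (Or.inr ⟨hzY, hsum z hzY h3, h3⟩)
        · left
          push Not at h3
          let e : G.edgeSet := ⟨s(b, z), hbz⟩
          have heT : e ∈ tch G Y := mem_tch.2 ⟨b, hbY, by simp [e]⟩
          have h4 : P {ω | ω e = true} = ENNReal.ofReal p := by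
            have := bits_path p {e}
            simpa using this
          have h5 := harris (fun _ : G.edgeSet => p) (tch G Y) (A := lnk G Y (A : Set V) b)
            (B := {ω | ω e = true}) lnk_dep (fun ω ω' h hω => by
              show ω' e = true
              rw [← h e heT]; exact hω) lnk_up (fun ω ω' h hω => by
              have := h e
              rw [show ω e = true from hω] at this
              exact top_le_iff.1 this)
          have h6 := harris (fun _ : G.edgeSet => p) (tch G Y)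
            (A := lnk G Y (A : Set V) b ∩ {ω | ω e = true}) (B := lnk G Y A' z)
            (fun ω ω' h hω => ⟨lnk_dep ω ω' h hω.1, by
              show ω' e = true
              rw [← h e heT]; exact hω.2⟩) lnk_dep
            (fun ω ω' h hω => ⟨lnk_up ω ω' h hω.1, by
              have := h e
              rw [show ω e = true from hω.2] at this
              exact top_le_iff.1 this⟩) lnk_up
          have h7 : ENNReal.ofReal (p * c ^ 2 / 4) ≤
              P (lnk G Y (A : Set V) b) * P {ω | ω e = true} * P (lnk G Y A' z) := by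
            rw [h4]
            calc ENNReal.ofReal (p * c ^ 2 / 4)
                = ENNReal.ofReal (c / 2) * ENNReal.ofReal p * ENNReal.ofReal (c / 2) := by
                  rw [← ENNReal.ofReal_mul (by linarith), ← ENNReal.ofReal_mul (by positivity)]
                  congr 1
                  ring
              _ ≤ _ := by gcongr
          refine h7.trans (((mul_le_mul' h5 le_rfl).trans h6).trans (measure_mono ?_))
          rintro ω ⟨⟨⟨u, hu, h8, x, hx, h9⟩, h10⟩, u', hu', h11, x', hx', h12⟩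
          refine Or.inr ⟨u', ?_, x', hx', h12⟩
          rw [expK, Finset.mem_filter]
          refine ⟨hu', u, hu, ⟨x, hx, h9.symm⟩, ?_⟩
          have h13 : yc G Y ω u b := yc_symm h8
          have h14 : yc G Y ω b z := ReflTransGen.single ⟨hbY, hzY, hbz, h10⟩
          exact h13.trans (h14.trans h11)
  rcases key y hay with h | rfl | ⟨hyY, _, h2⟩
  · exact h
  · have h1 : {ω : G.edgeSet → Bool | Suc G Y A A' ω} = univ :=
      eq_univ_of_forall fun ω => Or.inl ⟨y, ha, a', ha', hya'⟩
    rw [h1, measure_univ, ← ENNReal.ofReal_one]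
    exact ENNReal.ofReal_le_ofReal (by linarith)
  · have h1 : lnk G Y A' y = univ :=
      eq_univ_of_forall fun ω => ⟨y, hyY, ReflTransGen.refl, a', ha', hya'⟩
    rw [h1, measure_univ, ← ENNReal.ofReal_one, ENNReal.ofReal_lt_ofReal_iff (by linarith)] at h2
    linarith

end

end Cut7315
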