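import Pool.Agent.Lib.MP_7315a9_cut.Def2

/-!
# Void probabilities of a marked Poisson process

Row 7315-C3. Sketch:
Second half of the proof of MP7315a9.void_traj (Path.lean): for fixed numbers N the probability is
∏_{v ∈ F} (ν v (S v)ᶜ)^{N v} (infinitePi_pi), then lintegral_prod_eq_prod_lintegral_of_indepFun and poisson_pow.
-/

open MeasureTheory ProbabilityTheory Set Relation
open scoped Classical

namespace Cut7315

open MP7315a9

noncomputable section

variable {V : Type*}

/-- C3: void probabilities of a marked Poisson process. -/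
theorem void_marked {X : Type*} [MeasurableSpace X] [DiscreteMeasurableSpace X] [Countable X]
    [Countable V] (r : V → NNReal) (ν : V → Measure X) [∀ v, IsProbabilityMeasure (ν v)]
    (F : Finset V) (S : V → Set X) :
    ((Measure.infinitePi fun v => poissonMeasure (r v)).prod
      (Measure.infinitePi fun w : V × ℕ => ν w.1)) {ω | ∀ v ∈ F, ∀ i < ω.1 v, ω.2 (v, i) ∉ S v} =
      ∏ v ∈ F, ENNReal.ofReal (Real.exp (-(r v * (ν v).real (S v)))) := by
  set E : Set ((V → ℕ) × (V × ℕ → X)) := {ω | ∀ v ∈ F, ∀ i < ω.1 v, ω.2 (v, i) ∉ S v} with hE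
  have hEm : MeasurableSet E := by
    have : E = ⋂ v ∈ F, ⋂ i : ℕ, ({ω : (V → ℕ) × (V × ℕ → X) | ¬ i < ω.1 v} ∪
        {ω : (V → ℕ) × (V × ℕ → X) | ω.2 (v, i) ∉ S v}) := by
      ext ω
      simp only [hE, mem_ofPred_eq, mem_iInter, mem_union, ← imp_iff_not_or]
    rw [this]
    refine Finset.measurableSet_biInter _ fun v _ => MeasurableSet.iInter fun i => ?_
    refine MeasurableSet.union ?_ ?_
    · have h1 : Measurable fun ω : (V → ℕ) × (V × ℕ → X) => ω.1 v := by fun_prop
      exact h1 (MeasurableSet.of_discrete (s := {n | ¬ i < n}))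
    · have h1 : Measurable fun ω : (V → ℕ) × (V × ℕ → X) => ω.2 (v, i) := by fun_prop
      exact h1 (MeasurableSet.of_discrete (s := {y | y ∉ S v}))
  let q : V → NNReal := fun v => (ν v (S v)ᶜ).toNNReal
  have hq : ∀ v, (q v : ENNReal) = ν v (S v)ᶜ :=
    fun v => ENNReal.coe_toNNReal (measure_ne_top _ _)
  have h1 : ∀ N : V → ℕ, (Measure.infinitePi fun w : V × ℕ => ν w.1)
      (Prod.mk N ⁻¹' E) = ∏ v ∈ F, (q v : ENNReal) ^ N v := by
    intro N
    let K : Finset (V × ℕ) := (F.sigma fun v => Finset.range (N v)).map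
      ⟨fun x => (x.1, x.2), fun a b hab => by
        rcases a with ⟨a1, a2⟩; rcases b with ⟨b1, b2⟩
        simp only [Prod.mk.injEq] at hab
        obtain ⟨rfl, rfl⟩ := hab; rfl⟩
    let C : V × ℕ → Set X := fun w => (S w.1)ᶜ
    have hC : ∀ w, MeasurableSet (C w) := fun w => MeasurableSet.of_discrete
    have e1 : Prod.mk N ⁻¹' E = Set.pi (K : Set (V × ℕ)) C := by
      ext ξ
      simp only [hE, K, mem_preimage, mem_ofPred_eq, Set.mem_pi, Finset.mem_coe, Finset.mem_map,
        Finset.mem_sigma, Finset.mem_range, Function.Embedding.coeFn_mk]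
      constructor
      · rintro h k ⟨⟨v, i⟩, ⟨hv, hi⟩, rfl⟩
        exact h v hv i hi
      · intro h v hv i hi
        exact h (v, i) ⟨⟨v, i⟩, ⟨hv, hi⟩, rfl⟩
    rw [e1, Measure.infinitePi_pi _ fun w _ => hC w, Finset.prod_map, Finset.prod_sigma]
    refine Finset.prod_congr rfl fun v _ => ?_
    have h4 : ∀ i : ℕ, ν v (C (v, i)) = q v := by
      intro i
      rw [hq]
    simp only [Function.Embedding.coeFn_mk]
    rw [Finset.prod_congr rfl fun i _ => h4 i, Finset.prod_const, Finset.card_range]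
  have hm : MeasurableSet E := hEm
  rw [Measure.prod_apply hm]
  simp only [h1]
  have h2 : iIndepFun (fun (v : V) (N : V → ℕ) => (q v : ENNReal) ^ N v)
      (Measure.infinitePi fun v => poissonMeasure (r v)) :=
    iIndepFun_infinitePi (P := fun v => poissonMeasure (r v))
      (X := fun (v : V) (n : ℕ) => (q v : ENNReal) ^ n) fun v => Measurable.of_discrete
  rw [lintegral_prod_eq_prod_lintegral_of_indepFun F _ h2 (fun v => by fun_prop)]
  refine Finset.prod_congr rfl fun v _ => ?_
  have h3 := Measure.infinitePi_map_eval (fun v => poissonMeasure (r v)) v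
  have h4 : ∫⁻ N : V → ℕ, (q v : ENNReal) ^ N v
      ∂(Measure.infinitePi fun v => poissonMeasure (r v)) =
      ∫⁻ n, (q v : ENNReal) ^ n ∂(poissonMeasure (r v)) := by
    rw [← h3, lintegral_map (by fun_prop) (by fun_prop)]
  rw [h4, poisson_pow]
  congr 3
  have h5 : (q v : ℝ) = 1 - (ν v).real (S v) := by
    have : (q v : ℝ) = (ν v).real (S v)ᶜ := rfl
    rw [this, measureReal_compl MeasurableSet.of_discrete]
    simp
  rw [h5]
  ring

end

end Cut7315
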